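import Mathlib

/- Helper90.G2.Defs -/
section
/-!
# Project G2 (MP_16b0ee_an): the integral means spectrum near `t = 2`, definitions

`F (u) = ψ (e^u)` on the right half plane. Boxes `Bx c ℓ` (centre `c` of the side on the imaginary
axis, side `ℓ ≤ 1`), their upper parts `Wn c ℓ q` (heights between `q ℓ` and `ℓ`), the top point
`zt c ℓ`. `Vp δ Q p` is the integral of `|w - p|^(-δ)` over `Q`, and `V` is `Vp` of the image of a box
with `p` the image of its top point. `ch N c ℓ d`, `d < N`, are the centres of the `N` boxes of side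
`ℓ / N` in `Bx c ℓ`.
-/

set_option autoImplicit false

namespace Pool.Agent.Helper90.G2

open MeasureTheory Set
open scoped Real

/-- box -/
def Bx (c ℓ : ℝ) : Set ℂ := {u | 0 < u.re ∧ u.re < ℓ ∧ |u.im - c| < ℓ / 2}

/-- upper part of the box: heights between `q ℓ` and `ℓ` -/
def Wn (c ℓ q : ℝ) : Set ℂ := {u | q * ℓ < u.re ∧ u.re < ℓ ∧ |u.im - c| < ℓ / 2}

/-- top point of the box -/
def zt (c ℓ : ℝ) : ℂ := ⟨ℓ, c⟩

/-- the class of functions: `F (u) = ψ (e^u)` -/
structure Fn (F : ℂ → ℂ) (A : ℝ) : Prop where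
  diff : DifferentiableOn ℂ F {u | 0 < u.re}
  inj : ∀ c : ℝ, InjOn F {u | 0 < u.re ∧ |u.im - c| < π}
  per : ∀ u : ℂ, 0 < u.re → F (u + 2 * π * Complex.I) = F u
  area : ∀ c : ℝ, volume (F '' Bx c 1) ≤ ENNReal.ofReal A

/-- area of an image -/
noncomputable def ar (F : ℂ → ℂ) (S : Set ℂ) : ℝ := (volume (F '' S)).toReal

/-- the integral of `|w - p|^(-δ)` over `Q` -/
noncomputable def Vp (δ : ℝ) (Q : Set ℂ) (p : ℂ) : ℝ := ∫ w in Q, ‖w - p‖ ^ (-δ)

/-- the functional of a box -/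
noncomputable def V (F : ℂ → ℂ) (δ c ℓ : ℝ) : ℝ := Vp δ (F '' Bx c ℓ) (F (zt c ℓ))

/-- the centre of the child number `d` -/
noncomputable def ch (N : ℕ) (c ℓ : ℝ) (d : ℕ) : ℝ := c + (((d : ℝ) + 1 / 2) / N - 1 / 2) * ℓ

/-- child number `d` is not near the two sides -/
def Cen (κ : ℝ) (N d : ℕ) : Prop := |((d : ℝ) + 1 / 2) / N - 1 / 2| ≤ 1 / 2 - κ

open Classical in
/-- the weight of a child -/
noncomputable def chi (κ c : ℝ) (N d : ℕ) : ℝ := if Cen κ N d then 1 else Real.exp (-c)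

end Pool.Agent.Helper90.G2
end

/- Helper24.KR.H90.G2.Words -/
section
/-!
# G2-WORDS: iteration of the window inequality

`chK` is the product of the weights of the digits. Induction on `K`:
`ch N (ch (N^K) c ℓ d) (ℓ / N^K) e = ch (N^(K+1)) c ℓ (N d + e)`, and
`∑ over range (N^(K+1))` = double sum over `d < N^K`, `e < N` (`Words_sum`). Number of `e < N` which
are not `Cen`: `e + 1/2 < κ N` or `e + 1/2 > N - κ N`, at most `2 κ N + 2 ≤ 3 κ N`.
-/

set_option autoImplicit false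

namespace Pool.Agent.Helper90.G2

open Finset

/-- product of the weights of the digits -/
noncomputable def chK (κ c : ℝ) (N : ℕ) : ℕ → ℕ → ℝ
  | 0, _ => 1
  | K + 1, d => chK κ c N K (d / N) * chi κ c N (d % N)

theorem Words_chi_nonneg (κ c : ℝ) (N d : ℕ) : 0 ≤ chi κ c N d := by
  unfold chi
  split_ifs
  · exact zero_le_one
  · exact (Real.exp_pos _).le

/-- digits: a sum over `range (m * N)` is a double sum -/
theorem Words_sum (N : ℕ) (g : ℕ → ℝ) (m : ℕ) :
    ∑ d ∈ range (m * N), g d = ∑ a ∈ range m, ∑ e ∈ range N, g (N * a + e) := by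
  induction m with
  | zero => simp
  | succ m ih =>
    rw [add_mul, one_mul, sum_range_add, ih, sum_range_succ]
    congr 1
    refine sum_congr rfl fun e _ => ?_
    rw [mul_comm m N]

theorem chK_nonneg (κ c : ℝ) (N K d : ℕ) : 0 ≤ chK κ c N K d := by
  induction K generalizing d with
  | zero => exact zero_le_one
  | succ K ih => exact mul_nonneg (ih _) (Words_chi_nonneg κ c N _)

theorem Words_chK (κ c : ℝ) {N : ℕ} (hN : 0 < N) (K a e : ℕ) (he : e < N) :
    chK κ c N (K + 1) (N * a + e) = chK κ c N K a * chi κ c N e := by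
  have h1 : (N * a + e) / N = a := by
    rw [Nat.mul_add_div hN, Nat.div_eq_of_lt he, add_zero]
  have h2 : (N * a + e) % N = e := by
    rw [Nat.mul_add_mod, Nat.mod_eq_of_lt he]
  show chK κ c N K ((N * a + e) / N) * chi κ c N ((N * a + e) % N) = _
  rw [h1, h2]

theorem sum_chK (κ c : ℝ) {N : ℕ} (hN : 0 < N) (K : ℕ) :
    ∑ d ∈ range (N ^ K), chK κ c N K d = (∑ e ∈ range N, chi κ c N e) ^ K := by
  induction K with
  | zero => simp [chK]
  | succ K ih =>
    rw [pow_succ, Words_sum, pow_succ, ← ih, sum_mul]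
    refine sum_congr rfl fun a _ => ?_
    rw [mul_sum]
    exact sum_congr rfl fun e he => Words_chK κ c hN K a e (mem_range.1 he)

theorem sum_chi_ge {κ c : ℝ} (hκ : 0 < κ) (hκ1 : κ ≤ 1 / 4) (hc : 0 ≤ c) {N : ℕ}
    (hN : 2 ≤ κ * N) : (N : ℝ) * (1 - 3 * κ * c) ≤ ∑ e ∈ range N, chi κ c N e := by
  classical
  have hN0 : (0 : ℝ) < N := by
    by_contra h
    push Not at h
    nlinarith only [hκ1, hN, h]
  obtain ⟨a, ha⟩ : ∃ a : ℕ, a = ⌈κ * N⌉₊ := ⟨_, rfl⟩
  have ha1 : κ * N ≤ a := by rw [ha]; exact Nat.le_ceil _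
  have ha2 : (a : ℝ) < κ * N + 1 := by
    rw [ha]
    exact Nat.ceil_lt_add_one (by (clear * - hN; linarith only [hN]))
  have hsub : (range N).filter (fun d => ¬ Cen κ N d) ⊆ range a ∪ Ico (N - a) N := by
    intro d hd
    rw [mem_filter, mem_range] at hd
    obtain ⟨hdN, hd⟩ := hd
    unfold Cen at hd
    rw [not_le, lt_abs] at hd
    rw [mem_union, mem_range, mem_Ico]
    rcases hd with hd | hd
    · right
      refine ⟨?_, hdN⟩
      have h1 : 1 - κ < ((d : ℝ) + 1 / 2) / N := by (clear * - hd; linarith)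
      rw [lt_div_iff₀ hN0] at h1
      have h2 : (N : ℝ) < d + a + 1 := by linarith only [ha1, h1]
      have h3 : N < d + a + 1 := by exact_mod_cast h2
      omega
    · left
      have h1 : ((d : ℝ) + 1 / 2) / N < κ := by (clear * - hd; linarith)
      rw [div_lt_iff₀ hN0] at h1
      have h2 : (d : ℝ) < a := by linarith only [ha1, h1]
      exact_mod_cast h2
  have hcard : (((range N).filter (fun d => ¬ Cen κ N d)).card : ℝ) ≤ 3 * κ * N := by
    have h1 : ((range N).filter (fun d => ¬ Cen κ N d)).card ≤ a + a := by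
      refine (card_le_card hsub).trans ((card_union_le _ _).trans ?_)
      rw [card_range, Nat.card_Ico]
      omega
    have h2 : (((range N).filter (fun d => ¬ Cen κ N d)).card : ℝ) ≤ a + a := by
      exact_mod_cast h1
    linarith only [hN, ha2, h2]
  have hterm : ∀ e ∈ range N, 1 - (if ¬ Cen κ N e then c else 0) ≤ chi κ c N e := by
    intro e _
    unfold chi
    by_cases h : Cen κ N e
    · rw [if_neg (not_not.2 h), if_pos h, sub_zero]
    · rw [if_pos h, if_neg h]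
      have := Real.add_one_le_exp (-c)
      linarith only [this]
  refine le_trans ?_ (sum_le_sum hterm)
  rw [sum_sub_distrib, sum_const, card_range, nsmul_eq_mul, mul_one, ← sum_filter, sum_const,
    nsmul_eq_mul]
  have h4 : (((range N).filter (fun d => ¬ Cen κ N d)).card : ℝ) * c ≤ 3 * κ * N * c :=
    mul_le_mul_of_nonneg_right hcard hc
  linarith only [h4]

theorem Words_ch {N : ℕ} (hN : 1 ≤ N) (K a e : ℕ) (c ℓ : ℝ) :
    ch N (ch (N ^ K) c ℓ a) (ℓ / ((N ^ K : ℕ) : ℝ)) e = ch (N ^ (K + 1)) c ℓ (N * a + e) := by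
  have hN0 : (N : ℝ) ≠ 0 := by
    have : 0 < N := hN
    (clear * - hN; positivity)
  unfold ch
  push_cast
  field_simp
  ring

theorem words {f : ℝ → ℝ → ℝ} {κ c' G : ℝ} {N : ℕ} (hN : 1 ≤ N) (hG : 0 ≤ G)
    (h : ∀ c ℓ : ℝ, 0 < ℓ → ℓ ≤ 1 →
      ∑ d ∈ range N, chi κ c' N d * f (ch N c ℓ d) (ℓ / N) ≤ G * f c ℓ) (K : ℕ) :
    ∀ c ℓ : ℝ, 0 < ℓ → ℓ ≤ 1 →
      ∑ d ∈ range (N ^ K), chK κ c' N K d * f (ch (N ^ K) c ℓ d) (ℓ / ((N ^ K : ℕ) : ℝ)) ≤
        G ^ K * f c ℓ := by
  have hN1 : (1 : ℝ) ≤ N := by exact_mod_cast hN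
  induction K with
  | zero =>
    intro c ℓ _ _
    have e1 : ch (N ^ 0) c ℓ 0 = c := by
      unfold ch
      push_cast
      rw [pow_zero]
      ring
    have e2 : ℓ / ((N ^ 0 : ℕ) : ℝ) = ℓ := by
      rw [pow_zero, Nat.cast_one, div_one]
    rw [e2]
    have e3 : ∑ d ∈ range (N ^ 0), chK κ c' N 0 d * f (ch (N ^ 0) c ℓ d) ℓ =
        f (ch (N ^ 0) c ℓ 0) ℓ := by
      simp [chK]
    rw [e3, e1, pow_zero, one_mul]
  | succ K ih =>
    intro c ℓ hℓ hℓ1
    obtain ⟨r, hr⟩ : ∃ r : ℝ, r = ℓ / ((N ^ K : ℕ) : ℝ) := ⟨_, rfl⟩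
    have hNK : (1 : ℝ) ≤ ((N ^ K : ℕ) : ℝ) := by
      push_cast
      exact one_le_pow₀ hN1
    have hr0 : 0 < r := by
      rw [hr]
      (clear * - hℓ hN; positivity)
    have hr1 : r ≤ 1 := by
      rw [hr, div_le_one (by (clear * - hNK; linarith only [hNK]))]
      linarith only [hℓ1, hNK]
    have e1 : ℓ / ((N ^ (K + 1) : ℕ) : ℝ) = r / N := by
      rw [hr, div_div]
      push_cast
      rw [pow_succ]
    rw [e1]
    have e2 : ∑ d ∈ range (N ^ (K + 1)), chK κ c' N (K + 1) d * f (ch (N ^ (K + 1)) c ℓ d) (r / N) =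
        ∑ a ∈ range (N ^ K), chK κ c' N K a *
          ∑ e ∈ range N, chi κ c' N e * f (ch N (ch (N ^ K) c ℓ a) r e) (r / N) := by
      rw [pow_succ, Words_sum]
      refine sum_congr rfl fun a _ => ?_
      rw [mul_sum]
      refine sum_congr rfl fun e he => ?_
      rw [Words_chK κ c' hN K a e (mem_range.1 he), hr, Words_ch hN, ← pow_succ]
      ring
    rw [e2]
    calc ∑ a ∈ range (N ^ K), chK κ c' N K a *
          ∑ e ∈ range N, chi κ c' N e * f (ch N (ch (N ^ K) c ℓ a) r e) (r / N)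
        ≤ ∑ a ∈ range (N ^ K), chK κ c' N K a * (G * f (ch (N ^ K) c ℓ a) r) :=
          sum_le_sum fun a _ => mul_le_mul_of_nonneg_left (h _ _ hr0 hr1) (chK_nonneg _ _ _ _ _)
      _ = G * ∑ a ∈ range (N ^ K), chK κ c' N K a * f (ch (N ^ K) c ℓ a) r := by
          rw [mul_sum]
          exact sum_congr rfl fun a _ => by ring
      _ ≤ G * (G ^ K * f c ℓ) := by
          refine mul_le_mul_of_nonneg_left ?_ hG
          have := ih c ℓ hℓ hℓ1
          rwa [← hr] at this
      _ = G ^ (K + 1) * f c ℓ := by ring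

end Pool.Agent.Helper90.G2
end

/- Helper24.KR.H24.Br.Inj -/
section
/-!
Two classical facts: the derivative of an injective holomorphic function has no zero, and a
holomorphic function without zeros on the disc has a holomorphic logarithm.
-/

set_option autoImplicit false

open Set Metric Filter Topology

namespace Pool.Agent.Helper24.Br

/-- the derivative of an injective holomorphic function has no zero -/
theorem deriv_ne_of_inj {f : ℂ → ℂ} {U : Set ℂ} (hU : IsOpen U) (hf : DifferentiableOn ℂ f U)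
    (hinj : InjOn f U) {z : ℂ} (hz : z ∈ U) : deriv f z ≠ 0 := by
  intro h0
  have hUz : U ∈ 𝓝 z := hU.mem_nhds hz
  have hfa : AnalyticAt ℂ f z := hf.analyticAt hUz
  have hFa : AnalyticAt ℂ (fun w => f w - f z) z := hfa.sub analyticAt_const
  have hnc : ¬ ∀ᶠ w in 𝓝 z, f w - f z = 0 := by
    intro hev
    have h1 : ∀ᶠ w in 𝓝 z, w = z := by
      filter_upwards [hev, hUz] with w hw hwU
      exact hinj hwU hz (by linear_combination hw)
    have h2 : ∀ᶠ w in 𝓝[≠] z, w = z := h1.filter_mono nhdsWithin_le_nhds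
    have h3 : ∀ᶠ w in 𝓝[≠] z, w ≠ z := self_mem_nhdsWithin
    obtain ⟨w, hw1, hw2⟩ := (h2.and h3).exists
    exact hw2 hw1
  obtain ⟨n, g, hg, hgz, hev⟩ := hFa.exists_eventuallyEq_pow_smul_nonzero_iff.mpr hnc
  simp only [smul_eq_mul] at hev
  have hdF : HasDerivAt (fun w => f w - f z) 0 z := by
    have h := (hfa.differentiableAt.hasDerivAt).sub_const (f z)
    rwa [h0] at h
  have hn : 2 ≤ n := by
    by_contra hlt
    have hcase : n = 0 ∨ n = 1 := by omega
    rcases hcase with h | h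
    · subst h
      have := hev.self_of_nhds
      simp only [sub_self, pow_zero, one_mul] at this
      exact hgz this.symm
    · subst h
      have h2 : HasDerivAt (fun w => (w - z) ^ 1 * g w) (g z) z := by
        have h3 := ((hasDerivAt_id z).sub_const z).mul hg.differentiableAt.hasDerivAt
        simp only [id_eq, one_mul, sub_self, zero_mul, add_zero] at h3
        simp only [pow_one]
        exact h3
      have h4 := h2.congr_of_eventuallyEq hev
      have h5 := h4.unique hdF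
      exact hgz h5
  have hn0 : (n : ℂ) ≠ 0 := by
    have : n ≠ 0 := by omega
    exact_mod_cast this
  -- a local root
  obtain ⟨c, hc⟩ : ∃ c : ℂ, c ^ n = g z := by
    have : 0 < n := by omega
    obtain ⟨c, hc⟩ := IsAlgClosed.exists_pow_nat_eq (g z) this
    exact ⟨c, hc⟩
  have hc0 : c ≠ 0 := by
    intro h
    rw [h, zero_pow (by omega)] at hc
    exact hgz hc.symm
  have hq : AnalyticAt ℂ (fun w => g w / g z) z := hg.div analyticAt_const hgz
  have hq1 : g z / g z = 1 := div_self hgz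
  have hlog : AnalyticAt ℂ (fun w => Complex.log (g w / g z)) z := by
    apply AnalyticAt.clog hq
    rw [hq1]
    exact Complex.one_mem_slitPlane
  have hk : AnalyticAt ℂ (fun w => c * Complex.exp (Complex.log (g w / g z) / n)) z :=
    analyticAt_const.mul (hlog.div analyticAt_const hn0).cexp
  obtain ⟨k, hkd⟩ : ∃ k : ℂ → ℂ, k = fun w => c * Complex.exp (Complex.log (g w / g z) / n) :=
    ⟨_, rfl⟩
  rw [← hkd] at hk
  have hkz : k z = c := by
    rw [hkd]
    simp only [hq1, Complex.log_one, zero_div, Complex.exp_zero, mul_one]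
  have hgne : ∀ᶠ w in 𝓝 z, g w ≠ 0 := hg.continuousAt.eventually_ne hgz
  have hkn : ∀ᶠ w in 𝓝 z, k w ^ n = g w := by
    filter_upwards [hgne] with w hw
    rw [hkd]
    simp only
    rw [mul_pow, hc, ← Complex.exp_nat_mul, mul_div_cancel₀ _ hn0,
      Complex.exp_log (div_ne_zero hw hgz), mul_div_cancel₀ _ hgz]
  obtain ⟨u, hud⟩ : ∃ u : ℂ → ℂ, u = fun w => (w - z) * k w := ⟨_, rfl⟩
  have hua : AnalyticAt ℂ u z := by
    rw [hud]
    exact (analyticAt_id.sub analyticAt_const).mul hk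
  have hu' : HasDerivAt u c z := by
    have h3 := ((hasDerivAt_id z).sub_const z).mul hk.differentiableAt.hasDerivAt
    simp only [id_eq, one_mul, sub_self, zero_mul, add_zero] at h3
    rw [hkz] at h3
    rw [hud]
    exact h3
  have hus : HasStrictDerivAt u c z := by
    have := hua.hasStrictDerivAt
    rwa [hu'.deriv] at this
  have huz : u z = 0 := by rw [hud]; simp
  have hmap := hus.map_nhds_eq hc0
  rw [huz] at hmap
  have hgood : ∀ᶠ w in 𝓝 z, w ∈ U ∧ f w - f z = u w ^ n := by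
    filter_upwards [hUz, hev, hkn] with w h1 h2 h3
    refine ⟨h1, ?_⟩
    rw [h2, hud]
    simp only
    rw [mul_pow, h3]
  have himg : u '' {w | w ∈ U ∧ f w - f z = u w ^ n} ∈ 𝓝 (0 : ℂ) := by
    rw [← hmap]
    exact image_mem_map hgood
  rw [Metric.mem_nhds_iff] at himg
  obtain ⟨ε, hε, hball⟩ := himg
  have hω := Complex.isPrimitiveRoot_exp n (by omega)
  obtain ⟨ω, hωd⟩ : ∃ ω : ℂ, ω = Complex.exp (2 * Real.pi * Complex.I / n) := ⟨_, rfl⟩
  rw [← hωd] at hω
  have hω1 : ω ≠ 1 := hω.ne_one (by omega)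
  have hωn : ω ^ n = 1 := hω.pow_eq_one
  have hωnorm : ‖ω‖ = 1 := hω.norm'_eq_one (by omega)
  have he0 : ((ε / 2 : ℝ) : ℂ) ≠ 0 := by
    have : (ε / 2 : ℝ) ≠ 0 := by (clear * - hε; positivity)
    exact_mod_cast this
  have hen : ‖((ε / 2 : ℝ) : ℂ)‖ < ε := by
    rw [Complex.norm_real, Real.norm_of_nonneg (by (clear * - hε; positivity))]
    (clear * - hε; linarith only [hε])
  obtain ⟨w1, ⟨hw1U, hw1⟩, hw1e⟩ := hball (mem_ball_zero_iff.mpr hen)
  have hen2 : ω * ((ε / 2 : ℝ) : ℂ) ∈ ball (0 : ℂ) ε := by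
    rw [mem_ball_zero_iff, norm_mul, hωnorm, one_mul]; exact hen
  obtain ⟨w2, ⟨hw2U, hw2⟩, hw2e⟩ := hball hen2
  rw [hw1e] at hw1
  rw [hw2e, mul_pow, hωn, one_mul] at hw2
  have h12 : w1 = w2 := hinj hw1U hw2U (by linear_combination hw1 - hw2)
  rw [h12, hw2e] at hw1e
  apply hω1
  have : (ω - 1) * ((ε / 2 : ℝ) : ℂ) = 0 := by linear_combination hw1e
  rcases mul_eq_zero.mp this with h | h
  · linear_combination h
  · exact absurd h he0

/-- the holomorphic logarithm on the disc -/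
theorem exists_log_ball {q : ℂ → ℂ} (hq : DifferentiableOn ℂ q (ball 0 1))
    (hq0 : ∀ z ∈ ball (0 : ℂ) 1, q z ≠ 0) (h1 : q 0 = 1) :
    ∃ H : ℂ → ℂ, DifferentiableOn ℂ H (ball 0 1) ∧ H 0 = 0 ∧
      ∀ z ∈ ball (0 : ℂ) 1, Complex.exp (H z) = q z := by
  have hd : DifferentiableOn ℂ (fun z => deriv q z / q z) (ball 0 1) :=
    (hq.deriv isOpen_ball).div hq hq0
  obtain ⟨H, hH0, hH⟩ := hd.isExactOn_ball.with_val_at 0 0
  refine ⟨H, fun z hz => (hH z hz).differentiableAt.differentiableWithinAt, hH0, ?_⟩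
  have hconst : ∀ z ∈ ball (0 : ℂ) 1, HasDerivAt (fun z => q z * Complex.exp (-H z)) 0 z := by
    intro z hz
    have hqz := (hq.differentiableAt (isOpen_ball.mem_nhds hz)).hasDerivAt
    have hne : HasDerivAt (fun z => -H z) (-(deriv q z / q z)) z := (hH z hz).neg
    have h3 : HasDerivAt (fun z => q z * Complex.exp (-H z))
        (deriv q z * Complex.exp (-H z) + q z * (Complex.exp (-H z) * -(deriv q z / q z))) z :=
      hqz.mul hne.cexp
    have e : deriv q z * Complex.exp (-H z) + q z * (Complex.exp (-H z) * -(deriv q z / q z)) = 0 := by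
      have := hq0 z hz
      field_simp
      ring
    rw [e] at h3
    exact h3
  intro z hz
  have h4 : (fun z => q z * Complex.exp (-H z)) z = (fun z => q z * Complex.exp (-H z)) 0 := by
    apply (convex_ball (0 : ℂ) 1).is_const_of_fderivWithin_eq_zero (𝕜 := ℂ)
      (f := fun z => q z * Complex.exp (-H z)) (fun w hw => (hconst w hw).differentiableAt.differentiableWithinAt)
      ?_ hz (mem_ball_self one_pos)
    intro w hw
    rw [fderivWithin_of_isOpen isOpen_ball hw]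
    have := (hconst w hw).hasFDerivAt.fderiv
    rw [this]
    ext
    simp
  simp only [hH0, neg_zero, Complex.exp_zero, mul_one, h1] at h4
  have h5 : Complex.exp (H z) * Complex.exp (-H z) = 1 := by
    rw [← Complex.exp_add, add_neg_cancel, Complex.exp_zero]
  have h6 := Complex.exp_ne_zero (-H z)
  apply mul_right_cancel₀ h6
  rw [h5, h4]

end Pool.Agent.Helper24.Br
end

/- Helper24.KR.H90.G2.Area -/
section
/-!
# G2-AREA: images of boxes

Change of variables `MeasureTheory.lintegral_image_eq_lintegral_abs_det_fderiv_mul` (many examples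
in the tree: search for `abs_det_fderiv`), images of measurable sets under injective continuous
maps are measurable (`MeasurableSet.image_of_continuousOn_injOn`). `area_ball`: mean value
property of `F'^2` on circles, averaged with the invariance of the disk under rotations.
-/

set_option autoImplicit false

namespace Pool.Agent.Helper90.G2

open MeasureTheory Set
open scoped Real

variable {F : ℂ → ℂ} {A : ℝ}

theorem meas_bx (c ℓ : ℝ) : MeasurableSet (Bx c ℓ) := by
  have h1 : MeasurableSet {u : ℂ | 0 < u.re} := measurableSet_lt measurable_const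
    Complex.measurable_re
  have h2 : MeasurableSet {u : ℂ | u.re < ℓ} := measurableSet_lt Complex.measurable_re
    measurable_const
  have h3 : MeasurableSet {u : ℂ | |u.im - c| < ℓ / 2} := measurableSet_lt
    ((Complex.measurable_im.sub_const c).abs) measurable_const
  exact h1.inter (h2.inter h3)

theorem meas_wn (c ℓ q : ℝ) : MeasurableSet (Wn c ℓ q) := by
  have h1 : MeasurableSet {u : ℂ | q * ℓ < u.re} := measurableSet_lt measurable_const
    Complex.measurable_re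
  have h2 : MeasurableSet {u : ℂ | u.re < ℓ} := measurableSet_lt Complex.measurable_re
    measurable_const
  have h3 : MeasurableSet {u : ℂ | |u.im - c| < ℓ / 2} := measurableSet_lt
    ((Complex.measurable_im.sub_const c).abs) measurable_const
  exact h1.inter (h2.inter h3)

theorem Fn.meas (hF : Fn F A) {S : Set ℂ} (hS : MeasurableSet S) {c : ℝ}
    (h : S ⊆ {u | 0 < u.re ∧ |u.im - c| < π}) : MeasurableSet (F '' S) :=
  hS.image_of_continuousOn_injOn (hF.diff.continuousOn.mono fun _ hu => (h hu).1)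
    ((hF.inj c).mono h)

/-- the determinant of multiplication by a complex number -/
theorem area_det_smul_one (c : ℂ) : |(c • (1 : ℂ →L[ℝ] ℂ)).det| = ‖c‖ ^ 2 := by
  have h : (c • (1 : ℂ →L[ℝ] ℂ)).det = ‖c‖ ^ 2 := by
    have h1 : (((c • (1 : ℂ →L[ℝ] ℂ)) : ℂ →L[ℝ] ℂ) : ℂ →ₗ[ℝ] ℂ) =
        ((c • (LinearMap.id : ℂ →ₗ[ℂ] ℂ)).restrictScalars ℝ) := by
      ext
      all_goals simp
    rw [ContinuousLinearMap.det, h1, LinearMap.det_restrictScalars]
    simp [Algebra.norm_complex_eq, Complex.normSq_eq_norm_sq]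
  rw [h, abs_of_nonneg (by positivity)]

theorem area_isOpen_rp : IsOpen {u : ℂ | 0 < u.re} := isOpen_lt continuous_const Complex.continuous_re

theorem Fn.vol (hF : Fn F A) {S : Set ℂ} (hS : MeasurableSet S) {c : ℝ}
    (h : S ⊆ {u | 0 < u.re ∧ |u.im - c| < π}) :
    volume (F '' S) = ∫⁻ u in S, ENNReal.ofReal (‖deriv F u‖ ^ 2) := by
  have h1 : ∀ u ∈ S, HasFDerivWithinAt F (deriv F u • (1 : ℂ →L[ℝ] ℂ)) S u := by
    intro u hu
    have h2 : HasDerivAt F (deriv F u) u :=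
      (hF.diff.differentiableAt (area_isOpen_rp.mem_nhds (h hu).1)).hasDerivAt
    exact h2.complexToReal_fderiv.hasFDerivWithinAt
  rw [← lintegral_abs_det_fderiv_eq_addHaar_image volume hS h1 ((hF.inj c).mono h)]
  simp_rw [area_det_smul_one]

theorem Fn.fin (hF : Fn F A) {c ℓ : ℝ} (hℓ1 : ℓ ≤ 1) {S : Set ℂ}
    (h : S ⊆ Bx c ℓ) : volume (F '' S) < ⊤ := by
  have h1 : S ⊆ Bx c 1 := by
    intro u hu
    obtain ⟨h2, h3, h4⟩ := h hu
    exact ⟨h2, h3.trans_le hℓ1, h4.trans_le (by (clear * - hℓ1; linarith only [hℓ1]))⟩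
  exact ((measure_mono (image_mono h1)).trans (hF.area c)).trans_lt ENNReal.ofReal_lt_top

theorem Fn.ar_mono (hF : Fn F A) {c ℓ : ℝ} (hℓ1 : ℓ ≤ 1) {S T : Set ℂ}
    (hT : T ⊆ Bx c ℓ) (h : S ⊆ T) : ar F S ≤ ar F T :=
  ENNReal.toReal_mono (hF.fin hℓ1 hT).ne (measure_mono (image_mono h))

/-- a function on the plane which is dominated from below in the mean on circles around `0` -/
theorem area_circ_mean {f : ℂ → ENNReal} (hf : Measurable f) {s : Set ℂ} (hs : MeasurableSet s)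
    {a : ENNReal}
    (h : ∀ z ∈ s, a * ENNReal.ofReal (2 * π) ≤
      ∫⁻ θ in Ioc 0 (2 * π), f (Complex.exp (θ * Complex.I) * z)) :
    a * volume s ≤ ∫⁻ z, f z := by
  have hπ : 0 < 2 * π := by positivity
  have hrot : ∀ θ : ℝ, ∫⁻ z, f (Complex.exp (θ * Complex.I) * z) = ∫⁻ z, f z := by
    intro θ
    have h1 := (rotation (Circle.exp θ)).measurePreserving.lintegral_comp hf
    simpa using h1
  have h2 : ENNReal.ofReal (2 * π) * ∫⁻ z, f z =
      ∫⁻ θ in Ioc 0 (2 * π), ∫⁻ z, f (Complex.exp (θ * Complex.I) * z) := by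
    simp_rw [hrot]
    rw [lintegral_const, Measure.restrict_apply_univ, Real.volume_Ioc, sub_zero, mul_comm]
  have hm : Measurable (fun p : ℝ × ℂ => f (Complex.exp (p.1 * Complex.I) * p.2)) := by
    apply hf.comp
    fun_prop
  have h3 : (∫⁻ θ in Ioc 0 (2 * π), ∫⁻ z, f (Complex.exp (θ * Complex.I) * z)) =
      ∫⁻ z, ∫⁻ θ in Ioc 0 (2 * π), f (Complex.exp (θ * Complex.I) * z) :=
    lintegral_lintegral_swap hm.aemeasurable
  have h4 : a * ENNReal.ofReal (2 * π) * volume s ≤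
      ∫⁻ z, ∫⁻ θ in Ioc 0 (2 * π), f (Complex.exp (θ * Complex.I) * z) := by
    calc a * ENNReal.ofReal (2 * π) * volume s
        = ∫⁻ _ in s, a * ENNReal.ofReal (2 * π) := by
          rw [lintegral_const, Measure.restrict_apply_univ]
      _ ≤ ∫⁻ z in s, ∫⁻ θ in Ioc 0 (2 * π), f (Complex.exp (θ * Complex.I) * z) :=
          setLIntegral_mono' hs h
      _ ≤ _ := setLIntegral_le_lintegral _ _
  rw [← h3, ← h2] at h4
  have h5 : ENNReal.ofReal (2 * π) * (a * volume s) ≤ ENNReal.ofReal (2 * π) * ∫⁻ z, f z := by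
    calc ENNReal.ofReal (2 * π) * (a * volume s) = a * ENNReal.ofReal (2 * π) * volume s := by ring
      _ ≤ _ := h4
  exact (ENNReal.mul_le_mul_iff_right (by simpa using hπ) ENNReal.ofReal_ne_top).1 h5

/-- mean value inequality for the square of a holomorphic function on a disk around `0` -/
theorem area_mean_disk {g : ℂ → ℂ} {r : ℝ} (hg : DifferentiableOn ℂ g (Metric.ball 0 r)) :
    ENNReal.ofReal (‖g 0‖ ^ 2) * volume (Metric.ball (0:ℂ) r) ≤
      ∫⁻ z in Metric.ball 0 r, ENNReal.ofReal (‖g z‖ ^ 2) := by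
  classical
  rw [← lintegral_indicator Metric.isOpen_ball.measurableSet]
  have hm : Measurable ((Metric.ball (0:ℂ) r).indicator
      fun z => ENNReal.ofReal (‖g z‖ ^ 2)) := by
    rw [← piecewise_eq_indicator]
    apply ContinuousOn.measurable_piecewise _ continuousOn_const
      Metric.isOpen_ball.measurableSet
    exact ENNReal.continuous_ofReal.comp_continuousOn (hg.continuousOn.norm.pow 2)
  apply area_circ_mean hm Metric.isOpen_ball.measurableSet
  intro z hz
  rw [mem_ball_zero_iff] at hz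
  have hmap : MapsTo (fun w : ℂ => w * z) (closure (Metric.ball 0 1)) (Metric.ball 0 r) := by
    intro w hw
    rw [closure_ball _ one_ne_zero, mem_closedBall_zero_iff] at hw
    rw [mem_ball_zero_iff, norm_mul]
    exact (mul_le_of_le_one_left (norm_nonneg z) hw).trans_lt hz
  have hh : DiffContOnCl ℂ (fun w => g (w * z) ^ 2) (Metric.ball (0:ℂ) |1|) := by
    rw [abs_one]
    apply DifferentiableOn.diffContOnCl
    exact (hg.comp (differentiableOn_id.mul_const z) hmap).pow 2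
  have h1 := hh.circleAverage
  rw [Real.circleAverage_def, zero_mul] at h1
  have h2 : ‖g 0 ^ 2‖ₑ * ENNReal.ofReal (2 * π) =
      ‖∫ θ in (0:ℝ)..2 * π, g (circleMap 0 1 θ * z) ^ 2‖ₑ := by
    have hπ : (0:ℝ) < 2 * π := by positivity
    rw [← h1, enorm_smul, mul_comm, ← mul_assoc, ← Real.enorm_of_nonneg hπ.le, ← enorm_mul,
      mul_inv_cancel₀ hπ.ne', enorm_one, one_mul]
  have h3 : ENNReal.ofReal (‖g 0‖ ^ 2) = ‖g 0 ^ 2‖ₑ := by
    rw [← norm_pow, ofReal_norm]
  rw [h3, h2, intervalIntegral.integral_of_le (by positivity)]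
  refine (enorm_integral_le_lintegral_enorm _).trans (lintegral_mono fun θ => ?_)
  have h4 : circleMap 0 1 θ * z ∈ Metric.ball (0:ℂ) r := by
    apply hmap
    rw [closure_ball _ one_ne_zero]
    simp
  have h5 : Complex.exp (θ * Complex.I) = circleMap 0 1 θ := by simp [circleMap]
  rw [h5, indicator_of_mem h4, ← norm_pow, ofReal_norm]

theorem Fn.area_ball (hF : Fn F A) {u : ℂ} {r : ℝ} (hr : 0 < r) (hru : r ≤ u.re) (hu : u.re ≤ 3)
    (hfin : volume (F '' Metric.ball u r) < ⊤) :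
    π * r ^ 2 * ‖deriv F u‖ ^ 2 ≤ ar F (Metric.ball u r) := by
  have hπ3 := Real.pi_gt_three
  have hsub : Metric.ball u r ⊆ {w : ℂ | 0 < w.re ∧ |w.im - u.im| < π} := by
    intro w hw
    rw [Metric.mem_ball, Complex.dist_eq] at hw
    have h1 := (Complex.abs_re_le_norm (w - u)).trans_lt hw
    have h2 := (Complex.abs_im_le_norm (w - u)).trans_lt hw
    rw [Complex.sub_re] at h1
    rw [Complex.sub_im] at h2
    refine ⟨?_, h2.trans_le (by (clear * - hru hu hπ3; linarith only [hru, hu, hπ3]))⟩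
    have := (abs_lt.1 h1).1
    (clear * - hru this; linarith)
  have hball : ∀ z : ℂ, u + z ∈ Metric.ball u r ↔ z ∈ Metric.ball 0 r := by
    intro z
    rw [Metric.mem_ball, dist_eq_norm, add_sub_cancel_left, ← mem_ball_zero_iff]
  have hg : DifferentiableOn ℂ (fun z => deriv F (u + z)) (Metric.ball 0 r) := by
    apply (hF.diff.deriv area_isOpen_rp).comp (differentiableOn_id.const_add u)
    intro z hz
    exact (hsub ((hball z).2 hz)).1
  have h1 := area_mean_disk hg
  rw [add_zero] at h1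
  have h2 : (∫⁻ z in Metric.ball (0:ℂ) r, ENNReal.ofReal (‖deriv F (u + z)‖ ^ 2)) =
      volume (F '' Metric.ball u r) := by
    rw [hF.vol Metric.isOpen_ball.measurableSet hsub,
      ← lintegral_indicator Metric.isOpen_ball.measurableSet,
      ← lintegral_indicator Metric.isOpen_ball.measurableSet,
      ← lintegral_add_left_eq_self ((Metric.ball u r).indicator
        fun z => ENNReal.ofReal (‖deriv F z‖ ^ 2)) u]
    congr 1
    ext z
    by_cases hz : z ∈ Metric.ball (0:ℂ) r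
    · rw [indicator_of_mem hz, indicator_of_mem ((hball z).2 hz)]
    · rw [indicator_of_notMem hz, indicator_of_notMem (mt (hball z).1 hz)]
  rw [h2, Complex.volume_ball] at h1
  have h3 := ENNReal.toReal_mono hfin.ne h1
  rw [ENNReal.toReal_mul, ENNReal.toReal_mul, ENNReal.toReal_pow,
    ENNReal.toReal_ofReal (by (clear * -; positivity)), ENNReal.toReal_ofReal hr.le, ENNReal.coe_toReal,
    NNReal.coe_real_pi] at h3
  unfold ar
  (clear * - h3; linarith only [h3])

end Pool.Agent.Helper90.G2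
end

/- Helper24.KR.H39.G2.Shift -/
section
/-!
# Moving the centre of the weight `‖w - p‖ ^ (-d)` (Apollonius disks and layer cake)
-/

set_option linter.unusedVariables false

namespace Pool.Agent.Helper39.G2

open MeasureTheory Set Metric

/-- Layer cake bound: a set of area at most `π ρ ^ 2` has weight at most that of the disk. -/
theorem weight_le {d : ℝ} (hd0 : 0 < d) (hd2 : d < 2) (p : ℂ) (E : Set ℂ) {ρ : ℝ} (hρ : 0 < ρ)
    (hE : volume E ≤ ENNReal.ofReal (Real.pi * ρ ^ 2)) :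
    ∫⁻ w in E, ENNReal.ofReal (‖w - p‖ ^ (-d)) ≤
      ENNReal.ofReal (2 * Real.pi / (2 - d) * ρ ^ (2 - d)) := by
  have hmeas : Measurable fun w : ℂ => ‖w - p‖ ^ (-d) := by
    fun_prop
  rw [lintegral_eq_lintegral_meas_lt (volume.restrict E)
    (Filter.Eventually.of_forall fun w => Real.rpow_nonneg (norm_nonneg _) _) hmeas.aemeasurable]
  set c : ℝ := ρ ^ (-d) with hc
  have hc0 : 0 < c := Real.rpow_pos_of_pos hρ _
  have hsplit : (Ioi (0 : ℝ)) = Ioc 0 c ∪ Ioi c := (Ioc_union_Ioi_eq_Ioi hc0.le).symm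
  rw [hsplit]
  refine (lintegral_union_le _ _ _).trans ?_
  have h1 : ∫⁻ t in Ioc (0 : ℝ) c, (volume.restrict E) {a : ℂ | t < ‖a - p‖ ^ (-d)} ≤
      ENNReal.ofReal (Real.pi * ρ ^ 2 * c) := by
    calc ∫⁻ t in Ioc (0 : ℝ) c, (volume.restrict E) {a : ℂ | t < ‖a - p‖ ^ (-d)}
        ≤ ∫⁻ t in Ioc (0 : ℝ) c, ENNReal.ofReal (Real.pi * ρ ^ 2) := by
          refine lintegral_mono fun t => ?_
          refine (measure_mono (subset_univ _)).trans ?_
          rw [Measure.restrict_apply_univ]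
          exact hE
      _ = ENNReal.ofReal (Real.pi * ρ ^ 2 * c) := by
          rw [lintegral_const, Measure.restrict_apply_univ, Real.volume_Ioc,
            ← ENNReal.ofReal_mul (by (clear * - hρ; positivity)), sub_zero]
  have h2 : ∫⁻ t in Ioi c, (volume.restrict E) {a : ℂ | t < ‖a - p‖ ^ (-d)} ≤
      ENNReal.ofReal (Real.pi * (d / (2 - d)) * ρ ^ (2 - d)) := by
    calc ∫⁻ t in Ioi c, (volume.restrict E) {a : ℂ | t < ‖a - p‖ ^ (-d)}
        ≤ ∫⁻ t in Ioi c, ENNReal.ofReal (Real.pi * t ^ (-(2 / d))) := by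
          refine setLIntegral_mono (by fun_prop) fun t ht => ?_
          have ht0 : 0 < t := lt_trans hc0 ht
          refine (Measure.restrict_apply_le _ _).trans ?_
          have hsub : {a : ℂ | t < ‖a - p‖ ^ (-d)} ⊆ ball p (t ^ (-(1 / d))) := by
            intro a ha
            simp only [mem_ofPred_eq] at ha
            rw [mem_ball, dist_eq_norm]
            by_contra hcon
            push Not at hcon
            have hr0 : 0 < t ^ (-(1 / d)) := Real.rpow_pos_of_pos ht0 _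
            have h3 : ‖a - p‖ ^ (-d) ≤ (t ^ (-(1 / d))) ^ (-d) :=
              Real.rpow_le_rpow_of_nonpos hr0 hcon (by linarith only [hd0])
            rw [← Real.rpow_mul ht0.le, neg_mul_neg, one_div_mul_cancel hd0.ne', Real.rpow_one] at h3
            linarith only [ha, h3]
          refine (measure_mono hsub).trans ?_
          rw [Complex.volume_ball]
          have h4 : (t ^ (-(1 / d))) ^ 2 = t ^ (-(2 / d)) := by
            rw [← Real.rpow_natCast, ← Real.rpow_mul ht0.le]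
            congr 1
            push_cast
            ring
          rw [← ENNReal.ofReal_pow (Real.rpow_nonneg ht0.le _), h4, mul_comm Real.pi,
            ENNReal.ofReal_mul (Real.rpow_nonneg ht0.le _)]
          gcongr
          rw [← NNReal.coe_real_pi, ENNReal.ofReal_coe_nnreal]
      _ = ENNReal.ofReal (∫ t in Ioi c, Real.pi * t ^ (-(2 / d))) := by
          rw [ofReal_integral_eq_lintegral_ofReal]
          · refine (integrableOn_Ioi_rpow_of_lt ?_ hc0).const_mul _
            rw [neg_lt_neg_iff, lt_div_iff₀ hd0]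
            linarith only [hd2]
          · filter_upwards [ae_restrict_mem measurableSet_Ioi] with t ht
            have : 0 < t := lt_trans hc0 ht
            (clear * - this; positivity)
      _ = ENNReal.ofReal (Real.pi * (d / (2 - d)) * ρ ^ (2 - d)) := by
          rw [integral_const_mul, integral_Ioi_rpow_of_lt (by
            rw [neg_lt_neg_iff, lt_div_iff₀ hd0]
            (clear * - hd2; linarith only [hd2])) hc0]
          congr 1
          have h5 : c ^ (-(2 / d) + 1) = ρ ^ (2 - d) := by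
            rw [hc, ← Real.rpow_mul hρ.le]
            congr 1
            field_simp
            ring
          rw [h5]
          have h6 : (2 - d) ≠ 0 := by linarith only [hd2]
          have h7 : -(2 / d) + 1 ≠ 0 := by
            intro h8
            have : (2 / d) = 1 := by linarith only [h8]
            rw [div_eq_one_iff_eq hd0.ne'] at this
            linarith only [hd2, this]
          have h9 : -(2 / d) + 1 = -((2 - d) / d) := by
            field_simp
            ring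
          rw [h9]
          field_simp
  refine (add_le_add h1 h2).trans ?_
  rw [← ENNReal.ofReal_add (by (clear * - hρ; positivity)) (by
    have : 0 < 2 - d := by (clear * - hd2; linarith only [hd2])
    (clear * - hd0 hd2 hρ; positivity))]
  refine le_of_eq ?_
  congr 1
  have h10 : ρ ^ 2 * c = ρ ^ (2 - d) := by
    rw [hc, sub_eq_add_neg, Real.rpow_add hρ, ← Real.rpow_natCast]
    norm_num
  have h6 : (2 - d) ≠ 0 := by linarith only [hd2]
  rw [mul_assoc, h10]
  field_simp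
  ring

/-- The Apollonius disk. -/
theorem apollonius {p q : ℂ} {k : ℝ} (hk : 1 < k) :
    {w : ℂ | k * ‖w - q‖ < ‖w - p‖} ⊆
      ball (q + ((1 / (k ^ 2 - 1) : ℝ) : ℂ) * (q - p)) (‖p - q‖ * (k / (k ^ 2 - 1))) := by
  intro w hw
  simp only [mem_ofPred_eq] at hw
  rw [mem_ball, dist_eq_norm]
  have hk2 : 0 < k ^ 2 - 1 := by (clear * - hk; nlinarith only [hk])
  have h1 : (k * ‖w - q‖) ^ 2 < ‖w - p‖ ^ 2 := by
    have : 0 ≤ k * ‖w - q‖ := by (clear * - hk; positivity)
    exact pow_lt_pow_left₀ hw this two_ne_zero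
  refine lt_of_pow_lt_pow_left₀ 2 (by (clear * - hk hk2; positivity)) ?_
  rw [mul_pow] at h1
  rw [mul_pow]
  rw [Complex.sq_norm, Complex.sq_norm, Complex.normSq_apply, Complex.normSq_apply] at h1
  rw [Complex.sq_norm, Complex.sq_norm, Complex.normSq_apply, Complex.normSq_apply]
  simp only [Complex.sub_re, Complex.sub_im, Complex.add_re, Complex.add_im,
    Complex.re_ofReal_mul, Complex.im_ofReal_mul] at h1 ⊢
  obtain ⟨x, y⟩ := w
  obtain ⟨a, b⟩ := p
  obtain ⟨e, f⟩ := q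
  simp only at h1 ⊢
  have hne : (k ^ 2 - 1) ≠ 0 := hk2.ne'
  rw [div_pow]
  rw [show (x - (e + 1 / (k ^ 2 - 1) * (e - a))) * (x - (e + 1 / (k ^ 2 - 1) * (e - a))) +
      (y - (f + 1 / (k ^ 2 - 1) * (f - b))) * (y - (f + 1 / (k ^ 2 - 1) * (f - b))) =
      (((x - e) * (k ^ 2 - 1) - (e - a)) ^ 2 + ((y - f) * (k ^ 2 - 1) - (f - b)) ^ 2) /
        (k ^ 2 - 1) ^ 2 by
    field_simp
    ring,
    ← mul_div_assoc]
  refine div_lt_div_of_pos_right ?_ (by (clear * - hk2; positivity))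
  linarith only [mul_lt_mul_of_pos_left h1 hk2]

/-- `sinh`-type estimate: `e ^ x / (e ^ (2 x) - 1) <= 1 / (2 x)`. -/
theorem k_bound {x : ℝ} (hx : 0 < x) :
    Real.exp x / (Real.exp x ^ 2 - 1) ≤ 1 / (2 * x) := by
  have h1 : x < Real.sinh x := by
    rw [Real.self_lt_sinh_iff]
    exact hx
  have h2 : Real.exp x ^ 2 - 1 = Real.exp x * (2 * Real.sinh x) := by
    rw [Real.sinh_eq, Real.exp_neg]
    field_simp
  rw [h2, div_mul_eq_div_div, div_self (Real.exp_pos x).ne']
  exact one_div_le_one_div_of_le (by (clear * - hx; positivity)) (by (clear * - h1; linarith))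

/-- The area of the Apollonius disk. -/
theorem volume_apollonius {p q : ℂ} {s x : ℝ} (hs : ‖p - q‖ ≤ s) (hx : 0 < x) :
    volume {w : ℂ | Real.exp x * ‖w - q‖ < ‖w - p‖} ≤
      ENNReal.ofReal (Real.pi * (s / 2 / x) ^ 2) := by
  have hs0 : 0 ≤ s := (norm_nonneg _).trans hs
  have hk : 1 < Real.exp x := by
    rw [Real.one_lt_exp_iff]
    exact hx
  have hk2 : 0 < Real.exp x ^ 2 - 1 := by (clear * - hk; nlinarith only [hk])
  refine (measure_mono (apollonius hk)).trans ?_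
  rw [Complex.volume_ball, mul_comm Real.pi,
    ENNReal.ofReal_mul (p := (s / 2 / x) ^ 2) (by (clear * -; positivity)),
    ← ENNReal.ofReal_pow (by (clear * - hk2; positivity))]
  have h1 : ‖p - q‖ * (Real.exp x / (Real.exp x ^ 2 - 1)) ≤ s / 2 / x := by
    calc ‖p - q‖ * (Real.exp x / (Real.exp x ^ 2 - 1)) ≤ s * (1 / (2 * x)) :=
          mul_le_mul hs (k_bound hx) (by (clear * - hk2; positivity)) hs0
      _ = s / 2 / x := by
          field_simp
  have h2 : ((NNReal.pi : NNReal) : ENNReal) = ENNReal.ofReal Real.pi := by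
    rw [← NNReal.coe_real_pi, ENNReal.ofReal_coe_nnreal]
  rw [h2]
  gcongr

/-- pointwise bound -/
theorem pointwise {d m u v : ℝ} (hd0 : 0 < d) (hu : 0 < u) (hv : 0 < v) :
    v ^ (-d) ≤ Real.exp (d * m) * u ^ (-d) +
      d * (v ^ (-d) * max (Real.log (u / v) - m) 0) := by
  have h1 : u ^ (-d) = v ^ (-d) * Real.exp (-(d * Real.log (u / v))) := by
    rw [Real.log_div hu.ne' hv.ne', Real.rpow_def_of_pos hu, Real.rpow_def_of_pos hv,
      ← Real.exp_add]
    congr 1
    ring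
  have h2 : 0 < v ^ (-d) := Real.rpow_pos_of_pos hv _
  set L := Real.log (u / v) with hL
  rw [h1]
  have h3 : 1 ≤ Real.exp (d * m) * Real.exp (-(d * L)) + d * max (L - m) 0 := by
    rw [← Real.exp_add]
    have h4 := Real.add_one_le_exp (d * m + -(d * L))
    have h5 : d * (L - m) ≤ d * max (L - m) 0 := by
      gcongr
      exact le_max_left _ _
    linarith only [h4, h5]
  calc v ^ (-d) = v ^ (-d) * 1 := (mul_one _).symm
    _ ≤ v ^ (-d) * (Real.exp (d * m) * Real.exp (-(d * L)) + d * max (L - m) 0) := by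
        gcongr
    _ = _ := by ring

/-- The weighted excess of the logarithm. -/
theorem excess_le {d m s : ℝ} (hd0 : 0 < d) (hd1 : d < 1) (hm : 0 < m) {p q : ℂ}
    (hs : ‖p - q‖ ≤ s) (hs0 : 0 < s) (Q : Set ℂ) :
    ∫⁻ w in Q, ENNReal.ofReal (‖w - q‖ ^ (-d) *
        max (Real.log (‖w - p‖ / ‖w - q‖) - m) 0) ≤
      ENNReal.ofReal (2 * Real.pi / (2 - d) * (s / 2) ^ (2 - d) *
        (m ^ (-(1 - d)) / (1 - d))) := by
  have hw : Measurable fun w : ℂ => ENNReal.ofReal (‖w - q‖ ^ (-d)) := by fun_prop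
  have hL : Measurable fun w : ℂ => max (Real.log (‖w - p‖ / ‖w - q‖) - m) 0 := by fun_prop
  have h1 : ∫⁻ w in Q, ENNReal.ofReal (‖w - q‖ ^ (-d) *
        max (Real.log (‖w - p‖ / ‖w - q‖) - m) 0) =
      ∫⁻ w, ENNReal.ofReal (max (Real.log (‖w - p‖ / ‖w - q‖) - m) 0)
        ∂((volume.restrict Q).withDensity fun w => ENNReal.ofReal (‖w - q‖ ^ (-d))) := by
    rw [lintegral_withDensity_eq_lintegral_mul _ hw hL.ennreal_ofReal]
    refine lintegral_congr fun w => ?_
    rw [Pi.mul_apply, ENNReal.ofReal_mul (Real.rpow_nonneg (norm_nonneg _) _)]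
  rw [h1, lintegral_eq_lintegral_meas_lt _
    (f := fun w : ℂ => max (Real.log (‖w - p‖ / ‖w - q‖) - m) 0)
    (Filter.Eventually.of_forall fun w => le_max_right _ _) hL.aemeasurable]
  have h2 : ∀ t ∈ Ioi (0 : ℝ),
      ((volume.restrict Q).withDensity fun w => ENNReal.ofReal (‖w - q‖ ^ (-d)))
        {a : ℂ | t < max (Real.log (‖a - p‖ / ‖a - q‖) - m) 0} ≤
      ENNReal.ofReal (2 * Real.pi / (2 - d) * (s / 2 / (m + t)) ^ (2 - d)) := by
    intro t ht
    have ht0 : 0 < t := ht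
    have hms : MeasurableSet {a : ℂ | t < max (Real.log (‖a - p‖ / ‖a - q‖) - m) 0} :=
      measurableSet_lt measurable_const hL
    rw [withDensity_apply _ hms]
    have h3 : ∫⁻ a in {a : ℂ | t < max (Real.log (‖a - p‖ / ‖a - q‖) - m) 0},
        ENNReal.ofReal (‖a - q‖ ^ (-d)) ∂(volume.restrict Q) ≤
        ∫⁻ a in {a : ℂ | t < max (Real.log (‖a - p‖ / ‖a - q‖) - m) 0},
        ENNReal.ofReal (‖a - q‖ ^ (-d)) := by
      refine lintegral_mono' ?_ le_rfl
      exact Measure.restrict_mono le_rfl Measure.restrict_le_self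
    refine h3.trans ?_
    refine weight_le hd0 (by (clear * - hd1; linarith only [hd1])) q _ (by (clear * - hs0 hm ht0; positivity)) ?_
    refine (measure_mono ?_).trans (volume_apollonius hs (by (clear * - hm ht0; positivity) : 0 < m + t))
    intro a ha
    simp only [mem_ofPred_eq] at ha ⊢
    have h4 : t < Real.log (‖a - p‖ / ‖a - q‖) - m := by
      rcases lt_max_iff.mp ha with h | h
      · exact h
      · (clear * - ht0 h; linarith only [ht0, h])
    have h5 : 0 < Real.log (‖a - p‖ / ‖a - q‖) := by linarith only [hm, ht0, h4]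
    have h6 : 0 < ‖a - p‖ / ‖a - q‖ := by
      by_contra hcon
      have h7 : 0 ≤ ‖a - p‖ / ‖a - q‖ := by (clear * -; positivity)
      have h8 : ‖a - p‖ / ‖a - q‖ = 0 := le_antisymm (not_lt.mp hcon) h7
      rw [h8, Real.log_zero] at h5
      exact lt_irrefl _ h5
    have h9 : 0 < ‖a - q‖ := by
      by_contra hcon
      have h10 : ‖a - q‖ = 0 := le_antisymm (not_lt.mp hcon) (norm_nonneg _)
      rw [h10, div_zero] at h6
      exact lt_irrefl _ h6
    have h11 : Real.exp (m + t) < ‖a - p‖ / ‖a - q‖ := by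
      rw [← Real.lt_log_iff_exp_lt h6]
      (clear * - h4; linarith only [h4])
    rwa [lt_div_iff₀ h9] at h11
  refine (setLIntegral_mono' measurableSet_Ioi h2).trans ?_
  have h3 : ∀ t ∈ Ioi (0 : ℝ), 2 * Real.pi / (2 - d) * (s / 2 / (m + t)) ^ (2 - d) =
      2 * Real.pi / (2 - d) * (s / 2) ^ (2 - d) * (t + m) ^ (-(2 - d)) := by
    intro t ht
    have ht0 : 0 < t := ht
    rw [Real.div_rpow (by positivity) (by positivity), Real.rpow_neg (by (clear * - ht0 hm; positivity)),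
      add_comm m t]
    ring
  have h2d : 0 < 2 - d := by linarith only [hd1]
  refine le_of_eq ?_
  calc ∫⁻ t in Ioi (0 : ℝ), ENNReal.ofReal (2 * Real.pi / (2 - d) * (s / 2 / (m + t)) ^ (2 - d))
      = ∫⁻ t in Ioi (0 : ℝ), ENNReal.ofReal
          (2 * Real.pi / (2 - d) * (s / 2) ^ (2 - d) * (t + m) ^ (-(2 - d))) :=
        setLIntegral_congr_fun measurableSet_Ioi fun t ht => by rw [h3 t ht]
    _ = ENNReal.ofReal (∫ t in Ioi (0 : ℝ),
          2 * Real.pi / (2 - d) * (s / 2) ^ (2 - d) * (t + m) ^ (-(2 - d))) := by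
        rw [ofReal_integral_eq_lintegral_ofReal]
        · refine Integrable.const_mul ?_ _
          exact integrableOn_add_rpow_Ioi_of_lt (by linarith only [hd1]) (by linarith)
        · filter_upwards [ae_restrict_mem measurableSet_Ioi] with t ht
          have ht0 : 0 < t := ht
          (clear * - h2d hs0 ht0 hm; positivity)
    _ = _ := by
        rw [integral_const_mul]
        congr 2
        have h4 : ∫ t in Ioi (0 : ℝ), (t + m) ^ (-(2 - d)) =
            ∫ t in Ioi m, t ^ (-(2 - d)) := by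
          rw [← integral_indicator measurableSet_Ioi, ← integral_indicator measurableSet_Ioi,
            ← integral_add_right_eq_self ((Ioi m).indicator fun t : ℝ => t ^ (-(2 - d))) m]
          refine integral_congr_ae (Filter.Eventually.of_forall fun t => ?_)
          by_cases ht : 0 < t
          · have ht' : m < t + m := by linarith only [ht]
            simp only [indicator, mem_Ioi, ht, ht', if_true]
          · have ht' : ¬ m < t + m := by linarith only [ht]
            simp only [indicator, mem_Ioi, ht, ht', if_false]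
        rw [h4, integral_Ioi_rpow_of_lt (by linarith only [hd1]) hm]
        have h5 : -(2 - d) + 1 = -(1 - d) := by ring
        rw [h5]
        have h6 : (1 - d) ≠ 0 := by linarith only [hd1]
        field_simp

/-- Moving the centre of the weight, `lintegral` form. -/
theorem shift_lintegral {d m s : ℝ} (hd0 : 0 < d) (hd1 : d < 1) (hm : 0 < m) {p q : ℂ}
    (hs : ‖p - q‖ ≤ s) (hs0 : 0 < s) (Q : Set ℂ) :
    ∫⁻ w in Q, ENNReal.ofReal (‖w - q‖ ^ (-d)) ≤
      ENNReal.ofReal (Real.exp (d * m)) * (∫⁻ w in Q, ENNReal.ofReal (‖w - p‖ ^ (-d))) +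
      ENNReal.ofReal (d * (2 * Real.pi / (2 - d) * (s / 2) ^ (2 - d) *
        (m ^ (-(1 - d)) / (1 - d)))) := by
  have h1 : ∀ᵐ w ∂(volume.restrict Q), ENNReal.ofReal (‖w - q‖ ^ (-d)) ≤
      ENNReal.ofReal (Real.exp (d * m)) * ENNReal.ofReal (‖w - p‖ ^ (-d)) +
      ENNReal.ofReal d * ENNReal.ofReal (‖w - q‖ ^ (-d) *
        max (Real.log (‖w - p‖ / ‖w - q‖) - m) 0) := by
    have hp : ∀ᵐ w ∂(volume.restrict Q), w ≠ p :=
      ae_restrict_of_ae (by simp [ae_iff])
    have hq : ∀ᵐ w ∂(volume.restrict Q), w ≠ q :=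
      ae_restrict_of_ae (by simp [ae_iff])
    filter_upwards [hp, hq] with w hwp hwq
    have h2 : 0 < ‖w - p‖ := norm_pos_iff.mpr (sub_ne_zero.mpr hwp)
    have h3 : 0 < ‖w - q‖ := norm_pos_iff.mpr (sub_ne_zero.mpr hwq)
    rw [← ENNReal.ofReal_mul (Real.exp_pos _).le, ← ENNReal.ofReal_mul hd0.le,
      ← ENNReal.ofReal_add (by positivity) (by (clear * - hd0 h3; positivity))]
    exact ENNReal.ofReal_le_ofReal (pointwise hd0 h2 h3)
  refine (lintegral_mono_ae h1).trans ?_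
  have hm1 : Measurable fun w : ℂ => ENNReal.ofReal (Real.exp (d * m)) *
      ENNReal.ofReal (‖w - p‖ ^ (-d)) := by fun_prop
  have hm2 : Measurable fun w : ℂ => ENNReal.ofReal (‖w - p‖ ^ (-d)) := by fun_prop
  have hm3 : Measurable fun w : ℂ => ENNReal.ofReal (‖w - q‖ ^ (-d) *
        max (Real.log (‖w - p‖ / ‖w - q‖) - m) 0) := by fun_prop
  rw [lintegral_add_left hm1, lintegral_const_mul _ hm2, lintegral_const_mul _ hm3,
    ENNReal.ofReal_mul hd0.le]
  exact add_le_add le_rfl (mul_le_mul_right (excess_le hd0 hd1 hm hs hs0 Q) _)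

/-- finiteness of the weighted area of a set of finite area -/
theorem lintegral_ne_top {d : ℝ} (hd0 : 0 < d) (hd2 : d < 2) (p : ℂ) {Q : Set ℂ}
    (hQ : volume Q ≠ ⊤) :
    ∫⁻ w in Q, ENNReal.ofReal (‖w - p‖ ^ (-d)) ≠ ⊤ := by
  have hpi : 0 < Real.pi := Real.pi_pos
  set A := (volume Q).toReal with hA
  have hA0 : 0 ≤ A := ENNReal.toReal_nonneg
  set ρ := Real.sqrt ((A + 1) / Real.pi) with hρ
  have hρ0 : 0 < ρ := Real.sqrt_pos.mpr (by (clear * -; positivity))
  have h1 : Real.pi * ρ ^ 2 = A + 1 := by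
    rw [hρ, Real.sq_sqrt (by (clear * -; positivity))]
    field_simp
  refine ne_top_of_le_ne_top ENNReal.ofReal_ne_top (weight_le hd0 hd2 p Q hρ0 ?_)
  rw [h1, ← ENNReal.ofReal_toReal hQ]
  exact ENNReal.ofReal_le_ofReal (by linarith only [])

/-- integrability of the weight -/
theorem integrableOn_weight {d : ℝ} (hd0 : 0 < d) (hd2 : d < 2) (p : ℂ) {Q : Set ℂ}
    (hQ : volume Q ≠ ⊤) : IntegrableOn (fun w => ‖w - p‖ ^ (-d)) Q := by
  have hm : Measurable fun w : ℂ => ‖w - p‖ ^ (-d) := by fun_prop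
  refine ⟨hm.aestronglyMeasurable, ?_⟩
  rw [hasFiniteIntegral_iff_ofReal
    (Filter.Eventually.of_forall fun w => Real.rpow_nonneg (norm_nonneg _) _)]
  exact lt_top_iff_ne_top.mpr (lintegral_ne_top hd0 hd2 p hQ)

theorem ofReal_integral_weight {d : ℝ} (hd0 : 0 < d) (hd2 : d < 2) (p : ℂ) {Q : Set ℂ}
    (hQ : volume Q ≠ ⊤) :
    ENNReal.ofReal (∫ w in Q, ‖w - p‖ ^ (-d)) = ∫⁻ w in Q, ENNReal.ofReal (‖w - p‖ ^ (-d)) :=
  ofReal_integral_eq_lintegral_ofReal (integrableOn_weight hd0 hd2 p hQ)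
    (Filter.Eventually.of_forall fun w => Real.rpow_nonneg (norm_nonneg _) _)

/-- Moving the centre of the weight. -/
theorem shift {d m s : ℝ} (hd0 : 0 < d) (hd1 : d < 1) (hm : 0 < m) {p q : ℂ}
    (hs : ‖p - q‖ ≤ s) {Q : Set ℂ} (hQ : volume Q ≠ ⊤) :
    ∫ w in Q, ‖w - q‖ ^ (-d) ≤ Real.exp (d * m) * (∫ w in Q, ‖w - p‖ ^ (-d)) +
      d * (2 / (2 - d)) * (1 / (1 - d)) * (Real.pi * (s / 2) ^ (2 - d) * m ^ (-(1 - d))) := by
  have hs0 : 0 ≤ s := (norm_nonneg _).trans hs
  have h2d : 0 < 2 - d := by (clear * - hd0 hd1; linarith)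
  have h1d : 0 < 1 - d := by (clear * - hd1; linarith only [hd1])
  rcases hs0.eq_or_lt with h0 | hs0
  · have hpq : p = q := by
      rw [← h0] at hs
      exact sub_eq_zero.mp (norm_le_zero_iff.mp hs)
    subst hpq
    rw [← h0, zero_div, Real.zero_rpow h2d.ne']
    have h1 : 1 ≤ Real.exp (d * m) := Real.one_le_exp (by positivity)
    have h2 : 0 ≤ ∫ w in Q, ‖w - p‖ ^ (-d) :=
      integral_nonneg fun w => Real.rpow_nonneg (norm_nonneg _) _
    (clear * - h1 h2; nlinarith only [h1, h2])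
  · have h1 := shift_lintegral hd0 hd1 hm hs hs0 Q
    rw [← ofReal_integral_weight hd0 (by linarith only [h1d]) q hQ,
      ← ofReal_integral_weight hd0 (by linarith only [h1d]) p hQ,
      ← ENNReal.ofReal_mul (Real.exp_pos _).le, ← ENNReal.ofReal_add (mul_nonneg (Real.exp_pos _).le
        (integral_nonneg fun w => Real.rpow_nonneg (norm_nonneg _) _)) (by (clear * - hd0 h2d hs0 hm hd1; positivity)),
      ENNReal.ofReal_le_ofReal_iff (add_nonneg (mul_nonneg (Real.exp_pos _).le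
        (integral_nonneg fun w => Real.rpow_nonneg (norm_nonneg _) _)) (by positivity))] at h1
    refine h1.trans (le_of_eq ?_)
    field_simp

end Pool.Agent.Helper39.G2
end

/- Helper24.KR.H90.G2.Pot -/
section
/-!
# G2-POT: elementary facts on `Vp`

`‖w - p‖ ^ (-δ)` is integrable on every set of finite area (at `w = p` its value is `0` in Lean; that
is a null set, argue almost everywhere). `vp_upper`: `|w - p|^(-δ) ≤ 1` outside the unit disk around
`p`, and the integral over the unit disk is `2 π / (2 - δ) ≤ 7`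
(`Complex.integral_comp_polarCoord_symm` or `integrable_fun_norm_addHaar`).
-/

set_option autoImplicit false
set_option linter.unusedVariables false

namespace Pool.Agent.Helper90.G2

open MeasureTheory Set
open scoped Real

theorem vp_int {δ : ℝ} (h0 : 0 < δ) (h1 : δ ≤ 1) {Q : Set ℂ} (hQ : MeasurableSet Q)
    (hv : volume Q < ⊤) (p : ℂ) : IntegrableOn (fun w : ℂ => ‖w - p‖ ^ (-δ)) Q :=
  Helper39.G2.integrableOn_weight h0 (by (clear * - h1; linarith only [h1])) p hv.ne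

theorem vp_nonneg (δ : ℝ) (Q : Set ℂ) (p : ℂ) : 0 ≤ Vp δ Q p :=
  integral_nonneg fun w => Real.rpow_nonneg (norm_nonneg _) _

theorem vp_mono {δ : ℝ} (h0 : 0 < δ) (h1 : δ ≤ 1) {Q Q' : Set ℂ} (hQ : MeasurableSet Q')
    (hv : volume Q' < ⊤) (h : Q ⊆ Q') (p : ℂ) : Vp δ Q p ≤ Vp δ Q' p :=
  setIntegral_mono_set (vp_int h0 h1 hQ hv p)
    (Filter.Eventually.of_forall fun w => Real.rpow_nonneg (norm_nonneg _) _) h.eventuallyLE

/-- disjoint subsets -/
theorem vp_add {δ : ℝ} (h0 : 0 < δ) (h1 : δ ≤ 1) {N : ℕ} (Q : ℕ → Set ℂ) (W Q' : Set ℂ)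
    (hQ : ∀ d < N, MeasurableSet (Q d)) (hW : MeasurableSet W) (hQ' : MeasurableSet Q')
    (hv : volume Q' < ⊤) (hs : ∀ d < N, Q d ⊆ Q') (hWs : W ⊆ Q')
    (hd : ∀ d < N, ∀ e < N, d ≠ e → Disjoint (Q d) (Q e)) (hWd : ∀ d < N, Disjoint W (Q d)) (p : ℂ) :
    Vp δ W p + ∑ d ∈ Finset.range N, Vp δ (Q d) p ≤ Vp δ Q' p := by
  have hI := vp_int h0 h1 hQ' hv p
  have hU : ⋃ d ∈ Finset.range N, Q d ⊆ Q' := by
    intro w hw
    simp only [mem_iUnion, Finset.mem_range, exists_prop] at hw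
    obtain ⟨d, hdN, hw⟩ := hw
    exact hs d hdN hw
  have hUm : MeasurableSet (⋃ d ∈ Finset.range N, Q d) :=
    Finset.measurableSet_biUnion _ fun d hdN => hQ d (Finset.mem_range.mp hdN)
  have h2 : ∫ w in ⋃ d ∈ Finset.range N, Q d, ‖w - p‖ ^ (-δ) =
      ∑ d ∈ Finset.range N, Vp δ (Q d) p := by
    refine integral_biUnion_finset (Finset.range N) (fun d hdN => hQ d (Finset.mem_range.mp hdN))
      ?_ (fun d hdN => hI.mono_set (hs d (Finset.mem_range.mp hdN)))
    intro a ha b hb hab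
    exact hd a (Finset.mem_range.mp ha) b (Finset.mem_range.mp hb) hab
  have h3 : Disjoint W (⋃ d ∈ Finset.range N, Q d) := by
    rw [disjoint_iUnion₂_right]
    exact fun d hdN => hWd d (Finset.mem_range.mp hdN)
  have h4 : ∫ w in W ∪ ⋃ d ∈ Finset.range N, Q d, ‖w - p‖ ^ (-δ) =
      Vp δ W p + ∑ d ∈ Finset.range N, Vp δ (Q d) p := by
    rw [← h2]
    exact setIntegral_union h3 hUm (hI.mono_set hWs) (hI.mono_set hU)
  rw [← h4]
  exact vp_mono h0 h1 hQ' hv (union_subset hWs hU) p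

theorem vp_lower {δ : ℝ} (h0 : 0 < δ) (h1 : δ ≤ 1) {Q : Set ℂ} (hQ : MeasurableSet Q)
    (hv : volume Q < ⊤) (p : ℂ) {r : ℝ} (hr : 0 < r) (h : ∀ w ∈ Q, ‖w - p‖ ≤ r) :
    (volume Q).toReal * r ^ (-δ) ≤ Vp δ Q p := by
  have hI := vp_int h0 h1 hQ hv p
  have h2 : ∫ w in Q, (r ^ (-δ) : ℝ) = (volume Q).toReal * r ^ (-δ) := by
    rw [setIntegral_const]
    rfl
  rw [← h2]
  refine integral_mono_ae ?_ hI ?_
  · exact integrableOn_const hv.ne
  · have hp : ∀ᵐ w ∂(volume.restrict Q), w ≠ p :=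
      ae_restrict_of_ae (by simp [ae_iff])
    filter_upwards [hp, ae_restrict_mem hQ] with w hwp hw
    have h3 : 0 < ‖w - p‖ := norm_pos_iff.mpr (sub_ne_zero.mpr hwp)
    exact Real.rpow_le_rpow_of_nonpos h3 (h w hw) (by linarith)

theorem vp_upper {δ : ℝ} (h0 : 0 < δ) (h1 : δ ≤ 1) {Q : Set ℂ} (hQ : MeasurableSet Q)
    (hv : volume Q < ⊤) (p : ℂ) : Vp δ Q p ≤ (volume Q).toReal + 7 := by
  have hI := vp_int h0 h1 hQ hv p
  have hB : MeasurableSet (Metric.ball p 1) := Metric.isOpen_ball.measurableSet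
  have h2 : Vp δ Q p = (∫ w in Q ∩ Metric.ball p 1, ‖w - p‖ ^ (-δ)) +
      ∫ w in Q \ Metric.ball p 1, ‖w - p‖ ^ (-δ) :=
    (integral_inter_add_diff hB hI).symm
  have hvb : volume (Q ∩ Metric.ball p 1) ≠ ⊤ := ((measure_mono inter_subset_left).trans_lt hv).ne
  have h3 : (∫ w in Q ∩ Metric.ball p 1, ‖w - p‖ ^ (-δ)) ≤ 7 := by
    have h4 := Helper39.G2.weight_le h0 (by linarith only [h1] : δ < 2) p (Q ∩ Metric.ball p 1) one_pos (by
      refine (measure_mono inter_subset_right).trans ?_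
      rw [Complex.volume_ball]
      simp only [one_pow, mul_one, ENNReal.ofReal_one, one_mul]
      rw [← NNReal.coe_real_pi, ENNReal.ofReal_coe_nnreal])
    rw [← Helper39.G2.ofReal_integral_weight h0 (by (clear * - h1; linarith)) p hvb, Real.one_rpow, mul_one] at h4
    have h5 : 2 * Real.pi / (2 - δ) ≤ 7 := by
      rw [div_le_iff₀ (by linarith)]
      have := Real.pi_lt_d2
      (clear * - h1 this; nlinarith)
    exact ((ENNReal.ofReal_le_ofReal_iff (by
      have := Real.pi_pos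
      have h6 : 0 < 2 - δ := by (clear * - h1; linarith)
      (clear * - h6; positivity))).mp h4).trans h5
  have h6 : ∫ w in Q \ Metric.ball p 1, ‖w - p‖ ^ (-δ) ≤ (volume Q).toReal := by
    have h7 : ∫ w in Q \ Metric.ball p 1, (1 : ℝ) = (volume (Q \ Metric.ball p 1)).toReal := by
      rw [setIntegral_const, smul_eq_mul, mul_one]
      rfl
    have h8 : (volume (Q \ Metric.ball p 1)).toReal ≤ (volume Q).toReal :=
      ENNReal.toReal_mono hv.ne (measure_mono diff_subset)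
    refine le_trans ?_ (h7.le.trans h8)
    refine integral_mono_ae (hI.mono_set diff_subset) ?_ ?_
    · exact integrableOn_const ((measure_mono diff_subset).trans_lt hv).ne
    · filter_upwards [ae_restrict_mem (hQ.diff hB)] with w hw
      have h9 : 1 ≤ ‖w - p‖ := by
        have := hw.2
        rw [Metric.mem_ball, not_lt, dist_eq_norm] at this
        exact this
      exact Real.rpow_le_one_of_one_le_of_nonpos h9 (by (clear * - h0; linarith))
  rw [h2]
  linarith

end Pool.Agent.Helper90.G2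
end

/- Helper24.KR.H90.G2.Move -/
section
/-!
# G2-MOVE: moving the point (the Ahlfors-Beurling inequality)

Pointwise, with `X = log (|w - p| / |w - p'|)`: `|w - p'|^(-δ) ≤ e^(δ m) |w - p|^(-δ) +
|w - p'|^(-δ) δ max (X - m) 0`, because `1 ≤ e^(δ (m - X)) + δ max (X - m) 0` (`w ≠ p, p'`). The
integral of the last term over the plane is bounded with Apollonius disks and the layer cake formula
in `Pool.Agent.Helper39.G2.Shift`; only `2 * 2^δ / ((2 - δ) (1 - δ)) ≤ 1 + 32 δ` is proved here.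
-/

set_option autoImplicit false
set_option linter.unusedVariables false

namespace Pool.Agent.Helper90.G2

open MeasureTheory Set
open scoped Real

/-- the error term -/
noncomputable def er (δ m s : ℝ) : ℝ := δ * (1 + 32 * δ) * (π * s ^ 2 / (4 * m)) * (s / m) ^ (-δ)

theorem two_rpow_bound {δ : ℝ} (h0 : 0 < δ) (h1 : δ ≤ 1 / 4) :
    2 * (2 : ℝ) ^ δ ≤ (1 + 32 * δ) * ((2 - δ) * (1 - δ)) := by
  have h2 : (2 : ℝ) ^ δ ≤ 1 + δ := by
    have h := _root_.rpow_one_add_le_one_add_mul_self (s := 1) (by norm_num) h0.le (by (clear * - h1; linarith only [h1]))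
    have h3 : (1 : ℝ) + 1 = 2 := by norm_num
    rw [h3, mul_one] at h
    exact h
  nlinarith only [mul_nonneg h0.le (sub_nonneg.mpr h1), mul_nonneg (mul_nonneg h0.le h0.le) h0.le, h2]

theorem vp_move {δ m s : ℝ} (hm : 0 < m) (hm1 : m ≤ 1) (h0 : 0 < δ) (h1 : δ ≤ 1 / 4) (hs : 0 < s)
    {Q : Set ℂ} (hQ : MeasurableSet Q) (hv : volume Q < ⊤) {p p' : ℂ} (h : ‖p' - p‖ ≤ s) :
    Vp δ Q p' ≤ Real.exp (δ * m) * Vp δ Q p + er δ m s := by
  have h2 := Helper39.G2.shift (d := δ) (m := m) (s := s) h0 (by linarith only [h1]) hm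
    (p := p) (q := p') (by rwa [norm_sub_rev] at h) (Q := Q) hv.ne
  refine h2.trans ?_
  unfold Vp
  gcongr
  unfold er
  have h3 : 0 < 2 - δ := by (clear * - h1; linarith only [h1])
  have h4 : 0 < 1 - δ := by linarith only [h1]
  have h5 : (s / 2) ^ (2 - δ) = s ^ 2 / 4 * (2 : ℝ) ^ δ * s ^ (-δ) := by
    rw [Real.div_rpow hs.le (by norm_num), sub_eq_add_neg, Real.rpow_add hs,
      Real.rpow_add (by norm_num : (0 : ℝ) < 2), Real.rpow_neg (by norm_num : (0 : ℝ) ≤ 2) δ]
    have h6 : (2 : ℝ) ^ δ ≠ 0 := (Real.rpow_pos_of_pos (by norm_num) _).ne'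
    rw [Real.rpow_two, Real.rpow_two]
    field_simp
    norm_num
  have h7 : m ^ (-(1 - δ)) = m⁻¹ * m ^ δ := by
    have h8 : -(1 - δ) = -1 + δ := by ring
    rw [h8, Real.rpow_add hm, Real.rpow_neg_one]
  have h9 : (s / m) ^ (-δ) = s ^ (-δ) * m ^ δ := by
    rw [Real.div_rpow hs.le hm.le, Real.rpow_neg hm.le δ, div_inv_eq_mul]
  rw [h5, h7, h9]
  have h10 : 0 < s ^ (-δ) := Real.rpow_pos_of_pos hs _
  have h11 : 0 < m ^ δ := Real.rpow_pos_of_pos hm _
  have h12 : δ * (2 / (2 - δ)) * (1 / (1 - δ)) * (π * (s ^ 2 / 4 * (2 : ℝ) ^ δ * s ^ (-δ)) *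
      (m⁻¹ * m ^ δ)) = (2 * (2 : ℝ) ^ δ / ((2 - δ) * (1 - δ))) *
        (δ * (π * s ^ 2 / (4 * m)) * (s ^ (-δ) * m ^ δ)) := by
    field_simp
  rw [h12]
  have h13 : 2 * (2 : ℝ) ^ δ / ((2 - δ) * (1 - δ)) ≤ 1 + 32 * δ := by
    rw [div_le_iff₀ (mul_pos h3 h4)]
    exact two_rpow_bound h0 h1
  have h14 : 0 ≤ δ * (π * s ^ 2 / (4 * m)) * (s ^ (-δ) * m ^ δ) := by positivity
  calc _ ≤ (1 + 32 * δ) * (δ * (π * s ^ 2 / (4 * m)) * (s ^ (-δ) * m ^ δ)) :=
        mul_le_mul_of_nonneg_right h13 h14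
    _ = _ := by ring

end Pool.Agent.Helper90.G2
end

/- Helper24.KR.H90.G2.Cone -/
section
/-!
# G2-CONE: the length-area inequality in a cone

Angles `|φ| < π/2 - κ`. `Pa ρ₀ - Pa ρ₁ = (1/(π - 2κ)) ∫∫ F' e^(iφ) dρ dφ`, Cauchy-Schwarz with
`dρ dφ = (1/ρ) ρ dρ dφ`: `|..|² ≤ (1/(π-2κ))² (log (ρ₀/ρ₁) (π - 2κ)) ∫∫ |F'|² ρ dρ dφ`, and the last
integral is the area of the image of the cone (`Fn.vol` and polar coordinates
`Complex.lintegral_comp_polarCoord_symm`, after the translation by `i c`).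
-/

set_option autoImplicit false

namespace Pool.Agent.Helper90.G2

open MeasureTheory Set
open scoped Real

/-- the truncated cone of angle `|φ| < π/2 - κ` at `i c` -/
def Cn (κ c ρ₁ ρ₀ : ℝ) : Set ℂ :=
  {u | 0 < u.re ∧ ρ₁ < ‖u - ⟨0, c⟩‖ ∧ ‖u - ⟨0, c⟩‖ < ρ₀ ∧
    |u.im - c| < Real.cos κ * ‖u - ⟨0, c⟩‖}

/-- average of `F` over an arc -/
noncomputable def Pa (F : ℂ → ℂ) (κ c ρ : ℝ) : ℂ :=
  ((1 / (π - 2 * κ) : ℝ) : ℂ) *
    ∫ φ in (-(π / 2 - κ))..(π / 2 - κ), F ⟨ρ * Real.cos φ, c + ρ * Real.sin φ⟩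

variable {F : ℂ → ℂ} {A : ℝ}

/-- the point with polar coordinates `ρ, φ` around `i c` -/
noncomputable def pp (c ρ φ : ℝ) : ℂ := ⟨ρ * Real.cos φ, c + ρ * Real.sin φ⟩

theorem pp_eq (c ρ φ : ℝ) :
    pp c ρ φ = Complex.I * c + ρ * Complex.exp (φ * Complex.I) := by
  apply Complex.ext <;>
    simp [pp, Complex.exp_re, Complex.exp_im, Complex.mul_re, Complex.mul_im]

theorem continuous_pp (c : ℝ) : Continuous (fun p : ℝ × ℝ => pp c p.1 p.2) := by
  have : (fun p : ℝ × ℝ => pp c p.1 p.2) =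
      fun p : ℝ × ℝ => Complex.I * c + p.1 * Complex.exp (p.2 * Complex.I) := by
    funext p; exact pp_eq _ _ _
  rw [this]
  fun_prop

theorem pp_re_pos {κ c ρ φ : ℝ} (hκ : 0 < κ) (hρ : 0 < ρ) (hφ : |φ| ≤ π / 2 - κ) :
    0 < (pp c ρ φ).re := by
  have h := abs_le.1 hφ
  have : 0 < Real.cos φ := Real.cos_pos_of_mem_Ioo ⟨by (clear * - hκ h; linarith only [hκ, h]), by linarith only [hκ, h]⟩
  simpa [pp] using mul_pos hρ this

theorem pp_sub (c ρ φ : ℝ) : pp c ρ φ - ⟨0, c⟩ = ρ * Complex.exp (φ * Complex.I) := by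
  rw [pp_eq]
  have : (⟨0, c⟩ : ℂ) = Complex.I * c := by
    apply Complex.ext <;> simp
  rw [this]; ring

theorem pp_norm {c ρ φ : ℝ} (hρ : 0 < ρ) : ‖pp c ρ φ - ⟨0, c⟩‖ = ρ := by
  rw [pp_sub, norm_mul, Complex.norm_exp_ofReal_mul_I, mul_one, Complex.norm_real,
    Real.norm_of_nonneg hρ.le]

theorem pp_mem {κ c ρ φ ρ₁ ρ₀ : ℝ} (hκ : 0 < κ) (hκ1 : κ ≤ 1 / 4) (h1 : 0 < ρ₁)
    (hρ : ρ ∈ Ioo ρ₁ ρ₀) (hφ : φ ∈ Ioo (-(π / 2 - κ)) (π / 2 - κ)) : pp c ρ φ ∈ Cn κ c ρ₁ ρ₀ := by
  have hρ0 : 0 < ρ := h1.trans hρ.1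
  have hpi := Real.pi_gt_three
  refine ⟨pp_re_pos hκ hρ0 (abs_le.2 ⟨hφ.1.le, hφ.2.le⟩), ?_, ?_, ?_⟩
  · rw [pp_norm hρ0]; exact hρ.1
  · rw [pp_norm hρ0]; exact hρ.2
  · rw [pp_norm hρ0]
    have e : (pp c ρ φ).im - c = ρ * Real.sin φ := by simp [pp]
    rw [e, abs_mul, abs_of_pos hρ0, mul_comm]
    refine mul_lt_mul_of_pos_right ?_ hρ0
    have hc : Real.cos κ = Real.sin (π / 2 - κ) := by rw [Real.sin_pi_div_two_sub]
    rw [hc, abs_lt]
    constructor
    · have := Real.sin_lt_sin_of_lt_of_le_pi_div_two (x := -(π / 2 - κ)) (y := φ)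
        (by (clear * - hκ; linarith)) (by (clear * - hφ hκ; linarith only [hφ.2, hκ])) hφ.1
      rwa [Real.sin_neg] at this
    · exact Real.sin_lt_sin_of_lt_of_le_pi_div_two (by linarith only [hφ.1, hκ]) (by (clear * - hκ; linarith only [hκ])) hφ.2

theorem Fn.hasDeriv_pp (hF : Fn F A) {c ρ φ : ℝ} (h : 0 < (pp c ρ φ).re) :
    HasDerivAt (fun r : ℝ => F (pp c r φ))
      (deriv F (pp c ρ φ) * Complex.exp (φ * Complex.I)) ρ := by
  have ho : IsOpen {u : ℂ | 0 < u.re} := isOpen_lt continuous_const Complex.continuous_re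
  have hd : HasDerivAt F (deriv F (pp c ρ φ)) (pp c ρ φ) :=
    ((hF.diff _ h).differentiableAt (ho.mem_nhds h)).hasDerivAt
  have hp : HasDerivAt (fun r : ℝ => pp c r φ) (Complex.exp (φ * Complex.I)) ρ := by
    have e : (fun r : ℝ => pp c r φ) =
        fun r : ℝ => Complex.I * c + r * Complex.exp (φ * Complex.I) := by
      funext r; exact pp_eq _ _ _
    rw [e]
    have h1 : HasDerivAt (fun r : ℝ => (r : ℂ)) 1 ρ := Complex.ofRealCLM.hasDerivAt
    simpa using (h1.mul_const (Complex.exp (φ * Complex.I))).const_add (Complex.I * c)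
  exact hd.comp_of_eq ρ hp rfl

theorem Fn.cont_deriv (hF : Fn F A) : ContinuousOn (deriv F) {u : ℂ | 0 < u.re} := by
  have ho : IsOpen {u : ℂ | 0 < u.re} := isOpen_lt continuous_const Complex.continuous_re
  exact (hF.diff.deriv ho).continuousOn

theorem Fn.sub_le (hF : Fn F A) {κ c ρ₁ ρ₀ φ : ℝ} (hκ : 0 < κ) (h1 : 0 < ρ₁) (h01 : ρ₁ ≤ ρ₀)
    (hφ : |φ| ≤ π / 2 - κ) :
    ‖F (pp c ρ₀ φ) - F (pp c ρ₁ φ)‖ₑ ≤ ∫⁻ ρ in Ioc ρ₁ ρ₀, ‖deriv F (pp c ρ φ)‖ₑ := by
  have hpos : ∀ ρ ∈ uIcc ρ₁ ρ₀, 0 < (pp c ρ φ).re := by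
    intro ρ hρ
    rw [uIcc_of_le h01] at hρ
    exact pp_re_pos hκ (lt_of_lt_of_le h1 hρ.1) hφ
  have hcont : ContinuousOn (fun ρ : ℝ => deriv F (pp c ρ φ) * Complex.exp (φ * Complex.I))
      (uIcc ρ₁ ρ₀) := by
    refine ContinuousOn.mul ?_ continuousOn_const
    refine hF.cont_deriv.comp ?_ hpos
    exact ((continuous_pp c).comp (by fun_prop : Continuous fun ρ : ℝ => (ρ, φ))).continuousOn
  have := intervalIntegral.integral_eq_sub_of_hasDerivAt
    (fun ρ hρ => hF.hasDeriv_pp (hpos ρ hρ)) hcont.intervalIntegrable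
  rw [← this, intervalIntegral.integral_of_le h01]
  refine (enorm_integral_le_lintegral_enorm _).trans (le_of_eq ?_)
  refine lintegral_congr fun ρ => ?_
  rw [enorm_mul]
  have : ‖Complex.exp (φ * Complex.I)‖ₑ = 1 := by
    rw [← ofReal_norm, Complex.norm_exp_ofReal_mul_I, ENNReal.ofReal_one]
  rw [this, mul_one]

theorem Fn.diff_le (hF : Fn F A) {κ c ρ₁ ρ₀ : ℝ} (hκ : 0 < κ) (hκ1 : κ ≤ 1 / 4) (h1 : 0 < ρ₁)
    (h01 : ρ₁ ≤ ρ₀) :
    ‖∫ φ in (-(π / 2 - κ))..(π / 2 - κ), (F (pp c ρ₀ φ) - F (pp c ρ₁ φ))‖ₑ ≤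
      ∫⁻ p in Ioo ρ₁ ρ₀ ×ˢ Ioo (-(π / 2 - κ)) (π / 2 - κ), ‖deriv F (pp c p.1 p.2)‖ₑ := by
  have hpi := Real.pi_gt_three
  have hb : -(π / 2 - κ) ≤ π / 2 - κ := by linarith
  rw [intervalIntegral.integral_of_le hb]
  refine (enorm_integral_le_lintegral_enorm _).trans ?_
  have hm : Measurable fun p : ℝ × ℝ => ‖deriv F (pp c p.1 p.2)‖ₑ :=
    ((measurable_deriv F).comp (continuous_pp c).measurable).enorm
  rw [Measure.volume_eq_prod, ← Measure.prod_restrict,
    restrict_Ioo_eq_restrict_Ioc, restrict_Ioo_eq_restrict_Ioc,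
    lintegral_prod_symm _ hm.aemeasurable]
  refine setLIntegral_mono' measurableSet_Ioc fun φ hφ => ?_
  exact hF.sub_le hκ h1 h01 (abs_le.2 ⟨hφ.1.le, hφ.2⟩)

theorem Fn.polar_le (hF : Fn F A) {κ c ρ₁ ρ₀ : ℝ} (hκ : 0 < κ) (hκ1 : κ ≤ 1 / 4) (h1 : 0 < ρ₁)
    (h01 : ρ₁ ≤ ρ₀) (hC : MeasurableSet (Cn κ c ρ₁ ρ₀)) :
    ∫⁻ p in Ioo ρ₁ ρ₀ ×ˢ Ioo (-(π / 2 - κ)) (π / 2 - κ),
      ENNReal.ofReal p.1 * ENNReal.ofReal (‖deriv F (pp c p.1 p.2)‖ ^ 2) ≤
      ∫⁻ u in Cn κ c ρ₁ ρ₀, ENNReal.ofReal (‖deriv F u‖ ^ 2) := by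
  have hpi := Real.pi_gt_three
  set f : ℂ → ENNReal := (Cn κ c ρ₁ ρ₀).indicator fun u => ENNReal.ofReal (‖deriv F u‖ ^ 2) with hf
  have e1 : ∫⁻ u in Cn κ c ρ₁ ρ₀, ENNReal.ofReal (‖deriv F u‖ ^ 2) = ∫⁻ u, f u := by
    rw [hf, lintegral_indicator hC]
  have e2 : ∫⁻ u, f u = ∫⁻ v : ℂ, f (v + Complex.I * c) :=
    (lintegral_add_right_eq_self f (Complex.I * c)).symm
  rw [e1, e2, ← Complex.lintegral_comp_polarCoord_symm]
  have hs : Ioo ρ₁ ρ₀ ×ˢ Ioo (-(π / 2 - κ)) (π / 2 - κ) ⊆ polarCoord.target := by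
    rintro ⟨ρ, φ⟩ ⟨hρ, hφ⟩
    simp only [mem_Ioo] at hρ hφ
    simp only [polarCoord_target, mem_prod, mem_Ioi, mem_Ioo]
    exact ⟨h1.trans hρ.1, by linarith only [hκ, hφ], by (clear * - hκ hφ; linarith only [hκ, hφ])⟩
  refine le_trans ?_ (lintegral_mono_set hs)
  refine setLIntegral_mono' (measurableSet_Ioo.prod measurableSet_Ioo) fun p hp => ?_
  have e3 : Complex.polarCoord.symm p + Complex.I * c = pp c p.1 p.2 := by
    rw [Complex.polarCoord_symm_apply, pp_eq, Complex.exp_mul_I, add_comm]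
    push_cast
    ring
  rw [e3, hf, indicator_of_mem (pp_mem hκ hκ1 h1 hp.1 hp.2), smul_eq_mul]

theorem lin_inv {κ ρ₁ ρ₀ t : ℝ} (hκ : 0 < κ) (hκ1 : κ ≤ 1 / 4) (h1 : 0 < ρ₁)
    (h01 : ρ₁ ≤ ρ₀) (ht : 0 < t) :
    ∫⁻ p in Ioo ρ₁ ρ₀ ×ˢ Ioo (-(π / 2 - κ)) (π / 2 - κ), ENNReal.ofReal (1 / (2 * t) * p.1⁻¹) =
      ENNReal.ofReal ((π - 2 * κ) * Real.log (ρ₀ / ρ₁) / (2 * t)) := by
  have hpi := Real.pi_gt_three
  have hm : Measurable fun p : ℝ × ℝ => ENNReal.ofReal (1 / (2 * t) * p.1⁻¹) := by fun_prop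
  rw [Measure.volume_eq_prod, ← Measure.prod_restrict, lintegral_prod _ hm.aemeasurable]
  simp only [lintegral_const, Measure.restrict_apply MeasurableSet.univ, univ_inter,
    Real.volume_Ioo]
  rw [lintegral_mul_const _ (by fun_prop)]
  have hi : IntegrableOn (fun r : ℝ => 1 / (2 * t) * r⁻¹) (Ioc ρ₁ ρ₀) := by
    have : ContinuousOn (fun r : ℝ => 1 / (2 * t) * r⁻¹) (uIcc ρ₁ ρ₀) := by
      refine continuousOn_const.mul (ContinuousOn.inv₀ continuousOn_id fun r hr => ?_)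
      rw [uIcc_of_le h01] at hr
      exact (lt_of_lt_of_le h1 hr.1).ne'
    exact (intervalIntegrable_iff_integrableOn_Ioc_of_le h01).1 this.intervalIntegrable
  rw [restrict_Ioo_eq_restrict_Ioc, ← ofReal_integral_eq_lintegral_ofReal hi
    ((ae_restrict_iff' measurableSet_Ioc).2 (Filter.Eventually.of_forall fun r hr => by
      have : 0 < r := h1.trans hr.1
      (clear * - ht this; positivity))),
    ← intervalIntegral.integral_of_le h01, intervalIntegral.integral_const_mul,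
    integral_inv_of_pos h1 (lt_of_lt_of_le h1 h01), ← ENNReal.ofReal_mul (by
      have : 0 ≤ Real.log (ρ₀ / ρ₁) := Real.log_nonneg ((one_le_div h1).2 h01)
      (clear * - ht this; positivity))]
  congr 1
  field_simp
  ring

theorem meas_cn (κ c ρ₁ ρ₀ : ℝ) : MeasurableSet (Cn κ c ρ₁ ρ₀) := by
  have hn : Continuous fun u : ℂ => ‖u - ⟨0, c⟩‖ := (continuous_id.sub continuous_const).norm
  have h1 : IsOpen {u : ℂ | 0 < u.re} := isOpen_lt continuous_const Complex.continuous_re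
  have h2 : IsOpen {u : ℂ | ρ₁ < ‖u - ⟨0, c⟩‖} := isOpen_lt continuous_const hn
  have h3 : IsOpen {u : ℂ | ‖u - ⟨0, c⟩‖ < ρ₀} := isOpen_lt hn continuous_const
  have h4 : IsOpen {u : ℂ | |u.im - c| < Real.cos κ * ‖u - ⟨0, c⟩‖} :=
    isOpen_lt (Complex.continuous_im.sub continuous_const).abs (continuous_const.mul hn)
  exact (h1.inter (h2.inter (h3.inter h4))).measurableSet

theorem Fn.cone (hF : Fn F A) {κ c ρ₁ ρ₀ : ℝ} (hκ : 0 < κ) (hκ1 : κ ≤ 1 / 4) (h1 : 0 < ρ₁)
    (h01 : ρ₁ ≤ ρ₀) (h0 : ρ₀ ≤ 1 / 2) :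
    ‖Pa F κ c ρ₀ - Pa F κ c ρ₁‖ ^ 2 ≤
      Real.log (ρ₀ / ρ₁) / (π - 2 * κ) * ar F (Cn κ c ρ₁ ρ₀) := by
  have hpi := Real.pi_gt_three
  have hb : 0 < π - 2 * κ := by linarith only [hκ1, hpi]
  have hC := meas_cn κ c ρ₁ ρ₀
  have hlog : 0 ≤ Real.log (ρ₀ / ρ₁) := Real.log_nonneg ((one_le_div h1).2 h01)
  have hsub : Cn κ c ρ₁ ρ₀ ⊆ Bx c 1 := by
    rintro u ⟨hu0, hu1, hu2, hu3⟩
    have hre : u.re ≤ ‖u - ⟨0, c⟩‖ := by
      have := Complex.abs_re_le_norm (u - ⟨0, c⟩)
      simp only [Complex.sub_re, sub_zero] at this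
      exact (le_abs_self _).trans this
    have him : |u.im - c| ≤ ‖u - ⟨0, c⟩‖ := by
      have := Complex.abs_im_le_norm (u - ⟨0, c⟩)
      simpa only [Complex.sub_im] using this
    exact ⟨hu0, by linarith only [h0, hu2, hre], by linarith only [h0, hu2, him]⟩
  have hstrip : Cn κ c ρ₁ ρ₀ ⊆ {u | 0 < u.re ∧ |u.im - c| < π} := by
    intro u hu
    have := hsub hu
    exact ⟨hu.1, by linarith only [this.2.2, hpi]⟩
  have hfin := hF.fin le_rfl hsub
  set D : ℂ := ∫ φ in (-(π / 2 - κ))..(π / 2 - κ), (F (pp c ρ₀ φ) - F (pp c ρ₁ φ)) with hD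
  set a : ℝ := ar F (Cn κ c ρ₁ ρ₀) with ha
  have ha0 : 0 ≤ a := ENNReal.toReal_nonneg
  -- the difference
  have hInt : ∀ ρ : ℝ, 0 < ρ → IntervalIntegrable (fun φ => F (pp c ρ φ)) volume
      (-(π / 2 - κ)) (π / 2 - κ) := by
    intro ρ hρ
    refine ContinuousOn.intervalIntegrable ?_
    refine hF.diff.continuousOn.comp ?_ ?_
    · exact ((continuous_pp c).comp (by fun_prop : Continuous fun φ : ℝ => (ρ, φ))).continuousOn
    · intro φ hφ
      rw [uIcc_of_le (by linarith only [hb])] at hφ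
      exact pp_re_pos hκ hρ (abs_le.2 ⟨hφ.1, hφ.2⟩)
  have hPa : Pa F κ c ρ₀ - Pa F κ c ρ₁ = ((1 / (π - 2 * κ) : ℝ) : ℂ) * D := by
    rw [hD, intervalIntegral.integral_sub (hInt ρ₀ (lt_of_lt_of_le h1 h01)) (hInt ρ₁ h1), mul_sub]
    rfl
  -- the main inequality with a parameter
  have key : ∀ t : ℝ, 0 < t → ‖D‖ ≤ t / 2 * a + (π - 2 * κ) * Real.log (ρ₀ / ρ₁) / (2 * t) := by
    intro t ht
    have h2 := hF.diff_le (c := c) hκ hκ1 h1 h01
    rw [← hD] at h2
    have hv : volume (F '' Cn κ c ρ₁ ρ₀) = ENNReal.ofReal a := by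
      rw [ha, ar, ENNReal.ofReal_toReal hfin.ne]
    have h3 : ∫⁻ p in Ioo ρ₁ ρ₀ ×ˢ Ioo (-(π / 2 - κ)) (π / 2 - κ), ‖deriv F (pp c p.1 p.2)‖ₑ ≤
        ∫⁻ p in Ioo ρ₁ ρ₀ ×ˢ Ioo (-(π / 2 - κ)) (π / 2 - κ),
          (ENNReal.ofReal (t / 2) *
            (ENNReal.ofReal p.1 * ENNReal.ofReal (‖deriv F (pp c p.1 p.2)‖ ^ 2)) +
            ENNReal.ofReal (1 / (2 * t) * p.1⁻¹)) := by
      refine setLIntegral_mono' (measurableSet_Ioo.prod measurableSet_Ioo) fun p hp => ?_
      have hp1 : 0 < p.1 := h1.trans hp.1.1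
      rw [← ofReal_norm, ← ENNReal.ofReal_mul hp1.le, ← ENNReal.ofReal_mul (by (clear * - ht; positivity)),
        ← ENNReal.ofReal_add (by (clear * - ht hp1; positivity)) (by (clear * - ht hp1; positivity))]
      refine ENNReal.ofReal_le_ofReal ?_
      set x := ‖deriv F (pp c p.1 p.2)‖
      have e : t / 2 * (p.1 * x ^ 2) + 1 / (2 * t) * p.1⁻¹ - x =
          (t * p.1 * x - 1) ^ 2 / (2 * t * p.1) := by
        field_simp
        ring
      have : 0 ≤ (t * p.1 * x - 1) ^ 2 / (2 * t * p.1) := by (clear * - ht hp1; positivity)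
      linarith only [e, this]
    have hm : Measurable fun p : ℝ × ℝ => ENNReal.ofReal (1 / (2 * t) * p.1⁻¹) := by fun_prop
    rw [lintegral_add_right _ hm, lintegral_const_mul' _ _ ENNReal.ofReal_ne_top,
      lin_inv hκ hκ1 h1 h01 ht] at h3
    have h4 := hF.polar_le (c := c) hκ hκ1 h1 h01 hC
    rw [← hF.vol hC hstrip, hv] at h4
    have h5 : ENNReal.ofReal ‖D‖ ≤
        ENNReal.ofReal (t / 2 * a + (π - 2 * κ) * Real.log (ρ₀ / ρ₁) / (2 * t)) := by
      rw [ofReal_norm, ENNReal.ofReal_add (by (clear * - ht ha0; positivity)) (by (clear * - hb hlog ht; positivity)),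
        ENNReal.ofReal_mul (by (clear * - ht; positivity))]
      refine h2.trans (h3.trans ?_)
      (clear * - h4; gcongr)
    exact (ENNReal.ofReal_le_ofReal_iff (by (clear * - ht ha0 hb hlog; positivity))).1 h5
  have hD2 : ‖D‖ ^ 2 ≤ a * ((π - 2 * κ) * Real.log (ρ₀ / ρ₁)) := by
    set b := (π - 2 * κ) * Real.log (ρ₀ / ρ₁) with hbdef
    have hb0 : 0 ≤ b := by (clear * - hb hlog; positivity)
    rcases (norm_nonneg D).eq_or_lt with h | h
    · rw [← h]; (clear * - ha0 hb0; nlinarith only [ha0, hb0])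
    · rcases ha0.eq_or_lt with h' | h'
      · exfalso
        rcases hb0.eq_or_lt with h'' | h''
        · have := key 1 one_pos
          rw [← h', ← h''] at this
          simp at this
          rw [this] at h; simp at h
        · have := key (b / ‖D‖) (by (clear * - h'' h; positivity))
          rw [← h'] at this
          have e : b / (2 * (b / ‖D‖)) = ‖D‖ / 2 := by (clear * - h'' h; field_simp)
          rw [e] at this
          (clear * - h this; linarith only [h, this])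
      · have := key (‖D‖ / a) (by (clear * - h h'; positivity))
        have e1 : ‖D‖ / a / 2 * a = ‖D‖ / 2 := by (clear * - h' h; field_simp)
        have e2 : b / (2 * (‖D‖ / a)) = a * b / (2 * ‖D‖) := by (clear * - h' h; field_simp)
        rw [e1, e2] at this
        have h3 : ‖D‖ / 2 ≤ a * b / (2 * ‖D‖) := by (clear * - this; linarith only [this])
        rw [div_le_div_iff₀ (by norm_num) (by positivity)] at h3
        linarith only [h3]
  rw [hPa, norm_mul, mul_pow, Complex.norm_real, Real.norm_of_nonneg (by (clear * - hb; positivity))]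
  calc (1 / (π - 2 * κ)) ^ 2 * ‖D‖ ^ 2 ≤
      (1 / (π - 2 * κ)) ^ 2 * (a * ((π - 2 * κ) * Real.log (ρ₀ / ρ₁))) := by (clear * - hD2 hb; gcongr)
    _ = Real.log (ρ₀ / ρ₁) / (π - 2 * κ) * a := by (clear * - hb; field_simp)

/-- if `F` is close to `p` on the arc, so is the average -/
theorem Pa_near (hF : Fn F A) {κ c ρ : ℝ} (hκ : 0 < κ) (hκ1 : κ ≤ 1 / 4) (hρ : 0 < ρ) {p : ℂ}
    {b : ℝ} (h : ∀ φ : ℝ, |φ| ≤ π / 2 - κ →
      ‖F ⟨ρ * Real.cos φ, c + ρ * Real.sin φ⟩ - p‖ ≤ b) : ‖Pa F κ c ρ - p‖ ≤ b := by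
  have hpi := Real.pi_gt_three
  have hb : 0 < π - 2 * κ := by linarith only [hκ1, hpi]
  have hInt : IntervalIntegrable (fun φ => F (pp c ρ φ)) volume
      (-(π / 2 - κ)) (π / 2 - κ) := by
    refine ContinuousOn.intervalIntegrable ?_
    refine hF.diff.continuousOn.comp ?_ ?_
    · exact ((continuous_pp c).comp (by fun_prop : Continuous fun φ : ℝ => (ρ, φ))).continuousOn
    · intro φ hφ
      rw [uIcc_of_le (by (clear * - hb; linarith only [hb]))] at hφ
      exact pp_re_pos hκ hρ (abs_le.2 ⟨hφ.1, hφ.2⟩)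
  have e : Pa F κ c ρ - p = ((1 / (π - 2 * κ) : ℝ) : ℂ) *
      ∫ φ in (-(π / 2 - κ))..(π / 2 - κ), (F (pp c ρ φ) - p) := by
    rw [intervalIntegral.integral_sub hInt intervalIntegrable_const,
      intervalIntegral.integral_const, mul_sub, Complex.real_smul]
    have : ((1 / (π - 2 * κ) : ℝ) : ℂ) * (((π / 2 - κ - -(π / 2 - κ) : ℝ) : ℂ) * p) = p := by
      rw [← mul_assoc, ← Complex.ofReal_mul]
      have : 1 / (π - 2 * κ) * (π / 2 - κ - -(π / 2 - κ)) = 1 := by
        field_simp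
        ring
      rw [this]; simp
    rw [this]
    rfl
  rw [e, norm_mul, Complex.norm_real, Real.norm_of_nonneg (by (clear * - hb; positivity))]
  have h2 : ‖∫ φ in (-(π / 2 - κ))..(π / 2 - κ), (F (pp c ρ φ) - p)‖ ≤
      b * |π / 2 - κ - -(π / 2 - κ)| := by
    refine intervalIntegral.norm_integral_le_of_norm_le_const fun φ hφ => ?_
    rw [uIoc_of_le (by (clear * - hb; linarith only [hb]))] at hφ
    exact h φ (abs_le.2 ⟨hφ.1.le, hφ.2⟩)
  rw [abs_of_pos (by (clear * - hb; linarith only [hb]))] at h2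
  calc 1 / (π - 2 * κ) * ‖∫ φ in (-(π / 2 - κ))..(π / 2 - κ), (F (pp c ρ φ) - p)‖ ≤
      1 / (π - 2 * κ) * (b * (π / 2 - κ - -(π / 2 - κ))) := by (clear * - h2 hb; gcongr)
    _ = b := by field_simp; ring

end Pool.Agent.Helper90.G2
end

/- Helper24.KR.H90.G2.Rec -/
section
/-!
# G2-REC: the recursion, real numbers only

`o` = sum of the `Vp e`, `e ≠ d`. Case A: for some `d`, `o ≤ η v`.
A1, `Cen κ N d`: `∑ V ≤ g Vp_d + (1-ε) w + (1+a) o + ε w ≤ g (v - w - o) + w + (1+a) o ≤ (g + a η) v`.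
A2, not `Cen`: `∑_(e ≠ d) V ≤ (1+a) o + ε w ≤ (2η + ε) v`, `∑ χ V ≤ e^(-c) ∑ V + (1 - e^(-c)) ∑_(e≠d) V
≤ v + c (2η + ε) v`. In both cases `V_e ≤ ∑ V ≤ e^c v`, so `V_e^(1+θ) ≤ V_e (e^c v)^θ`.
Case B: for all `d`, `o > η v`: `V_d ≤ (1+a) Vp_d + w ≤ (1 - η/2) v`,
`∑ V^(1+θ) ≤ ((1-η/2) v)^θ e^c v ≤ e^(c - θη/2) v^(1+θ) ≤ v^(1+θ)`.
-/

set_option autoImplicit false

namespace Pool.Agent.Helper90.G2

open Finset

/-- the weights are between `0` and `1` -/
theorem Rec_chi {κ c : ℝ} (hc : 0 ≤ c) (N d : ℕ) : 0 ≤ chi κ c N d ∧ chi κ c N d ≤ 1 := by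
  unfold chi
  split_ifs
  · exact ⟨zero_le_one, le_refl _⟩
  · refine ⟨(Real.exp_pos _).le, ?_⟩
    rw [Real.exp_le_one_iff]
    (clear * - hc; linarith only [hc])

theorem Rec_sum (s : Finset ℕ) (X V : ℕ → ℝ) (hX : ∀ d ∈ s, 0 ≤ X d) (hV : ∀ d ∈ s, 0 ≤ V d)
    {m θ : ℝ} (hθ : 0 ≤ θ) (hm : ∀ d ∈ s, V d ≤ m) :
    ∑ d ∈ s, X d * V d ^ (1 + θ) ≤ m ^ θ * ∑ d ∈ s, X d * V d := by
  rw [mul_sum]
  refine sum_le_sum fun d hd => ?_
  rw [Real.rpow_add_of_nonneg (hV d hd) zero_le_one hθ, Real.rpow_one]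
  have h1 : V d ^ θ ≤ m ^ θ := Real.rpow_le_rpow (hV d hd) (hm d hd) hθ
  calc X d * (V d * V d ^ θ) = (X d * V d) * V d ^ θ := by ring
    _ ≤ (X d * V d) * m ^ θ := mul_le_mul_of_nonneg_left h1 (mul_nonneg (hX d hd) (hV d hd))
    _ = m ^ θ * (X d * V d) := by ring

theorem rec_real {N : ℕ} (hN : 0 < N) (Vp V : ℕ → ℝ) {κ v w a g c ε η θ : ℝ} (hw : 0 ≤ w)
    (ha : 0 ≤ a) (ha1 : a ≤ 1) (haη : a ≤ η / 2) (hg : 1 ≤ g) (hc : 0 ≤ c) (hε : 0 ≤ ε) (hε1 : ε ≤ 1)
    (hη : 0 ≤ η) (hη1 : η ≤ 1) (hθ : 0 ≤ θ) (hcθ : c ≤ θ * (η / 2))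
    (hV : ∀ d < N, 0 ≤ V d) (hVp : ∀ d < N, 0 ≤ Vp d) (h1 : w + ∑ d ∈ range N, Vp d ≤ v)
    (h2 : ∀ d < N, V d ≤ (1 + a) * Vp d + ε / N * w)
    (h3 : ∀ d < N, Cen κ N d → V d ≤ g * Vp d + (1 - ε) * w)
    (h4 : ∑ d ∈ range N, V d ≤ Real.exp c * v) :
    ∑ d ∈ range N, chi κ c N d * V d ^ (1 + θ) ≤
      Real.exp (c * θ) * (g + a * η + c * (2 * η + ε)) * v ^ (1 + θ) := by
  have hN' : (0 : ℝ) < N := Nat.cast_pos.2 hN
  have hsp : 0 ≤ ∑ d ∈ range N, Vp d := sum_nonneg fun d hd => hVp d (mem_range.1 hd)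
  have hv : 0 ≤ v := by (clear * - hw h1 hsp; linarith only [hw, h1, hsp])
  have hwv : w ≤ v := by (clear * - h1 hsp; linarith only [h1, hsp])
  have hχ0 : ∀ d ∈ range N, 0 ≤ chi κ c N d := fun d _ => (Rec_chi hc N d).1
  have hV0 : ∀ d ∈ range N, 0 ≤ V d := fun d hd => hV d (mem_range.1 hd)
  have hVS : ∀ d ∈ range N, V d ≤ Real.exp c * v := fun d hd =>
    (single_le_sum hV0 hd).trans h4
  have hvθ : v ^ (1 + θ) = v * v ^ θ := by
    rw [Real.rpow_add_of_nonneg hv zero_le_one hθ, Real.rpow_one]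
  have hvθ0 : 0 ≤ v ^ θ := Real.rpow_nonneg hv θ
  have hecθ : (Real.exp c * v) ^ θ = Real.exp (c * θ) * v ^ θ := by
    rw [Real.mul_rpow (Real.exp_pos c).le hv, ← Real.exp_mul]
  have haη0 : 0 ≤ a * η := mul_nonneg ha hη
  have hcη0 : 0 ≤ c * (2 * η + ε) := mul_nonneg hc (by (clear * - hε hη; linarith only [hε, hη]))
  -- it is enough to bound the sum of the `χ V`
  have hfin : ∑ d ∈ range N, chi κ c N d * V d ≤ (g + a * η + c * (2 * η + ε)) * v →
      ∑ d ∈ range N, chi κ c N d * V d ^ (1 + θ) ≤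
      Real.exp (c * θ) * (g + a * η + c * (2 * η + ε)) * v ^ (1 + θ) := by
    intro h
    refine (Rec_sum (range N) (fun d => chi κ c N d) V hχ0 hV0 hθ hVS).trans ?_
    rw [hecθ, hvθ]
    calc Real.exp (c * θ) * v ^ θ * ∑ d ∈ range N, chi κ c N d * V d
        ≤ Real.exp (c * θ) * v ^ θ * ((g + a * η + c * (2 * η + ε)) * v) :=
          mul_le_mul_of_nonneg_left h (mul_nonneg (Real.exp_pos _).le hvθ0)
      _ = Real.exp (c * θ) * (g + a * η + c * (2 * η + ε)) * (v * v ^ θ) := by ring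
  by_cases hA : ∃ d ∈ range N, ∑ e ∈ (range N).erase d, Vp e ≤ η * v
  · obtain ⟨d, hd, ho⟩ := hA
    have hdN := mem_range.1 hd
    have ho0 : 0 ≤ ∑ e ∈ (range N).erase d, Vp e :=
      sum_nonneg fun e he => hVp e (mem_range.1 (mem_of_mem_erase he))
    have hs1 : Vp d + ∑ e ∈ (range N).erase d, Vp e = ∑ e ∈ range N, Vp e :=
      add_sum_erase (range N) Vp hd
    have hoth : ∑ e ∈ (range N).erase d, V e ≤
        (1 + a) * ∑ e ∈ (range N).erase d, Vp e + ((N : ℝ) - 1) * (ε / N * w) := by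
      calc ∑ e ∈ (range N).erase d, V e
          ≤ ∑ e ∈ (range N).erase d, ((1 + a) * Vp e + ε / N * w) :=
            sum_le_sum fun e he => h2 e (mem_range.1 (mem_of_mem_erase he))
        _ = (1 + a) * ∑ e ∈ (range N).erase d, Vp e + ((N : ℝ) - 1) * (ε / N * w) := by
            rw [sum_add_distrib, ← mul_sum, sum_const, card_erase_of_mem hd, card_range,
              nsmul_eq_mul, Nat.cast_sub hN, Nat.cast_one]
    have hNw : ((N : ℝ) - 1) * (ε / N * w) ≤ ε * w := by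
      have e1 : ((N : ℝ) - 1) * (ε / N * w) = ε * w - ε * w / N := by
        (clear * - hN; field_simp)
      rw [e1]
      have : 0 ≤ ε * w / N := div_nonneg (mul_nonneg hε hw) hN'.le
      linarith only [this]
    generalize ∑ e ∈ (range N).erase d, Vp e = o at *
    by_cases hC : Cen κ N d
    · apply hfin
      have hs2 : V d + ∑ e ∈ (range N).erase d, V e = ∑ e ∈ range N, V e :=
        add_sum_erase (range N) V hd
      have h5 := h3 d hdN hC
      have h6 : ∑ e ∈ range N, chi κ c N e * V e ≤ ∑ e ∈ range N, V e :=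
        sum_le_sum fun e he => by
          have := mul_le_mul_of_nonneg_right (Rec_chi (κ := κ) hc N e).2 (hV0 e he)
          rwa [one_mul] at this
      have h7 : Vp d ≤ v - w - o := by linarith only [h1, hs1]
      have h8 : g * Vp d ≤ g * (v - w - o) := mul_le_mul_of_nonneg_left h7 (by linarith only [hg])
      have h9 : 0 ≤ (g - 1) * (w + o) := mul_nonneg (by linarith only [hg]) (by linarith only [hw, ho0])
      have h10 : a * o ≤ a * (η * v) := mul_le_mul_of_nonneg_left ho ha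
      have h11 : 0 ≤ c * (2 * η + ε) * v := mul_nonneg hcη0 hv
      linarith only [hNw, hoth, hs2, h5, h6, h8, h9, h10, h11]
    · apply hfin
      have hs2 : chi κ c N d * V d + ∑ e ∈ (range N).erase d, chi κ c N e * V e =
          ∑ e ∈ range N, chi κ c N e * V e :=
        add_sum_erase (range N) (fun e => chi κ c N e * V e) hd
      have hs3 : V d + ∑ e ∈ (range N).erase d, V e = ∑ e ∈ range N, V e :=
        add_sum_erase (range N) V hd
      have hχd : chi κ c N d = Real.exp (-c) := by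
        unfold chi
        rw [if_neg hC]
      have h6 : ∑ e ∈ (range N).erase d, chi κ c N e * V e ≤ ∑ e ∈ (range N).erase d, V e :=
        sum_le_sum fun e he => by
          have := mul_le_mul_of_nonneg_right (Rec_chi (κ := κ) hc N e).2
            (hV0 e (mem_of_mem_erase he))
          rwa [one_mul] at this
      have hoe : (1 + a) * o ≤ 2 * (η * v) := by
        have e1 : (1 + a) * o ≤ 2 * o := mul_le_mul_of_nonneg_right (by (clear * - ha1; linarith only [ha1])) ho0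
        linarith only [ho, e1]
      have hεw : ε * w ≤ ε * v := mul_le_mul_of_nonneg_left hwv hε
      have h12 : ∑ e ∈ (range N).erase d, V e ≤ (2 * η + ε) * v := by
        calc ∑ e ∈ (range N).erase d, V e ≤ (1 + a) * o + ((N : ℝ) - 1) * (ε / N * w) := hoth
          _ ≤ 2 * (η * v) + ε * v := by linarith only [hNw, hoe, hεw]
          _ = (2 * η + ε) * v := by ring
      have he1 : 1 - c ≤ Real.exp (-c) := by
        have := Real.add_one_le_exp (-c)
        linarith only [this]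
      have he2 : Real.exp (-c) ≤ 1 := by
        rw [Real.exp_le_one_iff]
        (clear * - hc; linarith only [hc])
      have he3 : Real.exp (-c) * (Real.exp c * v) = v := by
        rw [← mul_assoc, ← Real.exp_add, neg_add_cancel, Real.exp_zero, one_mul]
      have hO0 : 0 ≤ ∑ e ∈ (range N).erase d, V e :=
        sum_nonneg fun e he => hV0 e (mem_of_mem_erase he)
      generalize ∑ e ∈ (range N).erase d, V e = O at *
      rw [← hs2, hχd]
      have h13 : Real.exp (-c) * (V d + O) ≤ v := by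
        rw [hs3]
        refine (mul_le_mul_of_nonneg_left h4 (Real.exp_pos _).le).trans ?_
        rw [he3]
      have h14 : (1 - Real.exp (-c)) * O ≤ c * ((2 * η + ε) * v) :=
        mul_le_mul (by (clear * - he1; linarith only [he1])) h12 hO0 hc
      have h15 : v ≤ (g + a * η) * v := by
        have : 0 ≤ (g + a * η - 1) * v := mul_nonneg (by (clear * - hg haη0; linarith only [hg, haη0])) hv
        linarith only [this]
      calc Real.exp (-c) * V d + ∑ e ∈ (range N).erase d, chi κ c N e * V e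
          ≤ Real.exp (-c) * V d + O := by linarith only [h6]
        _ = Real.exp (-c) * (V d + O) + (1 - Real.exp (-c)) * O := by ring
        _ ≤ v + c * ((2 * η + ε) * v) := add_le_add h13 h14
        _ ≤ (g + a * η) * v + c * ((2 * η + ε) * v) := by linarith only [h15]
        _ = (g + a * η + c * (2 * η + ε)) * v := by ring
  · -- all children are small
    have hall : ∀ d ∈ range N, V d ≤ (1 - η / 2) * v := by
      intro d hd
      have hdN := mem_range.1 hd
      have ho : η * v < ∑ e ∈ (range N).erase d, Vp e := by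
        by_contra h
        exact hA ⟨d, hd, not_lt.1 h⟩
      have hs1 : Vp d + ∑ e ∈ (range N).erase d, Vp e = ∑ e ∈ range N, Vp e :=
        add_sum_erase (range N) Vp hd
      have h5 := h2 d hdN
      have h6 : ε / N * w ≤ w := by
        have e1 : ε / N ≤ 1 := by
          rw [div_le_one hN']
          have : (1 : ℝ) ≤ N := Nat.one_le_cast.2 hN
          linarith only [hε1, this]
        have := mul_le_mul_of_nonneg_right e1 hw
        (clear * - this; linarith only [this])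
      have h7 : Vp d ≤ v - w - η * v := by linarith only [h1, ho, hs1]
      have h8 : (1 + a) * Vp d ≤ (1 + a) * (v - w - η * v) :=
        mul_le_mul_of_nonneg_left h7 (by linarith only [ha])
      have h9 : 0 ≤ a * w := mul_nonneg ha hw
      have h10 : 0 ≤ a * (η * v) := mul_nonneg ha (mul_nonneg hη hv)
      have h11 : a * v ≤ η / 2 * v := mul_le_mul_of_nonneg_right haη hv
      linarith only [h5, h6, h8, h9, h10, h11]
    have h16 : ∑ d ∈ range N, chi κ c N d * V d ≤ Real.exp c * v := by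
      refine le_trans (sum_le_sum fun e he => ?_) h4
      have := mul_le_mul_of_nonneg_right (Rec_chi (κ := κ) hc N e).2 (hV0 e he)
      rwa [one_mul] at this
    have h17 : ((1 - η / 2) * v) ^ θ ≤ Real.exp (-(θ * (η / 2))) * v ^ θ := by
      rw [Real.mul_rpow (by (clear * - hη1; linarith only [hη1])) hv]
      refine mul_le_mul_of_nonneg_right ?_ hvθ0
      have e1 : 1 - η / 2 ≤ Real.exp (-(η / 2)) := by
        have := Real.add_one_le_exp (-(η / 2))
        linarith only [this]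
      calc (1 - η / 2) ^ θ ≤ Real.exp (-(η / 2)) ^ θ :=
            Real.rpow_le_rpow (by linarith only [hη1]) e1 hθ
        _ = Real.exp (-(θ * (η / 2))) := by
            rw [← Real.exp_mul]
            congr 1
            ring
    have h18 : Real.exp (-(θ * (η / 2))) * Real.exp c ≤ 1 := by
      rw [← Real.exp_add, Real.exp_le_one_iff]
      linarith only [hcθ]
    have h19 : 1 ≤ Real.exp (c * θ) := Real.one_le_exp (mul_nonneg hc hθ)
    have h20 : 1 ≤ Real.exp (c * θ) * (g + a * η + c * (2 * η + ε)) := by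
      have : (1 : ℝ) ≤ g + a * η + c * (2 * η + ε) := by linarith only [hg, haη0, hcη0]
      calc (1 : ℝ) = 1 * 1 := (one_mul 1).symm
        _ ≤ Real.exp (c * θ) * (g + a * η + c * (2 * η + ε)) :=
          mul_le_mul h19 this zero_le_one (by linarith only [h19])
    have h21 : 0 ≤ ∑ d ∈ range N, chi κ c N d * V d :=
      sum_nonneg fun e he => mul_nonneg (hχ0 e he) (hV0 e he)
    calc ∑ d ∈ range N, chi κ c N d * V d ^ (1 + θ)
        ≤ ((1 - η / 2) * v) ^ θ * ∑ d ∈ range N, chi κ c N d * V d :=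
          Rec_sum (range N) (fun d => chi κ c N d) V hχ0 hV0 hθ hall
      _ ≤ (Real.exp (-(θ * (η / 2))) * v ^ θ) * (Real.exp c * v) :=
          mul_le_mul h17 h16 h21 (mul_nonneg (Real.exp_pos _).le hvθ0)
      _ = (Real.exp (-(θ * (η / 2))) * Real.exp c) * (v * v ^ θ) := by ring
      _ ≤ 1 * (v * v ^ θ) := mul_le_mul_of_nonneg_right h18 (mul_nonneg hv hvθ0)
      _ ≤ (Real.exp (c * θ) * (g + a * η + c * (2 * η + ε))) * (v * v ^ θ) :=
          mul_le_mul_of_nonneg_right h20 (mul_nonneg hv hvθ0)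
      _ = Real.exp (c * θ) * (g + a * η + c * (2 * η + ε)) * v ^ (1 + θ) := by rw [hvθ]

end Pool.Agent.Helper90.G2
end

/- Helper90.G3.Defs -/
section
/-!
# Project G3 (MP_16b0ee_an): the strict second order bound near `t = 2`, definitions

`Pt δ a c₀ m₀ W` : the functional `W Q p` is comparable with `Vp δ Q p` up to factors `1 ± a δ`, is
superadditive in `Q`, and moving the point costs only `(1 - c₀) er0` (for `Vp` itself it is
`(1 + 32 δ) er0`, and this is sharp). `exists_pt` (file `Exists`): such functionals exist for all small `δ`,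
with constants `a, c₀, m₀` not depending on `δ`.
-/

set_option autoImplicit false

namespace Pool.Agent.Helper90.G3

open MeasureTheory Set
open scoped Real
open Pool.Agent.Helper90.G2 (Vp)

/-- the error term of a move of the point -/
noncomputable def er0 (δ m s : ℝ) : ℝ := δ * (π * s ^ 2 / (4 * m)) * (s / m) ^ (-δ)

/-- functionals with a strict move inequality -/
structure Pt (δ a c₀ m₀ : ℝ) (W : Set ℂ → ℂ → ℝ) : Prop where
  lo : ∀ Q : Set ℂ, MeasurableSet Q → volume Q < ⊤ → ∀ p : ℂ, (1 - a * δ) * Vp δ Q p ≤ W Q p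
  up : ∀ Q : Set ℂ, MeasurableSet Q → volume Q < ⊤ → ∀ p : ℂ, W Q p ≤ (1 + a * δ) * Vp δ Q p
  add : ∀ (N : ℕ) (Q : ℕ → Set ℂ) (X Q' : Set ℂ), (∀ d < N, MeasurableSet (Q d)) →
    MeasurableSet X → MeasurableSet Q' → volume Q' < ⊤ → (∀ d < N, Q d ⊆ Q') → X ⊆ Q' →
    (∀ d < N, ∀ e < N, d ≠ e → Disjoint (Q d) (Q e)) → (∀ d < N, Disjoint X (Q d)) →
    ∀ p : ℂ, W X p + ∑ d ∈ Finset.range N, W (Q d) p ≤ W Q' p
  move : ∀ m s : ℝ, 0 < m → m ≤ m₀ → 0 < s → ∀ Q : Set ℂ, MeasurableSet Q → volume Q < ⊤ →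
    ∀ p p' : ℂ, ‖p' - p‖ ≤ s → W Q p' ≤ Real.exp (δ * m) * W Q p + (1 - c₀) * er0 δ m s

/-- the functional of a box -/
noncomputable def V3 (W : Set ℂ → ℂ → ℝ) (F : ℂ → ℂ) (c ℓ : ℝ) : ℝ :=
  W (F '' G2.Bx c ℓ) (F (G2.zt c ℓ))

end Pool.Agent.Helper90.G3
end

/- Helper24.KR.H17.G3.Kern -/
section
/-!
# G3: the kernel `h (w) = re w / |w|^2` and its level sets
-/

set_option autoImplicit false
set_option linter.unusedVariables false

namespace Pool.Agent.Helper17.G3

open MeasureTheory Set Metric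
open scoped Real

/-- `re (1 / w)` -/
noncomputable def hk (w : ℂ) : ℝ := w.re / ‖w‖ ^ 2

/-- the disk tangent to the imaginary axis at `0` -/
def Dk : Set ℂ := ball 1 1

theorem hk_zero : hk 0 = 0 := by simp [hk]

theorem abs_hk_le (w : ℂ) : |hk w| ≤ ‖w‖ ^ (-1 : ℝ) := by
  rcases eq_or_ne w 0 with h | h
  · subst h
    rw [hk_zero, abs_zero]
    exact Real.rpow_nonneg (norm_nonneg _) _
  · have hw : 0 < ‖w‖ := norm_pos_iff.mpr h
    rw [hk, abs_div, abs_of_pos (by positivity : 0 < ‖w‖ ^ 2), Real.rpow_neg hw.le, Real.rpow_one,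
      div_le_iff₀ (by positivity)]
    have h1 := Complex.abs_re_le_norm w
    have h2 : ‖w‖⁻¹ * ‖w‖ ^ 2 = ‖w‖ := by field_simp
    rwa [h2]

/-- level sets -/
theorem hk_level {t : ℝ} (ht : 0 < t) :
    {w : ℂ | t < hk w} = ball (((1 / (2 * t) : ℝ)) : ℂ) (1 / (2 * t)) := by
  ext w
  rw [mem_ball, dist_eq_norm, mem_ofPred_eq]
  have h2t : 0 < 1 / (2 * t) := by (clear * - ht; positivity)
  have e1 : ‖w - ((1 / (2 * t) : ℝ) : ℂ)‖ ^ 2 = ‖w‖ ^ 2 - w.re / t + (1 / (2 * t)) ^ 2 := by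
    rw [Complex.sq_norm, Complex.sq_norm, Complex.normSq_apply, Complex.normSq_apply]
    simp only [Complex.sub_re, Complex.sub_im, Complex.ofReal_re, Complex.ofReal_im]
    field_simp
    ring
  rcases eq_or_ne w 0 with h | h
  · subst h
    rw [hk_zero]
    constructor
    · intro h3
      (clear * - ht h3; linarith only [ht, h3])
    · intro h3
      rw [zero_sub, norm_neg, Complex.norm_real, Real.norm_eq_abs, abs_of_pos h2t] at h3
      (clear * - h3; linarith only [h3])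
  · have hw : 0 < ‖w‖ := norm_pos_iff.mpr h
    have hw2 : 0 < ‖w‖ ^ 2 := by positivity
    constructor
    · intro h3
      rw [hk, lt_div_iff₀ hw2] at h3
      refine lt_of_pow_lt_pow_left₀ 2 h2t.le ?_
      rw [e1]
      have h4 : ‖w‖ ^ 2 < w.re / t := by
        rw [lt_div_iff₀ ht]
        (clear * - h3; linarith only [h3])
      (clear * - h4; linarith only [h4])
    · intro h3
      rw [hk, lt_div_iff₀ hw2]
      have h4 := pow_lt_pow_left₀ h3 (norm_nonneg _) two_ne_zero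
      rw [e1] at h4
      have h5 : ‖w‖ ^ 2 < w.re / t := by (clear * - h4; linarith only [h4])
      rw [lt_div_iff₀ ht] at h5
      linarith only [h5]

theorem volume_hk {t : ℝ} (ht : 0 < t) :
    volume {w : ℂ | t < hk w} = ENNReal.ofReal (π * (1 / (2 * t)) ^ 2) := by
  rw [hk_level ht, Complex.volume_ball, mul_comm π, ENNReal.ofReal_mul (by (clear * - ht; positivity)),
    ← ENNReal.ofReal_pow (by (clear * - ht; positivity)), ← NNReal.coe_real_pi, ENNReal.ofReal_coe_nnreal]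

theorem measurable_hk : Measurable hk := by
  unfold hk
  fun_prop

theorem mem_Dk {w : ℂ} : w ∈ Dk ↔ 1 / 2 < hk w := by
  have h := hk_level (t := 1 / 2) (by norm_num)
  have h2 : ((1 / (2 * (1 / 2)) : ℝ)) = 1 := by norm_num
  rw [h2] at h
  have h3 : w ∈ {w : ℂ | 1 / 2 < hk w} ↔ w ∈ ball (((1 : ℝ)) : ℂ) 1 := by rw [h]
  rw [Complex.ofReal_one] at h3
  exact h3.symm

/-- the band -/
theorem volume_band {ν : ℝ} (h0 : 0 < ν) (h1 : ν ≤ 1 / 8) :
    volume {w : ℂ | |hk w - 1 / 2| < ν} ≤ ENNReal.ofReal (10 * π * ν) := by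
  have hsub : {w : ℂ | |hk w - 1 / 2| < ν} ⊆
      {w : ℂ | 1 / 2 - ν < hk w} \ {w : ℂ | 1 / 2 + ν < hk w} := by
    intro w hw
    simp only [mem_ofPred_eq, abs_lt] at hw
    refine ⟨by simp only [mem_ofPred_eq]; linarith only [hw], ?_⟩
    simp only [mem_ofPred_eq, not_lt]
    (clear * - hw; linarith only [hw])
  refine (measure_mono hsub).trans ?_
  have hs2 : {w : ℂ | 1 / 2 + ν < hk w} ⊆ {w : ℂ | 1 / 2 - ν < hk w} := by
    intro w hw
    simp only [mem_ofPred_eq] at hw ⊢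
    (clear * - h0 hw; linarith)
  have hm : MeasurableSet {w : ℂ | 1 / 2 + ν < hk w} :=
    measurableSet_lt measurable_const measurable_hk
  rw [measure_sdiff hs2 hm.nullMeasurableSet (by
      rw [volume_hk (by (clear * - h0 h1; linarith))]
      exact ENNReal.ofReal_ne_top),
    volume_hk (by (clear * - h1; linarith only [h1])), volume_hk (by linarith only [h0]), ← ENNReal.ofReal_sub _ (by (clear * - h0; positivity))]
  refine ENNReal.ofReal_le_ofReal ?_
  have hπ := Real.pi_pos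
  have e1 : π * (1 / (2 * (1 / 2 - ν))) ^ 2 - π * (1 / (2 * (1 / 2 + ν))) ^ 2 =
      π * ν * (8 / ((1 - 4 * ν ^ 2) ^ 2)) := by
    have h2 : (1 - 2 * ν) ≠ 0 := by linarith
    have h3 : (1 + 2 * ν) ≠ 0 := by (clear * - h0; linarith only [h0])
    have h4 : (1 - 4 * ν ^ 2) = (1 - 2 * ν) * (1 + 2 * ν) := by ring
    have h5 : 2 * (1 / 2 - ν) = 1 - 2 * ν := by ring
    have h6 : 2 * (1 / 2 + ν) = 1 + 2 * ν := by ring
    rw [h4, h5, h6]
    field_simp
    ring
  rw [e1]
  have h5 : 15 / 16 ≤ 1 - 4 * ν ^ 2 := by (clear * - h1 h0; nlinarith only [h0, h1])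
  have h6 : 8 / ((1 - 4 * ν ^ 2) ^ 2) ≤ 10 := by
    rw [div_le_iff₀ (by (clear * - h5; positivity))]
    nlinarith only [h5]
  have h7 : 0 < π * ν := by positivity
  nlinarith only [h6, h7]

end Pool.Agent.Helper17.G3
end
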