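import Mathlib
import Pool.Agent.Helper24.KG.G03

/- Helper24.KR.H89.G3.Defs -/
section
/-!
# Project G3 (MP_16b0ee_an), part II: the strict functional, definitions

`J k δ b Q p ζ` is the integral of `|y - p|^(-δ) (1 - δ b k ((y - p) / ζ))` over `Q` (`k` is the template,
`ζ` its scale and direction, `b` a small constant), `Vh` its infimum over `ζ ≠ 0`.

Normalised situation: `p = 0`, the point moves to the real number `m`; reference disk
`Dk = B(1/2, 1/2) = {Re (1/y) > 1}`; weights `W = ‖y‖^(-δ)`, `W' = ‖y - m‖^(-δ)`;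
`Xl m y = log (|y| / |y - m|)` (close to `m Re (1/y)`); `Ds δ m Q` is the `W'`-measure of the symmetric
difference of `Q` and `Dk`; `Om` is a common bound of all error densities.

`Tp` : the template. `good` : when the template is in the extremal position the move of the point
increases the template term at a definite rate; `bad` : for the reference disk all other positions are
worse than `ζ = 1/2`.
-/

set_option autoImplicit false

namespace Pool.Agent.Helper89.G3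

open MeasureTheory Set
open scoped Real

/-- the functional with template `k` in position `ζ` -/
noncomputable def J (k : ℂ → ℝ) (δ b : ℝ) (Q : Set ℂ) (p ζ : ℂ) : ℝ :=
  ∫ y in Q, ‖y - p‖ ^ (-δ) * (1 - δ * b * k ((y - p) / ζ))

/-- the strict functional -/
noncomputable def Vh (k : ℂ → ℝ) (δ b : ℝ) (Q : Set ℂ) (p : ℂ) : ℝ :=
  ⨅ ζ : {ζ : ℂ // ζ ≠ 0}, J k δ b Q p ζ

/-- the reference disk -/
def Dk : Set ℂ := Metric.ball (1 / 2 : ℂ) (1 / 2)

/-- weighted measure of the symmetric difference of `Q` and the reference disk -/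
noncomputable def Ds (δ m : ℝ) (Q : Set ℂ) : ℝ :=
  (∫ y in Q \ Dk, ‖y - (m : ℂ)‖ ^ (-δ)) + ∫ y in Dk \ Q, ‖y - (m : ℂ)‖ ^ (-δ)

/-- the logarithmic ratio -/
noncomputable def Xl (m : ℝ) (y : ℂ) : ℝ := Real.log (‖y‖ / ‖y - (m : ℂ)‖)

/-- the common bound of the error densities -/
noncomputable def Om (δ m : ℝ) (y : ℂ) : ℝ :=
  (‖y‖ ^ (-δ) + ‖y - (m : ℂ)‖ ^ (-δ)) * (1 / ‖y‖ + 1 / ‖y - (m : ℂ)‖ + 1)

/-- the layer around the reference circle, and a small disk around `0` -/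
def Ly (τ r : ℝ) : Set ℂ := {y : ℂ | |(1 / y).re - 1| < τ} ∪ Metric.ball 0 r

/-- templates -/
structure Tp (k : ℂ → ℝ) (K L c₁ c₂ r m₁ : ℝ) : Prop where
  bd : ∀ w : ℂ, |k w| ≤ K
  lip : ∀ w w' : ℂ, |k w - k w'| ≤ L * ‖w - w'‖
  far : ∀ w : ℂ, 4 ≤ ‖w‖ → k w = k 4
  bad : ∀ ζ : ℂ, ζ ≠ 0 → r ≤ ‖1 / (2 * ζ) - 1‖ →
    (∫ y in Dk, k (y / ζ)) + c₁ ≤ ∫ y in Dk, k (2 * y)
  good : ∀ ζ : ℂ, ζ ≠ 0 → ‖1 / (2 * ζ) - 1‖ ≤ r → ∀ m : ℝ, 0 < m → m ≤ m₁ →
    c₂ * m ≤ (∫ y in Dk, k ((y - m) / ζ)) - ∫ y in Dk, k (y / ζ)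

end Pool.Agent.Helper89.G3
end

/- Helper24.KR.H89.G3.Cov -/
section
/-!
# G3-COV: change of variables `y = c + a w`

`cov` : the real determinant of `w ↦ a w` on `ℂ` is `‖a‖^2`
(`integral_image_eq_integral_abs_det_fderiv_smul` as in `Helper90/G2/Area.lean`, or the scaling of the
Haar measure). `J_scale` : `‖c + a w - (c + a z)‖ = ‖a‖ ‖w - z‖`, the argument of the template is
unchanged. `vh_scale` : `ζ ↦ a ζ` is a bijection of the index set of the infimum, and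
`Real.mul_iInf_of_nonneg`.
-/

set_option autoImplicit false
set_option linter.unusedVariables false

namespace Pool.Agent.Helper89.G3

open MeasureTheory Set
open scoped Real

/-- the determinant of multiplication by a complex number -/
theorem Cov_det (c : ℂ) : (c • (1 : ℂ →L[ℝ] ℂ)).det = ‖c‖ ^ 2 := by
  have h1 : ((c • (1 : ℂ →L[ℝ] ℂ) : ℂ →L[ℝ] ℂ) : ℂ →ₗ[ℝ] ℂ) =
      ((c • (1 : ℂ →ₗ[ℂ] ℂ) : ℂ →ₗ[ℂ] ℂ)).restrictScalars ℝ := by
    ext x <;> simp
  rw [ContinuousLinearMap.det, h1, LinearMap.det_restrictScalars]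
  simp [Algebra.norm_complex_apply, Complex.normSq_eq_norm_sq]

theorem Cov_preimage {a : ℂ} (ha : a ≠ 0) (c : ℂ) (S : Set ℂ) :
    (fun w : ℂ => c + a * w) ⁻¹' S = (fun y : ℂ => (y - c) / a) '' S := by
  ext w
  simp only [mem_preimage, mem_image]
  constructor
  · intro h
    refine ⟨c + a * w, h, ?_⟩
    field_simp
    ring
  · rintro ⟨y, hy, rfl⟩
    have : c + a * ((y - c) / a) = y := by
      field_simp
      ring
    rw [this]
    exact hy

theorem Cov_image {a : ℂ} (ha : a ≠ 0) (c : ℂ) (S : Set ℂ) :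
    (fun w : ℂ => c + a * w) '' ((fun w : ℂ => c + a * w) ⁻¹' S) = S := by
  apply image_preimage_eq
  intro y
  refine ⟨(y - c) / a, ?_⟩
  show c + a * ((y - c) / a) = y
  field_simp
  ring

theorem Cov_meas (a c : ℂ) {S : Set ℂ} (hS : MeasurableSet S) :
    MeasurableSet ((fun w : ℂ => c + a * w) ⁻¹' S) := by
  have : Measurable (fun w : ℂ => c + a * w) := by fun_prop
  exact this hS

theorem cov {a : ℂ} (ha : a ≠ 0) (c : ℂ) {S : Set ℂ} (hS : MeasurableSet S) (f : ℂ → ℝ) :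
    ∫ y in S, f y = ‖a‖ ^ 2 * ∫ w in (fun w : ℂ => c + a * w) ⁻¹' S, f (c + a * w) := by
  have hd : ∀ x ∈ (fun w : ℂ => c + a * w) ⁻¹' S,
      HasFDerivWithinAt (fun w : ℂ => c + a * w) (a • (1 : ℂ →L[ℝ] ℂ))
        ((fun w : ℂ => c + a * w) ⁻¹' S) x := by
    intro x _
    have h1 : HasFDerivAt (fun w : ℂ => a • w) (a • (1 : ℂ →L[ℝ] ℂ)) x :=
      (hasFDerivAt_id x).const_smul a
    exact (h1.const_add c).hasFDerivWithinAt
  have hi : InjOn (fun w : ℂ => c + a * w) ((fun w : ℂ => c + a * w) ⁻¹' S) := by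
    intro x _ y _ hxy
    exact mul_left_cancel₀ ha (add_left_cancel hxy)
  have h := integral_image_eq_integral_abs_det_fderiv_smul volume (Cov_meas a c hS) hd hi f
  rw [Cov_image ha] at h
  rw [h]
  simp_rw [Cov_det, abs_of_nonneg (sq_nonneg ‖a‖), smul_eq_mul]
  rw [integral_const_mul]

theorem cov_fin {a : ℂ} (ha : a ≠ 0) (c : ℂ) {S : Set ℂ} (hS : MeasurableSet S)
    (hv : volume S < ⊤) : MeasurableSet ((fun w : ℂ => c + a * w) ⁻¹' S) ∧
      volume ((fun w : ℂ => c + a * w) ⁻¹' S) < ⊤ := by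
  refine ⟨Cov_meas a c hS, ?_⟩
  rw [Cov_preimage ha c S]
  have hd : ∀ x ∈ S, HasFDerivWithinAt (fun y : ℂ => (y - c) / a) (a⁻¹ • (1 : ℂ →L[ℝ] ℂ)) S x := by
    intro x _
    have h1 : HasFDerivAt (fun w : ℂ => a⁻¹ • w) (a⁻¹ • (1 : ℂ →L[ℝ] ℂ)) (x - c) :=
      (hasFDerivAt_id (x - c)).const_smul a⁻¹
    have h2 : HasFDerivAt (fun w : ℂ => w - c) (1 : ℂ →L[ℝ] ℂ) x := (hasFDerivAt_id x).sub_const c
    have h3 := h1.comp x h2
    have e1 : (fun w : ℂ => a⁻¹ • w) ∘ (fun w : ℂ => w - c) = fun y : ℂ => (y - c) / a := by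
      funext y
      simp only [Function.comp_apply, smul_eq_mul]
      rw [div_eq_inv_mul]
    rw [e1] at h3
    have e2 : (a⁻¹ • (1 : ℂ →L[ℝ] ℂ)).comp (1 : ℂ →L[ℝ] ℂ) = a⁻¹ • (1 : ℂ →L[ℝ] ℂ) := by
      ext <;> simp
    rw [e2] at h3
    exact h3.hasFDerivWithinAt
  have hi : InjOn (fun y : ℂ => (y - c) / a) S := by
    intro x _ y _ hxy
    have h4 : (x - c) / a = (y - c) / a := hxy
    rw [div_left_inj' ha] at h4
    exact sub_left_injective h4
  rw [← lintegral_abs_det_fderiv_eq_addHaar_image volume hS hd hi]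
  simp_rw [Cov_det]
  rw [lintegral_const, Measure.restrict_apply_univ]
  exact ENNReal.mul_lt_top ENNReal.ofReal_lt_top hv

theorem J_scale {k : ℂ → ℝ} {δ b : ℝ} {a : ℂ} (ha : a ≠ 0) {Q : Set ℂ} (hQ : MeasurableSet Q)
    (p z : ℂ) {ζ : ℂ} (hζ : ζ ≠ 0) :
    J k δ b Q (p + a * z) (a * ζ) =
      ‖a‖ ^ (2 - δ) * J k δ b ((fun w : ℂ => p + a * w) ⁻¹' Q) z ζ := by
  unfold J
  rw [cov ha p hQ]
  have h1 : ∀ w : ℂ, ‖p + a * w - (p + a * z)‖ ^ (-δ) *
      (1 - δ * b * k ((p + a * w - (p + a * z)) / (a * ζ))) =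
      ‖a‖ ^ (-δ) * (‖w - z‖ ^ (-δ) * (1 - δ * b * k ((w - z) / ζ))) := by
    intro w
    have e1 : p + a * w - (p + a * z) = a * (w - z) := by ring
    rw [e1, norm_mul, Real.mul_rpow (norm_nonneg _) (norm_nonneg _), mul_div_mul_left _ _ ha]
    ring
  simp_rw [h1]
  rw [integral_const_mul, ← mul_assoc]
  congr 1
  have ha0 : 0 < ‖a‖ := norm_pos_iff.2 ha
  rw [← Real.rpow_natCast, ← Real.rpow_add ha0]
  congr 1

theorem vh_scale {k : ℂ → ℝ} {δ b : ℝ} {a : ℂ} (ha : a ≠ 0) {Q : Set ℂ} (hQ : MeasurableSet Q)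
    (p z : ℂ) :
    Vh k δ b Q (p + a * z) =
      ‖a‖ ^ (2 - δ) * Vh k δ b ((fun w : ℂ => p + a * w) ⁻¹' Q) z := by
  unfold Vh
  rw [Real.mul_iInf_of_nonneg (Real.rpow_nonneg (norm_nonneg _) _)]
  symm
  refine Function.Surjective.iInf_congr
    (fun ζ : {ζ : ℂ // ζ ≠ 0} => (⟨a * ζ.1, mul_ne_zero ha ζ.2⟩ : {ζ : ℂ // ζ ≠ 0})) ?_ ?_
  · intro ζ
    refine ⟨⟨ζ.1 / a, div_ne_zero ζ.2 ha⟩, ?_⟩
    apply Subtype.ext
    show a * (ζ.1 / a) = ζ.1
    field_simp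
  · intro ζ
    exact J_scale ha hQ p z ζ.2

end Pool.Agent.Helper89.G3
end

/- Helper24.KR.H89.G3.PotH -/
section
/-!
# G3-POTH: elementary facts on `J` and `Vh`

`J = ∫ (nonnegative)` when `K b δ ≤ 1`, so `J` is monotone and additive in `Q` (compare `vp_add` in
`Helper90/G2/Pot.lean`), and the infimum over `ζ` is superadditive: for every `ζ`,
`J Q' ≥ J X + ∑ J (Q d) ≥ Vh X + ∑ Vh (Q d)` (`le_ciInf`, `ciInf_le`; bounded below by `0`).
`vh_move` : the inequality for every `ζ` with a suitable `ζ'` gives the inequality of the infima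
(`Vh Q p' ≤ J Q p' ζ' ≤ E + exp * J Q p ζ`, then the infimum over `ζ`).
-/

set_option autoImplicit false

namespace Pool.Agent.Helper89.G3

open MeasureTheory Set
open scoped Real
open Pool.Agent.Helper90.G2 (Vp vp_int vp_nonneg vp_mono)

variable {k : ℂ → ℝ} {K δ b : ℝ}

theorem poth_abs (hK : ∀ w, |k w| ≤ K) (h0 : 0 < δ) (hb : 0 ≤ b) (w : ℂ) :
    |δ * b * k w| ≤ K * b * δ := by
  rw [abs_mul, abs_of_nonneg (mul_nonneg h0.le hb)]
  nlinarith only [hK w, mul_nonneg h0.le hb]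

theorem poth_nn (hK : ∀ w, |k w| ≤ K) (h0 : 0 < δ) (hb : 0 ≤ b) (hb1 : K * b * δ ≤ 1) (p ζ y : ℂ) :
    0 ≤ ‖y - p‖ ^ (-δ) * (1 - δ * b * k ((y - p) / ζ)) := by
  have h := (abs_le.1 (poth_abs hK h0 hb ((y - p) / ζ))).2
  exact mul_nonneg (Real.rpow_nonneg (norm_nonneg _) _) (by linarith only [hb1, h])

theorem j_int (hk : Measurable k) (hK : ∀ w, |k w| ≤ K) (h0 : 0 < δ) (h1 : δ ≤ 1) {Q : Set ℂ}
    (hQ : MeasurableSet Q) (hv : volume Q < ⊤) (p ζ : ℂ) :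
    IntegrableOn (fun y : ℂ => ‖y - p‖ ^ (-δ) * (1 - δ * b * k ((y - p) / ζ))) Q := by
  have hI := vp_int h0 h1 hQ hv p
  refine Integrable.mono' (hI.mul_const (1 + |δ * b| * K)) ?_ ?_
  · have h2 : Measurable fun y : ℂ => k ((y - p) / ζ) := hk.comp (by fun_prop)
    exact (by fun_prop : Measurable fun y : ℂ =>
      ‖y - p‖ ^ (-δ) * (1 - δ * b * k ((y - p) / ζ))).aestronglyMeasurable
  · refine Filter.Eventually.of_forall fun y => ?_
    rw [norm_mul, Real.norm_of_nonneg (Real.rpow_nonneg (norm_nonneg _) _)]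
    refine mul_le_mul_of_nonneg_left ?_ (Real.rpow_nonneg (norm_nonneg _) _)
    refine (norm_sub_le _ _).trans ?_
    rw [norm_one, norm_mul, Real.norm_eq_abs, Real.norm_eq_abs]
    have := mul_le_mul_of_nonneg_left (hK ((y - p) / ζ)) (abs_nonneg (δ * b))
    (clear * - this; linarith)

theorem j_lo (hk : Measurable k) (hK : ∀ w, |k w| ≤ K) (h0 : 0 < δ) (h1 : δ ≤ 1) (hb : 0 ≤ b)
    {Q : Set ℂ} (hQ : MeasurableSet Q) (hv : volume Q < ⊤) (p ζ : ℂ) :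
    (1 - K * b * δ) * Vp δ Q p ≤ J k δ b Q p ζ := by
  unfold Vp J
  rw [← integral_const_mul]
  refine integral_mono ((vp_int h0 h1 hQ hv p).const_mul _) (j_int hk hK h0 h1 hQ hv p ζ)
    fun y => ?_
  have h := (abs_le.1 (poth_abs hK h0 hb ((y - p) / ζ))).2
  simp only
  rw [mul_comm]
  exact mul_le_mul_of_nonneg_left (by linarith only [h]) (Real.rpow_nonneg (norm_nonneg _) _)

theorem j_up (hk : Measurable k) (hK : ∀ w, |k w| ≤ K) (h0 : 0 < δ) (h1 : δ ≤ 1) (hb : 0 ≤ b)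
    {Q : Set ℂ} (hQ : MeasurableSet Q) (hv : volume Q < ⊤) (p ζ : ℂ) :
    J k δ b Q p ζ ≤ (1 + K * b * δ) * Vp δ Q p := by
  unfold Vp J
  rw [← integral_const_mul]
  refine integral_mono (j_int hk hK h0 h1 hQ hv p ζ) ((vp_int h0 h1 hQ hv p).const_mul _)
    fun y => ?_
  have h := (abs_le.1 (poth_abs hK h0 hb ((y - p) / ζ))).1
  simp only
  rw [mul_comm (1 + K * b * δ)]
  exact mul_le_mul_of_nonneg_left (by linarith only [h]) (Real.rpow_nonneg (norm_nonneg _) _)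

theorem j_nonneg (hK : ∀ w, |k w| ≤ K) (h0 : 0 < δ) (hb : 0 ≤ b) (hb1 : K * b * δ ≤ 1)
    (Q : Set ℂ) (p ζ : ℂ) : 0 ≤ J k δ b Q p ζ :=
  integral_nonneg fun y => poth_nn hK h0 hb hb1 p ζ y

theorem poth_bdd (hK : ∀ w, |k w| ≤ K) (h0 : 0 < δ) (hb : 0 ≤ b) (hb1 : K * b * δ ≤ 1)
    (Q : Set ℂ) (p : ℂ) :
    BddBelow (range fun ζ : {ζ : ℂ // ζ ≠ 0} => J k δ b Q p ζ) := by
  refine ⟨0, ?_⟩
  rintro _ ⟨ζ, rfl⟩
  exact j_nonneg hK h0 hb hb1 Q p ζ

theorem vh_le (hK : ∀ w, |k w| ≤ K) (h0 : 0 < δ) (hb : 0 ≤ b) (hb1 : K * b * δ ≤ 1)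
    (Q : Set ℂ) (p : ℂ) {ζ : ℂ} (hζ : ζ ≠ 0) : Vh k δ b Q p ≤ J k δ b Q p ζ :=
  ciInf_le (poth_bdd hK h0 hb hb1 Q p) (⟨ζ, hζ⟩ : {ζ : ℂ // ζ ≠ 0})

theorem le_vh {Q : Set ℂ} {p : ℂ} {x : ℝ} (h : ∀ ζ : ℂ, ζ ≠ 0 → x ≤ J k δ b Q p ζ) :
    x ≤ Vh k δ b Q p := by
  have : Nonempty {ζ : ℂ // ζ ≠ 0} := ⟨⟨1, one_ne_zero⟩⟩
  exact le_ciInf fun ζ => h ζ.1 ζ.2

theorem vh_nonneg (hK : ∀ w, |k w| ≤ K) (h0 : 0 < δ) (hb : 0 ≤ b) (hb1 : K * b * δ ≤ 1)
    (Q : Set ℂ) (p : ℂ) : 0 ≤ Vh k δ b Q p :=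
  le_vh fun ζ _ => j_nonneg hK h0 hb hb1 Q p ζ

theorem vh_lo (hk : Measurable k) (hK : ∀ w, |k w| ≤ K) (h0 : 0 < δ) (h1 : δ ≤ 1) (hb : 0 ≤ b)
    (_hb1 : K * b * δ ≤ 1) {Q : Set ℂ} (hQ : MeasurableSet Q) (hv : volume Q < ⊤) (p : ℂ) :
    (1 - K * b * δ) * Vp δ Q p ≤ Vh k δ b Q p :=
  le_vh fun ζ _ => j_lo hk hK h0 h1 hb hQ hv p ζ

theorem vh_up (hk : Measurable k) (hK : ∀ w, |k w| ≤ K) (h0 : 0 < δ) (h1 : δ ≤ 1) (hb : 0 ≤ b)
    (hb1 : K * b * δ ≤ 1) {Q : Set ℂ} (hQ : MeasurableSet Q) (hv : volume Q < ⊤) (p : ℂ) :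
    Vh k δ b Q p ≤ (1 + K * b * δ) * Vp δ Q p :=
  (vh_le hK h0 hb hb1 Q p one_ne_zero).trans (j_up hk hK h0 h1 hb hQ hv p 1)

theorem j_add (hk : Measurable k) (hK : ∀ w, |k w| ≤ K) (h0 : 0 < δ) (h1 : δ ≤ 1) (hb : 0 ≤ b)
    (hb1 : K * b * δ ≤ 1) (N : ℕ) (Q : ℕ → Set ℂ) (X Q' : Set ℂ)
    (hQ : ∀ d < N, MeasurableSet (Q d)) (_hX : MeasurableSet X) (hQ' : MeasurableSet Q')
    (hv : volume Q' < ⊤) (hs : ∀ d < N, Q d ⊆ Q') (hXs : X ⊆ Q')
    (hd : ∀ d < N, ∀ e < N, d ≠ e → Disjoint (Q d) (Q e)) (hXd : ∀ d < N, Disjoint X (Q d))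
    (p ζ : ℂ) : J k δ b X p ζ + ∑ d ∈ Finset.range N, J k δ b (Q d) p ζ ≤ J k δ b Q' p ζ := by
  have hI := j_int (b := b) hk hK h0 h1 hQ' hv p ζ
  have hU : ⋃ d ∈ Finset.range N, Q d ⊆ Q' := by
    intro w hw
    simp only [mem_iUnion, Finset.mem_range, exists_prop] at hw
    obtain ⟨d, hdN, hw⟩ := hw
    exact hs d hdN hw
  have hUm : MeasurableSet (⋃ d ∈ Finset.range N, Q d) :=
    Finset.measurableSet_biUnion _ fun d hdN => hQ d (Finset.mem_range.mp hdN)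
  have h2 : ∫ y in ⋃ d ∈ Finset.range N, Q d,
      ‖y - p‖ ^ (-δ) * (1 - δ * b * k ((y - p) / ζ)) =
      ∑ d ∈ Finset.range N, J k δ b (Q d) p ζ := by
    refine integral_biUnion_finset (Finset.range N) (fun d hdN => hQ d (Finset.mem_range.mp hdN))
      ?_ (fun d hdN => hI.mono_set (hs d (Finset.mem_range.mp hdN)))
    intro a ha b hb hab
    exact hd a (Finset.mem_range.mp ha) b (Finset.mem_range.mp hb) hab
  have h3 : Disjoint X (⋃ d ∈ Finset.range N, Q d) := by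
    rw [disjoint_iUnion₂_right]
    exact fun d hdN => hXd d (Finset.mem_range.mp hdN)
  have h4 : ∫ y in X ∪ ⋃ d ∈ Finset.range N, Q d,
      ‖y - p‖ ^ (-δ) * (1 - δ * b * k ((y - p) / ζ)) =
      J k δ b X p ζ + ∑ d ∈ Finset.range N, J k δ b (Q d) p ζ := by
    rw [← h2]
    exact setIntegral_union h3 hUm (hI.mono_set hXs) (hI.mono_set hU)
  rw [← h4]
  exact setIntegral_mono_set hI (Filter.Eventually.of_forall fun y => poth_nn hK h0 hb hb1 p ζ y)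
    (union_subset hXs hU).eventuallyLE

theorem vh_add (hk : Measurable k) (hK : ∀ w, |k w| ≤ K) (h0 : 0 < δ) (h1 : δ ≤ 1) (hb : 0 ≤ b)
    (hb1 : K * b * δ ≤ 1) (N : ℕ) (Q : ℕ → Set ℂ) (X Q' : Set ℂ)
    (hQ : ∀ d < N, MeasurableSet (Q d)) (hX : MeasurableSet X) (hQ' : MeasurableSet Q')
    (hv : volume Q' < ⊤) (hs : ∀ d < N, Q d ⊆ Q') (hXs : X ⊆ Q')
    (hd : ∀ d < N, ∀ e < N, d ≠ e → Disjoint (Q d) (Q e)) (hXd : ∀ d < N, Disjoint X (Q d))
    (p : ℂ) : Vh k δ b X p + ∑ d ∈ Finset.range N, Vh k δ b (Q d) p ≤ Vh k δ b Q' p := by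
  refine le_vh fun ζ hζ => ?_
  refine le_trans (add_le_add (vh_le hK h0 hb hb1 X p hζ)
    (Finset.sum_le_sum fun d _ => vh_le hK h0 hb hb1 (Q d) p hζ)) ?_
  exact j_add hk hK h0 h1 hb hb1 N Q X Q' hQ hX hQ' hv hs hXs hd hXd p ζ

theorem vh_move (hK : ∀ w, |k w| ≤ K) (h0 : 0 < δ) (hb : 0 ≤ b) (hb1 : K * b * δ ≤ 1)
    {Q : Set ℂ} {p p' : ℂ} {e E : ℝ} (he : 0 ≤ e)
    (h : ∀ ζ : ℂ, ζ ≠ 0 → ∃ ζ' : ℂ, ζ' ≠ 0 ∧ J k δ b Q p' ζ' ≤ e * J k δ b Q p ζ + E) :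
    Vh k δ b Q p' ≤ e * Vh k δ b Q p + E := by
  have h2 : ∀ ζ : ℂ, ζ ≠ 0 → Vh k δ b Q p' ≤ e * J k δ b Q p ζ + E := by
    intro ζ hζ
    obtain ⟨ζ', hζ', h3⟩ := h ζ hζ
    exact (vh_le hK h0 hb hb1 Q p' hζ').trans h3
  rcases he.eq_or_lt with he | he
  · have := h2 1 one_ne_zero
    rw [← he] at this ⊢
    (clear * - this; linarith only [this])
  · have h3 : (Vh k δ b Q p' - E) / e ≤ Vh k δ b Q p := by
      refine le_vh fun ζ hζ => ?_
      rw [div_le_iff₀ he]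
      (clear * - h2 hζ; linarith only [h2 ζ hζ])
    rw [div_le_iff₀ he] at h3
    linarith only [h3]

end Pool.Agent.Helper89.G3
end

/- Helper24.KR.H89.G3.Mv -/
section
/-!
# G3-MV: from the key inequality to the move inequality

`Ph` is the density of helper17's key inequality: its integral over `Q` is
`J Q (2m) ζ - e^(δ m) J Q 0 ζ + ν (J Q 0 1 - J Q 0 ζ)`.
`vh_key` : so `Vh Q (2m) ≤ J Q (2m) ζ ≤ e^(δ m) J Q 0 ζ + ν (J Q 0 ζ - Vh Q 0) + E`; choose `ζ` with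
`J Q 0 ζ ≤ Vh Q 0 + η` (`exists_lt_of_ciInf_lt`), `ν ≤ B`, and let `η → 0`.
`vh_gen` : if `p' ≠ p`, `a = (p' - p) / (2m)`, `Q' = {w | p + a w ∈ Q}`: `Vh Q p = ‖a‖^(2-δ) Vh Q' 0`,
`Vh Q p' = ‖a‖^(2-δ) Vh Q' (2m)`, `‖a‖ ≤ s / (2m)`. If `p' = p`: `Vh ≥ 0` and `e^(δ m) ≥ 1`.
-/

set_option autoImplicit false
set_option linter.unusedVariables false

namespace Pool.Agent.Helper89.G3

open MeasureTheory Set
open scoped Real
open Pool.Agent.Helper90.G3 (er0)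

/-- the density of the key inequality -/
noncomputable def Ph (k : ℂ → ℝ) (δ b m ν : ℝ) (ζ y : ℂ) : ℝ :=
  ‖y - ((2 * m : ℝ) : ℂ)‖ ^ (-δ) * (1 - δ * b * k ((y - ((2 * m : ℝ) : ℂ)) / ζ)) -
    Real.exp (δ * m) * (‖y‖ ^ (-δ) * (1 - δ * b * k (y / ζ))) +
    ν * (δ * b * (‖y‖ ^ (-δ) * (k (y / ζ) - k y)))

variable {k : ℂ → ℝ} {K δ b m : ℝ}

theorem Mv_eq (ν : ℝ) (ζ y : ℂ) : Ph k δ b m ν ζ y =
    ‖y - ((2 * m : ℝ) : ℂ)‖ ^ (-δ) * (1 - δ * b * k ((y - ((2 * m : ℝ) : ℂ)) / ζ)) -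
    Real.exp (δ * m) * (‖y - 0‖ ^ (-δ) * (1 - δ * b * k ((y - 0) / ζ))) +
    ν * (‖y - 0‖ ^ (-δ) * (1 - δ * b * k ((y - 0) / 1)) -
      ‖y - 0‖ ^ (-δ) * (1 - δ * b * k ((y - 0) / ζ))) := by
  unfold Ph
  rw [sub_zero, div_one]
  ring

theorem Mv_lin {Q : Set ℂ} {f1 f2 f3 : ℂ → ℝ} (i1 : IntegrableOn f1 Q) (i2 : IntegrableOn f2 Q)
    (i3 : IntegrableOn f3 Q) (x ν : ℝ) :
    IntegrableOn (fun y => f1 y - x * f2 y + ν * (f3 y - f2 y)) Q ∧
      ∫ y in Q, (f1 y - x * f2 y + ν * (f3 y - f2 y)) =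
        (∫ y in Q, f1 y) - x * (∫ y in Q, f2 y) + ν * ((∫ y in Q, f3 y) - ∫ y in Q, f2 y) := by
  have j2 : IntegrableOn (fun y => x * f2 y) Q := i2.const_mul x
  have j12 : IntegrableOn (fun y => f1 y - x * f2 y) Q := i1.sub j2
  have j32 : IntegrableOn (fun y => f3 y - f2 y) Q := i3.sub i2
  have jn : IntegrableOn (fun y => ν * (f3 y - f2 y)) Q := j32.const_mul ν
  refine ⟨j12.add jn, ?_⟩
  have e1 : ∫ y in Q, (f1 y - x * f2 y + ν * (f3 y - f2 y)) =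
      (∫ y in Q, (f1 y - x * f2 y)) + ∫ y in Q, ν * (f3 y - f2 y) := integral_add j12 jn
  have e2 : ∫ y in Q, (f1 y - x * f2 y) = (∫ y in Q, f1 y) - ∫ y in Q, x * f2 y :=
    integral_sub i1 j2
  have e3 : ∫ y in Q, (f3 y - f2 y) = (∫ y in Q, f3 y) - ∫ y in Q, f2 y := integral_sub i3 i2
  rw [e1, e2, integral_const_mul, integral_const_mul, e3]

theorem Mv_int (hk : Measurable k) (hK : ∀ w, |k w| ≤ K) (h0 : 0 < δ) (h1 : δ ≤ 1) {Q : Set ℂ}
    (hQ : MeasurableSet Q) (hv : volume Q < ⊤) (ν : ℝ) (ζ : ℂ) :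
    IntegrableOn (Ph k δ b m ν ζ) Q ∧ ∫ y in Q, Ph k δ b m ν ζ y =
      J k δ b Q ((2 * m : ℝ) : ℂ) ζ - Real.exp (δ * m) * J k δ b Q 0 ζ +
        ν * (J k δ b Q 0 1 - J k δ b Q 0 ζ) := by
  have i1 := j_int (b := b) hk hK h0 h1 hQ hv ((2 * m : ℝ) : ℂ) ζ
  have i2 := j_int (b := b) hk hK h0 h1 hQ hv 0 ζ
  have i3 := j_int (b := b) hk hK h0 h1 hQ hv 0 1
  have e : (Ph k δ b m ν ζ) = fun y : ℂ =>
      ‖y - ((2 * m : ℝ) : ℂ)‖ ^ (-δ) * (1 - δ * b * k ((y - ((2 * m : ℝ) : ℂ)) / ζ)) -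
      Real.exp (δ * m) * (‖y - 0‖ ^ (-δ) * (1 - δ * b * k ((y - 0) / ζ))) +
      ν * (‖y - 0‖ ^ (-δ) * (1 - δ * b * k ((y - 0) / 1)) -
        ‖y - 0‖ ^ (-δ) * (1 - δ * b * k ((y - 0) / ζ))) := by
    funext y
    exact Mv_eq ν ζ y
  rw [e]
  exact Mv_lin i1 i2 i3 _ _

theorem vh_key (hk : Measurable k) (hK : ∀ w, |k w| ≤ K) (h0 : 0 < δ) (h1 : δ ≤ 1) (hb : 0 ≤ b)
    (hb1 : K * b * δ ≤ 1) {B E : ℝ} (hB : 0 ≤ B)
    (hkey : ∀ ζ : ℂ, ζ ≠ 0 → ∃ ν : ℝ, 0 ≤ ν ∧ ν ≤ B ∧ ∃ H : ℂ → ℝ, Integrable H ∧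
      (∀ y, 0 ≤ H y) ∧ (∀ᵐ y, Ph k δ b m ν ζ y ≤ H y) ∧ ∫ y, H y ≤ E)
    {Q : Set ℂ} (hQ : MeasurableSet Q) (hv : volume Q < ⊤) :
    Vh k δ b Q ((2 * m : ℝ) : ℂ) ≤ Real.exp (δ * m) * Vh k δ b Q 0 + E := by
  refine le_of_forall_pos_le_add fun η hη => ?_
  have hex : 0 < Real.exp (δ * m) := Real.exp_pos _
  have hD : 0 < Real.exp (δ * m) + B := by linarith only [hB, hex]
  have hη' : 0 < η / (Real.exp (δ * m) + B) := div_pos hη hD
  have : Nonempty {ζ : ℂ // ζ ≠ 0} := ⟨⟨1, one_ne_zero⟩⟩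
  obtain ⟨ζ, hζ⟩ := exists_lt_of_ciInf_lt
    (show (⨅ ζ : {ζ : ℂ // ζ ≠ 0}, J k δ b Q 0 ζ) <
      Vh k δ b Q 0 + η / (Real.exp (δ * m) + B) from lt_add_of_pos_right _ hη')
  obtain ⟨ν, hν0, hνB, H, hH, hH0, hHle, hHE⟩ := hkey ζ.1 ζ.2
  obtain ⟨g1, g2⟩ := Mv_int (b := b) (m := m) hk hK h0 h1 hQ hv ν ζ.1
  have g3 : ∫ y in Q, Ph k δ b m ν ζ.1 y ≤ E := by
    calc ∫ y in Q, Ph k δ b m ν ζ.1 y ≤ ∫ y in Q, H y :=
          integral_mono_ae g1 hH.integrableOn (ae_restrict_of_ae hHle)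
      _ ≤ ∫ y, H y := setIntegral_le_integral hH (Filter.Eventually.of_forall hH0)
      _ ≤ E := hHE
  rw [g2] at g3
  have g4 := vh_le hK h0 hb hb1 Q ((2 * m : ℝ) : ℂ) ζ.2
  have g5 := vh_le hK h0 hb hb1 Q 0 (one_ne_zero (α := ℂ))
  have g6 := vh_le hK h0 hb hb1 Q 0 ζ.2
  have hζ' : J k δ b Q 0 ζ.1 ≤ Vh k δ b Q 0 + η / (Real.exp (δ * m) + B) := hζ.le
  have g7 : ν * (J k δ b Q 0 ζ.1 - J k δ b Q 0 1) ≤ B * (η / (Real.exp (δ * m) + B)) := by
    have k1 : J k δ b Q 0 ζ.1 - J k δ b Q 0 1 ≤ η / (Real.exp (δ * m) + B) := by (clear * - g5 hζ'; linarith only [g5, hζ'])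
    calc ν * (J k δ b Q 0 ζ.1 - J k δ b Q 0 1) ≤ ν * (η / (Real.exp (δ * m) + B)) :=
          mul_le_mul_of_nonneg_left k1 hν0
      _ ≤ B * (η / (Real.exp (δ * m) + B)) := mul_le_mul_of_nonneg_right hνB hη'.le
  have g8 : Real.exp (δ * m) * J k δ b Q 0 ζ.1 ≤
      Real.exp (δ * m) * (Vh k δ b Q 0 + η / (Real.exp (δ * m) + B)) :=
    mul_le_mul_of_nonneg_left hζ' hex.le
  have g9 : (Real.exp (δ * m) + B) * (η / (Real.exp (δ * m) + B)) = η := by
    (clear * - hB hη; field_simp)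
  linarith only [g3, g4, g7, g8, g9]

theorem Mv_er {c₀ s a : ℝ} (h0 : 0 < δ) (h1 : δ ≤ 1) (hm : 0 < m) (hs : 0 < s) (ha : 0 ≤ a)
    (has : a ≤ s / (2 * m)) (hc : c₀ ≤ 1) :
    a ^ (2 - δ) * ((1 - c₀) * (δ * π * m * 2 ^ (-δ))) ≤ (1 - c₀) * er0 δ m s := by
  have hs2 : 0 < s / (2 * m) := by (clear * - hs hm; positivity)
  have e1 : a ^ (2 - δ) ≤ (s / (2 * m)) ^ (2 - δ) := Real.rpow_le_rpow ha has (by (clear * - h1; linarith only [h1]))
  have e2 : (s / (2 * m)) ^ (2 - δ) = (s / (2 * m)) ^ 2 * (s / (2 * m)) ^ (-δ) := by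
    rw [← Real.rpow_natCast, ← Real.rpow_add hs2]
    congr 1
  have e3 : (s / m) ^ (-δ) = 2 ^ (-δ) * (s / (2 * m)) ^ (-δ) := by
    rw [← Real.mul_rpow (by norm_num) hs2.le]
    congr 1
    field_simp
  have e4 : 0 ≤ (1 - c₀) * (δ * π * m * 2 ^ (-δ)) := by
    have := Real.pi_pos
    have h2 : (0:ℝ) < 2 ^ (-δ) := Real.rpow_pos_of_pos (by norm_num) _
    have h3 : 0 ≤ 1 - c₀ := by (clear * - hc; linarith only [hc])
    (clear * - hc h0 hm; positivity)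
  refine (mul_le_mul_of_nonneg_right e1 e4).trans (le_of_eq ?_)
  unfold er0
  rw [e2, e3]
  field_simp
  ring

theorem vh_gen (hk : Measurable k) (hK : ∀ w, |k w| ≤ K) (h0 : 0 < δ) (h1 : δ ≤ 1) (hb : 0 ≤ b)
    (hb1 : K * b * δ ≤ 1) {c₀ : ℝ} (hc : c₀ ≤ 1) (hm : 0 < m)
    (h : ∀ Q : Set ℂ, MeasurableSet Q → volume Q < ⊤ →
      Vh k δ b Q ((2 * m : ℝ) : ℂ) ≤ Real.exp (δ * m) * Vh k δ b Q 0 +
        (1 - c₀) * (δ * π * m * 2 ^ (-δ)))
    {s : ℝ} (hs : 0 < s) {Q : Set ℂ} (hQ : MeasurableSet Q) (hv : volume Q < ⊤) {p p' : ℂ}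
    (hp : ‖p' - p‖ ≤ s) :
    Vh k δ b Q p' ≤ Real.exp (δ * m) * Vh k δ b Q p + (1 - c₀) * er0 δ m s := by
  by_cases hpp : p' = p
  · have g1 : 0 ≤ er0 δ m s := by
      unfold er0
      have := Real.pi_pos
      (clear * - h0 hs hm; positivity)
    have g2 : 0 ≤ (1 - c₀) * er0 δ m s := mul_nonneg (by (clear * - hc; linarith only [hc])) g1
    have g3 := vh_nonneg hK h0 hb hb1 Q p
    have g4 : 1 ≤ Real.exp (δ * m) := Real.one_le_exp (by (clear * - h0 hm; positivity))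
    rw [hpp]
    (clear * - g2 g3 g4; nlinarith only [g2, g3, g4])
  · have hm0 : ((2 * m : ℝ) : ℂ) ≠ 0 := by
      exact_mod_cast (by (clear * - hm; positivity) : (2 * m : ℝ) ≠ 0)
    obtain ⟨a, ha⟩ : ∃ a : ℂ, a = (p' - p) / ((2 * m : ℝ) : ℂ) := ⟨_, rfl⟩
    have ha0 : a ≠ 0 := by
      rw [ha]
      exact div_ne_zero (sub_ne_zero.2 hpp) hm0
    have e1 : p' = p + a * ((2 * m : ℝ) : ℂ) := by
      rw [ha, div_mul_cancel₀ _ hm0]
      ring
    have e2 : p = p + a * 0 := by ring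
    obtain ⟨q1, q2⟩ := cov_fin ha0 p hQ hv
    have g1 := h _ q1 q2
    have g2 : Vh k δ b Q p' =
        ‖a‖ ^ (2 - δ) * Vh k δ b ((fun w : ℂ => p + a * w) ⁻¹' Q) ((2 * m : ℝ) : ℂ) := by
      rw [e1]
      exact vh_scale ha0 hQ p _
    have g3 : Vh k δ b Q p = ‖a‖ ^ (2 - δ) * Vh k δ b ((fun w : ℂ => p + a * w) ⁻¹' Q) 0 := by
      conv_lhs => rw [e2]
      exact vh_scale ha0 hQ p 0
    have hna : ‖a‖ ≤ s / (2 * m) := by
      rw [ha, norm_div, Complex.norm_real, Real.norm_of_nonneg (by (clear * - hm; positivity))]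
      exact div_le_div_of_nonneg_right hp (by positivity)
    have g4 := Mv_er (c₀ := c₀) h0 h1 hm hs (norm_nonneg a) hna hc
    have g5 : 0 ≤ ‖a‖ ^ (2 - δ) := Real.rpow_nonneg (norm_nonneg _) _
    have g6 := mul_le_mul_of_nonneg_left g1 g5
    rw [g2, g3]
    (clear * - g4 g6; linarith only [g4, g6])

end Pool.Agent.Helper89.G3
end

/- Helper24.KR.H17.G3.Plane -/
section
/-!
# G3: the plane integral of the positive part, normalised form
-/

set_option autoImplicit false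
set_option linter.unusedVariables false

namespace Pool.Agent.Helper17.G3

open MeasureTheory Set Metric
open scoped Real

/-- layer cake for the kernel: `∫ (h - 1/2)_+ ≤ π / 2` -/
theorem lint_pos :
    ∫⁻ w : ℂ, ENNReal.ofReal (max (hk w - 1 / 2) 0) ≤ ENNReal.ofReal (π / 2) := by
  have hm : Measurable fun w : ℂ => max (hk w - 1 / 2) 0 :=
    (measurable_hk.sub_const _).max measurable_const
  rw [lintegral_eq_lintegral_meas_lt volume (Filter.Eventually.of_forall fun w =>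
    (le_max_right _ _ : (0 : ℝ) ≤ max (hk w - 1 / 2) 0)) hm.aemeasurable]
  calc ∫⁻ t in Ioi (0 : ℝ), volume {a : ℂ | t < max (hk a - 1 / 2) 0}
      ≤ ∫⁻ t in Ioi (0 : ℝ), ENNReal.ofReal (π / 4 * (t + 1 / 2) ^ (-2 : ℝ)) := by
        refine setLIntegral_mono' measurableSet_Ioi fun t ht => ?_
        have ht0 : 0 < t := ht
        have hsub : {a : ℂ | t < max (hk a - 1 / 2) 0} ⊆ {w : ℂ | t + 1 / 2 < hk w} := by
          intro a ha
          simp only [mem_ofPred_eq] at ha ⊢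
          rcases lt_max_iff.mp ha with h | h
          · (clear * - h; linarith only [h])
          · linarith only [ht0, h]
        refine (measure_mono hsub).trans ?_
        rw [volume_hk (by linarith only [ht0])]
        refine ENNReal.ofReal_le_ofReal (le_of_eq ?_)
        rw [Real.rpow_neg (by (clear * - ht0; linarith)), Real.rpow_two]
        field_simp
        ring
    _ = ENNReal.ofReal (∫ t in Ioi (0 : ℝ), π / 4 * (t + 1 / 2) ^ (-2 : ℝ)) := by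
        rw [ofReal_integral_eq_lintegral_ofReal]
        · refine Integrable.const_mul ?_ _
          exact integrableOn_add_rpow_Ioi_of_lt (by norm_num) (by norm_num)
        · filter_upwards [ae_restrict_mem measurableSet_Ioi] with t ht
          have ht0 : 0 < t := ht
          (clear * - ht0; positivity)
    _ = ENNReal.ofReal (π / 2) := by
        congr 1
        rw [integral_const_mul]
        have h4 : ∫ t in Ioi (0 : ℝ), (t + 1 / 2) ^ (-2 : ℝ) =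
            ∫ t in Ioi (1 / 2 : ℝ), t ^ (-2 : ℝ) := by
          rw [← integral_indicator measurableSet_Ioi, ← integral_indicator measurableSet_Ioi,
            ← integral_add_right_eq_self ((Ioi (1 / 2 : ℝ)).indicator
              fun t : ℝ => t ^ (-2 : ℝ)) (1 / 2)]
          refine integral_congr_ae (Filter.Eventually.of_forall fun t => ?_)
          by_cases ht : 0 < t
          · have ht' : 1 / 2 < t + 1 / 2 := by (clear * - ht; linarith)
            simp only [indicator, mem_Ioi, ht, ht', if_true]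
          · have ht' : ¬ 1 / 2 < t + 1 / 2 := by (clear * - ht; linarith only [ht])
            simp only [indicator, mem_Ioi, ht, ht', if_false]
        rw [h4, integral_Ioi_rpow_of_lt (by norm_num) (by norm_num)]
        norm_num
        ring

/-- the ball in which everything happens -/
def Bt : Set ℂ := closedBall 0 10

theorem meas_Bt : MeasurableSet Bt := isClosed_closedBall.measurableSet

theorem vol_Bt : volume Bt ≠ ⊤ := (isCompact_closedBall (0 : ℂ) 10).measure_ne_top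

theorem int_hk_Bt : IntegrableOn hk Bt := by
  have h1 := Helper39.G2.integrableOn_weight (d := 1) one_pos (by norm_num) 0 vol_Bt
  refine Integrable.mono' h1 measurable_hk.aestronglyMeasurable
    (Filter.Eventually.of_forall fun w => ?_)
  rw [Real.norm_eq_abs, sub_zero]
  exact abs_hk_le w

theorem Dk_sub : Dk ⊆ Bt := by
  intro w hw
  rw [Dk, mem_ball, dist_eq_norm] at hw
  rw [Bt, mem_closedBall, dist_zero_right]
  have h1 : w = (w - 1) + 1 := by ring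
  have h2 := norm_add_le (w - 1) 1
  rw [← h1, norm_one] at h2
  (clear * - hw h2; linarith only [hw, h2])

theorem meas_Dk : MeasurableSet Dk := isOpen_ball.measurableSet

/-- the positive part of the perturbed kernel -/
theorem pos_part {g : ℂ → ℝ} (hg : Measurable g) (hg1 : ∀ w, |g w| ≤ 1) {ν : ℝ}
    (hν : |ν| ≤ 1 / 8) :
    ∫ w in Bt, max (hk w + ν * g w - 1 / 2) 0 ≤
      π / 2 + ν * (∫ w in Dk, g w) + 10 * π * ν ^ 2 := by
  have hgi : IntegrableOn g Bt := by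
    refine Integrable.mono' (g := fun _ => (1 : ℝ)) (integrableOn_const vol_Bt) hg.aestronglyMeasurable
      (Filter.Eventually.of_forall fun w => ?_)
    rw [Real.norm_eq_abs]
    exact hg1 w
  have hpt : ∀ w : ℂ, max (hk w + ν * g w - 1 / 2) 0 ≤
      max (hk w - 1 / 2) 0 + Dk.indicator (fun w => ν * g w) w +
        {w : ℂ | |hk w - 1 / 2| < |ν|}.indicator (fun _ => |ν|) w := by
    intro w
    have h1 : |ν * g w| ≤ |ν| := by
      rw [abs_mul]
      exact mul_le_of_le_one_right (abs_nonneg _) (hg1 w)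
    have h1' := abs_le.mp h1
    by_cases hD : w ∈ Dk
    · rw [indicator_of_mem hD]
      have h2 := mem_Dk.mp hD
      by_cases hb : |hk w - 1 / 2| < |ν|
      · rw [indicator_of_mem (show w ∈ {w : ℂ | |hk w - 1 / 2| < |ν|} from hb)]
        have h3 := le_max_left (hk w - 1 / 2) 0
        refine max_le (by linarith only [h1', h3]) ?_
        (clear * - h1' h2 h3; linarith)
      · rw [indicator_of_notMem (show w ∉ {w : ℂ | |hk w - 1 / 2| < |ν|} from hb)]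
        have h3 := le_max_left (hk w - 1 / 2) 0
        rw [not_lt, abs_of_pos (show 0 < hk w - 1 / 2 by linarith only [h2])] at hb
        refine max_le (by linarith only [h3]) ?_
        (clear * - h1' hb h3; linarith only [h1', hb, h3])
    · rw [indicator_of_notMem hD]
      have h2 : hk w ≤ 1 / 2 := not_lt.mp fun h => hD (mem_Dk.mpr h)
      have h3 := le_max_right (hk w - 1 / 2) 0
      by_cases hb : |hk w - 1 / 2| < |ν|
      · rw [indicator_of_mem (show w ∈ {w : ℂ | |hk w - 1 / 2| < |ν|} from hb)]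
        refine max_le (by (clear * - h1' h2 h3; linarith only [h1', h2, h3])) ?_
        linarith only [h1', h3]
      · rw [indicator_of_notMem (show w ∉ {w : ℂ | |hk w - 1 / 2| < |ν|} from hb)]
        rw [not_lt, abs_of_nonpos (show hk w - 1 / 2 ≤ 0 by linarith only [h2])] at hb
        refine max_le (by linarith only [h1', h3, hb]) ?_
        linarith only [h3]
  have hmb : MeasurableSet {w : ℂ | |hk w - 1 / 2| < |ν|} :=
    measurableSet_lt ((measurable_hk.sub_const _).abs) measurable_const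
  have i1 : IntegrableOn (fun w => max (hk w - 1 / 2) 0) Bt :=
    (int_hk_Bt.sub (integrableOn_const vol_Bt)).pos_part
  have i2 : IntegrableOn (Dk.indicator fun w => ν * g w) Bt :=
    (hgi.const_mul ν).indicator meas_Dk
  have i3 : IntegrableOn ({w : ℂ | |hk w - 1 / 2| < |ν|}.indicator fun _ => |ν|) Bt :=
    (integrableOn_const (C := |ν|) vol_Bt).indicator hmb
  have i0 : IntegrableOn (fun w => max (hk w + ν * g w - 1 / 2) 0) Bt :=
    ((int_hk_Bt.add (hgi.const_mul ν)).sub (integrableOn_const vol_Bt)).pos_part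
  have i12 : Integrable (fun w => max (hk w - 1 / 2) 0 + Dk.indicator (fun w => ν * g w) w)
      (volume.restrict Bt) := i1.add i2
  have e1 : ∫ w in Bt, max (hk w - 1 / 2) 0 ≤ π / 2 := by
    rw [integral_eq_lintegral_of_nonneg_ae (Filter.Eventually.of_forall fun w =>
      (le_max_right _ _ : (0 : ℝ) ≤ max (hk w - 1 / 2) 0)) i1.1]
    refine ENNReal.toReal_le_of_le_ofReal (by positivity) (le_trans ?_ lint_pos)
    exact lintegral_mono' Measure.restrict_le_self le_rfl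
  have e2 : ∫ w in Bt, Dk.indicator (fun w => ν * g w) w = ν * ∫ w in Dk, g w := by
    rw [setIntegral_indicator meas_Dk, inter_eq_right.mpr Dk_sub, integral_const_mul]
  have e3 : ∫ w in Bt, {w : ℂ | |hk w - 1 / 2| < |ν|}.indicator (fun _ => |ν|) w ≤
      10 * π * ν ^ 2 := by
    rw [setIntegral_indicator hmb, setIntegral_const, smul_eq_mul, measureReal_def]
    rcases eq_or_ne ν 0 with h | h
    · subst h
      simp
    · have h2 : 0 < |ν| := abs_pos.mpr h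
      have h3 : (volume (Bt ∩ {w : ℂ | |hk w - 1 / 2| < |ν|})).toReal ≤ 10 * π * |ν| := by
        refine ENNReal.toReal_le_of_le_ofReal (by (clear * - h; positivity)) ?_
        exact (measure_mono inter_subset_right).trans (volume_band h2 hν)
      calc (volume (Bt ∩ {w : ℂ | |hk w - 1 / 2| < |ν|})).toReal * |ν|
          ≤ 10 * π * |ν| * |ν| := mul_le_mul_of_nonneg_right h3 h2.le
        _ = 10 * π * ν ^ 2 := by
          rw [mul_assoc, abs_mul_abs_self]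
          ring
  calc ∫ w in Bt, max (hk w + ν * g w - 1 / 2) 0
      ≤ ∫ w in Bt, (max (hk w - 1 / 2) 0 + Dk.indicator (fun w => ν * g w) w +
        {w : ℂ | |hk w - 1 / 2| < |ν|}.indicator (fun _ => |ν|) w) :=
        integral_mono i0 (i12.add i3) hpt
    _ = (∫ w in Bt, max (hk w - 1 / 2) 0) + (∫ w in Bt, Dk.indicator (fun w => ν * g w) w) +
        ∫ w in Bt, {w : ℂ | |hk w - 1 / 2| < |ν|}.indicator (fun _ => |ν|) w := by
        rw [integral_add i12 i3, integral_add i1 i2]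
    _ ≤ _ := by
        rw [e2]
        (clear * - e1 e3; linarith)

end Pool.Agent.Helper17.G3
end

/- Helper24.KR.H17.G3.Near -/
section
/-!
# G3: the difference quotient of the weight is near the kernel
-/

set_option autoImplicit false
set_option linter.unusedVariables false

namespace Pool.Agent.Helper17.G3

open MeasureTheory Set Metric
open scoped Real

/-- the difference quotient -/
noncomputable def qq (d s : ℝ) (w : ℂ) : ℝ := (‖w - s‖ ^ (-d) - ‖w‖ ^ (-d)) / (d * s)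

theorem rpow_sub_one {d y : ℝ} (hd : 0 < d) (hd1 : d ≤ 1 / 4) (hy : 0 < y) (hy1 : y ≤ 11) :
    |y ^ (-d) - 1| ≤ 40 * d * y ^ (-(1 / 2) : ℝ) := by
  rcases le_total y 1 with h | h
  · have h1 : 1 ≤ y ^ (-d) := Real.one_le_rpow_of_pos_of_le_one_of_nonpos hy h (by (clear * - hd; linarith only [hd]))
    rw [abs_of_nonneg (by (clear * - h1; linarith only [h1]))]
    have hlog : Real.log y ≤ 0 := Real.log_nonpos hy.le h
    have h2 : y ^ (-d) - 1 ≤ (-(d * Real.log y)) * y ^ (-d) := by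
      have h3 := Real.add_one_le_exp (d * Real.log y)
      have h4 : y ^ (-d) = Real.exp (-(d * Real.log y)) := by
        rw [Real.rpow_def_of_pos hy]
        congr 1
        ring
      have h5 : Real.exp (d * Real.log y) * y ^ (-d) = 1 := by
        rw [h4, ← Real.exp_add]
        simp
      have h6 : 0 < y ^ (-d) := by (clear * - h1; linarith only [h1])
      (clear * - h5 h3 h6; nlinarith only [h3, h5, h6])
    have h7 : y ^ (-d) ≤ y ^ (-(1 / 4) : ℝ) :=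
      Real.rpow_le_rpow_of_exponent_ge hy h (by (clear * - hd1; linarith only [hd1]))
    have h8 : -Real.log y ≤ 4 * y ^ (-(1 / 4) : ℝ) := by
      have h9 := Real.add_one_le_exp (-(1 / 4) * Real.log y)
      rw [Real.rpow_def_of_pos hy, mul_comm (Real.log y)]
      (clear * - h9; linarith only [h9])
    have h10 : y ^ (-(1 / 4) : ℝ) * y ^ (-(1 / 4) : ℝ) = y ^ (-(1 / 2) : ℝ) := by
      rw [← Real.rpow_add hy]
      norm_num
    have h11 : 0 < y ^ (-(1 / 4) : ℝ) := Real.rpow_pos_of_pos hy _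
    calc y ^ (-d) - 1 ≤ d * (-Real.log y) * y ^ (-d) := by linarith only [h2]
      _ ≤ d * (4 * y ^ (-(1 / 4) : ℝ)) * y ^ (-(1 / 4) : ℝ) := by
          refine mul_le_mul ?_ h7 (by linarith only [h1]) (by positivity)
          exact mul_le_mul_of_nonneg_left h8 hd.le
      _ = 4 * d * y ^ (-(1 / 2) : ℝ) := by rw [← h10]; ring
      _ ≤ _ := by
          have := Real.rpow_pos_of_pos hy (-(1 / 2) : ℝ)
          nlinarith only [hd, this]
  · have h1 : y ^ (-d) ≤ 1 := Real.rpow_le_one_of_one_le_of_nonpos h (by (clear * - hd; linarith only [hd]))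
    rw [abs_of_nonpos (by linarith only [h1])]
    have hlog : 0 ≤ Real.log y := Real.log_nonneg h
    have h2 : 1 - y ^ (-d) ≤ d * Real.log y := by
      have h3 := Real.add_one_le_exp (-(d * Real.log y))
      have h4 : y ^ (-d) = Real.exp (-(d * Real.log y)) := by
        rw [Real.rpow_def_of_pos hy]
        congr 1
        ring
      rw [h4]
      (clear * - h3; linarith only [h3])
    have h5 : Real.log y ≤ 10 := by
      have := Real.log_le_sub_one_of_pos hy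
      linarith only [hy1, this]
    have h6 : 1 / 4 ≤ y ^ (-(1 / 2) : ℝ) := by
      have h7 : (16 : ℝ) ^ (-(1 / 2) : ℝ) ≤ y ^ (-(1 / 2) : ℝ) :=
        Real.rpow_le_rpow_of_nonpos hy (by linarith only [hy1]) (by norm_num)
      have h8 : (16 : ℝ) ^ (-(1 / 2) : ℝ) = 1 / 4 := by
        rw [show (16 : ℝ) = 4 ^ (2 : ℝ) by norm_num, ← Real.rpow_mul (by norm_num)]
        norm_num
      (clear * - h7; linarith)
    (clear * - h2 hd h5 h6; nlinarith only [hd, h2, h5, h6])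

theorem hk_sub {w z : ℂ} (hw : w ≠ 0) (hz : z ≠ 0) :
    |hk z - hk w| ≤ ‖z - w‖ / (‖z‖ * ‖w‖) := by
  have h1 : ∀ u : ℂ, hk u = (u⁻¹).re := by
    intro u
    rw [hk, Complex.inv_re, Complex.normSq_eq_norm_sq]
  rw [h1, h1, ← Complex.sub_re]
  refine (Complex.abs_re_le_norm _).trans (le_of_eq ?_)
  rw [inv_sub_inv hz hw, norm_div, norm_mul, norm_sub_rev]

/-- mean value theorem -/
theorem qq_mvt {d s : ℝ} (hd : 0 < d) (hs : 0 < s) {w : ℂ} (hw : s < ‖w‖) :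
    ∃ c : ℝ, 0 < c ∧ c < s ∧ qq d s w = hk (w - c) * ‖w - c‖ ^ (-d) := by
  have hN : ∀ t : ℝ, ‖w - t‖ ^ 2 = (w.re - t) ^ 2 + w.im ^ 2 := by
    intro t
    rw [Complex.sq_norm, Complex.normSq_apply]
    simp only [Complex.sub_re, Complex.sub_im, Complex.ofReal_re, Complex.ofReal_im, sub_zero]
    ring
  have hpos : ∀ t : ℝ, 0 ≤ t → t ≤ s → 0 < ‖w - t‖ := by
    intro t h0 h1
    have h2 := norm_sub_norm_le w (t : ℂ)
    rw [Complex.norm_real, Real.norm_eq_abs, abs_of_nonneg h0] at h2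
    (clear * - hw h1 h2; linarith only [hw, h1, h2])
  have hrep : ∀ t : ℝ, ‖w - t‖ ^ (-d) = ((w.re - t) ^ 2 + w.im ^ 2) ^ (-d / 2) := by
    intro t
    rw [← hN, ← Real.rpow_natCast, ← Real.rpow_mul (norm_nonneg _)]
    congr 1
    push_cast
    ring
  have hder : ∀ t : ℝ, 0 ≤ t → t ≤ s → HasDerivAt (fun t : ℝ => ‖w - t‖ ^ (-d))
      (-(2 * (w.re - t)) * (-d / 2) * ((w.re - t) ^ 2 + w.im ^ 2) ^ (-d / 2 - 1)) t := by
    intro t h0 h1
    have h2 : HasDerivAt (fun t : ℝ => (w.re - t) ^ 2 + w.im ^ 2) (-(2 * (w.re - t))) t := by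
      have h3 := (((hasDerivAt_id t).const_sub w.re).pow 2).add_const (w.im ^ 2)
      refine h3.congr_deriv ?_
      simp
    have h4 : (w.re - t) ^ 2 + w.im ^ 2 ≠ 0 := by
      rw [← hN]
      have := hpos t h0 h1
      (clear * - this; positivity)
    have h5 := h2.rpow_const (p := -d / 2) (Or.inl h4)
    exact h5.congr_of_eventuallyEq (Filter.Eventually.of_forall fun t => hrep t)
  obtain ⟨c, hc, hc2⟩ := exists_hasDerivAt_eq_slope (fun t : ℝ => ‖w - t‖ ^ (-d)) _ hs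
    (fun t ht => (hder t ht.1 ht.2).continuousAt.continuousWithinAt)
    (fun t ht => hder t ht.1.le ht.2.le)
  refine ⟨c, hc.1, hc.2, ?_⟩
  have hz := hpos c hc.1.le hc.2.le
  have h1 : qq d s w = (‖w - s‖ ^ (-d) - ‖w - ((0 : ℝ) : ℂ)‖ ^ (-d)) / (s - 0) / d := by
    rw [qq, Complex.ofReal_zero, sub_zero, sub_zero, div_div, mul_comm d]
  rw [h1, ← hc2, ← hN]
  have h2 : (‖w - c‖ ^ 2) ^ (-d / 2 - 1) = ‖w - c‖ ^ (-d) / ‖w - c‖ ^ 2 := by
    rw [← Real.rpow_natCast, ← Real.rpow_mul hz.le, ← Real.rpow_sub hz]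
    congr 1
    push_cast
    ring
  rw [h2, hk]
  simp only [Complex.sub_re, Complex.ofReal_re]
  (clear * - hd hz; field_simp)

theorem rpow_sub_le {d x y : ℝ} (hd : 0 < d) (hd1 : d ≤ 1 / 4) (hx : 0 < x) (hx1 : x ≤ 1)
    (hxy : x ≤ y) :
    x ^ (-d) - y ^ (-d) ≤ 2 * d * x ^ (-(3 / 4) : ℝ) * y ^ (1 / 2 : ℝ) := by
  have hy : 0 < y := hx.trans_le hxy
  have h1 : y ^ (-d) = x ^ (-d) * Real.exp (-(d * Real.log (y / x))) := by
    rw [Real.log_div hy.ne' hx.ne', Real.rpow_def_of_pos hx, Real.rpow_def_of_pos hy,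
      ← Real.exp_add]
    congr 1
    ring
  have h2 := Real.add_one_le_exp (-(d * Real.log (y / x)))
  have h3 : 0 < x ^ (-d) := Real.rpow_pos_of_pos hx _
  have h4 : x ^ (-d) - y ^ (-d) ≤ x ^ (-d) * (d * Real.log (y / x)) := by
    rw [h1]
    (clear * - h2 h3; nlinarith only [h2, h3])
  have h5 : Real.log (y / x) ≤ 2 * (y / x) ^ (1 / 2 : ℝ) := by
    have h6 := Real.add_one_le_exp (1 / 2 * Real.log (y / x))
    rw [Real.rpow_def_of_pos (by (clear * - hy hx; positivity)), mul_comm (Real.log (y / x))]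
    linarith only [h6]
  have h7 : x ^ (-d) ≤ x ^ (-(1 / 4) : ℝ) :=
    Real.rpow_le_rpow_of_exponent_ge hx hx1 (by linarith only [hd1])
  have h8 : 0 < (y / x) ^ (1 / 2 : ℝ) := by positivity
  calc x ^ (-d) - y ^ (-d) ≤ x ^ (-d) * (d * Real.log (y / x)) := h4
    _ ≤ x ^ (-d) * (d * (2 * (y / x) ^ (1 / 2 : ℝ))) := by
        refine mul_le_mul_of_nonneg_left ?_ h3.le
        exact mul_le_mul_of_nonneg_left h5 hd.le
    _ ≤ x ^ (-(1 / 4) : ℝ) * (d * (2 * (y / x) ^ (1 / 2 : ℝ))) := by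
        refine mul_le_mul_of_nonneg_right h7 (by positivity)
    _ = 2 * d * x ^ (-(3 / 4) : ℝ) * y ^ (1 / 2 : ℝ) := by
        rw [Real.div_rpow hy.le hx.le]
        have h9 : x ^ (-(1 / 4) : ℝ) = x ^ (-(3 / 4) : ℝ) * x ^ (1 / 2 : ℝ) := by
          rw [← Real.rpow_add hx]
          norm_num
        rw [h9]
        have h10 : 0 < x ^ (1 / 2 : ℝ) := Real.rpow_pos_of_pos hx _
        (clear * - hx hy hd; field_simp)

theorem qq_near {d s : ℝ} (hd : 0 < d) (hd1 : d ≤ 1 / 4) (hs : 0 < s) (hs1 : s ≤ 1 / 3) {w : ℂ}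
    (hw : w ≠ 0) (hws : w ≠ s) (hB : w ∈ Bt) :
    |qq d s w - hk w| ≤
      (120 * d + 10 * s ^ (1 / 4 : ℝ)) * (‖w‖ ^ (-(3 / 2) : ℝ) + ‖w - s‖ ^ (-(3 / 2) : ℝ)) := by
  have ha : 0 < ‖w‖ := norm_pos_iff.mpr hw
  have hb : 0 < ‖w - s‖ := norm_pos_iff.mpr (sub_ne_zero.mpr hws)
  have hA : 0 < ‖w‖ ^ (-(3 / 2) : ℝ) := Real.rpow_pos_of_pos ha _
  have hBp : 0 < ‖w - s‖ ^ (-(3 / 2) : ℝ) := Real.rpow_pos_of_pos hb _
  have hs4 : 0 < s ^ (1 / 4 : ℝ) := Real.rpow_pos_of_pos hs _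
  have hs24 : s ^ (1 / 2 : ℝ) ≤ s ^ (1 / 4 : ℝ) :=
    Real.rpow_le_rpow_of_exponent_ge hs (by (clear * - hs1; linarith only [hs1])) (by norm_num)
  have hw10 : ‖w‖ ≤ 10 := by
    rwa [Bt, mem_closedBall, dist_zero_right] at hB
  rcases le_or_gt (2 * s) ‖w‖ with h | h
  · obtain ⟨c, hc0, hc1, hq⟩ := qq_mvt hd hs (w := w) (by (clear * - ha h; linarith only [ha, h]))
    set z : ℂ := w - c with hz
    have hzw : ‖z - w‖ = c := by
      rw [hz, sub_sub_cancel_left, norm_neg, Complex.norm_real, Real.norm_eq_abs, abs_of_pos hc0]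
    have hz2 : ‖w‖ / 2 ≤ ‖z‖ := by
      have h2 := norm_sub_norm_le w (c : ℂ)
      rw [Complex.norm_real, Real.norm_eq_abs, abs_of_nonneg hc0.le] at h2
      (clear * - h hc1 h2; linarith only [h, hc1, h2])
    have hz11 : ‖z‖ ≤ 11 := by
      have h2 := norm_sub_le w (c : ℂ)
      rw [Complex.norm_real, Real.norm_eq_abs, abs_of_nonneg hc0.le] at h2
      linarith only [hs1, hw10, hc1, h2]
    have hz0 : 0 < ‖z‖ := by linarith only [h, hc0, hc1, hz2]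
    have hzne : z ≠ 0 := norm_pos_iff.mp hz0
    have e1 : |qq d s w - hk w| ≤ |hk z| * |‖z‖ ^ (-d) - 1| + |hk z - hk w| := by
      rw [hq, ← abs_mul]
      have : hk z * ‖z‖ ^ (-d) - hk w = hk z * (‖z‖ ^ (-d) - 1) + (hk z - hk w) := by ring
      rw [this]
      exact abs_add_le _ _
    have e2 : |hk z| * |‖z‖ ^ (-d) - 1| ≤ 120 * d * ‖w‖ ^ (-(3 / 2) : ℝ) := by
      calc |hk z| * |‖z‖ ^ (-d) - 1| ≤ ‖z‖ ^ (-1 : ℝ) * (40 * d * ‖z‖ ^ (-(1 / 2) : ℝ)) :=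
            mul_le_mul (abs_hk_le z) (rpow_sub_one hd hd1 hz0 hz11) (abs_nonneg _)
              (Real.rpow_nonneg hz0.le _)
        _ = 40 * d * ‖z‖ ^ (-(3 / 2) : ℝ) := by
            have : ‖z‖ ^ (-(3 / 2) : ℝ) = ‖z‖ ^ (-1 : ℝ) * ‖z‖ ^ (-(1 / 2) : ℝ) := by
              rw [← Real.rpow_add hz0]
              norm_num
            rw [this]
            ring
        _ ≤ 40 * d * (‖w‖ / 2) ^ (-(3 / 2) : ℝ) := by
            refine mul_le_mul_of_nonneg_left ?_ (by positivity)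
            exact Real.rpow_le_rpow_of_nonpos (by positivity) hz2 (by norm_num)
        _ ≤ 40 * d * (3 * ‖w‖ ^ (-(3 / 2) : ℝ)) := by
            refine mul_le_mul_of_nonneg_left ?_ (by positivity)
            rw [Real.div_rpow ha.le (by norm_num), div_le_iff₀ (by positivity)]
            have h3 : (1 / 3 : ℝ) ≤ (2 : ℝ) ^ (-(3 / 2) : ℝ) := by
              rw [Real.rpow_neg (by norm_num), one_div]
              refine inv_anti₀ (by positivity) ?_
              have h4 : ((2 : ℝ) ^ (3 / 2 : ℝ)) ^ 2 ≤ 3 ^ 2 := by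
                rw [← Real.rpow_natCast, ← Real.rpow_mul (by norm_num)]
                norm_num
              exact le_of_sq_le_sq h4 (by norm_num)
            nlinarith only [hA, h3]
        _ = 120 * d * ‖w‖ ^ (-(3 / 2) : ℝ) := by ring
    have e3 : |hk z - hk w| ≤ 2 * s ^ (1 / 4 : ℝ) * ‖w‖ ^ (-(3 / 2) : ℝ) := by
      refine (hk_sub hw hzne).trans ?_
      rw [hzw, div_le_iff₀ (by positivity)]
      have h3 : ‖w‖ ^ (-(3 / 2) : ℝ) * ‖w‖ = ‖w‖ ^ (-(1 / 2) : ℝ) := by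
        nth_rewrite 2 [← Real.rpow_one ‖w‖]
        rw [← Real.rpow_add ha]
        norm_num
      have h4 : ‖w‖ ^ (-(1 / 2) : ℝ) * ‖w‖ = ‖w‖ ^ (1 / 2 : ℝ) := by
        nth_rewrite 2 [← Real.rpow_one ‖w‖]
        rw [← Real.rpow_add ha]
        norm_num
      have h5 : s ^ (1 / 2 : ℝ) ≤ ‖w‖ ^ (1 / 2 : ℝ) :=
        Real.rpow_le_rpow hs.le (by (clear * - h hc0 hc1; linarith only [h, hc0, hc1])) (by norm_num)
      have h6 : s ^ (1 / 2 : ℝ) * s ^ (1 / 2 : ℝ) = s := by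
        rw [← Real.rpow_add hs]
        norm_num
      have h7 : 0 < s ^ (1 / 2 : ℝ) := Real.rpow_pos_of_pos hs _
      calc c ≤ s := hc1.le
        _ = s ^ (1 / 2 : ℝ) * s ^ (1 / 2 : ℝ) := h6.symm
        _ ≤ s ^ (1 / 4 : ℝ) * ‖w‖ ^ (1 / 2 : ℝ) := mul_le_mul hs24 h5 h7.le hs4.le
        _ = s ^ (1 / 4 : ℝ) * (‖w‖ ^ (-(3 / 2) : ℝ) * ‖w‖ * ‖w‖) := by rw [h3, h4]
        _ = 2 * s ^ (1 / 4 : ℝ) * ‖w‖ ^ (-(3 / 2) : ℝ) * (‖w‖ / 2 * ‖w‖) := by ring
        _ ≤ 2 * s ^ (1 / 4 : ℝ) * ‖w‖ ^ (-(3 / 2) : ℝ) * (‖z‖ * ‖w‖) := by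
            refine mul_le_mul_of_nonneg_left ?_ (by positivity)
            exact mul_le_mul_of_nonneg_right hz2 ha.le
    nlinarith only [hd, hA, hBp, hs4, e1, e2, e3]
  · have hb3 : ‖w - s‖ ≤ 3 * s := by
      have h2 := norm_sub_le w (s : ℂ)
      rw [Complex.norm_real, Real.norm_eq_abs, abs_of_nonneg hs.le] at h2
      linarith only [h, h2]
    have e1 : |hk w| ≤ 2 * s ^ (1 / 4 : ℝ) * ‖w‖ ^ (-(3 / 2) : ℝ) := by
      refine (abs_hk_le w).trans ?_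
      have h3 : ‖w‖ ^ (-1 : ℝ) = ‖w‖ ^ (1 / 2 : ℝ) * ‖w‖ ^ (-(3 / 2) : ℝ) := by
        rw [← Real.rpow_add ha]
        norm_num
      rw [h3]
      refine mul_le_mul_of_nonneg_right ?_ hA.le
      calc ‖w‖ ^ (1 / 2 : ℝ) ≤ (4 * s) ^ (1 / 2 : ℝ) :=
            Real.rpow_le_rpow ha.le (by linarith only [ha, h]) (by norm_num)
        _ = 2 * s ^ (1 / 2 : ℝ) := by
            rw [Real.mul_rpow (by norm_num) hs.le]
            congr 1
            rw [show (4 : ℝ) = 2 ^ (2 : ℝ) by norm_num, ← Real.rpow_mul (by norm_num)]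
            norm_num
        _ ≤ 2 * s ^ (1 / 4 : ℝ) := by linarith only [hs24]
    have key : ∀ x y : ℝ, 0 < x → x ≤ y → y ≤ 3 * s →
        (x ^ (-d) - y ^ (-d)) / (d * s) ≤ 8 * s ^ (1 / 4 : ℝ) * x ^ (-(3 / 2) : ℝ) := by
      intro x y hx hxy hy
      have h1 := rpow_sub_le hd hd1 hx (by linarith only [hs1, hxy, hy]) hxy
      have hy0 : 0 < y := hx.trans_le hxy
      rw [div_le_iff₀ (by positivity)]
      refine h1.trans ?_
      have h2 : x ^ (-(3 / 4) : ℝ) = x ^ (3 / 4 : ℝ) * x ^ (-(3 / 2) : ℝ) := by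
        rw [← Real.rpow_add hx]
        norm_num
      have h3 : x ^ (3 / 4 : ℝ) ≤ (3 * s) ^ (3 / 4 : ℝ) :=
        Real.rpow_le_rpow hx.le (by linarith only [hxy, hy]) (by norm_num)
      have h4 : y ^ (1 / 2 : ℝ) ≤ (3 * s) ^ (1 / 2 : ℝ) :=
        Real.rpow_le_rpow hy0.le hy (by norm_num)
      have h5 : (3 * s) ^ (3 / 4 : ℝ) * (3 * s) ^ (1 / 2 : ℝ) ≤ 4 * (s ^ (1 / 4 : ℝ) * s) := by
        rw [← Real.rpow_add (by positivity), Real.mul_rpow (by norm_num) hs.le]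
        have h6 : s ^ ((3 / 4 : ℝ) + 1 / 2) = s ^ (1 / 4 : ℝ) * s := by
          nth_rewrite 3 [← Real.rpow_one s]
          rw [← Real.rpow_add hs]
          norm_num
        rw [h6]
        refine mul_le_mul_of_nonneg_right ?_ (by positivity)
        have h7 : ((3 : ℝ) ^ ((3 / 4 : ℝ) + 1 / 2)) ^ 4 ≤ 4 ^ 4 := by
          rw [← Real.rpow_natCast, ← Real.rpow_mul (by norm_num)]
          norm_num
        exact le_of_pow_le_pow_left₀ (by norm_num) (by norm_num) h7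
      have h8 : 0 < x ^ (-(3 / 2) : ℝ) := Real.rpow_pos_of_pos hx _
      rw [h2]
      calc 2 * d * (x ^ (3 / 4 : ℝ) * x ^ (-(3 / 2) : ℝ)) * y ^ (1 / 2 : ℝ)
          = 2 * d * x ^ (-(3 / 2) : ℝ) * (x ^ (3 / 4 : ℝ) * y ^ (1 / 2 : ℝ)) := by ring
        _ ≤ 2 * d * x ^ (-(3 / 2) : ℝ) * ((3 * s) ^ (3 / 4 : ℝ) * (3 * s) ^ (1 / 2 : ℝ)) := by
            refine mul_le_mul_of_nonneg_left ?_ (by positivity)
            exact mul_le_mul h3 h4 (by (clear * - hy0; positivity)) (by positivity)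
        _ ≤ 2 * d * x ^ (-(3 / 2) : ℝ) * (4 * (s ^ (1 / 4 : ℝ) * s)) :=
            mul_le_mul_of_nonneg_left h5 (by positivity)
        _ = _ := by ring
    have e2 : |qq d s w| ≤ 8 * s ^ (1 / 4 : ℝ) * (‖w‖ ^ (-(3 / 2) : ℝ) + ‖w - s‖ ^ (-(3 / 2) : ℝ)) := by
      rcases le_total ‖w‖ ‖w - s‖ with hab | hab
      · have h1 := key ‖w‖ ‖w - s‖ ha hab hb3
        have h2 : ‖w - s‖ ^ (-d) ≤ ‖w‖ ^ (-d) :=
          Real.rpow_le_rpow_of_nonpos ha hab (by linarith only [hd])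
        rw [qq, abs_of_nonpos (div_nonpos_of_nonpos_of_nonneg (by linarith only [h2]) (by positivity)),
          ← neg_div, neg_sub]
        refine h1.trans (mul_le_mul_of_nonneg_left ?_ (by positivity))
        linarith only [hBp]
      · have h1 := key ‖w - s‖ ‖w‖ hb hab (by linarith only [ha, h])
        have h2 : ‖w‖ ^ (-d) ≤ ‖w - s‖ ^ (-d) :=
          Real.rpow_le_rpow_of_nonpos hb hab (by linarith only [hd])
        rw [qq, abs_of_nonneg (div_nonneg (by linarith only [h2]) (by positivity))]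
        refine h1.trans (mul_le_mul_of_nonneg_left ?_ (by positivity))
        linarith only [hA]
    have e3 := abs_sub (qq d s w) (hk w)
    nlinarith only [mul_pos hs4 hA, mul_pos hs4 hBp, mul_pos hd hA, e1, e2, e3]

end Pool.Agent.Helper17.G3
end

/- Helper24.KR.H17.G3.Bound -/
section
/-!
# G3: the integrable majorant
-/

set_option autoImplicit false
set_option linter.unusedVariables false

namespace Pool.Agent.Helper17.G3

open MeasureTheory Set Metric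
open scoped Real

theorem int_Bt {a : ℝ} (h0 : 0 < a) (h2 : a < 2) (p : ℂ) :
    IntegrableOn (fun y : ℂ => ‖y - p‖ ^ (-a)) Bt :=
  Helper39.G2.integrableOn_weight h0 h2 p vol_Bt

theorem le_Bt {a : ℝ} (h0 : 0 < a) (h2 : a < 2) (p : ℂ) :
    ∫ y in Bt, ‖y - p‖ ^ (-a) ≤ 2 * π / (2 - a) * 10 ^ (2 - a) := by
  have h1 := Helper39.G2.weight_le h0 h2 p Bt (ρ := 10) (by norm_num) (by
    rw [Bt, Complex.volume_closedBall, mul_comm π, ENNReal.ofReal_mul (by positivity),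
      ← ENNReal.ofReal_pow (by positivity), ← NNReal.coe_real_pi, ENNReal.ofReal_coe_nnreal])
  rw [← Helper39.G2.ofReal_integral_weight h0 h2 p vol_Bt] at h1
  have h3 : 0 < 2 - a := by linarith only [h2]
  rwa [ENNReal.ofReal_le_ofReal_iff (by (clear * - h2; positivity))] at h1

theorem far_qq {d s : ℝ} (hd : 0 < d) (hd1 : d ≤ 1) (hs : 0 < s) (hs1 : s ≤ 1 / 3) {y : ℂ}
    (hy : 10 < ‖y‖) : |qq d s y| ≤ 1 / 8 * ‖y‖ ^ (-d) := by
  obtain ⟨c, hc0, hc1, hq⟩ := qq_mvt hd hs (w := y) (by (clear * - hs1 hy; linarith only [hs1, hy]))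
  have hz2 : 29 / 30 * ‖y‖ ≤ ‖y - c‖ := by
    have h2 := norm_sub_norm_le y (c : ℂ)
    rw [Complex.norm_real, Real.norm_eq_abs, abs_of_nonneg hc0.le] at h2
    (clear * - hs1 hy hc1 h2; linarith only [hs1, hy, hc1, h2])
  have hy0 : 0 < ‖y‖ := by linarith only [hy]
  have hz0 : 0 < ‖y - c‖ := by (clear * - hz2 hy0; linarith only [hz2, hy0])
  rw [hq, abs_mul, abs_of_pos (Real.rpow_pos_of_pos hz0 _)]
  have h1 : |hk (y - c)| ≤ 30 / 290 := by
    refine (abs_hk_le _).trans ?_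
    rw [Real.rpow_neg_one]
    have h3 : (290 / 30 : ℝ) ≤ ‖y - c‖ := by linarith only [hy, hz2]
    calc ‖y - c‖⁻¹ ≤ (290 / 30 : ℝ)⁻¹ := inv_anti₀ (by norm_num) h3
      _ = 30 / 290 := by norm_num
  have h2 : ‖y - c‖ ^ (-d) ≤ 30 / 29 * ‖y‖ ^ (-d) := by
    calc ‖y - c‖ ^ (-d) ≤ (29 / 30 * ‖y‖) ^ (-d) :=
          Real.rpow_le_rpow_of_nonpos (by (clear * - hy; positivity)) hz2 (by linarith only [hd])
      _ = (29 / 30 : ℝ) ^ (-d) * ‖y‖ ^ (-d) := Real.mul_rpow (by norm_num) hy0.le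
      _ ≤ 30 / 29 * ‖y‖ ^ (-d) := by
          refine mul_le_mul_of_nonneg_right ?_ (Real.rpow_nonneg hy0.le _)
          have h4 : (29 / 30 : ℝ) ^ (-d) ≤ (29 / 30 : ℝ) ^ (-1 : ℝ) :=
            Real.rpow_le_rpow_of_exponent_ge (by norm_num) (by norm_num) (by linarith only [hd1])
          rw [Real.rpow_neg_one] at h4
          norm_num at h4 ⊢
          (clear * - h4; linarith only [h4])
  have h5 : 0 < ‖y‖ ^ (-d) := Real.rpow_pos_of_pos hy0 _
  calc |hk (y - c)| * ‖y - c‖ ^ (-d) ≤ 30 / 290 * (30 / 29 * ‖y‖ ^ (-d)) :=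
        mul_le_mul h1 h2 (by (clear * - hz0; positivity)) (by norm_num)
    _ ≤ 1 / 8 * ‖y‖ ^ (-d) := by linarith only [h5]

/-- the error function -/
noncomputable def ee (d s : ℝ) (y : ℂ) : ℝ :=
  (240 * d + 20 * s ^ (1 / 4 : ℝ)) * (‖y - 0‖ ^ (-(3 / 2) : ℝ) + ‖y - s‖ ^ (-(3 / 2) : ℝ)) +
    d * (‖y - 0‖ ^ (-1 : ℝ) + (1 + 50 * ‖y - 0‖ ^ (-(1 / 2) : ℝ)))

theorem ee_nonneg {d s : ℝ} (hd : 0 < d) (hs : 0 < s) (y : ℂ) : 0 ≤ ee d s y := by
  unfold ee
  (clear * - hd hs; positivity)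

theorem int_one : IntegrableOn (fun _ : ℂ => (1 : ℝ)) Bt := integrableOn_const vol_Bt

theorem int_ee {d s : ℝ} : IntegrableOn (ee d s) Bt := by
  have h1 := int_Bt (a := 3 / 2) (by norm_num) (by norm_num) 0
  have h2 := int_Bt (a := 3 / 2) (by norm_num) (by norm_num) (s : ℂ)
  have h3 := int_Bt (a := 1) (by norm_num) (by norm_num) 0
  have h4 := int_Bt (a := 1 / 2) (by norm_num) (by norm_num) 0
  exact ((h1.add h2).const_mul _).add ((h3.add (int_one.add (h4.const_mul 50))).const_mul _)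

theorem ee_le {d s : ℝ} (hd : 0 < d) (hs : 0 < s) :
    ∫ y in Bt, ee d s y ≤ 30000 * (d + s ^ (1 / 4 : ℝ)) := by
  have h1 := int_Bt (a := 3 / 2) (by norm_num) (by norm_num) 0
  have h2 := int_Bt (a := 3 / 2) (by norm_num) (by norm_num) (s : ℂ)
  have h3 := int_Bt (a := 1) (by norm_num) (by norm_num) 0
  have h4 := int_Bt (a := 1 / 2) (by norm_num) (by norm_num) 0
  have l1 := le_Bt (a := 3 / 2) (by norm_num) (by norm_num) 0
  have l2 := le_Bt (a := 3 / 2) (by norm_num) (by norm_num) (s : ℂ)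
  have l3 := le_Bt (a := 1) (by norm_num) (by norm_num) 0
  have l4 := le_Bt (a := 1 / 2) (by norm_num) (by norm_num) 0
  have i12 : IntegrableOn (fun y : ℂ => ‖y - 0‖ ^ (-(3 / 2) : ℝ) + ‖y - s‖ ^ (-(3 / 2) : ℝ)) Bt :=
    h1.add h2
  have i4 : IntegrableOn (fun y : ℂ => 1 + 50 * ‖y - 0‖ ^ (-(1 / 2) : ℝ)) Bt :=
    int_one.add (h4.const_mul 50)
  have i34 : IntegrableOn (fun y : ℂ => ‖y - 0‖ ^ (-1 : ℝ) + (1 + 50 * ‖y - 0‖ ^ (-(1 / 2) : ℝ)))
      Bt := h3.add i4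
  have e1 : ∫ y in Bt, ee d s y = (240 * d + 20 * s ^ (1 / 4 : ℝ)) *
      ((∫ y in Bt, ‖y - 0‖ ^ (-(3 / 2) : ℝ)) + ∫ y in Bt, ‖y - s‖ ^ (-(3 / 2) : ℝ)) +
      d * ((∫ y in Bt, ‖y - 0‖ ^ (-1 : ℝ)) + ((∫ y in Bt, (1 : ℝ)) +
        50 * ∫ y in Bt, ‖y - 0‖ ^ (-(1 / 2) : ℝ))) := by
    unfold ee
    rw [integral_add (i12.const_mul _) (i34.const_mul _), integral_const_mul, integral_const_mul,
      integral_add h1 h2, integral_add h3 i4, integral_add int_one (h4.const_mul 50),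
      integral_const_mul]
  have v1 : ∫ y in Bt, (1 : ℝ) = 100 * π := by
    rw [setIntegral_const, smul_eq_mul, mul_one, measureReal_def, Bt, Complex.volume_closedBall,
      ENNReal.toReal_mul, ENNReal.toReal_pow, ENNReal.toReal_ofReal (by norm_num)]
    norm_num
  have hπ : π ≤ 3.1416 := Real.pi_lt_d4.le
  have hπ0 := Real.pi_pos
  have r1 : (10 : ℝ) ^ (2 - 3 / 2 : ℝ) ≤ 3.2 := by
    have h7 : ((10 : ℝ) ^ (2 - 3 / 2 : ℝ)) ^ 2 ≤ 3.2 ^ 2 := by
      rw [← Real.rpow_natCast, ← Real.rpow_mul (by norm_num)]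
      norm_num
    exact le_of_sq_le_sq h7 (by norm_num)
  have r3 : (10 : ℝ) ^ (2 - 1 : ℝ) = 10 := by norm_num
  have r4 : (10 : ℝ) ^ (2 - 1 / 2 : ℝ) ≤ 32 := by
    have h7 : ((10 : ℝ) ^ (2 - 1 / 2 : ℝ)) ^ 2 ≤ 32 ^ 2 := by
      rw [← Real.rpow_natCast, ← Real.rpow_mul (by norm_num)]
      norm_num
    exact le_of_sq_le_sq h7 (by norm_num)
  have b1 : 2 * π / (2 - 3 / 2) * (10 : ℝ) ^ (2 - 3 / 2 : ℝ) ≤ 42 := by
    have : 2 * π / (2 - 3 / 2) = 4 * π := by ring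
    rw [this]
    nlinarith only [hπ, hπ0, r1]
  have b3 : 2 * π / (2 - 1) * (10 : ℝ) ^ (2 - 1 : ℝ) ≤ 63 := by
    rw [r3]
    have : 2 * π / (2 - 1) = 2 * π := by ring
    rw [this]
    (clear * - hπ; linarith only [hπ])
  have b4 : 2 * π / (2 - 1 / 2) * (10 : ℝ) ^ (2 - 1 / 2 : ℝ) ≤ 140 := by
    have : 2 * π / (2 - 1 / 2) = 4 / 3 * π := by ring
    rw [this]
    (clear * - hπ hπ0 r4; nlinarith only [hπ, hπ0, r4])
  have hs4 : 0 < s ^ (1 / 4 : ℝ) := Real.rpow_pos_of_pos hs _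
  rw [e1, v1]
  have c1 : (∫ y in Bt, ‖y - 0‖ ^ (-(3 / 2) : ℝ)) + ∫ y in Bt, ‖y - s‖ ^ (-(3 / 2) : ℝ) ≤ 84 := by
    linarith only [l1, l2, b1]
  have c2 : (∫ y in Bt, ‖y - 0‖ ^ (-1 : ℝ)) + (100 * π +
        50 * ∫ y in Bt, ‖y - 0‖ ^ (-(1 / 2) : ℝ)) ≤ 7400 := by
    (clear * - l3 l4 b3 b4; linarith only [l3, l4, b3, b4])
  linarith only [mul_le_mul_of_nonneg_left c1 (by positivity : 0 ≤ 240 * d + 20 * s ^ (1 / 4 : ℝ)), mul_le_mul_of_nonneg_left c2 hd.le, hd, hs4]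

/-- the pointwise bound in the ball -/
theorem near_le {d s lam : ℝ} (hd : 0 < d) (hd1 : d ≤ 1 / 10) (hs : 0 < s) (hs1 : s ≤ 1 / 3)
    (hl : 0 ≤ lam) (hl1 : lam ≤ 1) {b : ℝ} (hb : |b| ≤ 1 / 8) {y : ℂ} (hy : y ≠ 0) (hys : y ≠ s)
    (hB : y ∈ Bt) :
    qq d s y + (b - 1 / 2) * ‖y‖ ^ (-d) + d * lam * (|qq d s y| + ‖y‖ ^ (-d)) ≤
      max (hk y + b - 1 / 2) 0 + ee d s y := by
  have ha : 0 < ‖y‖ := norm_pos_iff.mpr hy
  have hy10 : ‖y‖ ≤ 10 := by
    rwa [Bt, mem_closedBall, dist_zero_right] at hB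
  have h1 := qq_near hd (by linarith only [hd1]) hs hs1 hy hys hB
  have h2 := rpow_sub_one hd (by (clear * - hd1; linarith only [hd1]) : d ≤ 1 / 4) ha (by linarith only [hy10])
  have h3 := abs_hk_le y
  have h4 := le_max_left (hk y + b - 1 / 2) 0
  have hb' := abs_le.mp hb
  have h5 : 0 < ‖y‖ ^ (-(1 / 2) : ℝ) := Real.rpow_pos_of_pos ha _
  have h6 : 0 < ‖y‖ ^ (-1 : ℝ) := Real.rpow_pos_of_pos ha _
  have hdl : d * lam ≤ d := by (clear * - hd hl1; nlinarith only [hd, hl1])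
  have hdl0 : 0 ≤ d * lam := by (clear * - hd hl; positivity)
  set X := |qq d s y - hk y| with hX
  set Y := |‖y‖ ^ (-d) - 1| with hY
  have hX0 : 0 ≤ X := abs_nonneg _
  have hY0 : 0 ≤ Y := abs_nonneg _
  have q1 : qq d s y ≤ hk y + X := by (clear * -; linarith only [le_abs_self (qq d s y - hk y)])
  have q2 : |qq d s y| ≤ ‖y‖ ^ (-1 : ℝ) + X := by
    have : qq d s y = hk y + (qq d s y - hk y) := by ring
    calc |qq d s y| = |hk y + (qq d s y - hk y)| := by rw [← this]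
      _ ≤ |hk y| + X := abs_add_le _ _
      _ ≤ _ := by linarith only [h3]
  have q3 : ‖y‖ ^ (-d) ≤ 1 + Y := by (clear * -; linarith only [le_abs_self (‖y‖ ^ (-d) - 1)])
  have q4 : (b - 1 / 2) * ‖y‖ ^ (-d) ≤ (b - 1 / 2) + Y := by
    have e1 : (b - 1 / 2) * ‖y‖ ^ (-d) = (b - 1 / 2) + (b - 1 / 2) * (‖y‖ ^ (-d) - 1) := by ring
    rw [e1]
    have e2 : (b - 1 / 2) * (‖y‖ ^ (-d) - 1) ≤ |b - 1 / 2| * Y := by
      rw [hY, ← abs_mul]
      exact le_abs_self _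
    have e3 : |b - 1 / 2| ≤ 1 := by
      rw [abs_le]
      constructor <;> linarith only [hb']
    (clear * - e2 hY0 e3; nlinarith only [hY0, e2, e3])
  have q5 : d * lam * (|qq d s y| + ‖y‖ ^ (-d)) ≤ d * (‖y‖ ^ (-1 : ℝ) + X + 1 + Y) := by
    have e0 : 0 ≤ |qq d s y| + ‖y‖ ^ (-d) := by (clear * - hy; positivity)
    calc d * lam * (|qq d s y| + ‖y‖ ^ (-d)) ≤ d * (|qq d s y| + ‖y‖ ^ (-d)) :=
          mul_le_mul_of_nonneg_right hdl e0
      _ ≤ _ := mul_le_mul_of_nonneg_left (by linarith only [q2, q3]) hd.le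
  have hdX : d * X ≤ X := by nlinarith only [hd1, hX0]
  have hdY : d * Y ≤ 1 / 10 * Y := by nlinarith only [hd1, hY0]
  have hd1' : 0 < d := hd
  have e5 : 44 * d * ‖y‖ ^ (-(1 / 2) : ℝ) ≤ d * (50 * ‖y‖ ^ (-(1 / 2) : ℝ)) := by
    linarith only [h2, hY0]
  unfold ee
  rw [sub_zero]
  have h1' : 2 * X ≤ (240 * d + 20 * s ^ (1 / 4 : ℝ)) *
      (‖y‖ ^ (-(3 / 2) : ℝ) + ‖y - s‖ ^ (-(3 / 2) : ℝ)) := by linarith only [h1]
  have h2' : 11 / 10 * Y ≤ 44 * d * ‖y‖ ^ (-(1 / 2) : ℝ) := by (clear * - h2; linarith only [h2])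
  linarith only [h4, hY0, q1, q4, q5, hdX, hdY, h1', h2']

/-- the majorant -/
theorem bound_H {d s lam ν Kc : ℝ} (hd : 0 < d) (hd1 : d ≤ 1 / 10) (hs : 0 < s) (hs1 : s ≤ 1 / 3)
    (hl : 0 ≤ lam) (hl1 : lam ≤ 1) {b c : ℂ → ℝ} (hbm : Measurable b) (hν : 0 ≤ ν) (hν1 : ν ≤ 1 / 8)
    (hb : ∀ y, |b y| ≤ ν) (hc : Integrable c) (hc0 : ∀ y, 0 ≤ c y) (hK : ∫ y, c y ≤ Kc) :
    ∃ H : ℂ → ℝ, Integrable H ∧ (∀ y, 0 ≤ H y) ∧
      (∀ᵐ y : ℂ, qq d s y + (b y - 1 / 2) * ‖y‖ ^ (-d) + d * lam * (|qq d s y| + ‖y‖ ^ (-d)) +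
        c y ≤ H y) ∧
      ∫ y, H y ≤ π / 2 + (∫ y in Dk, b y) + 10 * π * ν ^ 2 + Kc +
        30000 * (d + s ^ (1 / 4 : ℝ)) := by
  have hbi : IntegrableOn b Bt := by
    refine Integrable.mono' (g := fun _ => ν) (integrableOn_const vol_Bt) hbm.aestronglyMeasurable
      (Filter.Eventually.of_forall fun w => ?_)
    rw [Real.norm_eq_abs]
    exact hb w
  have i1 : IntegrableOn (fun y => max (hk y + b y - 1 / 2) 0) Bt :=
    ((int_hk_Bt.add hbi).sub (integrableOn_const vol_Bt)).pos_part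
  have i2 : IntegrableOn (fun y => max (hk y + b y - 1 / 2) 0 + ee d s y) Bt := i1.add int_ee
  refine ⟨fun y => Bt.indicator (fun y => max (hk y + b y - 1 / 2) 0 + ee d s y) y + c y,
    (i2.integrable_indicator meas_Bt).add hc, ?_, ?_, ?_⟩
  · intro y
    refine add_nonneg (indicator_nonneg (fun y _ => ?_) y) (hc0 y)
    exact add_nonneg (le_max_right _ _) (ee_nonneg hd hs y)
  · have hp : ∀ᵐ y : ℂ, y ≠ 0 := by simp [ae_iff]
    have hq : ∀ᵐ y : ℂ, y ≠ (s : ℂ) := by simp [ae_iff]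
    filter_upwards [hp, hq] with y hy hys
    refine add_le_add ?_ le_rfl
    by_cases hB : y ∈ Bt
    · rw [indicator_of_mem hB]
      exact near_le hd hd1 hs hs1 hl hl1 ((hb y).trans hν1) hy hys hB
    · rw [indicator_of_notMem hB]
      have hy10 : 10 < ‖y‖ := by
        rw [Bt, mem_closedBall, dist_zero_right, not_le] at hB
        exact hB
      have h1 := far_qq hd (by (clear * - hd1; linarith only [hd1])) hs hs1 hy10
      have h2 : 0 < ‖y‖ ^ (-d) := Real.rpow_pos_of_pos (by linarith only [hy10]) _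
      have h3 := le_abs_self (qq d s y)
      have h4 := (abs_le.mp ((hb y).trans hν1)).2
      have h5 : d * lam * (|qq d s y| + ‖y‖ ^ (-d)) ≤ 1 / 10 * (9 / 8 * ‖y‖ ^ (-d)) := by
        have h6 : d * lam ≤ 1 / 10 := by (clear * - hl1 hd1 hl; nlinarith only [hd1, hl, hl1])
        refine mul_le_mul h6 (by (clear * - h1; linarith only [h1])) (by (clear * - hy; positivity)) (by norm_num)
      have h7 : (b y - 1 / 2) * ‖y‖ ^ (-d) ≤ -(3 / 8) * ‖y‖ ^ (-d) :=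
        mul_le_mul_of_nonneg_right (by (clear * - h4; linarith only [h4])) h2.le
      linarith only [h1, h2, h3, h5, h7]
  · rw [integral_add (i2.integrable_indicator meas_Bt) hc, integral_indicator meas_Bt,
      integral_add i1 int_ee]
    have h1 := ee_le hd hs
    have h2 : ∫ y in Bt, max (hk y + b y - 1 / 2) 0 ≤
        π / 2 + (∫ y in Dk, b y) + 10 * π * ν ^ 2 := by
      rcases hν.eq_or_lt with h | h
      · have hb0 : ∀ y, b y = 0 := fun y => by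
          have := hb y
          rw [← h] at this
          exact abs_nonpos_iff.mp this
        have h3 := pos_part (g := fun _ => (0 : ℝ)) measurable_const (fun _ => by simp)
          (ν := 0) (by norm_num)
        simp only [hb0, ← h]
        simpa using h3
      · have h3 := pos_part (g := fun y => b y / ν) (hbm.div_const ν) (fun y => by
          rw [abs_div, abs_of_pos h, div_le_one h]
          exact hb y) (ν := ν) (by rwa [abs_of_pos h])
        have h4 : ∀ y, ν * (b y / ν) = b y := fun y => by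
          (clear * - h; field_simp)
        simp only [h4] at h3
        rw [← integral_const_mul] at h3
        simp only [h4] at h3
        exact h3
    linarith only [hK, h1, h2]

end Pool.Agent.Helper17.G3
end

/- Helper17.G3.Tm -/
section
/-!
# G3: templates

`Dk = ball 1 1`. `F1`: the template at the right scale and direction has the larger integral over the
disk; `F2`: for nearly the right scale and direction, moving the point inwards raises the integral.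
-/

set_option autoImplicit false

namespace Pool.Agent.Helper17.G3

open MeasureTheory

/-- a template -/
structure Tm (k : ℂ → ℝ) (Lk ρ kinf c1 c2 e2 m1 : ℝ) : Prop where
  meas : Measurable k
  bd : ∀ z, |k z| ≤ 1
  lip : ∀ z z', |k z - k z'| ≤ Lk * ‖z - z'‖
  far : ∀ z, ρ ≤ ‖z‖ → k z = kinf
  hL : 0 < Lk
  hρ : 0 < ρ
  hc1 : 0 < c1
  hc2 : 0 < c2
  he2 : 0 < e2
  he2' : e2 ≤ 1 / 2
  hm1 : 0 < m1
  F1 : ∀ ζ : ℂ, ζ ≠ 0 → e2 ≤ ‖1 / ζ - 1‖ →
    ∫ z in Metric.ball (1 : ℂ) 1, (k (z / ζ) - k z) ≤ -c1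
  F2 : ∀ ζ : ℂ, ζ ≠ 0 → ‖1 / ζ - 1‖ ≤ e2 → ∀ m : ℝ, 0 < m → m ≤ m1 →
    c2 * m ≤ ∫ z in Metric.ball (1 : ℂ) 1, (k ((z - ((2 * m : ℝ) : ℂ)) / ζ) - k (z / ζ))

end Pool.Agent.Helper17.G3
end

/- Helper24.KR.H17.G3.Key -/
section
/-!
# G3: the key inequality for templates, normalised form
-/

set_option autoImplicit false
set_option linter.unusedVariables false

namespace Pool.Agent.Helper17.G3

open MeasureTheory Set Metric
open scoped Real

/-- the integrand -/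
noncomputable def Phi (k : ℂ → ℝ) (d m lam nu : ℝ) (ζ y : ℂ) : ℝ :=
  ‖y - ((2 * m : ℝ) : ℂ)‖ ^ (-d) * (1 - d * lam * k ((y - ((2 * m : ℝ) : ℂ)) / ζ)) -
    Real.exp (d * m) * ‖y‖ ^ (-d) * (1 - d * lam * k (y / ζ)) +
    nu * (d * lam) * ‖y‖ ^ (-d) * (k (y / ζ) - k y)

theorem Phi_le {k : ℂ → ℝ} (hk1 : ∀ z, |k z| ≤ 1) {d m lam nu : ℝ} (hd : 0 < d) (hd1 : d ≤ 1)
    (hm : 0 < m) (hl : 0 ≤ lam) (hl1 : lam ≤ 1) (ζ y : ℂ) :
    Phi k d m lam nu ζ y ≤ d * (2 * m) * (qq d (2 * m) y +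
      (nu * lam / (2 * m) * (k (y / ζ) - k y) +
        lam / (2 * m) * (k (y / ζ) - k ((y - ((2 * m : ℝ) : ℂ)) / ζ)) - 1 / 2) * ‖y‖ ^ (-d) +
      d * lam * (|qq d (2 * m) y| + ‖y‖ ^ (-d))) := by
  unfold Phi
  set A := ‖y - ((2 * m : ℝ) : ℂ)‖ ^ (-d) with hA
  set B := ‖y‖ ^ (-d) with hB
  set k1 := k ((y - ((2 * m : ℝ) : ℂ)) / ζ) with hk1'
  set k0 := k (y / ζ) with hk0
  have hB0 : 0 ≤ B := Real.rpow_nonneg (norm_nonneg _) _
  set Z := qq d (2 * m) y with hZ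
  have hAB : A = B + d * (2 * m) * Z := by
    rw [hZ, qq, ← hA, ← hB]
    field_simp
    ring
  have h1 := abs_le.mp (hk1 ((y - ((2 * m : ℝ) : ℂ)) / ζ))
  have h0 := abs_le.mp (hk1 (y / ζ))
  rw [← hk1'] at h1
  rw [← hk0] at h0
  have hdl : 0 ≤ d * lam := by (clear * - hd hl; positivity)
  have hdl1 : d * lam ≤ 1 := by (clear * - hd1 hd hl1; nlinarith only [hd, hd1, hl1])
  have h2 : (1 + d * m) * (B * (1 - d * lam * k0)) ≤
      Real.exp (d * m) * (B * (1 - d * lam * k0)) := by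
    refine mul_le_mul_of_nonneg_right ?_ (mul_nonneg hB0 (by nlinarith only [h0, hdl, hdl1]))
    have := Real.add_one_le_exp (d * m)
    (clear * - this; linarith only [this])
  have h3 : -(k1 * Z) ≤ |Z| := by
    rw [← neg_mul]
    refine (le_abs_self _).trans ?_
    rw [abs_mul, abs_neg]
    exact mul_le_of_le_one_left (abs_nonneg _) (abs_le.mpr h1)
  have h4 : d * m * (d * lam * (k0 * B)) ≤ d * m * (d * lam * (2 * B)) := by
    refine mul_le_mul_of_nonneg_left ?_ (by positivity)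
    refine mul_le_mul_of_nonneg_left ?_ hdl
    (clear * - hB0 h0; nlinarith only [hB0, h0])
  have h5 : d * (2 * m) * (d * lam * -(k1 * Z)) ≤ d * (2 * m) * (d * lam * |Z|) := by
    refine mul_le_mul_of_nonneg_left ?_ (by positivity)
    exact mul_le_mul_of_nonneg_left h3 hdl
  rw [hAB]
  have e1 : d * (2 * m) * (Z + (nu * lam / (2 * m) * (k0 - k y) +
        lam / (2 * m) * (k0 - k1) - 1 / 2) * B + d * lam * (|Z| + B)) =
      d * (2 * m) * Z + (nu * (d * lam) * (k0 - k y) + d * lam * (k0 - k1) - d * m) * B +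
        (d * (2 * m) * (d * lam * |Z|) + d * m * (d * lam * (2 * B))) := by
    field_simp
  rw [e1]
  linarith only [h2, h4, h5]

theorem lip_ze {k : ℂ → ℝ} {Lk : ℝ} (hlip : ∀ z z', |k z - k z'| ≤ Lk * ‖z - z'‖) {s : ℝ}
    (hs : 0 < s) (ζ y : ℂ) :
    |k (y / ζ) - k ((y - (s : ℂ)) / ζ)| ≤ Lk * (s * ‖1 / ζ‖) := by
  refine (hlip _ _).trans (le_of_eq ?_)
  have : y / ζ - (y - (s : ℂ)) / ζ = (s : ℂ) * (1 / ζ) := by ring
  rw [this, norm_mul, Complex.norm_real, Real.norm_eq_abs, abs_of_pos hs]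

/-- bounded case -/
theorem case_bdd {k : ℂ → ℝ} (hkm : Measurable k) (hk1 : ∀ z, |k z| ≤ 1) {d m lam nu ν I : ℝ}
    (hd : 0 < d) (hd1 : d ≤ 1 / 10) (hm : 0 < m) (hm1 : 2 * m ≤ 1 / 3) (hl : 0 ≤ lam)
    (hl1 : lam ≤ 1) (ζ : ℂ) (hν : 0 ≤ ν) (hν1 : ν ≤ 1 / 8)
    (hb : ∀ y, |nu * lam / (2 * m) * (k (y / ζ) - k y) +
        lam / (2 * m) * (k (y / ζ) - k ((y - ((2 * m : ℝ) : ℂ)) / ζ))| ≤ ν)
    (hI : ∫ y in Dk, (nu * lam / (2 * m) * (k (y / ζ) - k y) +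
        lam / (2 * m) * (k (y / ζ) - k ((y - ((2 * m : ℝ) : ℂ)) / ζ))) ≤ I) :
    ∃ H : ℂ → ℝ, Integrable H ∧ (∀ y, 0 ≤ H y) ∧ (∀ᵐ y : ℂ, Phi k d m lam nu ζ y ≤ H y) ∧
      ∫ y, H y ≤ d * (2 * m) * (π / 2 + I + 10 * π * ν ^ 2 +
        30000 * (d + (2 * m) ^ (1 / 4 : ℝ))) := by
  have hbm : Measurable fun y : ℂ => nu * lam / (2 * m) * (k (y / ζ) - k y) +
        lam / (2 * m) * (k (y / ζ) - k ((y - ((2 * m : ℝ) : ℂ)) / ζ)) := by
    fun_prop
  obtain ⟨H, h1, h2, h3, h4⟩ := bound_H (lam := lam) hd hd1 (by (clear * - hm; positivity) : 0 < 2 * m) hm1 hl hl1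
    hbm hν hν1 hb (c := fun _ => 0) (integrable_zero _ _ _) (fun _ => le_rfl) (Kc := 0) (by simp)
  refine ⟨fun y => d * (2 * m) * H y, h1.const_mul _, fun y => mul_nonneg (by (clear * - hd hm; positivity)) (h2 y),
    ?_, ?_⟩
  · filter_upwards [h3] with y hy
    refine (Phi_le hk1 hd (by linarith only [hd1]) hm hl hl1 ζ y).trans ?_
    refine mul_le_mul_of_nonneg_left ?_ (by (clear * - hd hm; positivity))
    (clear * - hy; linarith only [hy])
  · rw [integral_const_mul]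
    refine mul_le_mul_of_nonneg_left ?_ (by (clear * - hd hm; positivity))
    linarith only [hI, h4]

theorem int_sub_Dk {f g : ℂ → ℝ} (hf : Measurable f) (hf1 : ∀ y, |f y| ≤ 1) :
    IntegrableOn f Dk := by
  refine Integrable.mono' (g := fun _ => (1 : ℝ))
    (integrableOn_const (ne_top_of_le_ne_top vol_Bt (measure_mono Dk_sub))) hf.aestronglyMeasurable
    (Filter.Eventually.of_forall fun w => ?_)
  rw [Real.norm_eq_abs]
  exact hf1 w

theorem vol_Dk : (volume Dk).toReal = π := by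
  rw [Dk, Complex.volume_ball, ENNReal.toReal_mul, ENNReal.toReal_pow,
    ENNReal.toReal_ofReal (by norm_num)]
  norm_num

/-- good templates -/
theorem case_good {k : ℂ → ℝ} {Lk ρ kinf c1 c2 e2 m1 : ℝ} (hk : Tm k Lk ρ kinf c1 c2 e2 m1)
    {d m lam : ℝ} (hd : 0 < d) (hd1 : d ≤ 1 / 10) (hm : 0 < m) (hm1 : 2 * m ≤ 1 / 3)
    (hmm : m ≤ m1) (hl : 0 < lam) (hl1 : lam ≤ 1) (hlL : lam * Lk ≤ 1 / 12)
    (hlc : 90 * π * (lam * Lk ^ 2) ≤ c2) {ζ : ℂ} (hζ : ζ ≠ 0) (hg : ‖1 / ζ - 1‖ ≤ e2) :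
    ∃ H : ℂ → ℝ, Integrable H ∧ (∀ y, 0 ≤ H y) ∧ (∀ᵐ y : ℂ, Phi k d m lam 0 ζ y ≤ H y) ∧
      ∫ y, H y ≤ d * (2 * m) * (π / 2 - lam * c2 / 4 +
        30000 * (d + (2 * m) ^ (1 / 4 : ℝ))) := by
  have hz : ‖1 / ζ‖ ≤ 3 / 2 := by
    have h1 : 1 / ζ = (1 / ζ - 1) + 1 := by ring
    have h2 := norm_add_le (1 / ζ - 1) 1
    rw [← h1, norm_one] at h2
    (clear * - hk hg h2; linarith only [hk.he2', hg, h2])
  have hLk := hk.hL
  have hb : ∀ y, |0 * lam / (2 * m) * (k (y / ζ) - k y) +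
        lam / (2 * m) * (k (y / ζ) - k ((y - ((2 * m : ℝ) : ℂ)) / ζ))| ≤ 3 / 2 * (lam * Lk) := by
    intro y
    have h1 := lip_ze hk.lip (by (clear * - hm; positivity) : 0 < 2 * m) ζ y
    rw [zero_mul, zero_div, zero_mul, zero_add, abs_mul,
      abs_of_pos (by (clear * - hl hm; positivity) : 0 < lam / (2 * m))]
    calc lam / (2 * m) * |k (y / ζ) - k ((y - ((2 * m : ℝ) : ℂ)) / ζ)|
        ≤ lam / (2 * m) * (Lk * (2 * m * ‖1 / ζ‖)) := mul_le_mul_of_nonneg_left h1 (by positivity)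
      _ = lam * Lk * ‖1 / ζ‖ := by field_simp
      _ ≤ lam * Lk * (3 / 2) := mul_le_mul_of_nonneg_left hz (by (clear * - hl hLk; positivity))
      _ = _ := by ring
  have hI : ∫ y in Dk, (0 * lam / (2 * m) * (k (y / ζ) - k y) +
        lam / (2 * m) * (k (y / ζ) - k ((y - ((2 * m : ℝ) : ℂ)) / ζ))) ≤ -(lam * c2 / 2) := by
    have h1 := hk.F2 ζ hζ hg m hm hmm
    have h2 : ∀ y : ℂ, (0 * lam / (2 * m) * (k (y / ζ) - k y) +
        lam / (2 * m) * (k (y / ζ) - k ((y - ((2 * m : ℝ) : ℂ)) / ζ))) =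
        -(lam / (2 * m)) * (k ((y - ((2 * m : ℝ) : ℂ)) / ζ) - k (y / ζ)) := fun y => by ring
    simp only [h2]
    rw [integral_const_mul]
    have h3 : lam / (2 * m) * (c2 * m) ≤ lam / (2 * m) *
        ∫ z in ball (1 : ℂ) 1, (k ((z - ((2 * m : ℝ) : ℂ)) / ζ) - k (z / ζ)) :=
      mul_le_mul_of_nonneg_left h1 (by (clear * - hl hm; positivity))
    have h4 : lam / (2 * m) * (c2 * m) = lam * c2 / 2 := by (clear * - hm hl; field_simp)
    have h5 : Dk = ball (1 : ℂ) 1 := rfl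
    rw [h5]
    linarith only [h3, h4]
  obtain ⟨H, h1, h2, h3, h4⟩ := case_bdd hk.meas hk.bd hd hd1 hm hm1 hl.le hl1 ζ (by (clear * - hl hLk; positivity))
    (by (clear * - hlL; linarith)) hb hI
  refine ⟨H, h1, h2, h3, h4.trans ?_⟩
  refine mul_le_mul_of_nonneg_left ?_ (by positivity)
  have h5 : 10 * π * (3 / 2 * (lam * Lk)) ^ 2 = lam / 4 * (90 * π * (lam * Lk ^ 2)) := by ring
  have h6 : lam / 4 * (90 * π * (lam * Lk ^ 2)) ≤ lam / 4 * c2 :=
    mul_le_mul_of_nonneg_left hlc (by positivity)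
  linarith only [h6]

/-- bad templates -/
theorem case_bad {k : ℂ → ℝ} {Lk ρ kinf c1 c2 e2 m1 : ℝ} (hk : Tm k Lk ρ kinf c1 c2 e2 m1)
    {d m lam ν₁ : ℝ} (hd : 0 < d) (hd1 : d ≤ 1 / 10) (hm : 0 < m) (hm1 : 2 * m ≤ 1 / 3)
    (hl : 0 < lam) (hl1 : lam ≤ 1) (hν : 0 < ν₁) (hν1 : ν₁ ≤ 1 / 32)
    (hνc : 640 * π * ν₁ ≤ c1) (hlL : lam * Lk ≤ 2 * ν₁) (hlc : 4 * π * (lam * Lk) ≤ ν₁ * c1)
    (hlC : 16 * π * (lam * Lk * (1 + 2 * ρ) ^ 2) ≤ ν₁ * c1)
    {ζ : ℂ} (hζ : ζ ≠ 0) (hg : e2 ≤ ‖1 / ζ - 1‖) :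
    ∃ H : ℂ → ℝ, Integrable H ∧ (∀ y, 0 ≤ H y) ∧
      (∀ᵐ y : ℂ, Phi k d m lam (ν₁ * (2 * m) / lam) ζ y ≤ H y) ∧
      ∫ y, H y ≤ d * (2 * m) * (π / 2 - ν₁ * c1 / 2 +
        30000 * (d + (2 * m) ^ (1 / 4 : ℝ))) := by
  have hLk := hk.hL
  have hρ := hk.hρ
  have hc1 := hk.hc1
  have hπ := Real.pi_pos
  have hζ0 : 0 < ‖ζ‖ := norm_pos_iff.mpr hζ
  have hnu : ν₁ * (2 * m) / lam * lam / (2 * m) = ν₁ := by (clear * - hm hl hν; field_simp)
  have hF1 := hk.F1 ζ hζ hg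
  have hk2 : ∀ y, |k (y / ζ) - k y| ≤ 2 := by
    intro y
    have h1 := abs_sub (k (y / ζ)) (k y)
    linarith only [hk.bd (y / ζ), hk.bd y, h1]
  have i0 : IntegrableOn (fun y => k (y / ζ)) Dk :=
    int_sub_Dk (g := fun _ => 0) (hk.meas.comp (measurable_id.div_const ζ)) fun y => hk.bd _
  have i1 : IntegrableOn k Dk := int_sub_Dk (g := fun _ => 0) hk.meas hk.bd
  have i2 : IntegrableOn (fun y => k ((y - ((2 * m : ℝ) : ℂ)) / ζ)) Dk :=
    int_sub_Dk (g := fun _ => 0)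
      (hk.meas.comp ((measurable_id.sub_const _).div_const ζ)) fun y => hk.bd _
  have hlip := lip_ze hk.lip (by (clear * - hm; positivity) : 0 < 2 * m) ζ
  rcases le_or_gt 1 ‖ζ‖ with h1 | h1
  · -- bounded case
    have hz : ‖1 / ζ‖ ≤ 1 := by
      rw [norm_div, norm_one, div_le_one hζ0]
      exact h1
    have hb2 : ∀ y, |lam / (2 * m) * (k (y / ζ) - k ((y - ((2 * m : ℝ) : ℂ)) / ζ))| ≤
        lam * Lk := by
      intro y
      rw [abs_mul, abs_of_pos (by (clear * - hl hm; positivity) : 0 < lam / (2 * m))]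
      calc lam / (2 * m) * |k (y / ζ) - k ((y - ((2 * m : ℝ) : ℂ)) / ζ)|
          ≤ lam / (2 * m) * (Lk * (2 * m * ‖1 / ζ‖)) :=
            mul_le_mul_of_nonneg_left (hlip y) (by positivity)
        _ = lam * Lk * ‖1 / ζ‖ := by (clear * - hm hLk hl; field_simp)
        _ ≤ lam * Lk * 1 := mul_le_mul_of_nonneg_left hz (by (clear * - hl hLk; positivity))
        _ = _ := by ring
    have hb : ∀ y, |ν₁ * (2 * m) / lam * lam / (2 * m) * (k (y / ζ) - k y) +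
        lam / (2 * m) * (k (y / ζ) - k ((y - ((2 * m : ℝ) : ℂ)) / ζ))| ≤ 4 * ν₁ := by
      intro y
      rw [hnu]
      refine (abs_add_le _ _).trans ?_
      have h2 := hb2 y
      have h3 : |ν₁ * (k (y / ζ) - k y)| ≤ 2 * ν₁ := by
        rw [abs_mul, abs_of_pos hν]
        (clear * - hk2 hν; nlinarith only [hk2 y, hν])
      linarith only [hlL, h2, h3]
    have hI : ∫ y in Dk, (ν₁ * (2 * m) / lam * lam / (2 * m) * (k (y / ζ) - k y) +
        lam / (2 * m) * (k (y / ζ) - k ((y - ((2 * m : ℝ) : ℂ)) / ζ))) ≤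
        -(ν₁ * c1) + lam * Lk * π := by
      have i01 : IntegrableOn (fun y => ν₁ * (k (y / ζ) - k y)) Dk := (i0.sub i1).const_mul _
      have i02 : IntegrableOn (fun y => lam / (2 * m) *
          (k (y / ζ) - k ((y - ((2 * m : ℝ) : ℂ)) / ζ))) Dk := (i0.sub i2).const_mul _
      rw [hnu, integral_add i01 i02, integral_const_mul]
      have h2 : ν₁ * ∫ y in Dk, (k (y / ζ) - k y) ≤ ν₁ * -c1 :=
        mul_le_mul_of_nonneg_left hF1 hν.le
      have h3 : ∫ y in Dk, lam / (2 * m) * (k (y / ζ) - k ((y - ((2 * m : ℝ) : ℂ)) / ζ)) ≤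
          ∫ y in Dk, lam * Lk := by
        refine integral_mono ((i0.sub i2).const_mul _)
          (integrableOn_const (ne_top_of_le_ne_top vol_Bt (measure_mono Dk_sub))) fun y => ?_
        exact (le_abs_self _).trans (hb2 y)
      rw [setIntegral_const, smul_eq_mul, measureReal_def, vol_Dk] at h3
      (clear * - h2 h3; linarith only [h2, h3])
    obtain ⟨H, g1, g2, g3, g4⟩ := case_bdd hk.meas hk.bd hd hd1 hm hm1 hl.le hl1 ζ (by positivity)
      (by linarith only [hν1]) hb hI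
    refine ⟨H, g1, g2, g3, g4.trans ?_⟩
    refine mul_le_mul_of_nonneg_left ?_ (by positivity)
    have h5 : 10 * π * (4 * ν₁) ^ 2 = ν₁ / 4 * (640 * π * ν₁) := by ring
    have h6 : ν₁ / 4 * (640 * π * ν₁) ≤ ν₁ / 4 * c1 := mul_le_mul_of_nonneg_left hνc (by (clear * - hν; positivity))
    linarith only [hlc, h6]
  · -- small scale
    set S : Set ℂ := ball 0 (ρ * ‖ζ‖) ∪ ball ((2 * m : ℝ) : ℂ) (ρ * ‖ζ‖) with hS
    have hSm : MeasurableSet S := measurableSet_ball.union measurableSet_ball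
    have hSv : volume S ≤ ENNReal.ofReal (π * (2 * ρ * ‖ζ‖) ^ 2) := by
      refine (measure_union_le _ _).trans ?_
      rw [Complex.volume_ball, Complex.volume_ball, ← ENNReal.ofReal_pow (by (clear * - hρ hζ; positivity)),
        ← ENNReal.ofReal_coe_nnreal, NNReal.coe_real_pi, ← ENNReal.ofReal_mul (by positivity),
        ← ENNReal.ofReal_add (by (clear * - hρ hζ; positivity)) (by positivity)]
      refine ENNReal.ofReal_le_ofReal ?_
      (clear * - hπ; nlinarith only [hπ])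
    have hSf : volume S ≠ ⊤ := ne_top_of_le_ne_top ENNReal.ofReal_ne_top hSv
    have hout : ∀ y, y ∉ S → k (y / ζ) - k ((y - ((2 * m : ℝ) : ℂ)) / ζ) = 0 := by
      intro y hy
      rw [hS, mem_union, not_or, mem_ball, mem_ball, dist_eq_norm, dist_eq_norm, not_lt, not_lt,
        sub_zero] at hy
      rw [hk.far (y / ζ), hk.far ((y - ((2 * m : ℝ) : ℂ)) / ζ), sub_self]
      · rw [norm_div, le_div_iff₀ hζ0]
        exact hy.2
      · rw [norm_div, le_div_iff₀ hζ0]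
        exact hy.1
    have iS : IntegrableOn (fun y : ℂ => ‖y - 0‖ ^ (-d)) S :=
      Helper39.G2.integrableOn_weight hd (by linarith only [hd1]) 0 hSf
    have hwS : ∫ y in S, ‖y - 0‖ ^ (-d) ≤ 2 * π / (2 - d) * (2 * ρ * ‖ζ‖) ^ (2 - d) := by
      have g1 := Helper39.G2.weight_le hd (by linarith only [hd1] : d < 2) 0 S (ρ := 2 * ρ * ‖ζ‖)
        (by positivity) hSv
      rw [← Helper39.G2.ofReal_integral_weight hd (by linarith only [hd1]) 0 hSf] at g1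
      have h3 : 0 < 2 - d := by (clear * - hd1; linarith only [hd1])
      rwa [ENNReal.ofReal_le_ofReal_iff (by (clear * - h3 hρ hζ; positivity))] at g1
    set c : ℂ → ℝ := fun y => |lam / (2 * m) * (k (y / ζ) - k ((y - ((2 * m : ℝ) : ℂ)) / ζ))| *
      ‖y - 0‖ ^ (-d) with hc
    have hcle : ∀ y, c y ≤ S.indicator (fun y => lam * Lk / ‖ζ‖ * ‖y - 0‖ ^ (-d)) y := by
      intro y
      by_cases hy : y ∈ S
      · rw [indicator_of_mem hy]
        refine mul_le_mul_of_nonneg_right ?_ (Real.rpow_nonneg (norm_nonneg _) _)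
        rw [abs_mul, abs_of_pos (by (clear * - hl hm; positivity) : 0 < lam / (2 * m))]
        calc lam / (2 * m) * |k (y / ζ) - k ((y - ((2 * m : ℝ) : ℂ)) / ζ)|
            ≤ lam / (2 * m) * (Lk * (2 * m * ‖1 / ζ‖)) :=
              mul_le_mul_of_nonneg_left (hlip y) (by positivity)
          _ = lam * Lk / ‖ζ‖ := by
              rw [norm_div, norm_one]
              (clear * - hm hζ hLk hl; field_simp)
      · rw [indicator_of_notMem hy, hc]
        simp only [hout y hy, mul_zero, abs_zero, zero_mul, le_refl]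
    have hc0 : ∀ y, 0 ≤ c y := fun y =>
      mul_nonneg (abs_nonneg _) (Real.rpow_nonneg (norm_nonneg _) _)
    have iS2 : IntegrableOn (fun y : ℂ => lam * Lk / ‖ζ‖ * ‖y - 0‖ ^ (-d)) S := iS.const_mul _
    have iM : Integrable (S.indicator fun y => lam * Lk / ‖ζ‖ * ‖y - 0‖ ^ (-d)) :=
      iS2.integrable_indicator hSm
    have hcm : Measurable c := by
      have hkm := hk.meas
      simp only [hc]
      fun_prop
    have ic : Integrable c := by
      refine Integrable.mono' iM hcm.aestronglyMeasurable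
        (Filter.Eventually.of_forall fun y => ?_)
      rw [Real.norm_eq_abs, abs_of_nonneg (hc0 y)]
      exact hcle y
    have hcK : ∫ y, c y ≤ ν₁ * c1 / 4 := by
      have g1 : ∫ y, c y ≤ ∫ y, S.indicator (fun y => lam * Lk / ‖ζ‖ * ‖y - 0‖ ^ (-d)) y :=
        integral_mono ic iM hcle
      rw [integral_indicator hSm, integral_const_mul] at g1
      have g2 : 2 * π / (2 - d) * (2 * ρ * ‖ζ‖) ^ (2 - d) ≤
          4 * π * ((1 + 2 * ρ) ^ 2 * ‖ζ‖) := by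
        have g3 : 2 * π / (2 - d) ≤ 4 * π := by
          rw [div_le_iff₀ (by (clear * - hd1; linarith only [hd1]))]
          nlinarith only [hd1, hπ]
        have g4 : (2 * ρ * ‖ζ‖) ^ (2 - d) ≤ (1 + 2 * ρ) ^ 2 * ‖ζ‖ := by
          rw [Real.mul_rpow (by (clear * - hρ; positivity)) hζ0.le]
          refine mul_le_mul ?_ ?_ (by positivity) (by (clear * - hρ; positivity))
          · calc (2 * ρ) ^ (2 - d) ≤ (1 + 2 * ρ) ^ (2 - d) :=
                  Real.rpow_le_rpow (by (clear * - hρ; positivity)) (by linarith only []) (by linarith only [hd1])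
              _ ≤ (1 + 2 * ρ) ^ (2 : ℝ) :=
                  Real.rpow_le_rpow_of_exponent_le (by linarith only [hρ]) (by linarith only [hd])
              _ = (1 + 2 * ρ) ^ 2 := by norm_num
          · calc ‖ζ‖ ^ (2 - d) ≤ ‖ζ‖ ^ (1 : ℝ) :=
                  Real.rpow_le_rpow_of_exponent_ge hζ0 h1.le (by (clear * - hd1; linarith only [hd1]))
              _ = ‖ζ‖ := Real.rpow_one _
        have g5 : 0 ≤ (2 * ρ * ‖ζ‖) ^ (2 - d) := by (clear * - hρ hζ; positivity)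
        exact mul_le_mul g3 g4 g5 (by positivity)
      calc ∫ y, c y ≤ lam * Lk / ‖ζ‖ * ∫ y in S, ‖y - 0‖ ^ (-d) := g1
        _ ≤ lam * Lk / ‖ζ‖ * (4 * π * ((1 + 2 * ρ) ^ 2 * ‖ζ‖)) :=
            mul_le_mul_of_nonneg_left (hwS.trans g2) (by (clear * - hl hLk hζ; positivity))
        _ = 16 * π * (lam * Lk * (1 + 2 * ρ) ^ 2) / 4 := by
            field_simp
            ring
        _ ≤ _ := by linarith only [hlC]
    have hbm : Measurable fun y : ℂ => ν₁ * (k (y / ζ) - k y) := by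
      have hkm := hk.meas
      fun_prop
    obtain ⟨H, g1, g2, g3, g4⟩ := bound_H (lam := lam) hd hd1 (by (clear * - hm; positivity) : 0 < 2 * m) hm1 hl.le
      hl1 hbm (ν := 2 * ν₁) (by positivity) (by linarith only [hν1]) (fun y => by
        rw [abs_mul, abs_of_pos hν]
        (clear * - hk2 hν; nlinarith only [hk2 y, hν])) ic hc0 hcK
    refine ⟨fun y => d * (2 * m) * H y, g1.const_mul _, fun y => mul_nonneg (by positivity) (g2 y),
      ?_, ?_⟩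
    · filter_upwards [g3] with y hy
      refine (Phi_le hk.bd hd (by (clear * - hd1; linarith only [hd1])) hm hl.le hl1 ζ y).trans ?_
      refine mul_le_mul_of_nonneg_left (le_trans ?_ hy) (by positivity)
      have h5 : lam / (2 * m) * (k (y / ζ) - k ((y - ((2 * m : ℝ) : ℂ)) / ζ)) * ‖y‖ ^ (-d) ≤
          c y := by
        show _ ≤ |lam / (2 * m) * (k (y / ζ) - k ((y - ((2 * m : ℝ) : ℂ)) / ζ))| *
          ‖y - 0‖ ^ (-d)
        rw [sub_zero]
        exact mul_le_mul_of_nonneg_right (le_abs_self _) (Real.rpow_nonneg (norm_nonneg _) _)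
      rw [hnu]
      (clear * - h5; linarith only [h5])
    · rw [integral_const_mul]
      refine mul_le_mul_of_nonneg_left (g4.trans ?_) (by positivity)
      rw [integral_const_mul]
      have h2 : ν₁ * ∫ y in Dk, (k (y / ζ) - k y) ≤ ν₁ * -c1 :=
        mul_le_mul_of_nonneg_left hF1 hν.le
      have h5 : 10 * π * (2 * ν₁) ^ 2 = ν₁ / 16 * (640 * π * ν₁) := by ring
      have h6 : ν₁ / 16 * (640 * π * ν₁) ≤ ν₁ / 16 * c1 :=
        mul_le_mul_of_nonneg_left hνc (by positivity)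
      nlinarith only [hπ, h2, h6]

/-- the key inequality; `nu` is bounded independently of `ζ` -/
theorem key {k : ℂ → ℝ} {Lk ρ kinf c1 c2 e2 m1 : ℝ} (hk : Tm k Lk ρ kinf c1 c2 e2 m1) :
    ∃ lam c0 m0 d0 B : ℝ, 0 < lam ∧ lam ≤ 1 ∧ 0 < c0 ∧ c0 ≤ 1 / 2 ∧ 0 < m0 ∧ m0 ≤ 1 ∧ 0 < d0 ∧
      d0 ≤ 1 / 4 ∧ 0 < B ∧ ∀ d : ℝ, 0 < d → d ≤ d0 → ∀ m : ℝ, 0 < m → m ≤ m0 → ∀ ζ : ℂ, ζ ≠ 0 →
      ∃ nu : ℝ, 0 ≤ nu ∧ nu ≤ B ∧ ∃ H : ℂ → ℝ, Integrable H ∧ (∀ y, 0 ≤ H y) ∧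
        (∀ᵐ y : ℂ, Phi k d m lam nu ζ y ≤ H y) ∧
        ∫ y, H y ≤ (1 - c0) * (d * π * m * 2 ^ (-d)) := by
  have hLk := hk.hL
  have hρ := hk.hρ
  have hc1 := hk.hc1
  have hc2 := hk.hc2
  have hm1 := hk.hm1
  have hπ := Real.pi_pos
  have hπ4 := Real.pi_lt_d2
  obtain ⟨ν₁, hν, hν1, hνc⟩ : ∃ ν₁ : ℝ, 0 < ν₁ ∧ ν₁ ≤ 1 / 32 ∧ 640 * π * ν₁ ≤ c1 := by
    refine ⟨min (1 / 32) (c1 / (640 * π)), by (clear * - hc1; positivity), min_le_left _ _, ?_⟩
    calc 640 * π * min (1 / 32) (c1 / (640 * π)) ≤ 640 * π * (c1 / (640 * π)) :=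
          mul_le_mul_of_nonneg_left (min_le_right _ _) (by positivity)
      _ = c1 := by (clear * - hc1; field_simp)
  have hν1c : 0 < ν₁ * c1 := by (clear * - hν hc1; positivity)
  -- the constant `lam`
  set T : ℝ := 1 + 12 * Lk + 90 * π * Lk ^ 2 / c2 + Lk / (2 * ν₁) + 4 * π * Lk / (ν₁ * c1) +
    16 * π * (Lk * (1 + 2 * ρ) ^ 2) / (ν₁ * c1) with hT
  have t1 : 0 < 12 * Lk := by positivity
  have t2 : 0 < 90 * π * Lk ^ 2 / c2 := by (clear * - hLk hc2; positivity)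
  have t3 : 0 < Lk / (2 * ν₁) := by (clear * - hLk hν; positivity)
  have t4 : 0 < 4 * π * Lk / (ν₁ * c1) := by (clear * - hLk hν hc1; positivity)
  have t5 : 0 < 16 * π * (Lk * (1 + 2 * ρ) ^ 2) / (ν₁ * c1) := by (clear * - hLk hρ hν hc1; positivity)
  have hT0 : 0 < T := by linarith only [t1, t2, t3, t4, t5]
  have hx : ∀ x y : ℝ, 0 < y → x / y ≤ T → 1 / T * x ≤ y := by
    intro x y hy h
    rw [one_div, inv_mul_le_iff₀ hT0, mul_comm T y, ← div_le_iff₀' hy]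
    exact h
  set lam : ℝ := 1 / T with hlam
  have hl : 0 < lam := by (clear * - hLk hc2 hν hc1 hρ; positivity)
  have hl1 : lam ≤ 1 := by
    rw [hlam, div_le_one hT0]
    linarith only [t1, t2, t3, t4, t5]
  have l1 : lam * Lk ≤ 1 / 12 := by
    have := hx (12 * Lk) 1 one_pos (by rw [div_one]; linarith only [t2, t3, t4, t5])
    linarith only [this]
  have l2 : 90 * π * (lam * Lk ^ 2) ≤ c2 := by
    have := hx (90 * π * Lk ^ 2) c2 hc2 (by linarith only [t1, t3, t4, t5])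
    linarith only [this]
  have l3 : lam * Lk ≤ 2 * ν₁ := hx Lk (2 * ν₁) (by positivity) (by (clear * - t1 t2 t4 t5; linarith only [t1, t2, t4, t5]))
  have l4 : 4 * π * (lam * Lk) ≤ ν₁ * c1 := by
    have := hx (4 * π * Lk) (ν₁ * c1) hν1c (by linarith only [t1, t2, t3, t5])
    linarith only [this]
  have l5 : 16 * π * (lam * Lk * (1 + 2 * ρ) ^ 2) ≤ ν₁ * c1 := by
    have := hx (16 * π * (Lk * (1 + 2 * ρ) ^ 2)) (ν₁ * c1) hν1c (by linarith only [t1, t2, t3, t4])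
    linarith only [this]
  -- the gain
  obtain ⟨g, hg, hg1, hg2, hg3⟩ : ∃ g : ℝ, 0 < g ∧ g ≤ 1 ∧ g ≤ lam * c2 / 4 ∧ g ≤ ν₁ * c1 / 2 :=
    ⟨min 1 (min (lam * c2 / 4) (ν₁ * c1 / 2)), by (clear * - hLk hc2 hν hc1 hρ; positivity), min_le_left _ _,
      (min_le_right _ _).trans (min_le_left _ _), (min_le_right _ _).trans (min_le_right _ _)⟩
  set u : ℝ := g / 120000 with hu
  have hu0 : 0 < u := by (clear * - hg; positivity)
  have hu1 : u ≤ 1 / 120000 := by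
    rw [hu]
    linarith only [hg1]
  obtain ⟨m0, hm0, hm01, hm02, hm03, hm04⟩ : ∃ m0 : ℝ, 0 < m0 ∧ m0 ≤ 1 ∧ m0 ≤ m1 ∧
      2 * m0 ≤ 1 / 3 ∧ 2 * m0 ≤ u ^ 4 := by
    refine ⟨min (1 / 6) (min m1 (u ^ 4 / 2)), by (clear * - hm1 hg; positivity), ?_, ?_, ?_, ?_⟩
    · exact (min_le_left _ _).trans (by norm_num)
    · exact (min_le_right _ _).trans (min_le_left _ _)
    · have := min_le_left (1 / 6) (min m1 (u ^ 4 / 2))
      (clear * - this; linarith only [this])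
    · have := (min_le_right (1 / 6) (min m1 (u ^ 4 / 2))).trans (min_le_right _ _)
      linarith only [this]
  refine ⟨lam, g / 4, m0, g / 120010, ν₁ * 2 / lam, hl, hl1, by (clear * - hg; positivity), by linarith only [hu, hu1], hm0, hm01,
    by positivity, by (clear * - hu hu1; linarith only [hu, hu1]), by (clear * - hν hLk hc2 hc1 hρ; positivity), ?_⟩
  intro d hd hd0 m hm hmm ζ hζ
  have hd10 : d ≤ 1 / 10 := by linarith only [hu, hu1, hd0]
  have hs4 : (2 * m) ^ (1 / 4 : ℝ) ≤ u := by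
    calc (2 * m) ^ (1 / 4 : ℝ) ≤ (u ^ 4) ^ (1 / 4 : ℝ) :=
          Real.rpow_le_rpow (by (clear * - hm; positivity)) (by linarith only [hm04, hmm]) (by norm_num)
      _ = u := by
          rw [← Real.rpow_natCast, ← Real.rpow_mul hu0.le]
          norm_num
  have h2d : 1 - d ≤ (2 : ℝ) ^ (-d) := by
    have h1 := Real.add_one_le_exp (Real.log 2 * (-d))
    rw [← Real.rpow_def_of_pos (by norm_num : (0 : ℝ) < 2)] at h1
    have h2 : Real.log 2 ≤ 1 := by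
      have := Real.log_le_sub_one_of_pos (by norm_num : (0 : ℝ) < 2)
      linarith only [this]
    (clear * - h1 hd h2; nlinarith only [hd, h1, h2])
  have hfin : ∀ G : ℝ, g ≤ G → d * (2 * m) * (π / 2 - G +
      30000 * (d + (2 * m) ^ (1 / 4 : ℝ))) ≤ (1 - g / 4) * (d * π * m * 2 ^ (-d)) := by
    intro G hG
    have e1 : (1 - g / 4) * (d * π * m * 2 ^ (-d)) =
        d * (2 * m) * ((1 - g / 4) * (π / 2) * 2 ^ (-d)) := by ring
    rw [e1]
    refine mul_le_mul_of_nonneg_left ?_ (by (clear * - hd hm; positivity))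
    have e2 : (1 - g / 4) * (π / 2) * (1 - d) ≤ (1 - g / 4) * (π / 2) * 2 ^ (-d) := by
      refine mul_le_mul_of_nonneg_left h2d ?_
      have : 0 < 1 - g / 4 := by linarith only [hg1]
      (clear * - this; positivity)
    have e3 : (1 - g / 4) * (π / 2) * (1 - d) ≥ π / 2 - (π / 8) * g - (π / 2) * d := by
      (clear * - hπ hg hd; linarith only [mul_pos hπ (mul_pos hg hd)])
    have e4 : (π / 8) * g ≤ 0.4 * g := by nlinarith only [hπ4, hd, hd0]
    have e5 : (π / 2) * d ≤ 1.6 * d := by nlinarith only [hd, hd0, e4]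
    have e6 : 30000 * (2 * m) ^ (1 / 4 : ℝ) ≤ g / 4 := by
      rw [hu] at hs4
      linarith only [hs4]
    nlinarith only [hd, hd0, hG, e2, e3, e5, e6]
  rcases le_total ‖1 / ζ - 1‖ e2 with h | h
  · obtain ⟨H, g1, g2', g3', g4⟩ := case_good hk hd hd10 hm (by linarith only [hm03, hmm]) (by linarith only [hm02, hmm]) hl hl1 l1 l2
      hζ h
    exact ⟨0, le_rfl, by (clear * - hν hLk hc2 hc1 hρ; positivity), H, g1, g2', g3', g4.trans (hfin _ hg2)⟩
  · obtain ⟨H, g1, g2', g3', g4⟩ := case_bad hk hd hd10 hm (by linarith only [hm03, hmm]) hl hl1 hν hν1 hνc l3 l4 l5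
      hζ h
    refine ⟨ν₁ * (2 * m) / lam, by (clear * - hν hm hLk hc2 hc1 hρ; positivity), ?_, H, g1, g2', g3', g4.trans (hfin _ hg3)⟩
    refine div_le_div_of_nonneg_right ?_ hl.le
    refine mul_le_mul_of_nonneg_left ?_ hν.le
    linarith only [hm03, hmm]

end Pool.Agent.Helper17.G3
end

/- Helper24.KR.H89.G3.VhKey -/
section
/-!
# G3-VHKEY: from the key inequality to the normalised move inequality

The integral of `Phi` over `Q` is `J Q (2m) ζ - e^(δ m) J Q 0 ζ + ν (J Q 0 1 - J Q 0 ζ)`, so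
`Vh Q (2m) ≤ J Q (2m) ζ ≤ e^(δ m) J Q 0 ζ + ν (J Q 0 ζ - Vh Q 0) + E`; choose `ζ` with
`J Q 0 ζ ≤ Vh Q 0 + η`, use `ν ≤ B`, and let `η → 0`.
-/

set_option autoImplicit false

namespace Pool.Agent.Helper89.G3

open MeasureTheory Set
open scoped Real
open Pool.Agent.Helper17.G3 (Phi)

variable {k : ℂ → ℝ} {K δ b m : ℝ}

theorem int_phi (hk : Measurable k) (hK : ∀ w, |k w| ≤ K) (h0 : 0 < δ) (h1 : δ ≤ 1)
    {Q : Set ℂ} (hQ : MeasurableSet Q) (hv : volume Q < ⊤) (ν : ℝ) (ζ : ℂ) :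
    IntegrableOn (Phi k δ m b ν ζ) Q ∧ ∫ y in Q, Phi k δ m b ν ζ y =
      J k δ b Q ((2 * m : ℝ) : ℂ) ζ - Real.exp (δ * m) * J k δ b Q 0 ζ +
        ν * (J k δ b Q 0 1 - J k δ b Q 0 ζ) := by
  have hA := j_int (b := b) hk hK h0 h1 hQ hv ((2 * m : ℝ) : ℂ) ζ
  have hB := j_int (b := b) hk hK h0 h1 hQ hv 0 ζ
  have hC := j_int (b := b) hk hK h0 h1 hQ hv 0 1
  have he : Phi k δ m b ν ζ = fun y : ℂ =>
      ‖y - ((2 * m : ℝ) : ℂ)‖ ^ (-δ) * (1 - δ * b * k ((y - ((2 * m : ℝ) : ℂ)) / ζ)) -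
      Real.exp (δ * m) * (‖y - 0‖ ^ (-δ) * (1 - δ * b * k ((y - 0) / ζ))) +
      ν * (‖y - 0‖ ^ (-δ) * (1 - δ * b * k ((y - 0) / 1)) -
        ‖y - 0‖ ^ (-δ) * (1 - δ * b * k ((y - 0) / ζ))) := by
    funext y
    unfold Phi
    simp only [sub_zero, div_one]
    ring
  constructor
  · rw [he]
    exact (hA.sub (hB.const_mul _)).add ((hC.sub hB).const_mul _)
  · rw [he]
    have aux : ∀ fA fB fC : ℂ → ℝ, IntegrableOn fA Q → IntegrableOn fB Q → IntegrableOn fC Q →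
        ∫ y in Q, (fA y - Real.exp (δ * m) * fB y + ν * (fC y - fB y)) =
          (∫ y in Q, fA y) - Real.exp (δ * m) * (∫ y in Q, fB y) +
            ν * ((∫ y in Q, fC y) - ∫ y in Q, fB y) := by
      intro fA fB fC a1 a2 a3
      have s1 : ∫ y in Q, (fA y - Real.exp (δ * m) * fB y + ν * (fC y - fB y)) =
          (∫ y in Q, (fA y - Real.exp (δ * m) * fB y)) + ∫ y in Q, ν * (fC y - fB y) :=
        integral_add (a1.sub (a2.const_mul _)) ((a3.sub a2).const_mul _)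
      have s2 : ∫ y in Q, (fA y - Real.exp (δ * m) * fB y) =
          (∫ y in Q, fA y) - ∫ y in Q, Real.exp (δ * m) * fB y :=
        integral_sub a1 (a2.const_mul _)
      have s3 : ∫ y in Q, (fC y - fB y) = (∫ y in Q, fC y) - ∫ y in Q, fB y :=
        integral_sub a3 a2
      rw [s1, s2, integral_const_mul, integral_const_mul, s3]
    exact aux _ _ _ hA hB hC

theorem vh_key_phi (hk : Measurable k) (hK : ∀ w, |k w| ≤ K) (h0 : 0 < δ) (h1 : δ ≤ 1) (hb : 0 ≤ b)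
    (hb1 : K * b * δ ≤ 1) {B E : ℝ} (hB : 0 ≤ B)
    (hkey : ∀ ζ : ℂ, ζ ≠ 0 → ∃ ν : ℝ, 0 ≤ ν ∧ ν ≤ B ∧ ∃ H : ℂ → ℝ, Integrable H ∧
      (∀ y, 0 ≤ H y) ∧ (∀ᵐ y : ℂ, Phi k δ m b ν ζ y ≤ H y) ∧ ∫ y, H y ≤ E)
    {Q : Set ℂ} (hQ : MeasurableSet Q) (hv : volume Q < ⊤) :
    Vh k δ b Q ((2 * m : ℝ) : ℂ) ≤ Real.exp (δ * m) * Vh k δ b Q 0 + E := by
  have hne : Nonempty {ζ : ℂ // ζ ≠ 0} := ⟨⟨1, one_ne_zero⟩⟩
  have key : ∀ η : ℝ, 0 < η → Vh k δ b Q ((2 * m : ℝ) : ℂ) ≤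
      Real.exp (δ * m) * Vh k δ b Q 0 + E + (Real.exp (δ * m) + B) * η := by
    intro η hη
    obtain ⟨⟨ζ, hζ⟩, h2⟩ := exists_lt_of_ciInf_lt
      (lt_add_of_pos_right (Vh k δ b Q 0) hη : (⨅ ζ : {ζ : ℂ // ζ ≠ 0}, J k δ b Q 0 ζ) < _)
    simp only at h2
    obtain ⟨ν, hν, hνB, H, hH, hH0, hle, hE⟩ := hkey ζ hζ
    obtain ⟨h3, h4⟩ := int_phi (b := b) (m := m) hk hK h0 h1 hQ hv ν ζ
    have h5 : ∫ y in Q, Phi k δ m b ν ζ y ≤ E := by
      calc ∫ y in Q, Phi k δ m b ν ζ y ≤ ∫ y in Q, H y :=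
            integral_mono_ae h3 hH.integrableOn (ae_restrict_of_ae hle)
        _ ≤ ∫ y, H y := setIntegral_le_integral hH (Filter.Eventually.of_forall hH0)
        _ ≤ E := hE
    rw [h4] at h5
    have h6 := vh_le hK h0 hb hb1 Q ((2 * m : ℝ) : ℂ) hζ
    have h7 := vh_le hK h0 hb hb1 Q 0 (one_ne_zero : (1 : ℂ) ≠ 0)
    have h8 : ν * (J k δ b Q 0 ζ - J k δ b Q 0 1) ≤ B * η := by
      have h9 : ν * (J k δ b Q 0 ζ - J k δ b Q 0 1) ≤ ν * η :=
        mul_le_mul_of_nonneg_left (by linarith only [h2, h7]) hν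
      exact h9.trans (mul_le_mul_of_nonneg_right hνB hη.le)
    have h10 : Real.exp (δ * m) * J k δ b Q 0 ζ ≤ Real.exp (δ * m) * (Vh k δ b Q 0 + η) :=
      mul_le_mul_of_nonneg_left h2.le (Real.exp_pos _).le
    linarith only [h5, h6, h8, h10]
  refine le_of_forall_pos_le_add fun ε hε => ?_
  have h11 : 0 < Real.exp (δ * m) + B := by positivity
  have h12 := key (ε / (Real.exp (δ * m) + B)) (by positivity)
  rwa [mul_div_cancel₀ _ h11.ne'] at h12

end Pool.Agent.Helper89.G3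
end

/- Helper24.KR.H33.G3.Disc -/
section
/-!
# G3, template: the average of a quartic polynomial over a disk

`kq` has average `-(1 - a - 8 b²)² - (a - 1)² - b²` over the disk with centre `c = a + i b` and radius
`|c|` (the disk through `0`).
-/

set_option autoImplicit false
open MeasureTheory Set
open scoped Real

namespace Pool.Agent.Helper33.G3


theorem tr_ftc {F f : ℝ → ℝ} (h : ∀ x, HasDerivAt F (f x) x) (hf : Continuous f) {c : ℝ}
    (hc : F π - F (-π) = c) : ∫ x in (-π)..π, f x = c := by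
  rw [intervalIntegral.integral_eq_sub_of_hasDerivAt (fun x _ => h x) (hf.intervalIntegrable _ _), hc]

/-- trigonometric polynomials of degree 4 -/
theorem tr_int (a00 a10 a01 a20 a11 a02 a30 a21 a12 a03 a40 a31 a22 a13 a04 : ℝ) :
    ∫ x in (-π)..π, (a00 + a10 * Real.cos x + a01 * Real.sin x + a20 * Real.cos x ^ 2 +
      a11 * (Real.cos x * Real.sin x) + a02 * Real.sin x ^ 2 + a30 * Real.cos x ^ 3 +
      a21 * (Real.cos x ^ 2 * Real.sin x) + a12 * (Real.cos x * Real.sin x ^ 2) +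
      a03 * Real.sin x ^ 3 + a40 * Real.cos x ^ 4 + a31 * (Real.cos x ^ 3 * Real.sin x) +
      a22 * (Real.cos x ^ 2 * Real.sin x ^ 2) + a13 * (Real.cos x * Real.sin x ^ 3) +
      a04 * Real.sin x ^ 4) =
    2 * π * (a00 + a20 / 2 + a02 / 2 + 3 * a40 / 8 + a22 / 8 + 3 * a04 / 8) := by
  refine tr_ftc (F := fun x => a00 * x + a10 * Real.sin x - a01 * Real.cos x +
    a20 / 2 * (x + Real.sin x * Real.cos x) + a11 / 2 * Real.sin x ^ 2 +
    a02 / 2 * (x - Real.sin x * Real.cos x) + a30 * (Real.sin x - Real.sin x ^ 3 / 3) -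
    a21 / 3 * Real.cos x ^ 3 + a12 / 3 * Real.sin x ^ 3 +
    a03 * (Real.cos x ^ 3 / 3 - Real.cos x) +
    a40 * (3 / 8 * x + 3 / 8 * (Real.sin x * Real.cos x) + 1 / 4 * (Real.sin x * Real.cos x ^ 3)) -
    a31 / 4 * Real.cos x ^ 4 +
    a22 * (x / 8 + 1 / 8 * (Real.sin x * Real.cos x) - 1 / 4 * (Real.sin x * Real.cos x ^ 3)) +
    a13 / 4 * Real.sin x ^ 4 +
    a04 * (3 / 8 * x - 3 / 8 * (Real.sin x * Real.cos x) - 1 / 4 * (Real.sin x ^ 3 * Real.cos x)))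
    ?_ (by fun_prop) ?_
  · intro x
    have hs := Real.hasDerivAt_sin x
    have hc := Real.hasDerivAt_cos x
    have hi := hasDerivAt_id' x
    have hsc := hs.mul hc
    have e := (((((((((((((((hi.const_mul a00).add (hs.const_mul a10)).sub
      (hc.const_mul a01)).add
      ((hi.add hsc).const_mul (a20 / 2))).add ((hs.pow 2).const_mul (a11 / 2))).add
      ((hi.sub hsc).const_mul (a02 / 2))).add ((hs.sub ((hs.pow 3).div_const 3)).const_mul a30)).sub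
      ((hc.pow 3).const_mul (a21 / 3))).add ((hs.pow 3).const_mul (a12 / 3))).add
      ((((hc.pow 3).div_const 3).sub hc).const_mul a03)).add
      ((((hi.const_mul (3 / 8)).add (hsc.const_mul (3 / 8))).add
        ((hs.mul (hc.pow 3)).const_mul (1 / 4))).const_mul a40)).sub
      ((hc.pow 4).const_mul (a31 / 4))).add
      ((((hi.div_const 8).add (hsc.const_mul (1 / 8))).sub
        ((hs.mul (hc.pow 3)).const_mul (1 / 4))).const_mul a22)).add
      ((hs.pow 4).const_mul (a13 / 4))).add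
      ((((hi.const_mul (3 / 8)).sub (hsc.const_mul (3 / 8))).sub
        (((hs.pow 3).mul hc).const_mul (1 / 4))).const_mul a04))
    refine HasDerivAt.congr_deriv e ?_
    have h1 := Real.sin_sq_add_cos_sq x
    obtain ⟨s, hs'⟩ : ∃ s, s = Real.sin x := ⟨_, rfl⟩
    obtain ⟨c, hc'⟩ : ∃ c, c = Real.cos x := ⟨_, rfl⟩
    rw [← hs', ← hc'] at h1
    simp only [Pi.pow_apply, ← hs', ← hc', Nat.cast_ofNat]
    have h2 : s ^ 2 = 1 - c ^ 2 := by linarith only [h1]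
    have h3 : s ^ 3 = s * (1 - c ^ 2) := by rw [← h2]; ring
    have h4 : s ^ 4 = (1 - c ^ 2) ^ 2 := by rw [← h2]; ring
    ring_nf
    simp only [h2, h3, h4]
    ring
  · simp only [Real.sin_neg, Real.cos_neg, Real.sin_pi, Real.cos_pi]
    ring


/-- polar coordinates on a disk centred at 0, for continuous functions -/
theorem disc_polar {f : ℂ → ℝ} (hf : Continuous f) {r : ℝ} (hr : 0 < r) :
    ∫ z in Metric.ball (0:ℂ) r, f z =
      ∫ ρ in (0:ℝ)..r, ∫ θ in (-π)..π,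
        ρ * f (⟨ρ * Real.cos θ, ρ * Real.sin θ⟩ : ℂ) := by
  have hsymm : ∀ p : ℝ × ℝ, Complex.polarCoord.symm p =
      (⟨p.1 * Real.cos p.2, p.1 * Real.sin p.2⟩ : ℂ) := by
    intro p
    rw [Complex.polarCoord_symm_apply]
    apply Complex.ext
    · simp only [Complex.mul_re, Complex.add_re, Complex.ofReal_re, Complex.ofReal_im,
        Complex.mul_im, Complex.add_im, Complex.I_re, Complex.I_im]
      ring
    · simp only [Complex.mul_re, Complex.add_re, Complex.ofReal_re, Complex.ofReal_im,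
        Complex.mul_im, Complex.add_im, Complex.I_re, Complex.I_im]
      ring
  have hnorm : ∀ p : ℝ × ℝ, 0 < p.1 →
      ‖(⟨p.1 * Real.cos p.2, p.1 * Real.sin p.2⟩ : ℂ)‖ = p.1 := by
    intro p hp
    have h1 : ‖(⟨p.1 * Real.cos p.2, p.1 * Real.sin p.2⟩ : ℂ)‖ ^ 2 = p.1 ^ 2 := by
      rw [← Complex.normSq_eq_norm_sq, Complex.normSq_apply]
      have := Real.sin_sq_add_cos_sq p.2
      have e : p.1 * Real.cos p.2 * (p.1 * Real.cos p.2) + p.1 * Real.sin p.2 *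
          (p.1 * Real.sin p.2) = p.1 ^ 2 * (Real.sin p.2 ^ 2 + Real.cos p.2 ^ 2) := by ring
      rw [e, this, mul_one]
    exact (sq_eq_sq₀ (norm_nonneg _) hp.le).1 h1
  have hg : Continuous fun p : ℝ × ℝ =>
      p.1 * f (⟨p.1 * Real.cos p.2, p.1 * Real.sin p.2⟩ : ℂ) := by
    have h1 : Continuous fun p : ℝ × ℝ =>
        (⟨p.1 * Real.cos p.2, p.1 * Real.sin p.2⟩ : ℂ) := by
      have : (fun p : ℝ × ℝ => (⟨p.1 * Real.cos p.2, p.1 * Real.sin p.2⟩ : ℂ)) =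
          fun p : ℝ × ℝ => Complex.equivRealProdCLM.symm
            (p.1 * Real.cos p.2, p.1 * Real.sin p.2) := by
        funext p
        apply Complex.ext <;> simp
      rw [this]
      fun_prop
    exact continuous_fst.mul (hf.comp h1)
  rw [← integral_indicator Metric.isOpen_ball.measurableSet,
    ← Complex.integral_comp_polarCoord_symm]
  have e1 : ∫ p in polarCoord.target, p.1 •
      (Metric.ball (0:ℂ) r).indicator f (Complex.polarCoord.symm p) =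
      ∫ p in Ioo (0:ℝ) r ×ˢ Ioo (-π) π, p.1 * f (⟨p.1 * Real.cos p.2, p.1 * Real.sin p.2⟩ : ℂ) := by
    have ht : polarCoord.target = Ioi (0:ℝ) ×ˢ Ioo (-π) π := rfl
    rw [ht]
    have hsub : Ioo (0:ℝ) r ×ˢ Ioo (-π) π ⊆ Ioi (0:ℝ) ×ˢ Ioo (-π) π :=
      prod_mono Ioo_subset_Ioi_self subset_rfl
    rw [setIntegral_eq_of_subset_of_forall_sdiff_eq_zero
      (measurableSet_Ioi.prod measurableSet_Ioo) hsub]
    · refine setIntegral_congr_fun (measurableSet_Ioo.prod measurableSet_Ioo) ?_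
      rintro p ⟨hp1, hp2⟩
      simp only [smul_eq_mul]
      rw [hsymm, indicator_of_mem]
      rw [mem_ball_zero_iff, hnorm p hp1.1]
      exact hp1.2
    · rintro p ⟨⟨hp1, hp2⟩, hp3⟩
      rw [hsymm, indicator_of_notMem, smul_zero]
      intro h
      rw [mem_ball_zero_iff, hnorm p hp1] at h
      exact hp3 ⟨⟨hp1, h⟩, hp2⟩
  rw [e1, Measure.volume_eq_prod, setIntegral_prod]
  · rw [intervalIntegral.integral_of_le hr.le, integral_Ioc_eq_integral_Ioo]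
    refine setIntegral_congr_fun measurableSet_Ioo fun ρ _ => ?_
    simp only
    rw [intervalIntegral.integral_of_le (by linarith only [Real.pi_pos]), integral_Ioc_eq_integral_Ioo]
  · refine (hg.continuousOn.integrableOn_compact
      (isCompact_Icc.prod isCompact_Icc : IsCompact (Icc (0:ℝ) r ×ˢ Icc (-π) π))).mono_set ?_
    exact prod_mono Ioo_subset_Icc_self Ioo_subset_Icc_self

/-- the quartic polynomial -/
noncomputable def kq (X Y : ℝ) : ℝ :=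
  -2 + 4 * X - 25 / 6 * X ^ 2 + 77 / 6 * Y ^ 2 + 2 * X ^ 3 - 14 * (X * Y ^ 2) - 12 / 5 * X ^ 4 +
    168 / 5 * (X ^ 2 * Y ^ 2) - 28 * Y ^ 4

/-- its average over the disk with centre `(a, b)` and radius `√R` -/
noncomputable def gq (a b R : ℝ) : ℝ :=
  -2 + 4 * a - 25 / 6 * (a ^ 2 + R / 4) + 77 / 6 * (b ^ 2 + R / 4) + 2 * (a ^ 3 + 3 * a * R / 4) -
    14 * (a * b ^ 2 + a * R / 4) - 12 / 5 * (a ^ 4 + 3 / 2 * a ^ 2 * R + R ^ 2 / 8) +
    168 / 5 * (a ^ 2 * b ^ 2 + (a ^ 2 + b ^ 2) * R / 4 + R ^ 2 / 24) -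
    28 * (b ^ 4 + 3 / 2 * b ^ 2 * R + R ^ 2 / 8)

theorem gq_eq (a b : ℝ) :
    gq a b (a ^ 2 + b ^ 2) = -(1 - a - 8 * b ^ 2) ^ 2 - ((a - 1) ^ 2 + b ^ 2) := by
  unfold gq
  ring

theorem kq_cont (a b : ℝ) : Continuous fun z : ℂ => kq (a + z.re) (b + z.im) := by
  unfold kq
  fun_prop

theorem disc_kq0 (a b : ℝ) {r : ℝ} (hr : 0 < r) :
    ∫ z in Metric.ball (0:ℂ) r, kq (a + z.re) (b + z.im) = π * r ^ 2 * gq a b (r ^ 2) := by
  rw [disc_polar (kq_cont a b) hr]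
  have h1 : ∀ ρ : ℝ, ∫ θ in (-π)..π, ρ * kq (a + ρ * Real.cos θ) (b + ρ * Real.sin θ) =
      2 * π * ρ * (-2 + 4 * a - 25 / 6 * (a ^ 2 + ρ ^ 2 / 2) + 77 / 6 * (b ^ 2 + ρ ^ 2 / 2) +
        2 * (a ^ 3 + 3 * a * ρ ^ 2 / 2) - 14 * (a * b ^ 2 + a * ρ ^ 2 / 2) -
        12 / 5 * (a ^ 4 + 3 * a ^ 2 * ρ ^ 2 + 3 * ρ ^ 4 / 8) +
        168 / 5 * (a ^ 2 * b ^ 2 + (a ^ 2 + b ^ 2) * ρ ^ 2 / 2 + ρ ^ 4 / 8) -
        28 * (b ^ 4 + 3 * b ^ 2 * ρ ^ 2 + 3 * ρ ^ 4 / 8)) := by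
    intro ρ
    have h2 := tr_int
      (ρ * kq a b)
      (ρ ^ 2 * (4 - 25 / 3 * a + 6 * a ^ 2 - 14 * b ^ 2 - 48 / 5 * a ^ 3 + 336 / 5 * a * b ^ 2))
      (ρ ^ 2 * (77 / 3 * b - 28 * a * b + 336 / 5 * a ^ 2 * b - 112 * b ^ 3))
      (ρ ^ 3 * (-25 / 6 + 6 * a - 72 / 5 * a ^ 2 + 168 / 5 * b ^ 2))
      (ρ ^ 3 * (-28 * b + 672 / 5 * a * b))
      (ρ ^ 3 * (77 / 6 - 14 * a + 168 / 5 * a ^ 2 - 168 * b ^ 2))
      (ρ ^ 4 * (2 - 48 / 5 * a))
      (ρ ^ 4 * (336 / 5 * b))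
      (ρ ^ 4 * (-14 + 336 / 5 * a))
      (ρ ^ 4 * (-112 * b))
      (ρ ^ 5 * (-12 / 5)) 0 (ρ ^ 5 * (168 / 5)) 0 (ρ ^ 5 * (-28))
    have h3 : ∀ x : ℝ, ρ * kq (a + ρ * Real.cos x) (b + ρ * Real.sin x) =
        (ρ * kq a b) +
      (ρ ^ 2 * (4 - 25 / 3 * a + 6 * a ^ 2 - 14 * b ^ 2 - 48 / 5 * a ^ 3 + 336 / 5 * a * b ^ 2)) *
        Real.cos x +
      (ρ ^ 2 * (77 / 3 * b - 28 * a * b + 336 / 5 * a ^ 2 * b - 112 * b ^ 3)) * Real.sin x +
      (ρ ^ 3 * (-25 / 6 + 6 * a - 72 / 5 * a ^ 2 + 168 / 5 * b ^ 2)) * Real.cos x ^ 2 +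
      (ρ ^ 3 * (-28 * b + 672 / 5 * a * b)) * (Real.cos x * Real.sin x) +
      (ρ ^ 3 * (77 / 6 - 14 * a + 168 / 5 * a ^ 2 - 168 * b ^ 2)) * Real.sin x ^ 2 +
      (ρ ^ 4 * (2 - 48 / 5 * a)) * Real.cos x ^ 3 +
      (ρ ^ 4 * (336 / 5 * b)) * (Real.cos x ^ 2 * Real.sin x) +
      (ρ ^ 4 * (-14 + 336 / 5 * a)) * (Real.cos x * Real.sin x ^ 2) +
      (ρ ^ 4 * (-112 * b)) * Real.sin x ^ 3 +
      (ρ ^ 5 * (-12 / 5)) * Real.cos x ^ 4 + 0 * (Real.cos x ^ 3 * Real.sin x) +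
      (ρ ^ 5 * (168 / 5)) * (Real.cos x ^ 2 * Real.sin x ^ 2) +
      0 * (Real.cos x * Real.sin x ^ 3) + (ρ ^ 5 * (-28)) * Real.sin x ^ 4 := by
      intro x
      unfold kq
      ring
    simp only [h3, h2]
    unfold kq
    ring
  have h4 : ∀ ρ : ℝ, ∫ θ in (-π)..π, ρ * kq (a + (⟨ρ * Real.cos θ, ρ * Real.sin θ⟩ : ℂ).re)
      (b + (⟨ρ * Real.cos θ, ρ * Real.sin θ⟩ : ℂ).im) = _ := fun ρ => h1 ρ
  simp only [h4]
  have h5 : ∀ ρ ∈ uIcc (0:ℝ) r, HasDerivAt (fun ρ : ℝ => 2 * π * (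
      ρ ^ 2 / 2 * (-2 + 4 * a - 25 / 6 * a ^ 2 + 77 / 6 * b ^ 2 + 2 * a ^ 3 - 14 * (a * b ^ 2) -
        12 / 5 * a ^ 4 + 168 / 5 * (a ^ 2 * b ^ 2) - 28 * b ^ 4) +
      ρ ^ 4 / 8 * (-25 / 6 + 77 / 6 + 6 * a - 14 * a - 72 / 5 * a ^ 2 +
        168 / 5 * (a ^ 2 + b ^ 2) - 168 * b ^ 2) +
      ρ ^ 6 / 48 * (-36 / 5 + 168 / 5 - 84)))
      (2 * π * ρ * (-2 + 4 * a - 25 / 6 * (a ^ 2 + ρ ^ 2 / 2) + 77 / 6 * (b ^ 2 + ρ ^ 2 / 2) +
        2 * (a ^ 3 + 3 * a * ρ ^ 2 / 2) - 14 * (a * b ^ 2 + a * ρ ^ 2 / 2) -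
        12 / 5 * (a ^ 4 + 3 * a ^ 2 * ρ ^ 2 + 3 * ρ ^ 4 / 8) +
        168 / 5 * (a ^ 2 * b ^ 2 + (a ^ 2 + b ^ 2) * ρ ^ 2 / 2 + ρ ^ 4 / 8) -
        28 * (b ^ 4 + 3 * b ^ 2 * ρ ^ 2 + 3 * ρ ^ 4 / 8))) ρ := by
    intro ρ _
    have e := (((((hasDerivAt_pow 2 ρ).div_const 2).mul_const (-2 + 4 * a - 25 / 6 * a ^ 2 +
        77 / 6 * b ^ 2 + 2 * a ^ 3 - 14 * (a * b ^ 2) -
        12 / 5 * a ^ 4 + 168 / 5 * (a ^ 2 * b ^ 2) - 28 * b ^ 4)).add
        (((hasDerivAt_pow 4 ρ).div_const 8).mul_const (-25 / 6 + 77 / 6 + 6 * a - 14 * a -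
        72 / 5 * a ^ 2 + 168 / 5 * (a ^ 2 + b ^ 2) - 168 * b ^ 2))).add
        (((hasDerivAt_pow 6 ρ).div_const 48).mul_const (-36 / 5 + 168 / 5 - 84))).const_mul (2 * π)
    refine HasDerivAt.congr_deriv e ?_
    push_cast
    ring
  rw [intervalIntegral.integral_eq_sub_of_hasDerivAt h5
    ((by fun_prop : Continuous _).intervalIntegrable _ _)]
  unfold gq
  ring

theorem disc_kq (c : ℂ) {r : ℝ} (hr : 0 < r) :
    ∫ z in Metric.ball c r, kq z.re z.im = π * r ^ 2 * gq c.re c.im (r ^ 2) := by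
  rw [← disc_kq0 c.re c.im hr]
  have h := (measurePreserving_add_left (volume : Measure ℂ) c).setIntegral_preimage_emb
    (MeasurableEquiv.addLeft c).measurableEmbedding (fun z : ℂ => kq z.re z.im)
    (Metric.ball c r)
  rw [← h]
  have e : (fun x => c + x) ⁻¹' Metric.ball c r = Metric.ball (0:ℂ) r := by
    ext x
    simp
  rw [e]
  rfl

end Pool.Agent.Helper33.G3
end

/- Helper24.KR.H33.G3.Templ -/
section
/-!
# G3, template: existence

`kT = χ(|z|) (kq + B) - B`, `χ = 1` on `|z| ≤ 4` and `0` on `|z| ≥ 5`, `B = 2 · 10^7`, divided by a bound.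
-/

set_option autoImplicit false
open MeasureTheory Set
open scoped Real

namespace Pool.Agent.Helper33.G3

/-! ### bounded Lipschitz functions -/

/-- bounded and Lipschitz -/
def BL (f : ℂ → ℝ) : Prop :=
  ∃ M L : ℝ, 0 ≤ M ∧ 0 ≤ L ∧ (∀ z, |f z| ≤ M) ∧ ∀ z w, |f z - f w| ≤ L * ‖z - w‖

theorem BL.const (a : ℝ) : BL fun _ => a :=
  ⟨|a|, 0, abs_nonneg a, le_rfl, fun _ => le_rfl, fun z w => by simp⟩

theorem BL.add {f g : ℂ → ℝ} (hf : BL f) (hg : BL g) : BL fun z => f z + g z := by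
  obtain ⟨M, L, h1, h2, h3, h4⟩ := hf
  obtain ⟨M', L', k1, k2, k3, k4⟩ := hg
  refine ⟨M + M', L + L', by (clear * - h1 k1; linarith), by (clear * - h2 k2; linarith only [h2, k2]),
    fun z => (abs_add_le _ _).trans (add_le_add (h3 z) (k3 z)), fun z w => ?_⟩
  have e : f z + g z - (f w + g w) = (f z - f w) + (g z - g w) := by ring
  rw [e, add_mul]
  exact (abs_add_le _ _).trans (add_le_add (h4 z w) (k4 z w))

theorem BL.mul {f g : ℂ → ℝ} (hf : BL f) (hg : BL g) : BL fun z => f z * g z := by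
  obtain ⟨M, L, h1, h2, h3, h4⟩ := hf
  obtain ⟨M', L', k1, k2, k3, k4⟩ := hg
  refine ⟨M * M', M * L' + M' * L, by (clear * - h1 k1; positivity), by (clear * - h1 k2 k1 h2; positivity), fun z => ?_, fun z w => ?_⟩
  · rw [abs_mul]
    exact mul_le_mul (h3 z) (k3 z) (abs_nonneg _) h1
  · have e : f z * g z - f w * g w = f z * (g z - g w) + g w * (f z - f w) := by ring
    rw [e, add_mul]
    refine (abs_add_le _ _).trans (add_le_add ?_ ?_)
    · rw [abs_mul, mul_assoc]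
      exact mul_le_mul (h3 z) (k4 z w) (abs_nonneg _) h1
    · rw [abs_mul, mul_assoc]
      exact mul_le_mul (k3 w) (h4 z w) (abs_nonneg _) k1

theorem BL.cont {f : ℂ → ℝ} (hf : BL f) : Continuous f := by
  obtain ⟨M, L, h1, h2, h3, h4⟩ := hf
  refine (LipschitzWith.of_dist_le_mul (K := ⟨L, h2⟩) fun z w => ?_).continuous
  rw [Real.dist_eq, dist_eq_norm]
  exact h4 z w

/-- clamp -/
noncomputable def cl (x : ℝ) : ℝ := max (-5) (min 5 x)

theorem cl_abs (x : ℝ) : |cl x| ≤ 5 := by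
  unfold cl
  rw [abs_le]
  exact ⟨le_max_left _ _, max_le (by norm_num) (min_le_left _ _)⟩

theorem cl_lip (x y : ℝ) : |cl x - cl y| ≤ |x - y| := by
  unfold cl
  refine (abs_max_sub_max_le_max (-5) (min 5 x) (-5) (min 5 y)).trans ?_
  rw [sub_self, abs_zero, max_eq_right (abs_nonneg _)]
  refine (abs_min_sub_min_le_max 5 x 5 y).trans ?_
  rw [sub_self, abs_zero, max_eq_right (abs_nonneg _)]

theorem cl_eq {x : ℝ} (h : |x| ≤ 5) : cl x = x := by
  rw [abs_le] at h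
  unfold cl
  rw [min_eq_right h.2, max_eq_right h.1]

theorem BL_re : BL fun z => cl z.re :=
  ⟨5, 1, by norm_num, by norm_num, fun z => cl_abs _, fun z w => by
    rw [one_mul]
    refine (cl_lip _ _).trans ?_
    rw [← Complex.sub_re]
    exact Complex.abs_re_le_norm _⟩

theorem BL_im : BL fun z => cl z.im :=
  ⟨5, 1, by norm_num, by norm_num, fun z => cl_abs _, fun z w => by
    rw [one_mul]
    refine (cl_lip _ _).trans ?_
    rw [← Complex.sub_im]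
    exact Complex.abs_im_le_norm _⟩

/-- the cut-off -/
noncomputable def ct (z : ℂ) : ℝ := max 0 (min 1 (5 - ‖z‖))

theorem ct_nonneg (z : ℂ) : 0 ≤ ct z := le_max_left _ _

theorem ct_le (z : ℂ) : ct z ≤ 1 := max_le zero_le_one (min_le_left _ _)

theorem ct_one {z : ℂ} (h : ‖z‖ ≤ 4) : ct z = 1 := by
  unfold ct
  rw [min_eq_left (by linarith only [h]), max_eq_right zero_le_one]

theorem ct_zero {z : ℂ} (h : 5 ≤ ‖z‖) : ct z = 0 := by
  unfold ct
  rw [max_eq_left]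
  exact (min_le_right _ _).trans (by linarith only [h])

theorem BL_ct : BL ct := by
  refine ⟨1, 1, zero_le_one, zero_le_one, fun z => ?_, fun z w => ?_⟩
  · rw [abs_of_nonneg (ct_nonneg z)]
    exact ct_le z
  · unfold ct
    rw [one_mul]
    refine (abs_max_sub_max_le_max 0 (min 1 (5 - ‖z‖)) 0 (min 1 (5 - ‖w‖))).trans ?_
    rw [sub_self, abs_zero, max_eq_right (abs_nonneg _)]
    refine (abs_min_sub_min_le_max 1 (5 - ‖z‖) 1 (5 - ‖w‖)).trans ?_
    rw [sub_self, abs_zero, max_eq_right (abs_nonneg _)]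
    have e : 5 - ‖z‖ - (5 - ‖w‖) = ‖w‖ - ‖z‖ := by ring
    rw [e]
    refine (abs_norm_sub_norm_le w z).trans ?_
    rw [norm_sub_rev]

/-- the constant far out -/
def Bc : ℝ := 20000000

/-- the template before normalisation -/
noncomputable def kT (z : ℂ) : ℝ := ct z * (kq (cl z.re) (cl z.im) + Bc) + -Bc

theorem BL_kT : BL kT := by
  have x := BL_re
  have y := BL_im
  have x2 := x.mul x
  have y2 := y.mul y
  have h : BL fun z => kq (cl z.re) (cl z.im) := by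
    have e := (((((((((BL.const (-2)).add ((BL.const 4).mul x)).add ((BL.const (-25 / 6)).mul x2)).add
      ((BL.const (77 / 6)).mul y2)).add ((BL.const 2).mul (x2.mul x))).add
      ((BL.const (-14)).mul (x.mul y2))).add ((BL.const (-12 / 5)).mul (x2.mul x2))).add
      ((BL.const (168 / 5)).mul (x2.mul y2))).add ((BL.const (-28)).mul (y2.mul y2)))
    refine (congrArg BL ?_).mp e
    funext z
    unfold kq
    ring
  exact (BL_ct.mul (h.add (BL.const Bc))).add (BL.const (-Bc))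

/-! ### bounds -/

theorem kq_abs {X Y T : ℝ} (hT : 0 ≤ T) (hX : |X| ≤ T) (hY : |Y| ≤ T) :
    |kq X Y| ≤ 2 + 4 * T + 17 * T ^ 2 + 16 * T ^ 3 + 64 * T ^ 4 := by
  have x2 : X ^ 2 ≤ T ^ 2 := by rw [← sq_abs]; exact pow_le_pow_left₀ (abs_nonneg _) hX 2
  have y2 : Y ^ 2 ≤ T ^ 2 := by rw [← sq_abs]; exact pow_le_pow_left₀ (abs_nonneg _) hY 2
  have x0 := sq_nonneg X
  have y0 := sq_nonneg Y
  have t0 := sq_nonneg T
  obtain ⟨x1, x1'⟩ := abs_le.1 hX
  have a1 : |X ^ 3| ≤ T ^ 3 := by rw [abs_pow]; exact pow_le_pow_left₀ (abs_nonneg _) hX 3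
  have a2 : |X * Y ^ 2| ≤ T ^ 3 := by
    rw [abs_mul, abs_of_nonneg y0]
    calc |X| * Y ^ 2 ≤ T * T ^ 2 := mul_le_mul hX y2 y0 hT
      _ = T ^ 3 := by ring
  have a3 : X ^ 4 ≤ T ^ 4 := by
    calc X ^ 4 = X ^ 2 * X ^ 2 := by ring
      _ ≤ T ^ 2 * T ^ 2 := mul_le_mul x2 x2 x0 t0
      _ = T ^ 4 := by ring
  have a4 : Y ^ 4 ≤ T ^ 4 := by
    calc Y ^ 4 = Y ^ 2 * Y ^ 2 := by ring
      _ ≤ T ^ 2 * T ^ 2 := mul_le_mul y2 y2 y0 t0
      _ = T ^ 4 := by ring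
  have a5 : X ^ 2 * Y ^ 2 ≤ T ^ 4 := by
    calc X ^ 2 * Y ^ 2 ≤ T ^ 2 * T ^ 2 := mul_le_mul x2 y2 y0 t0
      _ = T ^ 4 := by ring
  have a6 : 0 ≤ X ^ 4 := by (clear * -; positivity)
  have a7 : 0 ≤ Y ^ 4 := by (clear * -; positivity)
  have a8 : 0 ≤ X ^ 2 * Y ^ 2 := by (clear * -; positivity)
  obtain ⟨b1, b2⟩ := abs_le.1 a1
  obtain ⟨b3, b4⟩ := abs_le.1 a2
  unfold kq
  rw [abs_le]
  constructor <;> linarith only [x2, y0, t0, x1, a3, a4, a7, a8, b1, b4, y2, x0, x1', a5, a6, b2, b3]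

theorem kT_eq {z : ℂ} (h : ‖z‖ ≤ 4) : kT z = kq z.re z.im := by
  unfold kT
  rw [ct_one h, cl_eq ((Complex.abs_re_le_norm z).trans (by (clear * - h; linarith))),
    cl_eq ((Complex.abs_im_le_norm z).trans (by (clear * - h; linarith only [h])))]
  ring

theorem kT_le {z : ℂ} (h : ‖z‖ ≤ 20) : kT z ≤ kq z.re z.im := by
  have h1 := kq_abs (T := 20) (by norm_num) ((Complex.abs_re_le_norm z).trans h)
    ((Complex.abs_im_le_norm z).trans h)
  have h2 : -Bc ≤ kq z.re z.im := by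
    have := (abs_le.1 h1).1
    unfold Bc
    norm_num at this ⊢
    linarith only [this]
  rcases le_or_gt ‖z‖ 5 with h5 | h5
  · unfold kT
    rw [cl_eq ((Complex.abs_re_le_norm z).trans h5), cl_eq ((Complex.abs_im_le_norm z).trans h5)]
    have h3 : ct z * (kq z.re z.im + Bc) ≤ 1 * (kq z.re z.im + Bc) :=
      mul_le_mul_of_nonneg_right (ct_le z) (by (clear * - h2; linarith only [h2]))
    linarith only [h3]
  · unfold kT
    rw [ct_zero h5.le]
    linarith only [h2]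

theorem kT_far {z : ℂ} (h : 5 ≤ ‖z‖) : kT z = -Bc := by
  unfold kT
  rw [ct_zero h]
  ring

theorem kT_ind (z : ℂ) :
    kT z ≤ (Metric.ball (0:ℂ) 5).indicator (fun _ => 50000 + Bc) z - Bc := by
  rcases lt_or_ge ‖z‖ 5 with h | h
  · rw [indicator_of_mem (by rwa [mem_ball_zero_iff])]
    have h1 := kq_abs (T := 5) (by norm_num) (cl_abs z.re) (cl_abs z.im)
    norm_num at h1
    obtain ⟨h2, h3⟩ := abs_le.1 h1
    unfold kT
    have h4 : ct z * (kq (cl z.re) (cl z.im) + Bc) ≤ 1 * (50000 + Bc) := by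
      refine mul_le_mul (ct_le z) (by linarith) ?_ zero_le_one
      unfold Bc
      (clear * - h2; linarith only [h2])
    linarith
  · rw [kT_far h, indicator_of_notMem (by rw [mem_ball_zero_iff]; (clear * - h; linarith only [h]))]
    (clear * -; linarith only [])

/-! ### change of variables -/

theorem det_smul_one (c : ℂ) : |(c • (1 : ℂ →L[ℝ] ℂ)).det| = ‖c‖ ^ 2 := by
  have h : (c • (1 : ℂ →L[ℝ] ℂ)).det = ‖c‖ ^ 2 := by
    have h1 : (((c • (1 : ℂ →L[ℝ] ℂ)) : ℂ →L[ℝ] ℂ) : ℂ →ₗ[ℝ] ℂ) =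
        ((c • (LinearMap.id : ℂ →ₗ[ℂ] ℂ)).restrictScalars ℝ) := by
      ext
      all_goals simp
    rw [ContinuousLinearMap.det, h1, LinearMap.det_restrictScalars]
    simp [Algebra.norm_complex_eq, Complex.normSq_eq_norm_sq]
  rw [h, abs_of_nonneg (by (clear * -; positivity))]

theorem ball_scale {c : ℂ} (hc : c ≠ 0) (d x : ℂ) (g : ℂ → ℝ) :
    ∫ z in Metric.ball x 1, g ((z - d) * c) =
      (‖c‖ ^ 2)⁻¹ * ∫ w in Metric.ball ((x - d) * c) ‖c‖, g w := by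
  have hn : 0 < ‖c‖ := norm_pos_iff.2 hc
  have h1 : ∀ z ∈ Metric.ball x 1, HasFDerivWithinAt (fun z => (z - d) * c)
      (c • (1 : ℂ →L[ℝ] ℂ)) (Metric.ball x 1) z := by
    intro z _
    have h2 : HasDerivAt (fun z => (z - d) * c) c z := by
      have := ((hasDerivAt_id z).sub_const d).mul_const c
      rwa [one_mul] at this
    exact h2.complexToReal_fderiv.hasFDerivWithinAt
  have h3 : InjOn (fun z => (z - d) * c) (Metric.ball x 1) := by
    intro z _ w _ h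
    have := mul_right_cancel₀ hc h
    exact sub_left_inj.1 this
  have h4 := integral_image_eq_integral_abs_det_fderiv_smul volume measurableSet_ball h1 h3 g
  have h5 : (fun z => (z - d) * c) '' Metric.ball x 1 = Metric.ball ((x - d) * c) ‖c‖ := by
    ext w
    constructor
    · rintro ⟨z, hz, rfl⟩
      rw [Metric.mem_ball, dist_eq_norm] at hz ⊢
      have e : (z - d) * c - (x - d) * c = (z - x) * c := by ring
      simp only
      rw [e, norm_mul]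
      exact mul_lt_of_lt_one_left hn hz
    · intro hw
      refine ⟨w / c + d, ?_, ?_⟩
      · rw [Metric.mem_ball, dist_eq_norm] at hw ⊢
        have e : w / c + d - x = (w - (x - d) * c) / c := by
          field_simp
          ring
        rw [e, norm_div, div_lt_one hn]
        exact hw
      · simp only
        field_simp
        ring
  rw [h5] at h4
  rw [h4]
  simp only [det_smul_one, smul_eq_mul]
  rw [integral_const_mul, ← mul_assoc, inv_mul_cancel₀ (by positivity), one_mul]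

theorem intOn {f : ℂ → ℝ} (hf : Continuous f) (c : ℂ) (r : ℝ) :
    IntegrableOn f (Metric.ball c r) :=
  (hf.continuousOn.integrableOn_compact (isCompact_closedBall c r)).mono_set
    Metric.ball_subset_closedBall

theorem kq_contz : Continuous fun z : ℂ => kq z.re z.im := by
  unfold kq
  fun_prop

/-- small disks: the exact value -/
theorem int_kT_eq {c : ℂ} {r : ℝ} (hr : 0 < r) (h : ‖c‖ + r ≤ 4) :
    ∫ z in Metric.ball c r, kT z = π * r ^ 2 * gq c.re c.im (r ^ 2) := by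
  rw [← disc_kq c hr]
  refine setIntegral_congr_fun measurableSet_ball fun z hz => kT_eq ?_
  rw [Metric.mem_ball, dist_eq_norm] at hz
  have h1 : ‖z‖ ≤ ‖z - c‖ + ‖c‖ := by
    have := norm_add_le (z - c) c
    rwa [sub_add_cancel] at this
  (clear * - h hz h1; linarith only [h, hz, h1])

/-- all disks through `0` -/
theorem int_kT_le {c : ℂ} (hc : c ≠ 0) {e : ℝ} (he : 0 ≤ e) (he1 : e ≤ 1) (h : e ≤ ‖c - 1‖) :
    ∫ z in Metric.ball c ‖c‖, kT z ≤ -(π * ‖c‖ ^ 2 * e ^ 2) := by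
  have hn : 0 < ‖c‖ := norm_pos_iff.2 hc
  have hπ := Real.pi_pos
  have he2 : e ^ 2 ≤ 1 := pow_le_one₀ he he1
  rcases le_or_gt ‖c‖ 10 with h10 | h10
  · have h1 : ∫ z in Metric.ball c ‖c‖, kT z ≤ ∫ z in Metric.ball c ‖c‖, kq z.re z.im := by
      refine setIntegral_mono_on (intOn BL_kT.cont _ _) (intOn kq_contz _ _) measurableSet_ball
        fun z hz => kT_le ?_
      rw [Metric.mem_ball, dist_eq_norm] at hz
      have h1 : ‖z‖ ≤ ‖z - c‖ + ‖c‖ := by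
        have := norm_add_le (z - c) c
        rwa [sub_add_cancel] at this
      linarith only [h10, hz, h1]
    refine h1.trans ?_
    have h2 : ‖c‖ ^ 2 = c.re ^ 2 + c.im ^ 2 := by
      rw [← Complex.normSq_eq_norm_sq, Complex.normSq_apply]
      ring
    have h3 : ‖c - 1‖ ^ 2 = (c.re - 1) ^ 2 + c.im ^ 2 := by
      rw [← Complex.normSq_eq_norm_sq, Complex.normSq_apply]
      simp only [Complex.sub_re, Complex.one_re, Complex.sub_im, Complex.one_im]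
      ring
    have h4 : e ^ 2 ≤ ‖c - 1‖ ^ 2 := pow_le_pow_left₀ he h 2
    rw [disc_kq c hn, h2, gq_eq, ← h3, ← h2]
    have h5 : -(1 - c.re - 8 * c.im ^ 2) ^ 2 - ‖c - 1‖ ^ 2 ≤ -e ^ 2 := by
      (clear * - h4; nlinarith only [h4])
    calc π * ‖c‖ ^ 2 * (-(1 - c.re - 8 * c.im ^ 2) ^ 2 - ‖c - 1‖ ^ 2) ≤
        π * ‖c‖ ^ 2 * (-e ^ 2) := mul_le_mul_of_nonneg_left h5 (by positivity)
      _ = -(π * ‖c‖ ^ 2 * e ^ 2) := by ring
  · have hi : Integrable ((Metric.ball (0:ℂ) 5).indicator (fun _ => 50000 + Bc)) volume := by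
      rw [integrable_indicator_iff measurableSet_ball]
      exact integrableOn_const measure_ball_lt_top.ne
    have h1 : ∫ z in Metric.ball c ‖c‖, kT z ≤ ∫ z in Metric.ball c ‖c‖,
        ((Metric.ball (0:ℂ) 5).indicator (fun _ => 50000 + Bc) z - Bc) :=
      setIntegral_mono_on (intOn BL_kT.cont _ _)
        (hi.integrableOn.sub (integrableOn_const measure_ball_lt_top.ne)) measurableSet_ball
        fun z _ => kT_ind z
    refine h1.trans ?_
    rw [integral_sub hi.integrableOn (integrableOn_const measure_ball_lt_top.ne)]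
    have h2 : ∫ z in Metric.ball c ‖c‖, (Metric.ball (0:ℂ) 5).indicator (fun _ => 50000 + Bc) z ≤
        (50000 + Bc) * (25 * π) := by
      have h3 : ∫ z in Metric.ball c ‖c‖,
          (Metric.ball (0:ℂ) 5).indicator (fun _ => 50000 + Bc) z ≤
          ∫ z, (Metric.ball (0:ℂ) 5).indicator (fun _ => 50000 + Bc) z := by
        refine setIntegral_le_integral hi (Filter.Eventually.of_forall fun z => ?_)
        refine indicator_nonneg (fun _ _ => ?_) z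
        unfold Bc
        norm_num
      refine h3.trans (le_of_eq ?_)
      rw [integral_indicator measurableSet_ball, setIntegral_const, smul_eq_mul, Measure.real,
        Complex.volume_ball]
      simp only [ENNReal.toReal_mul, ENNReal.toReal_pow]
      rw [ENNReal.toReal_ofReal (by norm_num)]
      simp only [ENNReal.coe_toReal, NNReal.coe_real_pi]
      ring
    have h4 : ∫ z in Metric.ball c ‖c‖, Bc = Bc * (‖c‖ ^ 2 * π) := by
      rw [setIntegral_const, smul_eq_mul, Measure.real, Complex.volume_ball]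
      simp only [ENNReal.toReal_mul, ENNReal.toReal_pow]
      rw [ENNReal.toReal_ofReal hn.le]
      simp only [ENNReal.coe_toReal, NNReal.coe_real_pi]
      ring
    rw [h4]
    have h5 : 100 ≤ ‖c‖ ^ 2 := by (clear * - h10; nlinarith only [h10])
    have h6 : π * ‖c‖ ^ 2 * e ^ 2 ≤ π * ‖c‖ ^ 2 := mul_le_of_le_one_right (by positivity) he2
    unfold Bc at *
    nlinarith only [hπ, h2, h5, h6]

/-! ### the derivative -/

/-- the difference quotient of the average when the point moves -/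
noncomputable def Dq (a b m : ℝ) : ℝ :=
  -2 * (a * (4 - 2 * (a ^ 2 + b ^ 2))) + (-4 + 4 * m) * (-25 / 6 * a ^ 2 + 77 / 6 * b ^ 2 -
    18 / 5 * a ^ 2 * (a ^ 2 + b ^ 2) + 42 / 5 * (a ^ 2 + b ^ 2) * (a ^ 2 + b ^ 2) -
    42 * b ^ 2 * (a ^ 2 + b ^ 2)) + (-6 + 12 * m - 8 * m ^ 2) * (2 * a ^ 3 - 14 * a * b ^ 2) +
  (-8 + 24 * m - 32 * m ^ 2 + 16 * m ^ 3) *
    (-12 / 5 * a ^ 4 + 168 / 5 * a ^ 2 * b ^ 2 - 28 * b ^ 4)

theorem Dq_eq (a b m : ℝ) :
    gq ((1 - 2 * m) * a) ((1 - 2 * m) * b) (a ^ 2 + b ^ 2) - gq a b (a ^ 2 + b ^ 2) =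
      m * Dq a b m := by
  unfold gq Dq
  ring

theorem Dq_pos : ∃ ε : ℝ, 0 < ε ∧ ∀ a b m : ℝ, |a - 1| < ε → |b| < ε → |m| < ε →
    1 / 3 < Dq a b m := by
  have h1 : Continuous fun x : ℝ × ℝ × ℝ => Dq x.1 x.2.1 x.2.2 := by
    unfold Dq
    fun_prop
  have h2 : (1:ℝ) / 3 < Dq 1 0 0 := by
    unfold Dq
    norm_num
  have h3 : ∀ᶠ x : ℝ × ℝ × ℝ in nhds (1, 0, 0), 1 / 3 < Dq x.1 x.2.1 x.2.2 :=
    h1.continuousAt.eventually_const_lt h2
  rw [Metric.eventually_nhds_iff] at h3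
  obtain ⟨ε, hε, h⟩ := h3
  refine ⟨ε, hε, fun a b m ha hb hm => ?_⟩
  refine h (y := (a, b, m)) ?_
  rw [Prod.dist_eq, Prod.dist_eq]
  simp only [Real.dist_eq, sub_zero]
  exact max_lt ha (max_lt hb hm)

open Pool.Agent.Helper17.G3 in
theorem exists_tm : ∃ (k : ℂ → ℝ) (Lk ρ kinf c1 c2 e2 m1 : ℝ), Tm k Lk ρ kinf c1 c2 e2 m1 := by
  obtain ⟨M₀, L₀, hM₀, hL₀, hM, hL⟩ := BL_kT
  obtain ⟨ε, hε, hD⟩ := Dq_pos
  have hπ := Real.pi_pos
  obtain ⟨M, hMd⟩ : ∃ M : ℝ, M = M₀ + 1 := ⟨_, rfl⟩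
  have hM1 : 0 < M := by linarith only [hM₀, hMd]
  obtain ⟨e2, he2d⟩ : ∃ e2 : ℝ, e2 = min (ε / 2) (1 / 2) := ⟨_, rfl⟩
  have he2 : 0 < e2 := by rw [he2d]; exact lt_min (by (clear * - hε; linarith only [hε])) (by norm_num)
  have he2' : e2 ≤ 1 / 2 := by rw [he2d]; exact min_le_right _ _
  have he2'' : e2 < ε := by
    rw [he2d]
    exact (min_le_left _ _).trans_lt (by linarith only [hε])
  have hcont : Continuous kT := BL_kT.cont
  have hone : ∫ z in Metric.ball (1:ℂ) 1, kT z = 0 := by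
    rw [int_kT_eq one_pos (by norm_num)]
    unfold gq
    simp only [Complex.one_re, Complex.one_im]
    ring
  refine ⟨fun z => M⁻¹ * kT z, M⁻¹ * (L₀ + 1), 5, M⁻¹ * -Bc, M⁻¹ * (π * e2 ^ 2), M⁻¹ * (π / 3), e2,
    min (ε / 2) (1 / 4), ⟨?_, ?_, ?_, ?_, ?_, ?_, ?_, ?_, he2, he2', ?_, ?_, ?_⟩⟩
  · exact (continuous_const.mul hcont).measurable
  · intro z
    rw [abs_mul, abs_of_pos (inv_pos.2 hM1), inv_mul_le_one₀ hM1]
    exact (hM z).trans (by (clear * - hMd; linarith only [hMd]))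
  · intro z w
    rw [← mul_sub, abs_mul, abs_of_pos (inv_pos.2 hM1), mul_assoc]
    refine mul_le_mul_of_nonneg_left ?_ (inv_pos.2 hM1).le
    refine (hL z w).trans ?_
    have := norm_nonneg (z - w)
    linarith only [this]
  · intro z hz
    rw [kT_far hz]
  · (clear * - hM1 hL₀; positivity)
  · norm_num
  · (clear * - hM1 he2; positivity)
  · positivity
  · exact lt_min (by (clear * - he2 he2''; linarith only [he2, he2''])) (by norm_num)
  · intro ζ hζ h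
    have hc : (1 / ζ) ≠ 0 := one_div_ne_zero hζ
    have e1 : ∀ z : ℂ, M⁻¹ * kT (z / ζ) - M⁻¹ * kT z = M⁻¹ * (kT ((z - 0) * (1 / ζ)) - kT z) := by
      intro z
      rw [sub_zero, mul_one_div]
      ring
    simp only [e1]
    have k1 : Continuous fun z : ℂ => kT ((z - 0) * (1 / ζ)) := hcont.comp (by fun_prop)
    rw [integral_const_mul, integral_sub (intOn k1 _ _) (intOn hcont _ _), hone, sub_zero,
      ball_scale hc]
    have h1 := int_kT_le hc he2.le (by linarith only [he2']) h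
    have h2 : (1 - (0:ℂ)) * (1 / ζ) = 1 / ζ := by ring
    rw [h2, ← mul_neg]
    refine mul_le_mul_of_nonneg_left ?_ (inv_pos.2 hM1).le
    have hn : 0 < ‖1 / ζ‖ := norm_pos_iff.2 hc
    rw [inv_mul_le_iff₀ (by positivity)]
    linarith only [h1]
  · intro ζ hζ h m hm hm1
    have hc : (1 / ζ) ≠ 0 := one_div_ne_zero hζ
    obtain ⟨c, hcd⟩ : ∃ c : ℂ, c = 1 / ζ := ⟨_, rfl⟩
    rw [← hcd] at h hc
    have hmε : m < ε := by
      have := hm1.trans (min_le_left _ _)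
      linarith only [hm, this]
    have hm4 : m ≤ 1 / 4 := hm1.trans (min_le_right _ _)
    have e1 : ∀ z : ℂ, M⁻¹ * kT ((z - ((2 * m : ℝ) : ℂ)) / ζ) - M⁻¹ * kT (z / ζ) =
        M⁻¹ * (kT ((z - ((2 * m : ℝ) : ℂ)) * c) - kT ((z - 0) * c)) := by
      intro z
      rw [sub_zero, hcd, mul_one_div, mul_one_div]
      ring
    simp only [e1]
    have k1 : Continuous fun z : ℂ => kT ((z - ((2 * m : ℝ) : ℂ)) * c) :=
      hcont.comp (by fun_prop)
    have k2 : Continuous fun z : ℂ => kT ((z - 0) * c) := hcont.comp (by fun_prop)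
    rw [integral_const_mul, integral_sub (intOn k1 _ _) (intOn k2 _ _), ball_scale hc,
      ball_scale hc]
    have hn : 0 < ‖c‖ := norm_pos_iff.2 hc
    have hn1 : ‖c‖ ≤ 3 / 2 := by
      have := norm_add_le (c - 1) 1
      rw [sub_add_cancel, norm_one] at this
      (clear * - he2' h this; linarith only [he2', h, this])
    have h2 : (1 - (0:ℂ)) * c = c := by ring
    have h3 : (1 - (((2 * m : ℝ) : ℂ))) * c = ⟨(1 - 2 * m) * c.re, (1 - 2 * m) * c.im⟩ := by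
      apply Complex.ext <;> simp
    have h4 : ‖(⟨(1 - 2 * m) * c.re, (1 - 2 * m) * c.im⟩ : ℂ)‖ ≤ ‖c‖ := by
      rw [← h3, norm_mul]
      refine mul_le_of_le_one_left hn.le ?_
      have e : (1 - (((2 * m : ℝ) : ℂ))) = ((1 - 2 * m : ℝ) : ℂ) := by push_cast; ring
      rw [e, Complex.norm_real, Real.norm_eq_abs, abs_of_nonneg (by (clear * - hm4; linarith only [hm4]))]
      linarith only [hm]
    have h5 : ‖c‖ ^ 2 = c.re ^ 2 + c.im ^ 2 := by
      rw [← Complex.normSq_eq_norm_sq, Complex.normSq_apply]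
      ring
    rw [h2, h3, int_kT_eq hn (by (clear * - hn1 h4; linarith only [hn1, h4])), int_kT_eq hn (by linarith only [hn1])]
    simp only
    rw [h5, mul_assoc M⁻¹]
    refine mul_le_mul_of_nonneg_left ?_ (inv_pos.2 hM1).le
    have h6 := Dq_eq c.re c.im m
    have h7 : 1 / 3 < Dq c.re c.im m := by
      refine hD _ _ _ ?_ ?_ ?_
      · have := Complex.abs_re_le_norm (c - 1)
        rw [Complex.sub_re, Complex.one_re] at this
        linarith only [he2'', h, this]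
      · have := Complex.abs_im_le_norm (c - 1)
        rw [Complex.sub_im, Complex.one_im, sub_zero] at this
        (clear * - he2'' h this; linarith only [he2'', h, this])
      · rwa [abs_of_pos hm]
    have h8 : 0 < c.re ^ 2 + c.im ^ 2 := by rw [← h5]; positivity
    rw [← mul_sub, ← mul_sub, h6]
    have h9 : (c.re ^ 2 + c.im ^ 2)⁻¹ * (π * (c.re ^ 2 + c.im ^ 2) * (m * Dq c.re c.im m)) =
        π * m * Dq c.re c.im m := by
      (clear * - h8 h7 hm; field_simp)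
    rw [h9]
    have h10 : 0 < π * m := by (clear * - hm; positivity)
    (clear * - h7 h10; nlinarith only [h7, h10])

end Pool.Agent.Helper33.G3
end

/- Helper24.KR.H89.G3.Exi -/
section
/-!
# G3-EXI: the strict functional exists

From `exists_tm` (helper33, template), `key` (helper17), `vh_key_phi`, `vh_gen`, `vh_add`, `vh_lo`, `vh_up`, with
`W = Vh k δ lam`, `a = lam`.
-/

set_option autoImplicit false

namespace Pool.Agent.Helper89.G3

open MeasureTheory Set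
open scoped Real
open Pool.Agent.Helper90.G3 (Pt)

theorem exists_pt' : ∃ a c₀ m₀ δ₀ : ℝ, 0 ≤ a ∧ 0 < c₀ ∧ c₀ ≤ 1 / 2 ∧ 0 < m₀ ∧ m₀ ≤ 1 ∧ 0 < δ₀ ∧
    δ₀ ≤ 1 / 4 ∧ ∀ δ : ℝ, 0 < δ → δ ≤ δ₀ → ∃ W : Set ℂ → ℂ → ℝ, Pt δ a c₀ m₀ W := by
  obtain ⟨k, Lk, ρ, kinf, c1, c2, e2, m1, hT⟩ := Helper33.G3.exists_tm
  obtain ⟨lam, c₀, m₀, d₀, B, hl, hl1, hc, hc1, hm, hm1, hd, hd1, hB, hkey⟩ :=
    Helper17.G3.key hT
  have hk := hT.meas
  have hK := hT.bd
  refine ⟨lam, c₀, m₀, d₀, hl.le, hc, hc1, hm, hm1, hd, hd1, ?_⟩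
  intro δ h0 h1
  have h4 : δ ≤ 1 := by (clear * - hd hd1 h1; linarith)
  have hb1 : 1 * lam * δ ≤ 1 := by (clear * - hl1 hl h4; nlinarith only [hl, hl1, h4])
  refine ⟨Vh k δ lam, ?_, ?_, ?_, ?_⟩
  · intro Q hQ hv p
    have := vh_lo hk hK h0 h4 hl.le hb1 hQ hv p
    rwa [one_mul] at this
  · intro Q hQ hv p
    have := vh_up hk hK h0 h4 hl.le hb1 hQ hv p
    rwa [one_mul] at this
  · intro N Q X Q' hQ hX hQ' hv hs hXs hd' hXd p
    exact vh_add hk hK h0 h4 hl.le hb1 N Q X Q' hQ hX hQ' hv hs hXs hd' hXd p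
  · intro m s hm' hmm hs Q hQ hv p p' hp
    refine vh_gen hk hK h0 h4 hl.le hb1 (by (clear * - hc1; linarith only [hc1])) hm' ?_ hs hQ hv hp
    intro Q hQ hv
    exact vh_key_phi hk hK h0 h4 hl.le hb1 hB.le (hkey δ h0 h1 m hm' hmm) hQ hv

end Pool.Agent.Helper89.G3
end

/- Helper24.KR.H90.G3.Exists -/
section
/-!
# G3-EXISTS: the strict functional exists (helper89, helper17, helper33, helper66)

`W Q p = ⨅ ζ, ∫ w in Q, ‖w - p‖ ^ (-δ) * (1 - δ * lam * k ((w - p) / ζ))`, `ζ ≠ 0`, for an explicit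
bounded Lipschitz template `k`.
-/

set_option autoImplicit false

namespace Pool.Agent.Helper90.G3

open MeasureTheory Set
open scoped Real

theorem exists_pt : ∃ a c₀ m₀ δ₀ : ℝ, 0 ≤ a ∧ 0 < c₀ ∧ c₀ ≤ 1 / 2 ∧ 0 < m₀ ∧ m₀ ≤ 1 ∧ 0 < δ₀ ∧
    δ₀ ≤ 1 / 4 ∧ ∀ δ : ℝ, 0 < δ → δ ≤ δ₀ → ∃ W : Set ℂ → ℂ → ℝ, Pt δ a c₀ m₀ W :=
  Pool.Agent.Helper89.G3.exists_pt'

end Pool.Agent.Helper90.G3
end
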