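import Mathlib
import Pool.Agent.Helper24.KG.G03
import Pool.Agent.Helper24.KG.G04
import Pool.Agent.Helper24.KG.G05
import Pool.Agent.Helper24.KG.G06

/- Helper24.KR.H22.Marshall.LogPhi -/
section
/-!
The logarithm of the two point function `(φ ζ - φ ω)/(ζ⁻¹ - ω⁻¹)`.
-/

set_option autoImplicit false

open MeasureTheory Set Metric Filter Topology
open scoped ENNReal NNReal Real Nat

namespace Pool.Agent.Helper22.Marshall

open Pool.Agent.Helper39.Area (Ext phi dphi qq_ne qq_diff dslope_cont eq_zero_of_exp_one)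

theorem differentiableOn_of_exp {f : ℂ → ℂ} {s : Set ℂ} (hs : IsOpen s) (hf : ContinuousOn f s)
    (he : DifferentiableOn ℂ (fun z => Complex.exp (f z)) s) : DifferentiableOn ℂ f s := by
  intro z hz
  apply DifferentiableAt.differentiableWithinAt
  have hfz : ContinuousAt f z := hf.continuousAt (hs.mem_nhds hz)
  have hez : DifferentiableAt ℂ (fun z => Complex.exp (f z)) z := he.differentiableAt (hs.mem_nhds hz)
  have h1 : DifferentiableAt ℂ (fun w => f z + Complex.log (Complex.exp (f w) * Complex.exp (-f z))) z := by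
    apply DifferentiableAt.const_add
    apply DifferentiableAt.clog
    · exact hez.mul_const _
    · rw [← Complex.exp_add, add_neg_cancel, Complex.exp_zero]
      exact Complex.one_mem_slitPlane
  apply h1.congr_of_eventuallyEq
  have h2 : ∀ᶠ w in 𝓝 z, ‖f w - f z‖ < 1 := by
    have h3 : ContinuousAt (fun w => ‖f w - f z‖) z := (hfz.sub continuousAt_const).norm
    have h4 : ‖f z - f z‖ < 1 := by simp
    exact h3.eventually_lt continuousAt_const h4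
  filter_upwards [h2] with w hw
  rw [← Complex.exp_add, Complex.log_exp]
  · ring
  · have h5 := Complex.abs_im_le_norm (f w - f z)
    have h6 := (abs_lt.mp (h5.trans_lt hw)).1
    have hpi := Real.pi_gt_three
    rw [← sub_eq_add_neg]
    (clear * - h6 hpi; linarith only [h6, hpi])
  · have h5 := Complex.abs_im_le_norm (f w - f z)
    have h6 := (abs_lt.mp (h5.trans_lt hw)).2
    have hpi := Real.pi_gt_three
    rw [← sub_eq_add_neg]
    (clear * - h6 hpi; linarith only [h6, hpi])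

theorem qq_symm (β : ℂ → ℂ) (a b : ℂ) :
    Pool.Agent.Helper39.Area.qq β a b = Pool.Agent.Helper39.Area.qq β b a := by
  unfold Pool.Agent.Helper39.Area.qq
  by_cases h : a = b
  · subst h; rfl
  · have e : dslope β a b = dslope β b a := by
      rw [dslope_of_ne _ (Ne.symm h), dslope_of_ne _ h, slope_comm]
    rw [e]; ring

/-- the data of the logarithm of the two point function -/
structure LogPhi (β H : ℂ → ℂ) (Φ : ℂ → ℂ → ℂ) : Prop where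
  sep : SepHol Φ
  exp_eq : ∀ a ∈ ball (0 : ℂ) 1, ∀ b ∈ ball (0 : ℂ) 1,
    Complex.exp (Φ a b) = Pool.Agent.Helper39.Area.qq β a b
  zero_right : ∀ a ∈ ball (0 : ℂ) 1, Φ a 0 = 0
  symm : ∀ a ∈ ball (0 : ℂ) 1, ∀ b ∈ ball (0 : ℂ) 1, Φ a b = Φ b a
  diag : ∀ a ∈ ball (0 : ℂ) 1, Φ a a = H a

theorem exists_logPhi {β : ℂ → ℂ} (h : Ext β) {H : ℂ → ℂ} (hH : ContinuousOn H (ball 0 1))
    (hH0 : H 0 = 0)
    (hexp : ∀ ζ ∈ ball (0 : ℂ) 1, Complex.exp (H ζ) = 1 - ζ ^ 2 * deriv β ζ) :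
    ∃ Φ : ℂ → ℂ → ℂ, LogPhi β H Φ := by
  set U : Set (ℂ × ℂ) := ball 0 1 ×ˢ ball 0 1 with hU
  have hUo : IsOpen U := isOpen_ball.prod isOpen_ball
  have hUconv : Convex ℝ U := (convex_ball _ _).prod (convex_ball _ _)
  have h00 : ((0:ℂ), (0:ℂ)) ∈ U := ⟨mem_ball_self one_pos, mem_ball_self one_pos⟩
  have h0b : (0:ℂ) ∈ ball (0:ℂ) 1 := mem_ball_self one_pos
  have hUs : IsSimplyConnected U := by
    have hc : ContractibleSpace U := hUconv.contractibleSpace ⟨_, h00⟩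
    show SimplyConnectedSpace U
    infer_instance
  have hqc : ContinuousOn (fun p : ℂ × ℂ => Pool.Agent.Helper39.Area.qq β p.1 p.2) U := by
    unfold Pool.Agent.Helper39.Area.qq
    apply ContinuousOn.sub continuousOn_const
    apply ContinuousOn.mul (by fun_prop)
    exact dslope_cont h.diff
  have hq0 : 0 ∉ (fun p : ℂ × ℂ => Pool.Agent.Helper39.Area.qq β p.1 p.2) '' U := by
    rintro ⟨p, ⟨hp1, hp2⟩, hp⟩
    exact qq_ne h hp1 hp2 hp
  obtain ⟨Φ, hΦc, hΦ⟩ := Complex.exists_continuousOn_eqOn_exp_comp hUs hUo hqc hq0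
  have hΦe : ∀ b ∈ ball (0:ℂ) 1, ∀ ζ ∈ ball (0:ℂ) 1,
      Complex.exp (Φ (b, ζ)) = Pool.Agent.Helper39.Area.qq β b ζ :=
    fun b hb ζ hζ => hΦ (show (b, ζ) ∈ U from ⟨hb, hζ⟩)
  have hq00 : ∀ a : ℂ, Pool.Agent.Helper39.Area.qq β a 0 = 1 := by
    intro a; simp [Pool.Agent.Helper39.Area.qq]
  have hΨe : ∀ a ∈ ball (0:ℂ) 1, ∀ b ∈ ball (0:ℂ) 1,
      Complex.exp (Φ (a, b) - Φ (0, 0)) = Pool.Agent.Helper39.Area.qq β a b := by
    intro a ha b hb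
    rw [Complex.exp_sub, hΦe a ha b hb, hΦe 0 h0b 0 h0b, hq00, div_one]
  have hΨc : ContinuousOn (fun p : ℂ × ℂ => Φ (p.1, p.2) - Φ (0, 0)) U := by
    have : ContinuousOn (fun p : ℂ × ℂ => Φ (p.1, p.2)) U := hΦc
    exact this.sub continuousOn_const
  have hright : ∀ a ∈ ball (0:ℂ) 1,
      DifferentiableOn ℂ (fun b => Φ (a, b) - Φ (0, 0)) (ball 0 1) := by
    intro a ha
    apply differentiableOn_of_exp isOpen_ball
    · exact hΨc.comp (f := fun b => (a, b)) (by fun_prop) (fun b hb => ⟨ha, hb⟩)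
    · apply (qq_diff h.diff ha).congr
      intro b hb
      exact hΨe a ha b hb
  have hleft : ∀ b ∈ ball (0:ℂ) 1,
      DifferentiableOn ℂ (fun a => Φ (a, b) - Φ (0, 0)) (ball 0 1) := by
    intro b hb
    apply differentiableOn_of_exp isOpen_ball
    · exact hΨc.comp (f := fun a => (a, b)) (by fun_prop) (fun a ha => ⟨ha, hb⟩)
    · apply (qq_diff h.diff hb).congr
      intro a ha
      rw [hΨe a ha b hb, qq_symm]
  refine ⟨fun a b => Φ (a, b) - Φ (0, 0), ⟨hΨc, hleft, hright⟩, hΨe, ?_, ?_, ?_⟩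
  · apply eq_zero_of_exp_one (convex_ball (0:ℂ) 1).isPreconnected _ _ h0b (by simp)
    · exact hΨc.comp (f := fun a => (a, 0)) (by fun_prop) (fun a ha => ⟨ha, h0b⟩)
    · intro a ha
      rw [hΨe a ha 0 h0b, hq00]
  · have h1 : ∀ p ∈ U, (Φ (p.1, p.2) - Φ (0, 0)) - (Φ (p.2, p.1) - Φ (0, 0)) = 0 := by
      apply eq_zero_of_exp_one hUconv.isPreconnected _ _ h00 (by simp)
      · apply hΨc.sub
        exact hΨc.comp (f := fun p : ℂ × ℂ => (p.2, p.1)) (by fun_prop) (fun p hp => ⟨hp.2, hp.1⟩)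
      · rintro ⟨a, b⟩ ⟨ha, hb⟩
        simp only at ha hb ⊢
        rw [Complex.exp_sub, hΨe a ha b hb, hΨe b hb a ha, qq_symm β a b, div_self]
        exact qq_ne h hb ha
    intro a ha b hb
    have := h1 (a, b) ⟨ha, hb⟩
    simp only at this
    exact sub_eq_zero.mp this
  · have h1 : ∀ a ∈ ball (0:ℂ) 1, (Φ (a, a) - Φ (0, 0)) - H a = 0 := by
      apply eq_zero_of_exp_one (convex_ball (0:ℂ) 1).isPreconnected _ _ h0b (by simp [hH0])
      · apply ContinuousOn.sub _ hH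
        exact hΨc.comp (f := fun a => (a, a)) (by fun_prop) (fun a ha => ⟨ha, ha⟩)
      · intro a ha
        rw [Complex.exp_sub, hΨe a ha a ha, hexp a ha]
        have e : Pool.Agent.Helper39.Area.qq β a a = 1 - a ^ 2 * deriv β a := by
          unfold Pool.Agent.Helper39.Area.qq
          rw [dslope_same]; ring
        rw [e, div_self (h.ne a ha)]
    intro a ha
    exact sub_eq_zero.mp (h1 a ha)

end Pool.Agent.Helper22.Marshall
end

/- Helper24.KR.H22.Half.Faber -/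
section
/-!
The Faber type polynomials: coefficients of `ω^i` in `(ω(φ(ω) - φ(ζ)))^{s}`.
-/

set_option autoImplicit false

open MeasureTheory Set Metric Filter Topology
open scoped ENNReal NNReal Real Nat

namespace Pool.Agent.Helper22.Half

open Pool.Agent.Helper39.Area (Ext phi dphi qq_ne qq_diff phi_sub)
open Pool.Agent.Helper22.Marshall (coeff coeff_mul coeff_const_mul coeff_deriv coeff_zero coeff_congr
  coeff_eq_of_hasSum hasSum_coeff LogPhi)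

/-- abstract Taylor recursion: `D T' = -θ D' T` with `D = 1 + ω (β - φ)` -/
theorem coeff_rec {D T : ℂ → ℂ} (hD : AnalyticAt ℂ D 0) (hT : AnalyticAt ℂ T 0) {θ : ℂ}
    (hD0 : D 0 = 1) (h : ∀ᶠ w in 𝓝 (0 : ℂ), D w * deriv T w = -θ * (deriv D w * T w)) (n : ℕ) :
    ((n : ℂ) + 1) * coeff T (n + 1)
      = -∑ i ∈ Finset.range (n + 1), (θ * ((i : ℂ) + 1) + ((n - i : ℕ) : ℂ)) * coeff D (i + 1)
          * coeff T (n - i) := by
  have h1 := coeff_congr h n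
  rw [coeff_mul hD hT.deriv, coeff_const_mul, coeff_mul hD.deriv hT] at h1
  simp_rw [coeff_deriv] at h1
  rw [Finset.sum_range_succ'] at h1
  simp only [coeff_zero, hD0, one_mul, Nat.sub_zero] at h1
  -- the shifted sum
  have h2 : ∑ k ∈ Finset.range n, coeff D (k + 1) * (((n - (k + 1) : ℕ) : ℂ) + 1)
      * coeff T (n - (k + 1) + 1)
      = ∑ i ∈ Finset.range (n + 1), ((n - i : ℕ) : ℂ) * coeff D (i + 1) * coeff T (n - i) := by
    rw [Finset.sum_range_succ]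
    simp only [Nat.sub_self, Nat.cast_zero, zero_mul, add_zero]
    apply Finset.sum_congr rfl
    intro k hk
    rw [Finset.mem_range] at hk
    have e : n - (k + 1) + 1 = n - k := by omega
    rw [e]
    have e2 : ((n - (k + 1) : ℕ) : ℂ) + 1 = ((n - k : ℕ) : ℂ) := by
      rw [← e]; push_cast; ring
    rw [e2]
    ring
  have h3 : ∑ k ∈ Finset.range n, coeff D (k + 1) * ((((n - (k + 1) : ℕ) : ℂ) + 1)
      * coeff T (n - (k + 1) + 1))
      = ∑ i ∈ Finset.range (n + 1), ((n - i : ℕ) : ℂ) * coeff D (i + 1) * coeff T (n - i) := by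
    rw [← h2]
    apply Finset.sum_congr rfl
    intro k _
    ring
  rw [h3] at h1
  have h4 : ∑ i ∈ Finset.range (n + 1), (θ * ((i : ℂ) + 1) + ((n - i : ℕ) : ℂ)) * coeff D (i + 1)
          * coeff T (n - i)
      = θ * ∑ i ∈ Finset.range (n + 1), ((i : ℂ) + 1) * coeff D (i + 1) * coeff T (n - i)
        + ∑ i ∈ Finset.range (n + 1), ((n - i : ℕ) : ℂ) * coeff D (i + 1) * coeff T (n - i) := by
    rw [Finset.mul_sum, ← Finset.sum_add_distrib]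
    apply Finset.sum_congr rfl
    intro i _
    ring
  rw [h4]
  linear_combination h1

/-- polynomials with prescribed recursion -/
theorem exists_poly (θ : ℂ) (bc : ℕ → ℂ) (n : ℕ) : ∃ P : ℕ → Polynomial ℂ,
    (∀ k ≤ n, (P k).natDegree ≤ k) ∧ P 0 = 1 ∧ ∀ k < n, Polynomial.C ((k : ℂ) + 1) * P (k + 1)
      = -∑ i ∈ Finset.range (k + 1), Polynomial.C (θ * ((i : ℂ) + 1) + ((k - i : ℕ) : ℂ))
        * (Polynomial.C (bc i) - if i = 0 then Polynomial.X else 0) * P (k - i) := by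
  induction n with
  | zero =>
    refine ⟨fun _ => 1, fun k hk => by simp, rfl, fun k hk => by omega⟩
  | succ n ih =>
    obtain ⟨P, hP1, hP0, hP2⟩ := ih
    obtain ⟨Q, hQ⟩ : ∃ Q : Polynomial ℂ, Q = Polynomial.C (((n : ℂ) + 1)⁻¹) * (-∑ i ∈ Finset.range (n + 1), Polynomial.C (θ * ((i : ℂ) + 1) + ((n - i : ℕ) : ℂ))
        * (Polynomial.C (bc i) - if i = 0 then Polynomial.X else 0) * P (n - i)) := ⟨_, rfl⟩
    have hQd : Q.natDegree ≤ n + 1 := by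
      rw [hQ]
      refine (Polynomial.natDegree_C_mul_le _ _).trans ?_
      rw [Polynomial.natDegree_neg]
      apply Polynomial.natDegree_sum_le_of_forall_le
      intro i hi
      rw [Finset.mem_range] at hi
      rw [mul_assoc]
      refine (Polynomial.natDegree_C_mul_le _ _).trans ?_
      refine Polynomial.natDegree_mul_le.trans ?_
      have h1 := hP1 (n - i) (by omega)
      have h2 : (Polynomial.C (bc i) - if i = 0 then Polynomial.X else 0 : Polynomial ℂ).natDegree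
          ≤ i + 1 := by
        refine (Polynomial.natDegree_sub_le _ _).trans ?_
        rw [Polynomial.natDegree_C]
        split_ifs
        · simp
        · simp
      omega
    refine ⟨fun k => if k = n + 1 then Q else P k, ?_, ?_, ?_⟩
    · intro k hk
      by_cases h : k = n + 1
      · simp only [h, if_true]; exact hQd
      · simp only [h, if_false]; exact hP1 k (by omega)
    · simp only [Nat.zero_ne_add_one, if_false]; exact hP0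
    · intro k hk
      have e : ∀ i, (if k - i = n + 1 then Q else P (k - i)) = P (k - i) := by
        intro i
        rw [if_neg (by omega)]
      simp only [e]
      by_cases h : k = n
      · subst h
        simp only [if_true]
        rw [hQ, ← mul_assoc, ← Polynomial.C_mul]
        have : ((k : ℂ) + 1) * ((k : ℂ) + 1)⁻¹ = 1 := mul_inv_cancel₀ (Nat.cast_add_one_ne_zero k)
        rw [this, Polynomial.C_1, one_mul]
      · rw [if_neg (by omega)]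
        exact hP2 k (by omega)

theorem coeff_D {g : ℂ → ℂ} (hg : DifferentiableOn ℂ g (ball 0 1)) (n : ℕ) :
    coeff (fun w => 1 + w * g w) (n + 1) = coeff g n := by
  have h := coeff_eq_of_hasSum (f := fun w => 1 + w * g w) (r := 1) one_pos
    (a := fun n => if n = 0 then 1 else coeff g (n - 1)) (fun z hz => by
      have h1 := (hasSum_coeff hg hz).mul_left z
      rw [← hasSum_nat_add_iff' 1]
      simp only [Finset.range_one, Finset.sum_singleton, if_true, pow_zero, mul_one,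
        Nat.add_eq_zero_iff, one_ne_zero, and_false, if_false, Nat.add_sub_cancel, add_sub_cancel_left]
      have e : (fun n => coeff g n * z ^ (n + 1)) = fun n => z * (coeff g n * z ^ n) := by
        funext n; ring
      rw [e]
      exact h1) (n + 1)
  rw [h]
  simp

theorem choose_eq_pq (α : ℂ) (n : ℕ) : Ring.choose (α + n - 1) n = pq α n := by
  rw [← Ring.multichoose_eq]
  have h : ∀ n : ℕ, (n.factorial : ℂ) * Ring.multichoose α n = (n.factorial : ℂ) * pq α n := by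
    intro n
    have e := Ring.factorial_nsmul_multichoose_eq_ascPochhammer α n
    rw [nsmul_eq_mul] at e
    rw [e, Polynomial.ascPochhammer_smeval_eq_eval]
    induction n with
    | zero => simp [pq]
    | succ n ih =>
      have e2 := Ring.factorial_nsmul_multichoose_eq_ascPochhammer α n
      rw [nsmul_eq_mul] at e2
      have ih' := ih e2
      rw [ascPochhammer_succ_eval, ih']
      have h3 := pq_succ' α n
      rw [Nat.factorial_succ]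
      push_cast
      linear_combination (-(n.factorial : ℂ)) * h3
  have hne : (n.factorial : ℂ) ≠ 0 := Nat.cast_ne_zero.mpr (Nat.factorial_ne_zero n)
  exact mul_left_cancel₀ hne (h n)

theorem hasSum_pq (α : ℂ) {x : ℂ} (hx : ‖x‖ < 1) :
    HasSum (fun n : ℕ => pq α n * x ^ n) (1 / (1 - x) ^ α) := by
  have h := (Complex.one_div_one_sub_cpow_hasFPowerSeriesOnBall_zero α).hasSum
    (y := x) (by
      rw [Metric.mem_eball, edist_zero_right]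
      rw [← ofReal_norm]
      exact ENNReal.ofReal_lt_one.mpr hx)
  rw [zero_add] at h
  have e : (fun n : ℕ => pq α n * x ^ n) = fun n => ((FormalMultilinearSeries.ofScalars ℂ
      fun n ↦ Ring.choose (α + n - 1) n) n) fun _ => x := by
    funext n
    rw [FormalMultilinearSeries.ofScalars_apply_eq, choose_eq_pq]
    simp
  rw [e]
  exact h

theorem coeff_power (s : ℂ) {ζ : ℂ} (h0 : ζ ≠ 0) (n : ℕ) :
    coeff (fun w => Complex.exp (s * Complex.log (1 - w / ζ))) n = pq (-s) n * (ζ⁻¹) ^ n := by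
  apply coeff_eq_of_hasSum (r := ‖ζ‖) (norm_pos_iff.mpr h0)
  intro z hz
  have hx : ‖z / ζ‖ < 1 := by
    rw [norm_div, div_lt_one (norm_pos_iff.mpr h0)]; exact hz
  have h1 := hasSum_pq (-s) hx
  have hne : 1 - z / ζ ≠ 0 := by
    intro h
    rw [sub_eq_zero] at h
    rw [← h] at hx
    simp at hx
  have e : (1 / (1 - z / ζ) ^ (-s)) = Complex.exp (s * Complex.log (1 - z / ζ)) := by
    rw [Complex.cpow_def_of_ne_zero hne, one_div, ← Complex.exp_neg]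
    congr 1; ring
  rw [e] at h1
  have e2 : (fun n => pq (-s) n * ζ⁻¹ ^ n * z ^ n) = fun n => pq (-s) n * (z / ζ) ^ n := by
    funext n
    rw [div_eq_mul_inv, mul_pow]
    ring
  rw [e2]
  exact h1

theorem one_sub_slit {ζ w : ℂ} (h0 : ζ ≠ 0) (hw : ‖w‖ < ‖ζ‖) : 1 - w / ζ ∈ Complex.slitPlane := by
  have hx : ‖w / ζ‖ < 1 := by
    rw [norm_div, div_lt_one (norm_pos_iff.mpr h0)]; exact hw
  left
  have := (abs_le.mp (Complex.abs_re_le_norm (w / ζ))).2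
  rw [Complex.sub_re, Complex.one_re]
  linarith only [hx, this]

section
variable {β H : ℂ → ℂ} {Φ : ℂ → ℂ → ℂ}

/-- the function `T` -/
noncomputable def TF (Φ : ℂ → ℂ → ℂ) (s ζ w : ℂ) : ℂ :=
  Complex.exp (s * (Complex.log (1 - w / ζ) + Φ ζ w))

theorem TF_diff (hΦ : LogPhi β H Φ) {ζ : ℂ} (hζ : ζ ∈ ball (0 : ℂ) 1) (h0 : ζ ≠ 0) :
    ∀ w : ℂ, ‖w‖ < ‖ζ‖ → DifferentiableAt ℂ (fun w => Complex.log (1 - w / ζ) + Φ ζ w) w := by
  intro w hw
  rw [mem_ball_zero_iff] at hζ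
  apply DifferentiableAt.add
  · apply DifferentiableAt.clog
    · fun_prop
    · exact one_sub_slit h0 hw
  · exact (hΦ.sep.right ζ (mem_ball_zero_iff.mpr hζ)).differentiableAt
      (isOpen_ball.mem_nhds (mem_ball_zero_iff.mpr (hw.trans hζ)))

theorem D_eq (hΦ : LogPhi β H Φ) {ζ : ℂ} (hζ : ζ ∈ ball (0 : ℂ) 1) (h0 : ζ ≠ 0) {w : ℂ}
    (hw : ‖w‖ < ‖ζ‖) :
    Complex.exp (Complex.log (1 - w / ζ) + Φ ζ w) = 1 + w * (β w - phi β ζ) := by
  have hz1 := hζ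
  rw [mem_ball_zero_iff] at hz1
  have hne : 1 - w / ζ ≠ 0 := Complex.slitPlane_ne_zero (one_sub_slit h0 hw)
  rw [Complex.exp_add, Complex.exp_log hne, hΦ.exp_eq ζ hζ w (mem_ball_zero_iff.mpr (hw.trans hz1))]
  by_cases hw0 : w = 0
  · subst hw0
    simp [Pool.Agent.Helper39.Area.qq]
  · have h1 := phi_sub (β := β) ζ w h0 hw0
    have h2 : phi β w = w⁻¹ + β w := rfl
    have h3 : (1 - w / ζ) * Pool.Agent.Helper39.Area.qq β ζ w
        = w * ((w⁻¹ - ζ⁻¹) * Pool.Agent.Helper39.Area.qq β ζ w) := by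
      (clear * - h0 hw0; field_simp)
    rw [h3, ← h1, h2]
    field_simp
    ring

theorem TF_ode (hΦ : LogPhi β H Φ) (s : ℂ) {ζ : ℂ} (hζ : ζ ∈ ball (0 : ℂ) 1) (h0 : ζ ≠ 0) :
    ∀ᶠ w in 𝓝 (0 : ℂ), (1 + w * (β w - phi β ζ)) * deriv (TF Φ s ζ) w
      = -(-s) * (deriv (fun w => 1 + w * (β w - phi β ζ)) w * TF Φ s ζ w) := by
  have hpos : 0 < ‖ζ‖ := norm_pos_iff.mpr h0
  filter_upwards [ball_mem_nhds (0 : ℂ) hpos] with w hw
  rw [mem_ball_zero_iff] at hw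
  have h1 := (TF_diff hΦ hζ h0 w hw).hasDerivAt
  have h2 := h1.cexp
  have h3 := (h1.const_mul s).cexp
  have e3 : deriv (TF Φ s ζ) w = TF Φ s ζ w * (s *
      deriv (fun w => Complex.log (1 - w / ζ) + Φ ζ w) w) := by
    have : TF Φ s ζ = fun w => Complex.exp (s * (Complex.log (1 - w / ζ) + Φ ζ w)) := rfl
    rw [this]
    exact h3.deriv
  have e2 : deriv (fun w => 1 + w * (β w - phi β ζ)) w
      = (1 + w * (β w - phi β ζ)) * deriv (fun w => Complex.log (1 - w / ζ) + Φ ζ w) w := by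
    have h4 : (fun w => 1 + w * (β w - phi β ζ)) =ᶠ[𝓝 w]
        fun w => Complex.exp (Complex.log (1 - w / ζ) + Φ ζ w) := by
      have : ball (0 : ℂ) ‖ζ‖ ∈ 𝓝 w := isOpen_ball.mem_nhds (mem_ball_zero_iff.mpr hw)
      filter_upwards [this] with v hv
      rw [mem_ball_zero_iff] at hv
      exact (D_eq hΦ hζ h0 hv).symm
    rw [h4.deriv_eq, h2.deriv, D_eq hΦ hζ h0 hw]
  rw [e3, e2]
  ring

theorem TF_analytic (hΦ : LogPhi β H Φ) (s : ℂ) {ζ : ℂ} (hζ : ζ ∈ ball (0 : ℂ) 1) (h0 : ζ ≠ 0) :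
    AnalyticAt ℂ (TF Φ s ζ) 0 := by
  have hpos : 0 < ‖ζ‖ := norm_pos_iff.mpr h0
  have hd : DifferentiableOn ℂ (TF Φ s ζ) (ball 0 ‖ζ‖) := by
    intro w hw
    rw [mem_ball_zero_iff] at hw
    exact ((TF_diff hΦ hζ h0 w hw).const_mul s).cexp.differentiableWithinAt
  exact hd.analyticAt (ball_mem_nhds (0 : ℂ) hpos)

/-- the Faber type polynomials -/
theorem faber_T (h : Ext β) (hΦ : LogPhi β H Φ) (s : ℂ) (n : ℕ) :
    ∃ P : ℕ → Polynomial ℂ, (∀ k ≤ n, (P k).natDegree ≤ k) ∧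
      ∀ ζ ∈ ball (0 : ℂ) 1, ζ ≠ 0 → ∀ k ≤ n, coeff (TF Φ s ζ) k = (P k).eval (phi β ζ) := by
  obtain ⟨P, hP1, hP0, hP2⟩ := exists_poly (-s) (coeff β) n
  refine ⟨P, hP1, fun ζ hζ h0 => ?_⟩
  have hrec := coeff_rec (D := fun w => 1 + w * (β w - phi β ζ)) (T := TF Φ s ζ) (θ := -s)
    (by
      have : DifferentiableOn ℂ (fun w => 1 + w * (β w - phi β ζ)) (ball 0 1) := by
        have := h.diff
        fun_prop
      exact this.analyticAt (ball_mem_nhds _ one_pos))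
    (TF_analytic hΦ s hζ h0) (by simp) (TF_ode hΦ s hζ h0)
  intro k
  induction k using Nat.strong_induction_on with
  | _ k ih =>
    intro hk
    cases k with
    | zero =>
      rw [coeff_zero, hP0]
      simp [TF, hΦ.zero_right ζ hζ]
    | succ k =>
      have h1 := hrec k
      have h2 := congrArg (Polynomial.eval (phi β ζ)) (hP2 k (by omega))
      rw [Polynomial.eval_mul, Polynomial.eval_C, Polynomial.eval_neg,
        Polynomial.eval_finsetSum] at h2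
      have hne : ((k : ℂ) + 1) ≠ 0 := Nat.cast_add_one_ne_zero k
      apply mul_left_cancel₀ hne
      rw [h1, h2]
      congr 1
      apply Finset.sum_congr rfl
      intro i hi
      rw [Finset.mem_range] at hi
      rw [Polynomial.eval_mul, Polynomial.eval_mul, Polynomial.eval_C, ih (k - i) (by omega) (by omega)]
      have e : coeff (fun w => 1 + w * (β w - phi β ζ)) (i + 1)
          = Polynomial.eval (phi β ζ) (Polynomial.C (coeff β i) - if i = 0 then Polynomial.X else 0) := by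
        rw [coeff_D (g := fun w => β w - phi β ζ) (by
          have := h.diff
          fun_prop)]
        have e2 : coeff (fun w => β w - phi β ζ) i = coeff β i - if i = 0 then phi β ζ else 0 := by
          cases i with
          | zero => simp [coeff_zero]
          | succ i =>
            simp only [Nat.add_eq_zero_iff, one_ne_zero, and_false, if_false, sub_zero]
            unfold coeff
            congr 1
            rw [iteratedDeriv_succ', iteratedDeriv_succ']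
            congr 1
            funext w
            simp
        rw [e2]
        rw [Polynomial.eval_sub, Polynomial.eval_C]
        split_ifs <;> simp
      rw [e]

/-- the Faber type polynomials for the symmetric kernel -/
theorem faber_E (h : Ext β) (hΦ : LogPhi β H Φ) (s : ℂ) (n : ℕ) :
    ∃ P : Polynomial ℂ, P.natDegree ≤ n ∧ ∀ ζ ∈ ball (0 : ℂ) 1, ζ ≠ 0 →
      ζ ^ n * P.eval (phi β ζ) = ∑ l ∈ Finset.range (n + 1), pq (-s) (n - l) *
        (coeff (fun w => Complex.exp (s * Φ ζ w)) l * ζ ^ l) := by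
  obtain ⟨P, hP1, hP2⟩ := faber_T h hΦ s n
  refine ⟨P n, hP1 n le_rfl, ?_⟩
  intro ζ hζ h0
  have hpos : 0 < ‖ζ‖ := norm_pos_iff.mpr h0
  have hFd : DifferentiableOn ℂ (fun w => Complex.exp (s * Φ ζ w)) (ball 0 1) :=
    ((hΦ.sep.right ζ hζ).const_mul _).cexp
  have hS : AnalyticAt ℂ (fun w => Complex.exp (s * Complex.log (1 - w / ζ))) 0 := by
    have hd : DifferentiableOn ℂ (fun w => Complex.exp (s * Complex.log (1 - w / ζ)))
        (ball 0 ‖ζ‖) := by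
      intro w hw
      rw [mem_ball_zero_iff] at hw
      apply DifferentiableAt.differentiableWithinAt
      apply DifferentiableAt.cexp
      apply DifferentiableAt.const_mul
      apply DifferentiableAt.clog
      · fun_prop
      · exact one_sub_slit h0 hw
    exact hd.analyticAt (ball_mem_nhds (0 : ℂ) hpos)
  have h2 := coeff_mul hS (hFd.analyticAt (ball_mem_nhds _ one_pos)) n
  have h3 : coeff (TF Φ s ζ) n
      = coeff (fun z => Complex.exp (s * Complex.log (1 - z / ζ)) * Complex.exp (s * Φ ζ z)) n := by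
    congr 1
    funext z
    unfold TF
    rw [mul_add, Complex.exp_add]
  rw [h2] at h3
  rw [← hP2 ζ hζ h0 n le_rfl, h3, Finset.mul_sum, ← Finset.sum_range_reflect]
  apply Finset.sum_congr rfl
  intro l hl
  rw [Finset.mem_range] at hl
  have e1 : n + 1 - 1 - l = n - l := by omega
  have e2 : n - (n - l) = l := by omega
  rw [e1, e2, coeff_power s h0]
  have e3 : ζ ^ n = ζ ^ (n - l) * ζ ^ l := by rw [← pow_add]; congr 1; omega
  rw [e3, inv_pow]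
  have : ζ ^ (n - l) ≠ 0 := pow_ne_zero _ h0
  field_simp

end

end Pool.Agent.Helper22.Half
end

/- Helper24.KR.H22.Half.GrowthA -/
section
/-!
Expansion of the exponential of the kernel and the area inequality.
-/

set_option autoImplicit false

open MeasureTheory Set Metric Filter Topology
open scoped ENNReal NNReal Real Nat ComplexConjugate

namespace Pool.Agent.Helper22.Half

open Pool.Agent.Helper39.Area (Ext phi)
open Pool.Agent.Helper22.Marshall (coeff SepHol LogPhi dcoeff GLe coeff_congr)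

theorem hasSum_shift {a : ℕ → ℂ} {z s : ℂ} (h : HasSum (fun k => a k * z ^ k) s) (l : ℕ) :
    HasSum (fun m => if l ≤ m then a (m - l) * z ^ m else 0) (s * z ^ l) := by
  rw [← hasSum_nat_add_iff' l]
  have e1 : ∑ i ∈ Finset.range l, (if l ≤ i then a (i - l) * z ^ i else 0) = 0 := by
    apply Finset.sum_eq_zero
    intro i hi
    rw [Finset.mem_range] at hi
    rw [if_neg (by omega)]
  have e2 : (fun n => if l ≤ n + l then a (n + l - l) * z ^ (n + l) else 0)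
      = fun n => (a n * z ^ n) * z ^ l := by
    funext n
    rw [if_pos (by omega), Nat.add_sub_cancel, pow_add]
    ring
  rw [e1, e2, sub_zero]
  exact h.mul_right _

/-- the `m`-th antidiagonal -/
noncomputable def diagc (F : ℂ → ℂ → ℂ) (m l : ℕ) : ℂ := dcoeff F (m - l) l

theorem hasSum_Vd {F : ℂ → ℂ → ℂ} (hF : SepHol F) (s : ℂ) (n : ℕ) {ζ : ℂ} (hζ : ‖ζ‖ < 1) :
    HasSum (fun m => Vd s (diagc F m) m n * ζ ^ m)
      (∑ l ∈ Finset.range (n + 1), pq (-s) (n - l) * (coeff (F ζ) l * ζ ^ l)) := by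
  have h1 : ∀ l ∈ Finset.range (n + 1), HasSum (fun m => pq (-s) (n - l) *
      (if l ≤ m then dcoeff F (m - l) l * ζ ^ m else 0))
      (pq (-s) (n - l) * (coeff (F ζ) l * ζ ^ l)) := by
    intro l _
    apply HasSum.mul_left
    exact hasSum_shift (a := fun k => dcoeff F k l) (hF.hasSum_left hζ l) l
  have h2 := hasSum_sum h1
  have e : (fun m => ∑ l ∈ Finset.range (n + 1), pq (-s) (n - l) *
      (if l ≤ m then dcoeff F (m - l) l * ζ ^ m else 0))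
      = fun m => Vd s (diagc F m) m n * ζ ^ m := by
    funext m
    unfold Vd diagc
    rw [Finset.sum_mul]
    symm
    have hsub : Finset.range (min n m + 1) ⊆ Finset.range (n + 1) := by
      intro l hl
      rw [Finset.mem_range] at hl ⊢
      omega
    rw [← Finset.sum_subset hsub]
    · apply Finset.sum_congr rfl
      intro l hl
      rw [Finset.mem_range] at hl
      rw [if_pos (by omega)]
      ring
    · intro l hl hl2
      rw [Finset.mem_range] at hl hl2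
      rw [if_neg (by omega), mul_zero]
  rw [e] at h2
  exact h2

theorem dcoeff_symm {U : ℂ → ℂ → ℂ} (h : SepHol U)
    (hs : ∀ a ∈ ball (0 : ℂ) 1, ∀ b ∈ ball (0 : ℂ) 1, U a b = U b a) (k l : ℕ) :
    dcoeff U k l = dcoeff U l k := by
  unfold dcoeff
  rw [← h.coeff_comm k l]
  apply coeff_congr
  filter_upwards [ball_mem_nhds (0 : ℂ) one_pos] with w hw
  apply coeff_congr
  filter_upwards [ball_mem_nhds (0 : ℂ) one_pos] with z hz
  exact hs z hz w hw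

section
variable {β H : ℂ → ℂ} {Φ : ℂ → ℂ → ℂ}

/-- the symmetric kernel -/
noncomputable def EE (Φ : ℂ → ℂ → ℂ) (s ζ w : ℂ) : ℂ := Complex.exp (s * Φ ζ w)

theorem EE_sep (hΦ : LogPhi β H Φ) (s : ℂ) : SepHol (EE Φ s) where
  cont := by
    have := hΦ.sep.cont
    exact (continuousOn_const.mul this).cexp
  left := fun w hw => ((hΦ.sep.left w hw).const_mul s).cexp
  right := fun z hz => ((hΦ.sep.right z hz).const_mul s).cexp

theorem EE_symm (hΦ : LogPhi β H Φ) (s : ℂ) (m : ℕ) :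
    ∀ l ≤ m, diagc (EE Φ s) m l = diagc (EE Φ s) m (m - l) := by
  intro l hl
  unfold diagc
  rw [dcoeff_symm (EE_sep hΦ s) (fun a ha b hb => by unfold EE; rw [hΦ.symm a ha b hb])]
  congr 1
  omega

theorem EE_zero (hΦ : LogPhi β H Φ) (s : ℂ) : diagc (EE Φ s) 0 0 = 1 := by
  unfold diagc dcoeff EE
  rw [Pool.Agent.Helper22.Marshall.coeff_zero, Pool.Agent.Helper22.Marshall.coeff_zero,
    hΦ.zero_right 0 (mem_ball_self one_pos), mul_zero, Complex.exp_zero]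

theorem EE_diag (hΦ : LogPhi β H Φ) (s : ℂ) (m : ℕ) :
    ∑ l ∈ Finset.range (m + 1), diagc (EE Φ s) m l = coeff (fun z => Complex.exp (s * H z)) m := by
  have h1 := (EE_sep hΦ s).hasSum_diag m
  have h2 : coeff (fun z => EE Φ s z z) m = coeff (fun z => Complex.exp (s * H z)) m := by
    apply coeff_congr
    filter_upwards [ball_mem_nhds (0 : ℂ) one_pos] with z hz
    unfold EE
    rw [hΦ.diag z hz]
  rw [← h2, h1, ← Finset.sum_range_reflect]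
  apply Finset.sum_congr rfl
  intro l hl
  rw [Finset.mem_range] at hl
  unfold diagc
  have e1 : m + 1 - 1 - l = m - l := by omega
  have e2 : m - (m - l) = l := by omega
  rw [e1, e2]

/-- the area inequality for each Faber type polynomial -/
theorem area_V {k : ℝ} (hk : GLe β k) (hE : Ext β) (hΦ : LogPhi β H Φ) (s : ℂ) (i M : ℕ) :
    ∑ m ∈ Finset.range M, ((m - i : ℕ) : ℝ) * ‖Vd s (diagc (EE Φ s) m) m i‖ ^ 2
      ≤ k ^ 2 * ∑ m ∈ Finset.range i, ((i - m : ℕ) : ℝ) * ‖Vd s (diagc (EE Φ s) m) m i‖ ^ 2 := by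
  obtain ⟨P, hP1, hP2⟩ := faber_E hE hΦ s i
  exact hk i P (fun m => Vd s (diagc (EE Φ s) m) m i) hP1 (fun ζ hζ0 hζ1 => by
    rw [hP2 ζ (mem_ball_zero_iff.mpr hζ1) hζ0]
    exact hasSum_Vd (EE_sep hΦ s) s i hζ1) M

end

end Pool.Agent.Helper22.Half
end

/- Helper24.KR.H22.Half.MeanA -/
section
/-!
Bounds for the numbers `pq`.
-/

set_option autoImplicit false

open MeasureTheory Set Metric Filter Topology
open scoped ENNReal NNReal Real Nat ComplexConjugate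

namespace Pool.Agent.Helper22.Half

theorem pq_cast (b : ℝ) (n : ℕ) : pq (b : ℂ) n = ((pq b n : ℝ) : ℂ) := by
  induction n with
  | zero => simp [pq]
  | succ n ih =>
    rw [pq_succ, pq_succ, ih]
    push_cast
    ring

theorem pq_nonneg {b : ℝ} (hb : 0 ≤ b) (n : ℕ) : 0 ≤ pq b n := by
  induction n with
  | zero => simp [pq]
  | succ n ih => rw [pq_succ]; (clear * - ih hb; positivity)

theorem hasSum_pq_real (b : ℝ) {x : ℝ} (hx0 : 0 ≤ x) (hx : x < 1) :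
    HasSum (fun n : ℕ => pq b n * x ^ n) ((1 - x) ^ (-b)) := by
  have h := hasSum_pq (b : ℂ) (x := (x : ℂ)) (by
    rw [Complex.norm_real, Real.norm_of_nonneg hx0]; exact hx)
  have e : (1 / (1 - (x : ℂ)) ^ (b : ℂ)) = (((1 - x) ^ (-b) : ℝ) : ℂ) := by
    rw [Real.rpow_neg (by (clear * - hx; linarith only [hx])), one_div]
    push_cast
    rw [Complex.ofReal_cpow (by (clear * - hx; linarith))]
    push_cast
    rfl
  rw [e] at h
  have e2 : (fun n : ℕ => pq (b : ℂ) n * (x : ℂ) ^ n)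
      = fun n : ℕ => ((pq b n * x ^ n : ℝ) : ℂ) := by
    funext n; rw [pq_cast]; push_cast; rfl
  rw [e2] at h
  exact Complex.hasSum_ofReal.mp h

theorem pow_mul_pq_le {b : ℝ} (hb : 0 ≤ b) {x : ℝ} (hx0 : 0 ≤ x) (hx : x < 1) (m : ℕ) :
    x ^ m * pq (b + 1) m ≤ (1 - x) ^ (-b) := by
  have h := hasSum_pq_real b hx0 hx
  have h2 : ∑ i ∈ Finset.range (m + 1), pq b i * x ^ i ≤ (1 - x) ^ (-b) := by
    apply sum_le_hasSum _ _ h
    intro i _
    exact mul_nonneg (pq_nonneg hb i) (pow_nonneg hx0 i)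
  refine le_trans ?_ h2
  have h3 := vander b 1 m
  simp only [pq_one, mul_one] at h3
  rw [← h3, Finset.mul_sum]
  apply Finset.sum_le_sum
  intro i hi
  rw [Finset.mem_range] at hi
  rw [mul_comm]
  apply mul_le_mul_of_nonneg_left _ (pq_nonneg hb i)
  exact pow_le_pow_of_le_one hx0 hx.le (by omega)

end Pool.Agent.Helper22.Half
end

/- Helper24.KR.H24.Br.Defs -/
section
/-!
MP_16b0ee, project BR (the mean of the power -2 of the derivative): common definitions.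
-/

set_option autoImplicit false

open MeasureTheory Set Metric Filter Topology

namespace Pool.Agent.Helper24.Br

open Pool.Agent.Helper22.Half

/-- the constant `b (b + 1) / 2 * int_0^1 x (1 - x) / (x ^ (b + 3) + (1 - x) ^ (b + 3)) dx` -/
noncomputable def Th (b : ℝ) : ℝ :=
  b * (b + 1) / 2 * ∫ x in (0:ℝ)..1, x * (1 - x) / (x ^ (b + 3) + (1 - x) ^ (b + 3))

/-- the bound of the upper form of the antidiagonal `d` of order `m` -/
noncomputable def Um (b : ℝ) (d : ℕ → ℂ) (m : ℕ) : ℝ :=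
  (m + 1) * (m + b + 2) / (b * (b + 1)) * (pq (b + 3) m)⁻¹
    * ‖∑ l ∈ Finset.range (m + 1), d l‖ ^ 2

/-- the midpoints, in the reversed order -/
noncomputable def tt (m i : ℕ) : ℝ := (2 * ((m - i : ℕ) : ℝ) - 1) / (2 * m)

end Pool.Agent.Helper24.Br
end

/- Helper24.KR.H39.MH.Defs -/
section
/-!
MP_16b0ee, project MH (moment hierarchy for the mean of the power -2 of the derivative):
common definitions. Everything lives in the unit disc (coordinate `1/z`): `H = log psi'(1/z)`,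
`G = exp (-H)`.
-/

set_option autoImplicit false

open MeasureTheory Set Metric Filter Topology
open scoped Real ComplexConjugate

namespace Pool.Agent.Helper39.MH

open Pool.Agent.Helper22.Half
open Pool.Agent.Helper22.Marshall (coeff SepHol LogPhi dcoeff GLe)
open Pool.Agent.Helper39.Area (Ext phi)

/-- the Euler operator -/
noncomputable def th (F : ℂ → ℂ) (z : ℂ) : ℂ := z * deriv F z

/-- the jets: `th g0 = 3 g1 - g0^2`, `th gn = (n+3) g(n+1) + sum_(i+j=n, i,j>=1) gi gj` -/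
noncomputable def gg (H : ℂ → ℂ) : ℕ → (ℂ → ℂ)
  | 0 => fun z => -(th H z) / 2
  | 1 => fun z => (th (gg H 0) z + (gg H 0 z) ^ 2) / 3
  | (n + 2) => fun z =>
      (th (gg H (n + 1)) z - ∑ i : Fin n, gg H (i.1 + 1) z * gg H (n - i.1) z) / ((n : ℂ) + 4)
termination_by n => n
decreasing_by all_goals omega

/-- the weight of a monomial (a list of indices) -/
def wt (A : List ℕ) : ℕ := (A.map (fun n => n + 1)).sum

/-- the value of a monomial -/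
noncomputable def ev (c : ℕ → ℂ) (A : List ℕ) : ℂ := (A.map c).prod

/-- the formal derivative of the variable `n` -/
noncomputable def dval (c : ℕ → ℂ) (n : ℕ) : ℂ :=
  if n = 0 then 3 * c 1 - c 0 ^ 2
  else ((n : ℂ) + 3) * c (n + 1) + ∑ i ∈ Finset.range (n - 1), c (i + 1) * c (n - 1 - i)

/-- the formal derivative of a monomial -/
noncomputable def Dv (c : ℕ → ℂ) : List ℕ → ℂ
  | [] => 0
  | a :: A => dval c a * ev c A + c a * Dv c A

/-- the formal weighted derivative: `th (G * A) = G * DG A` -/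
noncomputable def DG (c : ℕ → ℂ) (A : List ℕ) : ℂ := 2 * c 0 * ev c A + Dv c A

/-- the scaled jets -/
noncomputable def cc (H : ℂ → ℂ) (z : ℂ) (n : ℕ) : ℂ :=
  (((1 - ‖z‖ ^ 2) ^ (n + 1) : ℝ) : ℂ) * gg H n z

/-- weighted area integral with the density `|G|^2 (1-|z|^2)^(b-1)` -/
noncomputable def LG (H : ℂ → ℂ) (b : ℝ) (f : ℂ → ℝ) : ℝ :=
  (1 / π) * ∫ z in ball (0 : ℂ) 1, (1 - ‖z‖ ^ 2) ^ (b - 1) * ‖Complex.exp (-H z)‖ ^ 2 * f z

/-- the relation polynomial of the pair `(A, B)` -/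
noncomputable def relv (b : ℝ) (c : ℕ → ℂ) (A B : List ℕ) : ℝ :=
  (DG c A * conj (ev c B)).re - (b + wt A + wt B) * (ev c A * conj (ev c B)).re

/-- the value of a polynomial in the variables and their conjugates -/
noncomputable def evv (c : ℕ → ℂ) (v : List (ℝ × List ℕ × List ℕ)) : ℂ :=
  (v.map (fun x => (x.1 : ℂ) * (ev c x.2.1 * conj (ev c x.2.2)))).sum

/-- the pointwise constraint (area theorem of the square root transform) -/
noncomputable def ell (c : ℕ → ℂ) : ℝ :=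
  1 - ‖(1 + c 0) / 2‖ ^ 2 - 3 * ‖c 1 / 2 - (1 + c 0) ^ 2 / 8‖ ^ 2
    - 5 * ‖(c 1 - c 2) / 2 + (1 + c 0) * c 1 / 4 - (1 + c 0) ^ 3 / 16‖ ^ 2

/-- test data for the lower forms; the variable is `y = 1 - x` -/
structure Test where
  /-- even parts -/
  E : Fin 3 → ℝ → ℝ
  /-- coefficients of the odd parts -/
  α : Fin 3 → ℝ
  /-- coefficients of the odd parts -/
  β : Fin 3 → ℝ
  /-- the quotients by `y` -/
  ν : Fin 3 → ℝ → ℝ
  cont : ∀ r, ContinuousOn (ν r) (Icc 0 1)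
  even : ∀ r, ∀ y ∈ Icc (0:ℝ) 1, E r (1 - y) = E r y
  eq : ∀ r, ∀ y ∈ Icc (0:ℝ) 1, E r y + α r * (1 / 2 - y) + β r * (1 / 2 - y) ^ 3 = y * ν r y

/-- the pairing matrix -/
noncomputable def Test.P (T : Test) (r : Fin 3) : Fin 3 → ℝ :=
  ![(∫ y in (0:ℝ)..1, T.E r y) / 2 + T.α r / 8 + T.β r / 64, -(T.α r) / 2, -(T.β r) / 4]

/-- the quadratic form in the variables `G, K2/m^2, K4/m^4` -/
noncomputable def Test.Qv (T : Test) (b : ℝ) (r s : Fin 3) : ℝ :=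
  T.P r s + T.P s r - ∫ y in (0:ℝ)..1, T.ν r y * T.ν s y * y * (1 - y) ^ (b + 2)

/-- change of variables from `G, (G g1)/m^2, (G g3)/m^4` to `G, K2/m^2, K4/m^4` -/
noncomputable def Mt : Fin 3 → Fin 3 → ℝ := ![![1, 0, 0], ![-(1 / 4), 2, 0], ![5 / 16, -3, 24]]

/-- the quadratic form in the variables `G, (G g1)/m^2, (G g3)/m^4` -/
noncomputable def Qam (Q : Fin 3 → Fin 3 → ℝ) (r s : Fin 3) : ℝ :=
  ∑ i, ∑ j, Mt i r * Q i j * Mt j s

/-- the monomials `1, c1, c3` -/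
def am : Fin 3 → List ℕ := ![[], [1], [3]]

/-- the area form in the scaled variables: the coefficients are divided by the Pochhammer symbol
`b (b+1) ... (b+w-1)` of the total weight `w` -/
noncomputable def qf (Q : Fin 3 → Fin 3 → ℝ) (b : ℝ) (c : ℕ → ℂ) : ℝ :=
  b * (b + 1) * ∑ r, ∑ s, Qam Q r s
    / ((Nat.factorial (wt (am r) + wt (am s)) : ℝ) * pq b (wt (am r) + wt (am s)))
    * (ev c (am r) * conj (ev c (am s))).re

/-- the class of data: a dilated map of the class -/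
structure Data (ρ : ℝ) (β H : ℂ → ℂ) (Φ : ℂ → ℂ → ℂ) : Prop where
  one_lt : 1 < ρ
  ext : Ext β
  logPhi : LogPhi β H Φ
  diff : DifferentiableOn ℂ H (ball 0 ρ)
  bloch : ∀ z ∈ ball (0 : ℂ) 1, (1 - ‖z‖ ^ 2) * ‖deriv H z‖ ≤ 28
  exp_eq : ∀ z ∈ ball (0 : ℂ) 1, Complex.exp (H z) = 1 - z ^ 2 * deriv β z

end Pool.Agent.Helper39.MH
end

/- Helper24.KR.H39.MH.SqrtArea -/
section
/-!
MP_16b0ee, project MH, module MH-10: the area theorem for the square root transform of a univalent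
function on the unit disc, in terms of the first coefficients.
-/

set_option autoImplicit false

open MeasureTheory Set Metric Filter Topology
open scoped Real ComplexConjugate

namespace Pool.Agent.Helper39.MH

open Pool.Agent.Helper22.Marshall (coeff SepHol LogPhi dcoeff GLe)
open Pool.Agent.Helper39.Area (Ext phi)

/-- the square of a point of the disc is in the disc -/
private theorem sq_mem {u : ℂ} (hu : u ∈ ball (0 : ℂ) 1) : u ^ 2 ∈ ball (0 : ℂ) 1 := by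
  rw [mem_ball_zero_iff] at hu ⊢
  rw [norm_pow]
  (clear * - hu; nlinarith only [norm_nonneg u, hu])

/-- the data of the square root transform -/
private theorem sqrt_data {F : ℂ → ℂ} (hF : DifferentiableOn ℂ F (ball 0 1))
    (hinj : InjOn F (ball 0 1)) (hF0 : F 0 = 0) (hF1 : deriv F 0 = 1) :
    ∃ (g k : ℂ → ℂ), DifferentiableOn ℂ g (ball 0 1) ∧ DifferentiableOn ℂ k (ball 0 1) ∧
      (∀ s, F s = s * g s) ∧ g 0 = 1 ∧ k 0 = 1 ∧ (∀ s ∈ ball (0 : ℂ) 1, k s * k s * g s = 1) ∧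
      (∀ s ∈ ball (0 : ℂ) 1, k s ≠ 0) := by
  have h0b : (0:ℂ) ∈ ball (0:ℂ) 1 := mem_ball_self one_pos
  have hb0 : ball (0:ℂ) 1 ∈ 𝓝 (0:ℂ) := ball_mem_nhds 0 one_pos
  set g : ℂ → ℂ := dslope F 0 with hg
  have hgd : DifferentiableOn ℂ g (ball 0 1) := (Complex.differentiableOn_dslope hb0).mpr hF
  have hg0 : g 0 = 1 := by rw [hg, dslope_same, hF1]
  have hgf : ∀ s : ℂ, F s = s * g s := by
    intro s
    by_cases h : s = 0
    · subst h; simp [hF0]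
    · rw [hg, dslope_of_ne _ h, slope_def_field, hF0]
      field_simp
      ring
  have hgne : ∀ s ∈ ball (0:ℂ) 1, g s ≠ 0 := by
    intro s hs h
    by_cases h0 : s = 0
    · subst h0; rw [hg0] at h; exact one_ne_zero h
    · apply h0
      apply hinj hs h0b
      rw [hgf s, h, mul_zero, hF0]
  obtain ⟨L, hL, hL0, hLe⟩ := Pool.Agent.Helper24.Br.exists_log_ball hgd hgne hg0
  refine ⟨g, fun s => Complex.exp (-(L s) / 2), hgd, ?_, hgf, hg0, ?_, ?_, ?_⟩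
  · exact ((hL.neg).div_const 2).cexp
  · simp only [hL0, neg_zero, zero_div, Complex.exp_zero]
  · intro s hs
    rw [← hLe s hs, ← Complex.exp_add, ← Complex.exp_add]
    have : -L s / 2 + -L s / 2 + L s = 0 := by ring
    rw [this, Complex.exp_zero]
  · intro s _
    exact Complex.exp_ne_zero _

/-- the square root transform is in the class -/
private theorem sqrt_ext {F g k : ℂ → ℂ} (hF : DifferentiableOn ℂ F (ball 0 1))
    (hinj : InjOn F (ball 0 1)) (hk : DifferentiableOn ℂ k (ball 0 1))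
    (hgf : ∀ s, F s = s * g s) (hk0 : k 0 = 1)
    (hkg : ∀ s ∈ ball (0 : ℂ) 1, k s * k s * g s = 1) (hkne : ∀ s ∈ ball (0 : ℂ) 1, k s ≠ 0) :
    ∃ β : ℂ → ℂ, Ext β ∧ ∀ u ∈ ball (0 : ℂ) 1, u ≠ 0 → phi β u = k (u ^ 2) / u := by
  have h0b : (0:ℂ) ∈ ball (0:ℂ) 1 := mem_ball_self one_pos
  have hb0 : ball (0:ℂ) 1 ∈ 𝓝 (0:ℂ) := ball_mem_nhds 0 one_pos
  set k1 : ℂ → ℂ := dslope k 0 with hk1
  have hk1d : DifferentiableOn ℂ k1 (ball 0 1) := (Complex.differentiableOn_dslope hb0).mpr hk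
  have hk1e : ∀ s : ℂ, s ≠ 0 → k1 s = (k s - 1) / s := by
    intro s hs
    rw [hk1, dslope_of_ne _ hs, slope_def_field, hk0, sub_zero]
  set β : ℂ → ℂ := fun u => u * k1 (u ^ 2) with hβ
  have hsq : MapsTo (fun u : ℂ => u ^ 2) (ball (0:ℂ) 1) (ball (0:ℂ) 1) := fun u hu => sq_mem hu
  have hβd : DifferentiableOn ℂ β (ball 0 1) := by
    have h1 : DifferentiableOn ℂ (fun u : ℂ => k1 (u ^ 2)) (ball 0 1) :=
      hk1d.comp (by fun_prop) hsq
    exact differentiableOn_id.mul h1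
  have hphi : ∀ u : ℂ, u ≠ 0 → u⁻¹ + β u = k (u ^ 2) / u := by
    intro u hu
    have h2 : u ^ 2 ≠ 0 := pow_ne_zero _ hu
    simp only [hβ]
    rw [hk1e _ h2]
    field_simp
    ring
  -- the relation with F
  have hrel : ∀ u ∈ ball (0:ℂ) 1, u ≠ 0 → (u⁻¹ + β u) ^ 2 * F (u ^ 2) = 1 := by
    intro u hu h0
    rw [hphi u h0, hgf]
    have h3 := hkg _ (sq_mem hu)
    have : (k (u ^ 2) / u) ^ 2 * (u ^ 2 * g (u ^ 2)) = k (u ^ 2) * k (u ^ 2) * g (u ^ 2) := by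
      field_simp
    rw [this, h3]
  have hinj2 : ∀ u w : ℂ, u ∈ ball (0:ℂ) 1 → w ∈ ball (0:ℂ) 1 → u ≠ 0 → w ≠ 0 →
      u⁻¹ + β u = w⁻¹ + β w → u = w := by
    intro u w hu hw hu0 hw0 h
    have h1 := hrel u hu hu0
    have h2 := hrel w hw hw0
    rw [h] at h1
    have hne : (w⁻¹ + β w) ^ 2 ≠ 0 := by
      intro h3
      rw [h3, zero_mul] at h2
      exact zero_ne_one h2
    have h3 : F (u ^ 2) = F (w ^ 2) := mul_left_cancel₀ hne (h1.trans h2.symm)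
    have h4 : u ^ 2 = w ^ 2 := hinj (sq_mem hu) (sq_mem hw) h3
    rw [hphi u hu0, hphi w hw0, h4] at h
    have h5 := hkne _ (sq_mem hw)
    rw [div_eq_div_iff hu0 hw0] at h
    exact (mul_left_cancel₀ h5 h).symm
  refine ⟨β, ⟨hβd, hinj2, ?_⟩, fun u _ h0 => hphi u h0⟩
  intro u hu
  by_cases h0 : u = 0
  · subst h0; simp
  · intro hcon
    have hub : ball (0:ℂ) 1 ∈ 𝓝 u := isOpen_ball.mem_nhds hu
    have h1 : HasDerivAt (fun u : ℂ => u⁻¹ + β u) (-(u ^ 2)⁻¹ + deriv β u) u :=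
      (hasDerivAt_inv h0).add ((hβd.differentiableAt hub).hasDerivAt)
    have hz : -(u ^ 2)⁻¹ + deriv β u = 0 := by
      have h2 : u ^ 2 ≠ 0 := pow_ne_zero _ h0
      have h3 : deriv β u = 1 / u ^ 2 := by
        rw [eq_div_iff h2]
        linear_combination -hcon
      rw [h3]
      field_simp
      ring
    rw [hz] at h1
    have h2 : HasDerivAt (fun u : ℂ => F (u ^ 2)) (deriv F (u ^ 2) * (2 * u)) u := by
      have h3 : HasDerivAt F (deriv F (u ^ 2)) (u ^ 2) :=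
        (hF.differentiableAt (isOpen_ball.mem_nhds (sq_mem hu))).hasDerivAt
      have h4 : HasDerivAt (fun u : ℂ => u ^ 2) (2 * u) u := by
        simpa using hasDerivAt_pow 2 u
      exact h3.comp u h4
    have h3 := (h1.pow 2).mul h2
    have h4 : (fun u : ℂ => (u⁻¹ + β u) ^ 2 * F (u ^ 2)) =ᶠ[𝓝 u] fun _ => (1 : ℂ) := by
      filter_upwards [hub, isOpen_ne.mem_nhds h0] with w hw hw0
      exact hrel w hw hw0
    have h5 := (h3.congr_of_eventuallyEq h4.symm).unique (hasDerivAt_const u (1 : ℂ))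
    have h6 : (u⁻¹ + β u) ^ 2 ≠ 0 := by
      intro h7
      have h8 := hrel u hu h0
      rw [h7, zero_mul] at h8
      exact zero_ne_one h8
    have h7 : (u⁻¹ + β u) ^ 2 * (deriv F (u ^ 2) * (2 * u)) = 0 := by
      simpa using h5
    have h8 := Pool.Agent.Helper24.Br.deriv_ne_of_inj isOpen_ball hF hinj (sq_mem hu)
    rcases mul_eq_zero.mp h7 with h9 | h9
    · exact h6 h9
    · rcases mul_eq_zero.mp h9 with h10 | h10
      · exact h8 h10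
      · exact h0 (by simpa using h10)

theorem sqrt_area {F : ℂ → ℂ} (hF : DifferentiableOn ℂ F (ball 0 1)) (hinj : InjOn F (ball 0 1))
    (hF0 : F 0 = 0) (hF1 : deriv F 0 = 1) {a2 a3 a4 : ℂ} (h2 : coeff F 2 = a2)
    (h3 : coeff F 3 = a3) (h4 : coeff F 4 = a4) {B0 B1 B2 : ℂ} (hB0 : B0 = -a2)
    (hB1 : B1 = a2 ^ 2 - a3) (hB2 : B2 = -a4 + 2 * a2 * a3 - a2 ^ 3) :
    ‖B0 / 2‖ ^ 2 + 3 * ‖B1 / 2 - B0 ^ 2 / 8‖ ^ 2
      + 5 * ‖B2 / 2 - B0 * B1 / 4 + B0 ^ 3 / 16‖ ^ 2 ≤ 1 := by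
  obtain ⟨g, k, hg, hk, hgf, hg0, hk0, hkg, hkne⟩ := sqrt_data hF hinj hF0 hF1
  obtain ⟨β, hE, hphi⟩ := sqrt_ext hF hinj hk hgf hk0 hkg hkne
  have hb0 : ball (0:ℂ) 1 ∈ 𝓝 (0:ℂ) := ball_mem_nhds 0 one_pos
  have hga : AnalyticAt ℂ g 0 := hg.analyticAt hb0
  have hka : AnalyticAt ℂ k 0 := hk.analyticAt hb0
  -- the coefficients of g
  have hcg : ∀ n, coeff F (n + 1) = coeff g n := by
    intro n
    have e : F = fun z => z * g z := funext hgf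
    have ha : AnalyticAt ℂ (fun z : ℂ => z) 0 := analyticAt_id
    rw [e, Pool.Agent.Helper22.Marshall.coeff_mul ha hga, Finset.sum_eq_single 1]
    · have : coeff (fun z : ℂ => z) 1 = 1 := by
        rw [Pool.Agent.Helper22.Marshall.coeff_one]
        simp
      rw [this, one_mul]
      rfl
    · intro i _ hi
      have : coeff (fun z : ℂ => z) i = 0 := by
        rcases Nat.eq_zero_or_pos i with h | h
        · subst h
          rw [Pool.Agent.Helper22.Marshall.coeff_zero]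
        · have h1 : coeff (fun z : ℂ => z) i = (if i = 1 then 1 else 0 : ℂ) := by
            apply Pool.Agent.Helper22.Marshall.coeff_eq_of_hasSum
              (a := fun i => if i = 1 then 1 else 0) one_pos
            intro z _
            have h2 : HasSum (fun n : ℕ => (if n = 1 then 1 else 0 : ℂ) * z ^ n)
                ((if 1 = 1 then 1 else 0 : ℂ) * z ^ 1) := by
              apply hasSum_single
              intro b hb
              rw [if_neg hb, zero_mul]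
            simpa using h2
          rw [h1, if_neg hi]
      rw [this, zero_mul]
    · intro h
      exact absurd (Finset.mem_range.mpr (by omega)) h
  have g0 : coeff g 0 = 1 := by rw [Pool.Agent.Helper22.Marshall.coeff_zero, hg0]
  have g1 : coeff g 1 = a2 := by rw [← hcg, h2]
  have g2 : coeff g 2 = a3 := by rw [← hcg, h3]
  have g3 : coeff g 3 = a4 := by rw [← hcg, h4]
  have k0 : coeff k 0 = 1 := by rw [Pool.Agent.Helper22.Marshall.coeff_zero, hk0]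
  -- the coefficients of the product
  have hprod : (fun z => k z * k z * g z) =ᶠ[𝓝 0] fun _ => (1 : ℂ) := by
    filter_upwards [hb0] with z hz
    exact hkg z hz
  have hone : ∀ n, 0 < n → coeff (fun _ : ℂ => (1 : ℂ)) n = 0 := by
    intro n hn
    have h1 : coeff (fun _ : ℂ => (1 : ℂ)) n = (if n = 0 then 1 else 0 : ℂ) := by
      apply Pool.Agent.Helper22.Marshall.coeff_eq_of_hasSum
        (a := fun i => if i = 0 then 1 else 0) one_pos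
      intro z _
      have h2 : HasSum (fun n : ℕ => (if n = 0 then 1 else 0 : ℂ) * z ^ n)
          ((if 0 = 0 then 1 else 0 : ℂ) * z ^ 0) := by
        apply hasSum_single
        intro b hb
        rw [if_neg hb, zero_mul]
      simpa using h2
    rw [h1, if_neg (by omega)]
  have hkk : ∀ n, coeff (fun z => k z * k z) n
      = ∑ i ∈ Finset.range (n + 1), coeff k i * coeff k (n - i) :=
    fun n => Pool.Agent.Helper22.Marshall.coeff_mul hka hka n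
  have hpr : ∀ n, 0 < n → ∑ i ∈ Finset.range (n + 1), coeff (fun z => k z * k z) i
      * coeff g (n - i) = 0 := by
    intro n hn
    have hka2 : AnalyticAt ℂ (fun z => k z * k z) 0 := hka.mul hka
    rw [← Pool.Agent.Helper22.Marshall.coeff_mul hka2 hga n,
      Pool.Agent.Helper22.Marshall.coeff_congr hprod, hone n hn]
  have q0 : coeff (fun z => k z * k z) 0 = 1 := by
    rw [hkk]; simp [k0]
  have q1 : coeff (fun z => k z * k z) 1 = 2 * coeff k 1 := by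
    rw [hkk]; simp [Finset.sum_range_succ, k0]; ring
  have q2 : coeff (fun z => k z * k z) 2 = 2 * coeff k 2 + coeff k 1 ^ 2 := by
    rw [hkk]; simp [Finset.sum_range_succ, k0]; ring
  have q3 : coeff (fun z => k z * k z) 3 = 2 * coeff k 3 + 2 * coeff k 1 * coeff k 2 := by
    rw [hkk]; simp [Finset.sum_range_succ, k0]; ring
  have r1 := hpr 1 (by norm_num)
  have r2 := hpr 2 (by norm_num)
  have r3 := hpr 3 (by norm_num)
  simp only [Finset.sum_range_succ, Finset.sum_range_zero, zero_add, Nat.sub_zero, Nat.sub_self,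
    show (2 - 1 : ℕ) = 1 from rfl, show (3 - 1 : ℕ) = 2 from rfl,
    q0, q1, q2, q3, g0, g1, g2, g3] at r1 r2 r3
  have c1 : coeff k 1 = B0 / 2 := by
    rw [hB0]; linear_combination r1 / 2
  have c2 : coeff k 2 = B1 / 2 - B0 ^ 2 / 8 := by
    rw [hB1, hB0]
    have c1' : coeff k 1 = -a2 / 2 := by rw [c1, hB0]
    rw [c1'] at r2
    linear_combination r2 / 2
  have c3 : coeff k 3 = B2 / 2 - B0 * B1 / 4 + B0 ^ 3 / 16 := by
    rw [hB2, hB1, hB0]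
    have c1' : coeff k 1 = -a2 / 2 := by rw [c1, hB0]
    have c2' : coeff k 2 = (a2 ^ 2 - a3) / 2 - a2 ^ 2 / 8 := by rw [c2, hB1, hB0]; ring
    rw [c1', c2'] at r3
    linear_combination r3 / 2
  -- the area inequality
  have hv : ∀ ζ : ℂ, ζ ≠ 0 → ‖ζ‖ < 1 →
      HasSum (fun m => (if Even m then coeff k (m / 2) else 0) * ζ ^ m)
        (ζ ^ 1 * (Polynomial.X : Polynomial ℂ).eval (phi β ζ)) := by
    intro ζ h0 hζ
    have hζb : ζ ∈ ball (0:ℂ) 1 := mem_ball_zero_iff.mpr hζ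
    have e1 : ζ ^ 1 * (Polynomial.X : Polynomial ℂ).eval (phi β ζ) = k (ζ ^ 2) := by
      rw [Polynomial.eval_X, hphi ζ hζb h0]
      field_simp
    rw [e1]
    have h5 := Pool.Agent.Helper22.Marshall.hasSum_coeff hk
      (z := ζ ^ 2) (by simpa using sq_mem hζb)
    have hi : Function.Injective (fun j : ℕ => 2 * j) := by
      intro a b hab
      have : 2 * a = 2 * b := hab
      omega
    rw [← hi.hasSum_iff]
    · refine h5.congr_fun ?_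
      intro j
      simp only [Function.comp]
      rw [if_pos (even_two_mul j), Nat.mul_div_cancel_left _ two_pos, pow_mul]
    · intro m hm
      rw [if_neg, zero_mul]
      intro hev
      apply hm
      obtain ⟨r, hr⟩ := hev
      exact ⟨r, by simp only; omega⟩
  have hA := Pool.Agent.Helper22.Marshall.gLe_one hE 1 Polynomial.X _
    (by rw [Polynomial.natDegree_X]) hv 7
  simp only [Finset.sum_range_succ, Finset.sum_range_zero, zero_add] at hA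
  have e0 : (Even 0) := ⟨0, rfl⟩
  have e2 : (Even 2) := ⟨1, rfl⟩
  have e4 : (Even 4) := ⟨2, rfl⟩
  have e6 : (Even 6) := ⟨3, rfl⟩
  have o1 : ¬ (Even 1) := by decide
  have o3 : ¬ (Even 3) := by decide
  have o5 : ¬ (Even 5) := by decide
  simp only [if_pos e0, if_pos e2, if_pos e4, if_pos e6, if_neg o1, if_neg o3, if_neg o5] at hA
  norm_num at hA
  rw [k0, c1, c2, c3] at hA
  simpa using hA

end Pool.Agent.Helper39.MH
end

/- Helper24.KR.H84.EK.Koebe -/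
section
set_option autoImplicit false
open Complex Metric Set Filter Topology

/-! The one quarter theorem of Koebe for functions without zeros. -/

namespace Pool.Agent.Helper84.EK

open Pool.Agent.Helper22.Marshall (coeff coeff_zero coeff_one coeff_mul coeff_congr)

/-- the second coefficient of a univalent function is at most 2 -/
theorem second_le_two {f : ℂ → ℂ} (hf : DifferentiableOn ℂ f (ball 0 1))
    (hinj : InjOn f (ball 0 1)) (h0 : f 0 = 0) (h1 : deriv f 0 = 1) : ‖coeff f 2‖ ≤ 2 := by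
  have h := Pool.Agent.Helper39.MH.sqrt_area hf hinj h0 h1 (a2 := coeff f 2) (a3 := coeff f 3)
    (a4 := coeff f 4) rfl rfl rfl (B0 := -coeff f 2) (B1 := coeff f 2 ^ 2 - coeff f 3)
    (B2 := -coeff f 4 + 2 * coeff f 2 * coeff f 3 - coeff f 2 ^ 3) rfl rfl rfl
  have h2 : ‖-coeff f 2 / 2‖ ^ 2 ≤ 1 := by
    refine le_trans ?_ h
    rw [add_assoc]
    exact le_add_of_nonneg_right (by (clear * -; positivity))
  rw [norm_div, norm_neg] at h2
  have h3 : ‖(2:ℂ)‖ = 2 := by simp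
  rw [h3] at h2
  have h4 := norm_nonneg (coeff f 2)
  nlinarith only [h2]

/-- **Koebe**: `‖g' 0‖ ≤ 4 ‖g 0‖` for `g` univalent without zeros in the unit disc -/
theorem koebe {g : ℂ → ℂ} (hg : DifferentiableOn ℂ g (ball 0 1)) (hinj : InjOn g (ball 0 1))
    (hne : ∀ z ∈ ball (0:ℂ) 1, g z ≠ 0) : ‖deriv g 0‖ ≤ 4 * ‖g 0‖ := by
  have h0b : (0:ℂ) ∈ ball (0:ℂ) 1 := mem_ball_self one_pos
  have hb0 : ball (0:ℂ) 1 ∈ 𝓝 (0:ℂ) := ball_mem_nhds 0 one_pos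
  have hd : deriv g 0 ≠ 0 := Pool.Agent.Helper24.Br.deriv_ne_of_inj isOpen_ball hg hinj h0b
  have hg0 : g 0 ≠ 0 := hne 0 h0b
  have hgd : HasDerivAt g (deriv g 0) 0 := (hg.differentiableAt hb0).hasDerivAt
  set d := deriv g 0 with hdd
  set c := g 0 with hc
  set f : ℂ → ℂ := fun z => (g z - c) / d with hf
  set f2 : ℂ → ℂ := fun z => c / d * (1 - c / g z) with hf2
  set k : ℂ → ℂ := fun z => g z / c with hk
  have hfd : DifferentiableOn ℂ f (ball 0 1) := (hg.sub_const c).div_const d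
  have hf2d : DifferentiableOn ℂ f2 (ball 0 1) := by
    apply DifferentiableOn.const_mul
    apply DifferentiableOn.const_sub
    exact (differentiableOn_const c).div hg hne
  have hkd : DifferentiableOn ℂ k (ball 0 1) := hg.div_const c
  have hfi : InjOn f (ball 0 1) := by
    intro z hz w hw h
    apply hinj hz hw
    simp only [hf] at h
    rw [div_left_inj' hd] at h
    linear_combination h
  have hf2i : InjOn f2 (ball 0 1) := by
    intro z hz w hw h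
    apply hinj hz hw
    simp only [hf2] at h
    have h1 := mul_left_cancel₀ (div_ne_zero hg0 hd) h
    have h2 : c / g z = c / g w := by linear_combination -h1
    rw [div_eq_div_iff (hne z hz) (hne w hw)] at h2
    exact (mul_left_cancel₀ hg0 h2).symm
  have hf0 : f 0 = 0 := by simp [hf, hc]
  have hf20 : f2 0 = 0 := by
    simp only [hf2]
    rw [← hc, div_self hg0, sub_self, mul_zero]
  have hf1 : deriv f 0 = 1 := by
    have h1 : HasDerivAt f (d / d) 0 := (hgd.sub_const c).div_const d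
    rw [h1.deriv, div_self hd]
  have hf21 : deriv f2 0 = 1 := by
    have h1 : HasDerivAt f2 (c / d * -((0 * g 0 - c * d) / g 0 ^ 2)) 0 :=
      (((hasDerivAt_const (0:ℂ) c).div hgd hg0).const_sub 1).const_mul (c / d)
    rw [h1.deriv, ← hc]
    field_simp
    ring
  have e1 := second_le_two hfd hfi hf0 hf1
  have e2 := second_le_two hf2d hf2i hf20 hf21
  have hprod : f =ᶠ[𝓝 0] fun z => f2 z * k z := by
    filter_upwards [hb0] with z hz
    have h1 := hne z hz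
    simp only [hf, hf2, hk]
    field_simp
  have e3 : coeff f 2 = coeff f2 2 + d / c := by
    rw [coeff_congr hprod, coeff_mul (hf2d.analyticAt hb0) (hkd.analyticAt hb0)]
    simp only [Finset.sum_range_succ, Finset.sum_range_zero, zero_add, Nat.sub_zero, Nat.sub_self,
      show (2 - 1 : ℕ) = 1 from rfl]
    have k0 : coeff k 0 = 1 := by
      rw [coeff_zero]
      simp only [hk]
      exact div_self hg0
    have k1 : coeff k 1 = d / c := by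
      rw [coeff_one]
      exact (hgd.div_const c).deriv
    rw [k0, k1, coeff_zero, hf20, coeff_one, hf21]
    ring
  have e4 : ‖d / c‖ ≤ 4 := by
    have h1 : d / c = coeff f 2 - coeff f2 2 := by rw [e3]; ring
    rw [h1]
    exact (norm_sub_le _ _).trans (by (clear * - e1 e2; linarith only [e1, e2]))
  rw [norm_div, div_le_iff₀ (norm_pos_iff.mpr hg0)] at e4
  exact e4

/-- Koebe in a disc of radius `r` -/
theorem koebe_r {g : ℂ → ℂ} {r : ℝ} (hr : 0 < r) (hg : DifferentiableOn ℂ g (ball 0 r))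
    (hinj : InjOn g (ball 0 r)) (hne : ∀ z ∈ ball (0:ℂ) r, g z ≠ 0) :
    ‖deriv g 0‖ * r ≤ 4 * ‖g 0‖ := by
  have hm : MapsTo (fun z : ℂ => (r : ℂ) * z) (ball 0 1) (ball 0 r) := by
    intro z hz
    rw [mem_ball_zero_iff] at hz ⊢
    rw [norm_mul, Complex.norm_real, Real.norm_of_nonneg hr.le]
    (clear * - hr hz; nlinarith only [hr, hz])
  have hr0 : (r : ℂ) ≠ 0 := by exact_mod_cast hr.ne'
  have h1 := koebe (g := fun z => g ((r : ℂ) * z)) (hg.comp (by fun_prop) hm)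
    (by
      intro z hz w hw h
      exact mul_left_cancel₀ hr0 (hinj (hm hz) (hm hw) h))
    (fun z hz => hne _ (hm hz))
  have h0r : (0:ℂ) ∈ ball (0:ℂ) r := mem_ball_self hr
  have h2 : HasDerivAt g (deriv g 0) ((r:ℂ) * 0) := by
    rw [mul_zero]
    exact (hg.differentiableAt (isOpen_ball.mem_nhds h0r)).hasDerivAt
  have h3 : HasDerivAt (fun z : ℂ => (r : ℂ) * z) (r : ℂ) 0 := by
    simpa using (hasDerivAt_id (0:ℂ)).const_mul (r : ℂ)
  have h4 : deriv (fun z => g ((r : ℂ) * z)) 0 = deriv g 0 * r := (h2.comp (0:ℂ) h3).deriv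
  rw [h4, norm_mul, Complex.norm_real, Real.norm_of_nonneg hr.le] at h1
  simpa using h1

end Pool.Agent.Helper84.EK
end

/- Helper24.KR.H90.G2.Koebe -/
section
/-!
# G2-KOEBE: distortion

`F` is injective on the disk of radius `re u ≤ 3 < π` around `u`. Bieberbach's `|a_2| ≤ 2`
(`Pool.Agent.Helper84.EK.second_le_two`, see the namespace there) at every point `v` of the disk of
radius `re u / 2` around `u`, for the disk of radius `re u / 2` around `v`: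
`|F'' (v) / F' (v)| ≤ 4 / (re u / 2)`; integrate along the segment: `|log |F' u'| - log |F' u|| ≤ 4`,
`e^4 < 55`. (If you only get a slightly larger constant, tell helper90 before changing anything.)
-/

set_option autoImplicit false

namespace Pool.Agent.Helper90.G2

open MeasureTheory Set
open scoped Real

theorem kb_open : IsOpen {u : ℂ | 0 < u.re} := isOpen_lt continuous_const Complex.continuous_re

/-- the disk of radius at most `re u` and at most `π` -/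
theorem kb_sub {u : ℂ} {ρ : ℝ} (h1 : ρ ≤ u.re) (h2 : ρ ≤ π) :
    Metric.ball u ρ ⊆ {v : ℂ | 0 < v.re ∧ |v.im - u.im| < π} := by
  intro v hv
  rw [Metric.mem_ball, dist_eq_norm] at hv
  have h3 := Complex.abs_re_le_norm (v - u)
  have h4 := Complex.abs_im_le_norm (v - u)
  rw [Complex.sub_re] at h3
  rw [Complex.sub_im] at h4
  refine ⟨?_, by (clear * - h2 hv h4; linarith only [h2, hv, h4])⟩
  have h5 := (abs_le.1 h3).1
  (clear * - h1 hv h5; linarith only [h1, hv, h5])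

theorem Fn.dne {F : ℂ → ℂ} {A : ℝ} (hF : Fn F A) {u : ℂ} (hu : 0 < u.re) : deriv F u ≠ 0 := by
  have hρ : 0 < min u.re π := lt_min hu Real.pi_pos
  have hs := kb_sub (u := u) (min_le_left u.re π) (min_le_right u.re π)
  refine Pool.Agent.Helper24.Br.deriv_ne_of_inj (U := Metric.ball u (min u.re π))
    Metric.isOpen_ball (hF.diff.mono fun v hv => (hs hv).1) ((hF.inj u.im).mono hs) ?_
  exact Metric.mem_ball_self hρ

/-- Bieberbach's inequality at `v` -/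
theorem kb_two {F : ℂ → ℂ} {v : ℂ} {r : ℝ} (hr : 0 < r)
    (hd : DifferentiableOn ℂ F (Metric.ball v r)) (hi : InjOn F (Metric.ball v r))
    (hne : deriv F v ≠ 0) : ‖deriv (deriv F) v‖ ≤ 4 / r * ‖deriv F v‖ := by
  have hr0 : (r : ℂ) ≠ 0 := by exact_mod_cast hr.ne'
  have hmem : ∀ z ∈ Metric.ball (0 : ℂ) 1, v + r * z ∈ Metric.ball v r := by
    intro z hz
    rw [mem_ball_zero_iff] at hz
    rw [Metric.mem_ball, dist_eq_norm, add_sub_cancel_left, norm_mul, Complex.norm_real,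
      Real.norm_of_nonneg hr.le]
    nlinarith only [hr, hz]
  obtain ⟨f, hf⟩ : ∃ f : ℂ → ℂ, f = fun z => (F (v + r * z) - F v) / (r * deriv F v) :=
    ⟨_, rfl⟩
  have hden : (r : ℂ) * deriv F v ≠ 0 := mul_ne_zero hr0 hne
  have hlin : ∀ z : ℂ, HasDerivAt (fun z : ℂ => v + r * z) (r : ℂ) z := fun z => by
    simpa using ((hasDerivAt_id z).const_mul (r : ℂ)).const_add v
  have hder : ∀ z ∈ Metric.ball (0 : ℂ) 1,
      HasDerivAt f (deriv F (v + r * z) / deriv F v) z := by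
    intro z hz
    have h1 : HasDerivAt F (deriv F (v + r * z)) (v + r * z) :=
      (hd.differentiableAt (Metric.isOpen_ball.mem_nhds (hmem z hz))).hasDerivAt
    have h2 := ((h1.comp z (hlin z)).sub_const (F v)).div_const ((r : ℂ) * deriv F v)
    have h3 : deriv F (v + r * z) / deriv F v =
        deriv F (v + r * z) * r / (r * deriv F v) := by
      rw [mul_comm (deriv F (v + r * z)) (r : ℂ), mul_div_mul_left _ _ hr0]
    rw [hf, h3]
    exact h2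
  have hfd : DifferentiableOn ℂ f (Metric.ball 0 1) := fun z hz =>
    (hder z hz).differentiableAt.differentiableWithinAt
  have hfi : InjOn f (Metric.ball 0 1) := by
    intro z hz w hw h
    rw [hf] at h
    simp only at h
    rw [div_left_inj' hden, sub_left_inj] at h
    have h3 := hi (hmem z hz) (hmem w hw) h
    exact mul_left_cancel₀ hr0 (add_left_cancel h3)
  have h0b : (0 : ℂ) ∈ Metric.ball (0 : ℂ) 1 := Metric.mem_ball_self one_pos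
  have hf0 : f 0 = 0 := by
    rw [hf]
    simp
  have hf1 : deriv f 0 = 1 := by
    rw [(hder 0 h0b).deriv, mul_zero, add_zero, div_self hne]
  have h2 := Pool.Agent.Helper84.EK.second_le_two hfd hfi hf0 hf1
  have hdd : deriv (deriv f) 0 = r * deriv (deriv F) v / deriv F v := by
    have h3 : deriv f =ᶠ[nhds 0] fun z => deriv F (v + r * z) / deriv F v := by
      filter_upwards [Metric.ball_mem_nhds (0 : ℂ) one_pos] with z hz
      exact (hder z hz).deriv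
    rw [h3.deriv_eq]
    have h4 : DifferentiableAt ℂ (deriv F) v :=
      (hd.deriv Metric.isOpen_ball).differentiableAt (Metric.ball_mem_nhds v hr)
    have h5 : HasDerivAt (deriv F) (deriv (deriv F) v) (v + r * 0) := by
      rw [mul_zero, add_zero]
      exact h4.hasDerivAt
    have h6 := (h5.comp (0 : ℂ) (hlin 0)).div_const (deriv F v)
    have h7 : deriv (fun z => deriv F (v + r * z) / deriv F v) 0 =
        deriv (deriv F) v * r / deriv F v := h6.deriv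
    rw [h7]
    ring
  have hc : Pool.Agent.Helper22.Marshall.coeff f 2 = r * deriv (deriv F) v / deriv F v / 2 := by
    unfold Pool.Agent.Helper22.Marshall.coeff
    rw [iteratedDeriv_succ, iteratedDeriv_one, hdd]
    norm_num
    ring
  rw [hc, norm_div, norm_div, norm_mul, Complex.norm_real, Real.norm_of_nonneg hr.le] at h2
  have h8 : 0 < ‖deriv F v‖ := norm_pos_iff.2 hne
  have h9 : ‖(2 : ℂ)‖ = 2 := by simp
  rw [h9, div_div, div_le_iff₀ (by positivity)] at h2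
  rw [div_mul_eq_mul_div, le_div_iff₀ hr]
  (clear * - h2; linarith only [h2])

/-- integration along a segment -/
theorem kb_seg {F : ℂ → ℂ} {p p' : ℂ} {r : ℝ} (hr : 0 < r) (hpp : ‖p' - p‖ ≤ r)
    (hpos : ∀ t ∈ Icc (0 : ℝ) 1, 0 < (p + t * (p' - p)).re)
    (hd : DifferentiableOn ℂ F {u | 0 < u.re})
    (hb : ∀ t ∈ Icc (0 : ℝ) 1, ‖deriv (deriv F) (p + t * (p' - p))‖ ≤
      4 / r * ‖deriv F (p + t * (p' - p))‖) : ‖deriv F p'‖ ≤ 55 * ‖deriv F p‖ := by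
  have hlin : ∀ t : ℝ, HasDerivAt (fun t : ℝ => p + (t : ℂ) * (p' - p)) (p' - p) t := fun t => by
    have h1 := ((Complex.ofRealCLM.hasDerivAt (x := t)).mul_const (p' - p)).const_add p
    simpa using h1
  have hg : ∀ t ∈ Icc (0 : ℝ) 1, HasDerivAt (fun t : ℝ => deriv F (p + (t : ℂ) * (p' - p)))
      ((p' - p) * deriv (deriv F) (p + (t : ℂ) * (p' - p))) t := by
    intro t ht
    have h1 : DifferentiableAt ℂ (deriv F) (p + (t : ℂ) * (p' - p)) :=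
      (hd.deriv kb_open).differentiableAt (kb_open.mem_nhds (hpos t ht))
    have h2 := h1.hasDerivAt.scomp t (hlin t)
    simpa [smul_eq_mul, Function.comp_def] using h2
  have h1 := norm_le_gronwallBound_of_norm_deriv_right_le
    (f := fun t : ℝ => deriv F (p + (t : ℂ) * (p' - p)))
    (f' := fun t : ℝ => (p' - p) * deriv (deriv F) (p + (t : ℂ) * (p' - p)))
    (δ := ‖deriv F p‖) (K := 4) (ε := 0) (a := 0) (b := 1)
    (fun t ht => (hg t ht).continuousAt.continuousWithinAt)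
    (fun t ht => (hg t ⟨ht.1, ht.2.le⟩).hasDerivWithinAt)
    (by simp)
    (fun t ht => by
      have h2 := hb t ⟨ht.1, ht.2.le⟩
      rw [norm_mul, add_zero]
      calc ‖p' - p‖ * ‖deriv (deriv F) (p + t * (p' - p))‖
          ≤ r * (4 / r * ‖deriv F (p + t * (p' - p))‖) :=
            mul_le_mul hpp h2 (norm_nonneg _) hr.le
        _ = 4 * ‖deriv F (p + t * (p' - p))‖ := by
            (clear * - hr; field_simp))
    1 ⟨zero_le_one, le_refl 1⟩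
  rw [gronwallBound_ε0] at h1
  have h2 : p + ((1 : ℝ) : ℂ) * (p' - p) = p' := by
    push_cast
    ring
  simp only [h2] at h1
  have h3 : Real.exp (4 * (1 - 0)) ≤ 55 := by
    have h4 : Real.exp (4 * (1 - 0)) = Real.exp 1 ^ 4 := by
      rw [← Real.exp_nat_mul]
      norm_num
    rw [h4]
    have h5 := Real.exp_one_lt_d9
    calc Real.exp 1 ^ 4 ≤ 2.7182818286 ^ 4 :=
          pow_le_pow_left₀ (Real.exp_pos 1).le h5.le 4
      _ ≤ 55 := by norm_num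
  calc ‖deriv F p'‖ ≤ ‖deriv F p‖ * Real.exp (4 * (1 - 0)) := h1
    _ ≤ ‖deriv F p‖ * 55 := mul_le_mul_of_nonneg_left h3 (norm_nonneg _)
    _ = 55 * ‖deriv F p‖ := mul_comm _ _

theorem Fn.dist {F : ℂ → ℂ} {A : ℝ} (hF : Fn F A) {u u' : ℂ} (hu : 0 < u.re) (hu3 : u.re ≤ 3)
    (h : ‖u' - u‖ ≤ u.re / 2) :
    ‖deriv F u'‖ ≤ 55 * ‖deriv F u‖ ∧ ‖deriv F u‖ ≤ 55 * ‖deriv F u'‖ := by
  have hr : 0 < u.re / 2 := by (clear * - hu; linarith only [hu])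
  have hs := kb_sub (u := u) (le_refl u.re) (le_trans hu3 Real.pi_gt_three.le)
  have hre : ∀ v : ℂ, ‖v - u‖ ≤ u.re / 2 → 0 < v.re := by
    intro v hv
    have h1 := Complex.abs_re_le_norm (v - u)
    rw [Complex.sub_re] at h1
    have h2 := (abs_le.1 h1).1
    (clear * - hr hv h2; linarith only [hr, hv, h2])
  have hb : ∀ v : ℂ, ‖v - u‖ ≤ u.re / 2 →
      ‖deriv (deriv F) v‖ ≤ 4 / (u.re / 2) * ‖deriv F v‖ := by
    intro v hv
    have hsub : Metric.ball v (u.re / 2) ⊆ Metric.ball u u.re := by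
      intro w hw
      rw [Metric.mem_ball, dist_eq_norm] at hw ⊢
      have h1 : w - u = (w - v) + (v - u) := by ring
      rw [h1]
      exact lt_of_le_of_lt (norm_add_le _ _) (by linarith only [hv, hw])
    exact kb_two hr (hF.diff.mono fun w hw => (hs (hsub hw)).1)
      ((hF.inj u.im).mono (hsub.trans hs)) (hF.dne (hre v hv))
  have hn : ∀ t ∈ Icc (0 : ℝ) 1, ‖(t : ℂ) * (u' - u)‖ ≤ u.re / 2 := by
    intro t ht
    rw [norm_mul, Complex.norm_real, Real.norm_of_nonneg ht.1]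
    calc t * ‖u' - u‖ ≤ 1 * (u.re / 2) := mul_le_mul ht.2 h (norm_nonneg _) zero_le_one
      _ = u.re / 2 := one_mul _
  have hseg1 : ∀ t ∈ Icc (0 : ℝ) 1, ‖u + t * (u' - u) - u‖ ≤ u.re / 2 := by
    intro t ht
    rw [add_sub_cancel_left]
    exact hn t ht
  have hseg2 : ∀ t ∈ Icc (0 : ℝ) 1, ‖u' + t * (u - u') - u‖ ≤ u.re / 2 := by
    intro t ht
    have h1 : u' + t * (u - u') - u = ((1 - t : ℝ) : ℂ) * (u' - u) := by
      push_cast
      ring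
    rw [h1]
    exact hn (1 - t) ⟨by (clear * - ht; linarith only [ht.2]), by linarith only [ht.1]⟩
  refine ⟨kb_seg hr h (fun t ht => hre _ (hseg1 t ht)) hF.diff
    (fun t ht => hb _ (hseg1 t ht)), ?_⟩
  rw [norm_sub_rev] at h
  exact kb_seg hr h (fun t ht => hre _ (hseg2 t ht)) hF.diff (fun t ht => hb _ (hseg2 t ht))

end Pool.Agent.Helper90.G2
end

/- Helper24.KR.H90.G2.Low -/
section
/-!
# G2-LOW: bounds of `V`

`V_lower`: the disk of radius `ℓ / 16` around `15 ℓ / 16 + i c` lies in the box; there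
`|F u - F (zt)| ≤ (ℓ / 8) 55 |F' (zt)|` (`Fn.dist` at `zt` along the segment) and the area of its image is at
least `π (ℓ / 16)^2 (|F' (zt)| / 55)^2` (`Fn.area_ball`, `Fn.dist`). So
`V ≥ π / (16 * 55)^2 * (55 / 8)^(-δ) * (ℓ |F'|)^(2 - δ)` (`vp_mono`, `vp_lower`), and
`π / 774400 * (55/8)^(-1/4) ≥ 1 / 500000`. `V_upper`: `vp_upper`.
-/

set_option autoImplicit false

namespace Pool.Agent.Helper90.G2

open MeasureTheory Set
open scoped Real

variable {F : ℂ → ℂ} {A : ℝ}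

private theorem low_strip {c ℓ : ℝ} (hℓ1 : ℓ ≤ 1) :
    Bx c ℓ ⊆ {u | 0 < u.re ∧ |u.im - c| < π} := by
  intro u hu
  refine ⟨hu.1, hu.2.2.trans ?_⟩
  have := Real.pi_gt_three
  linarith only [hℓ1, this]

private theorem low_meas (hF : Fn F A) {c ℓ : ℝ} (hℓ1 : ℓ ≤ 1) : MeasurableSet (F '' Bx c ℓ) :=
  hF.meas (meas_bx c ℓ) (low_strip hℓ1)

/-- the disk in the upper part of the box -/
private theorem low_ball {c ℓ : ℝ} :
    Metric.ball (⟨15 / 16 * ℓ, c⟩ : ℂ) (ℓ / 16) ⊆ Bx c ℓ := by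
  intro w hw
  rw [Metric.mem_ball, dist_eq_norm] at hw
  have h3 := (Complex.abs_re_le_norm (w - ⟨15 / 16 * ℓ, c⟩)).trans_lt hw
  have h4 := (Complex.abs_im_le_norm (w - ⟨15 / 16 * ℓ, c⟩)).trans_lt hw
  rw [Complex.sub_re] at h3
  rw [Complex.sub_im] at h4
  have h5 := abs_lt.1 h3
  have h6 : 0 < ℓ := by
    have := norm_nonneg (w - ⟨15 / 16 * ℓ, c⟩)
    linarith only [h5]
  refine ⟨?_, ?_, ?_⟩
  · have := h5.1
    simp only at this
    linarith only [h5]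
  · have := h5.2
    simp only at this
    linarith only [this]
  · exact h4.trans (by linarith only [h6])

private theorem low_near {c ℓ : ℝ} {w : ℂ}
    (hw : w ∈ Metric.ball (⟨15 / 16 * ℓ, c⟩ : ℂ) (ℓ / 16)) (hℓ : 0 < ℓ) :
    ‖w - zt c ℓ‖ ≤ ℓ / 8 := by
  rw [Metric.mem_ball, dist_eq_norm] at hw
  have h1 : (⟨15 / 16 * ℓ, c⟩ : ℂ) - zt c ℓ = ((-(ℓ / 16) : ℝ) : ℂ) := by
    apply Complex.ext
    · simp only [zt, Complex.sub_re, Complex.ofReal_re]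
      ring
    · simp only [zt, Complex.sub_im, Complex.ofReal_im]
      ring
  have h2 : w - zt c ℓ = (w - ⟨15 / 16 * ℓ, c⟩) + (⟨15 / 16 * ℓ, c⟩ - zt c ℓ) := by ring
  rw [h2]
  refine (norm_add_le _ _).trans ?_
  rw [h1, Complex.norm_real, norm_neg, Real.norm_of_nonneg (by (clear * - hℓ; positivity))]
  (clear * - hw; linarith only [hw])

private theorem low_mvt (hF : Fn F A) {c ℓ : ℝ} (hℓ : 0 < ℓ) (hℓ1 : ℓ ≤ 1) {w : ℂ}
    (hw : ‖w - zt c ℓ‖ ≤ ℓ / 8) :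
    ‖F w - F (zt c ℓ)‖ ≤ 55 / 8 * (ℓ * ‖deriv F (zt c ℓ)‖) := by
  have hre : (zt c ℓ).re = ℓ := rfl
  have hs : ∀ v ∈ Metric.closedBall (zt c ℓ) (ℓ / 8), 0 < v.re ∧ ‖v - zt c ℓ‖ ≤ ℓ / 2 := by
    intro v hv
    rw [mem_closedBall_iff_norm] at hv
    have h1 := (abs_le.1 ((Complex.abs_re_le_norm (v - zt c ℓ)).trans hv)).1
    rw [Complex.sub_re, hre] at h1
    exact ⟨by linarith only [hℓ, h1], by (clear * - hℓ hv; linarith only [hℓ, hv])⟩
  have h2 := Convex.norm_image_sub_le_of_norm_deriv_le (f := F) (C := 55 * ‖deriv F (zt c ℓ)‖)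
    (s := Metric.closedBall (zt c ℓ) (ℓ / 8)) (x := zt c ℓ) (y := w)
    (fun v hv => hF.diff.differentiableAt (area_isOpen_rp.mem_nhds (hs v hv).1))
    (fun v hv => (hF.dist (u := zt c ℓ) (u' := v) (by rw [hre]; exact hℓ)
      (by rw [hre]; (clear * - hℓ1; linarith only [hℓ1])) (by rw [hre]; exact (hs v hv).2)).1)
    (convex_closedBall _ _) (Metric.mem_closedBall_self (by (clear * - hℓ; positivity)))
    (by rw [mem_closedBall_iff_norm]; exact hw)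
  refine h2.trans ?_
  calc 55 * ‖deriv F (zt c ℓ)‖ * ‖w - zt c ℓ‖ ≤ 55 * ‖deriv F (zt c ℓ)‖ * (ℓ / 8) :=
        mul_le_mul_of_nonneg_left hw (by (clear * -; positivity))
    _ = 55 / 8 * (ℓ * ‖deriv F (zt c ℓ)‖) := by ring

private theorem low_num {δ x a : ℝ} (h0 : 0 < δ) (h1 : δ ≤ 1 / 4) (hx : 0 < x)
    (ha : π / 774400 * x ^ 2 ≤ a) :
    1 / 500000 * x ^ (2 - δ) ≤ a * (55 / 8 * x) ^ (-δ) := by
  have e1 : (55 / 8 * x) ^ (-δ) = (55 / 8 : ℝ) ^ (-δ) * x ^ (-δ) :=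
    Real.mul_rpow (by norm_num) hx.le
  have e2 : x ^ (2 - δ) = x ^ 2 * x ^ (-δ) := by
    rw [sub_eq_add_neg, Real.rpow_add hx, Real.rpow_two]
  have e3 : (3 / 5 : ℝ) ≤ (55 / 8 : ℝ) ^ (-δ) := by
    rw [Real.rpow_neg (by norm_num)]
    have e4 : (55 / 8 : ℝ) ^ δ ≤ 5 / 3 := by
      have e5 : (55 / 8 : ℝ) ^ δ ≤ (55 / 8 : ℝ) ^ (1 / 4 : ℝ) :=
        Real.rpow_le_rpow_of_exponent_le (by norm_num) h1
      have e6 : (55 / 8 : ℝ) ^ (1 / 4 : ℝ) ≤ ((5 / 3 : ℝ) ^ (4 : ℝ)) ^ (1 / 4 : ℝ) := by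
        apply Real.rpow_le_rpow (by norm_num) _ (by norm_num)
        have : (5 / 3 : ℝ) ^ (4 : ℝ) = (5 / 3 : ℝ) ^ (4 : ℕ) := by
          rw [← Real.rpow_natCast]
          norm_num
        rw [this]
        norm_num
      rw [← Real.rpow_mul (by norm_num)] at e6
      have e7 : (4 : ℝ) * (1 / 4) = 1 := by norm_num
      rw [e7, Real.rpow_one] at e6
      exact e5.trans e6
    have e8 : 0 < (55 / 8 : ℝ) ^ δ := Real.rpow_pos_of_pos (by norm_num) _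
    rw [le_inv_comm₀ (by norm_num) e8]
    calc (55 / 8 : ℝ) ^ δ ≤ 5 / 3 := e4
      _ = (3 / 5 : ℝ)⁻¹ := by norm_num
  have hxd : 0 < x ^ (-δ) := Real.rpow_pos_of_pos hx _
  have hx2 : 0 < x ^ 2 := by (clear * - hx; positivity)
  have hπ := Real.pi_gt_d2
  rw [e1, e2]
  calc 1 / 500000 * (x ^ 2 * x ^ (-δ)) ≤ π / 774400 * (3 / 5) * (x ^ 2 * x ^ (-δ)) := by
        apply mul_le_mul_of_nonneg_right _ (by (clear * - hx; positivity))
        linarith only [hπ]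
    _ = π / 774400 * x ^ 2 * (3 / 5 * x ^ (-δ)) := by ring
    _ ≤ a * ((55 / 8 : ℝ) ^ (-δ) * x ^ (-δ)) := by
        apply mul_le_mul ha _ (by (clear * - hx; positivity)) (le_trans (by positivity) ha)
        exact mul_le_mul_of_nonneg_right e3 hxd.le

theorem Fn.V_lower (hF : Fn F A) {δ c ℓ : ℝ} (h0 : 0 < δ) (h1 : δ ≤ 1 / 4) (hℓ : 0 < ℓ)
    (hℓ1 : ℓ ≤ 1) :
    1 / 500000 * (ℓ * ‖deriv F (zt c ℓ)‖) ^ (2 - δ) ≤ V F δ c ℓ := by
  have hre : (zt c ℓ).re = ℓ := rfl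
  have hd : 0 < ‖deriv F (zt c ℓ)‖ := norm_pos_iff.2 (hF.dne (u := zt c ℓ) (by rw [hre]; exact hℓ))
  have hx : 0 < ℓ * ‖deriv F (zt c ℓ)‖ := mul_pos hℓ hd
  obtain ⟨u0, hu0⟩ : ∃ u0 : ℂ, u0 = ⟨15 / 16 * ℓ, c⟩ := ⟨_, rfl⟩
  have hu0r : u0.re = 15 / 16 * ℓ := by rw [hu0]
  have hsub : Metric.ball u0 (ℓ / 16) ⊆ Bx c ℓ := by
    rw [hu0]
    exact low_ball
  have hfinB : volume (F '' Metric.ball u0 (ℓ / 16)) < ⊤ := hF.fin hℓ1 hsub
  have hfin : volume (F '' Bx c ℓ) < ⊤ := hF.fin hℓ1 (subset_refl _)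
  have hmeasB : MeasurableSet (F '' Metric.ball u0 (ℓ / 16)) :=
    hF.meas Metric.isOpen_ball.measurableSet (hsub.trans (low_strip hℓ1))
  have harea := hF.area_ball (u := u0) (r := ℓ / 16) (by (clear * - hℓ; positivity)) (by rw [hu0r]; linarith only [hℓ])
    (by rw [hu0r]; (clear * - hℓ1; linarith only [hℓ1])) hfinB
  have hdist := (hF.dist (u := zt c ℓ) (u' := u0) (by rw [hre]; exact hℓ)
    (by rw [hre]; linarith only [hℓ1]) (by
      rw [hre]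
      have h3 := low_near (c := c) (ℓ := ℓ) (w := u0) (by
        rw [hu0]
        exact Metric.mem_ball_self (by (clear * - hℓ; positivity))) hℓ
      linarith only [hℓ, h3])).2
  have hsq : ‖deriv F (zt c ℓ)‖ ^ 2 ≤ 3025 * ‖deriv F u0‖ ^ 2 := by
    calc ‖deriv F (zt c ℓ)‖ ^ 2 ≤ (55 * ‖deriv F u0‖) ^ 2 := pow_le_pow_left₀ hd.le hdist 2
      _ = 3025 * ‖deriv F u0‖ ^ 2 := by ring
  have ha : π / 774400 * (ℓ * ‖deriv F (zt c ℓ)‖) ^ 2 ≤
      (volume (F '' Metric.ball u0 (ℓ / 16))).toReal := by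
    refine le_trans ?_ harea
    calc π / 774400 * (ℓ * ‖deriv F (zt c ℓ)‖) ^ 2
        = π * (ℓ / 16) ^ 2 * (‖deriv F (zt c ℓ)‖ ^ 2 / 3025) := by ring
      _ ≤ π * (ℓ / 16) ^ 2 * ‖deriv F u0‖ ^ 2 := by
          apply mul_le_mul_of_nonneg_left _ (by positivity)
          rw [div_le_iff₀ (by norm_num)]
          linarith only [hsq]
  refine (low_num h0 h1 hx ha).trans ?_
  unfold V
  refine (vp_lower h0 (by (clear * - h1; linarith only [h1])) hmeasB hfinB (F (zt c ℓ)) (by positivity) ?_).trans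
    (vp_mono h0 (by linarith only [h1]) (low_meas hF hℓ1) hfin (image_mono hsub) _)
  rintro _ ⟨w, hw, rfl⟩
  rw [hu0] at hw
  exact low_mvt hF hℓ hℓ1 (low_near hw hℓ)

theorem Fn.V_upper (hF : Fn F A) (hA : 0 ≤ A) {δ c ℓ : ℝ} (h0 : 0 < δ) (h1 : δ ≤ 1 / 4)
    (hℓ : 0 < ℓ) (hℓ1 : ℓ ≤ 1) : V F δ c ℓ ≤ A + 7 := by
  have hfin : volume (F '' Bx c ℓ) < ⊤ := hF.fin hℓ1 (subset_refl _)
  have h2 := vp_upper h0 (by (clear * - h1; linarith only [h1])) (low_meas hF hℓ1) hfin (F (zt c ℓ))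
  have h3 : volume (F '' Bx c ℓ) ≤ ENNReal.ofReal A := by
    refine (measure_mono (image_mono ?_)).trans (hF.area c)
    intro u hu
    exact ⟨hu.1, hu.2.1.trans_le hℓ1, hu.2.2.trans_le (by (clear * - hℓ1; linarith only [hℓ1]))⟩
  have h4 : (volume (F '' Bx c ℓ)).toReal ≤ A := by
    have h5 := ENNReal.toReal_mono ENNReal.ofReal_ne_top h3
    rwa [ENNReal.toReal_ofReal hA] at h5
  unfold V
  linarith only [h2, h4]

end Pool.Agent.Helper90.G2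
end

/- Helper24.KR.H90.G2.Avg -/
section
/-!
# G2-AVG: averaging over translations

`words` for `f c ℓ = V F δ c ℓ ^ (1 + θ)` at `ℓ = 1`, `c = ξ`, `Fn.V_lower` for each term,
`Fn.V_upper` on the right; integrate over `ξ` in `[0, 2π]`. `ch (N^K) ξ 1 d = ξ + const`, and
`ξ ↦ ‖F' (N^(-K) + i ξ)‖` has period `2π`, so every term has the same integral
(`Function.Periodic.intervalIntegral_add_eq`). `sum_chK`, `sum_chi_ge`.

`Fn.avg_core` is the version for one level.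
-/

set_option autoImplicit false

namespace Pool.Agent.Helper90.G2

open MeasureTheory Set
open scoped Real

variable {F : ℂ → ℂ} {A : ℝ}

theorem Fn.per_deriv (hF : Fn F A) {y : ℝ} (hy : 0 < y) :
    Function.Periodic (fun ξ : ℝ => deriv F ⟨y, ξ⟩) (2 * π) := by
  intro ξ
  have h1 : (⟨y, ξ + 2 * π⟩ : ℂ) = ⟨y, ξ⟩ + 2 * π * Complex.I := by
    apply Complex.ext <;> simp
  show deriv F ⟨y, ξ + 2 * π⟩ = deriv F ⟨y, ξ⟩
  rw [h1, ← deriv_comp_add_const]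
  apply Filter.EventuallyEq.deriv_eq
  have h2 : {u : ℂ | 0 < u.re} ∈ nhds (⟨y, ξ⟩ : ℂ) :=
    (isOpen_lt continuous_const Complex.continuous_re).mem_nhds hy
  filter_upwards [h2] with u hu
  exact hF.per u hu

theorem Avg_cont (hF : Fn F A) {y p : ℝ} (hy : 0 < y) (hp : 0 ≤ p) :
    Continuous fun ξ : ℝ => ‖deriv F ⟨y, ξ⟩‖ ^ p := by
  have h1 : ContinuousOn (deriv F) {u : ℂ | 0 < u.re} :=
    (hF.diff.deriv (isOpen_lt continuous_const Complex.continuous_re)).continuousOn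
  have h2 : Continuous fun ξ : ℝ => (⟨y, ξ⟩ : ℂ) := by
    have h : (fun ξ : ℝ => (⟨y, ξ⟩ : ℂ)) = fun ξ : ℝ => (y : ℂ) + (ξ : ℂ) * Complex.I := by
      funext ξ
      apply Complex.ext <;> simp
    rw [h]
    fun_prop
  have h3 : Continuous fun ξ : ℝ => deriv F ⟨y, ξ⟩ := h1.comp_continuous h2 fun ξ => hy
  exact h3.norm.rpow_const fun _ => Or.inr hp

/-- the integral of a translate -/
theorem Avg_shift (hF : Fn F A) {y p : ℝ} (hy : 0 < y) (s : ℝ) :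
    ∫ ξ in (0:ℝ)..(2 * π), ‖deriv F ⟨y, ξ + s⟩‖ ^ p =
      ∫ ξ in (0:ℝ)..(2 * π), ‖deriv F ⟨y, ξ⟩‖ ^ p := by
  have hper : Function.Periodic (fun ξ : ℝ => ‖deriv F ⟨y, ξ⟩‖ ^ p) (2 * π) := by
    intro ξ
    have h := hF.per_deriv hy ξ
    show ‖deriv F ⟨y, ξ + 2 * π⟩‖ ^ p = ‖deriv F ⟨y, ξ⟩‖ ^ p
    have h' : deriv F ⟨y, ξ + 2 * π⟩ = deriv F ⟨y, ξ⟩ := h
    rw [h']
  rw [intervalIntegral.integral_comp_add_right (fun ξ : ℝ => ‖deriv F ⟨y, ξ⟩‖ ^ p) s]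
  have h := hper.intervalIntegral_add_eq (0 + s) 0
  rw [zero_add] at h
  rw [zero_add, add_comm (2 * π) s, h]
  simp

theorem Avg_exp {x : ℝ} (hx : 0 ≤ x) (hx1 : x ≤ 1 / 2) : Real.exp (-(2 * x)) ≤ 1 - x := by
  have h1 : Real.exp (-(2 * x)) = (Real.exp (2 * x))⁻¹ := Real.exp_neg _
  have h2 : 2 * x + 1 ≤ Real.exp (2 * x) := Real.add_one_le_exp _
  have h3 : 0 < 1 - x := by (clear * - hx1; linarith)
  rw [h1, inv_le_comm₀ (Real.exp_pos _) h3]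
  refine le_trans ?_ h2
  rw [inv_le_iff_one_le_mul₀ h3]
  (clear * - hx hx1; nlinarith only [hx, hx1])

/-- one level -/
theorem Fn.avg_core (hF : Fn F A) (hA : 0 ≤ A) {δ q κ c' G' : ℝ} {N : ℕ} (h0 : 0 < δ)
    (h1 : δ ≤ 1 / 4) (hq : 1 ≤ q) (hq1 : q ≤ 2) (hκ : 0 < κ) (hκ1 : κ ≤ 1 / 4) (hc : 0 ≤ c')
    (hc1 : 3 * κ * c' ≤ 1 / 2) (hN : 2 ≤ κ * N) (hG : 0 ≤ G') {J : ℕ}
    (h : ∀ ξ : ℝ, ∑ d ∈ Finset.range (N ^ J), chK κ c' N J d *
        V F δ (ch (N ^ J) ξ 1 d) (1 / ((N ^ J : ℕ) : ℝ)) ^ q ≤ G' * V F δ ξ 1 ^ q) :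
    ∫ ξ in (0:ℝ)..(2 * π), ‖deriv F ⟨((N ^ J : ℕ) : ℝ)⁻¹, ξ⟩‖ ^ ((2 - δ) * q) ≤
      2 * π * 500000 ^ 2 * (A + 7) ^ 2 *
        (G' * ((N ^ J : ℕ) : ℝ) ^ ((2 - δ) * q - 1) * Real.exp (6 * κ * c' * J)) := by
  have hN0 : 0 < N := by
    rcases Nat.eq_zero_or_pos N with h | h
    · rw [h] at hN
      norm_num at hN
    · exact h
  obtain ⟨m, hm⟩ : ∃ m : ℝ, m = ((N ^ J : ℕ) : ℝ) := ⟨_, rfl⟩
  have hm1 : 1 ≤ m := by
    rw [hm]
    exact_mod_cast Nat.one_le_pow _ _ hN0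
  have hm0 : 0 < m := by linarith only [hm1]
  obtain ⟨p, hp⟩ : ∃ p : ℝ, p = (2 - δ) * q := ⟨_, rfl⟩
  have hp0 : 0 ≤ p := by
    rw [hp]
    exact mul_nonneg (by (clear * - h1; linarith only [h1])) (by linarith only [hq])
  rw [← hp, ← hm]
  obtain ⟨I, hI⟩ : ∃ I : ℝ, I = ∫ ξ in (0:ℝ)..(2 * π), ‖deriv F ⟨m⁻¹, ξ⟩‖ ^ p := ⟨_, rfl⟩
  rw [← hI]
  have hmi : 0 < m⁻¹ := by (clear * - hm1; positivity)
  have hmi1 : m⁻¹ ≤ 1 := inv_le_one_of_one_le₀ hm1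
  -- pointwise
  have hpt : ∀ ξ : ℝ, ∑ d ∈ Finset.range (N ^ J), chK κ c' N J d *
      ‖deriv F ⟨m⁻¹, ξ + (((d : ℝ) + 1 / 2) / m - 1 / 2)⟩‖ ^ p ≤
        500000 ^ 2 * (A + 7) ^ 2 * G' * m ^ p := by
    intro ξ
    have hlow : ∀ d ∈ Finset.range (N ^ J), chK κ c' N J d *
        (1 / (500000 ^ 2 * m ^ p) * ‖deriv F ⟨m⁻¹, ξ + (((d : ℝ) + 1 / 2) / m - 1 / 2)⟩‖ ^ p) ≤
        chK κ c' N J d * V F δ (ch (N ^ J) ξ 1 d) (1 / ((N ^ J : ℕ) : ℝ)) ^ q := by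
      intro d _
      refine mul_le_mul_of_nonneg_left ?_ (chK_nonneg _ _ _ _ _)
      have e1 : ch (N ^ J) ξ 1 d = ξ + (((d : ℝ) + 1 / 2) / m - 1 / 2) := by
        unfold ch
        rw [← hm, mul_one]
      rw [e1, ← hm, one_div m]
      have h2 := hF.V_lower (c := ξ + (((d : ℝ) + 1 / 2) / m - 1 / 2)) h0 h1 hmi hmi1
      have e2 : zt (ξ + (((d : ℝ) + 1 / 2) / m - 1 / 2)) m⁻¹ =
          ⟨m⁻¹, ξ + (((d : ℝ) + 1 / 2) / m - 1 / 2)⟩ := rfl
      rw [e2] at h2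
      obtain ⟨D, hD⟩ : ∃ D : ℝ, D = ‖deriv F ⟨m⁻¹, ξ + (((d : ℝ) + 1 / 2) / m - 1 / 2)⟩‖ :=
        ⟨_, rfl⟩
      have hD0 : 0 ≤ D := by
        rw [hD]
        exact norm_nonneg _
      rw [← hD] at h2 ⊢
      have h3 : (1 / 500000 * (m⁻¹ * D) ^ (2 - δ)) ^ q ≤
          V F δ (ξ + (((d : ℝ) + 1 / 2) / m - 1 / 2)) m⁻¹ ^ q :=
        Real.rpow_le_rpow (by (clear * - hm1 hD0; positivity)) h2 (by (clear * - hq; linarith only [hq]))
      refine le_trans ?_ h3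
      have e3 : (1 / 500000 * (m⁻¹ * D) ^ (2 - δ)) ^ q =
          (1 / 500000 : ℝ) ^ q * ((m ^ p)⁻¹ * D ^ p) := by
        rw [Real.mul_rpow (by positivity) (by (clear * - hm1 hD0; positivity)), ← Real.rpow_mul (by (clear * - hm1 hD0; positivity)), ← hp,
          Real.mul_rpow hmi.le hD0, Real.inv_rpow hm0.le]
      have h4 : (1 / 500000 : ℝ) ^ (2 : ℝ) ≤ (1 / 500000 : ℝ) ^ q :=
        Real.rpow_le_rpow_of_exponent_ge (by norm_num) (by norm_num) hq1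
      rw [Real.rpow_two] at h4
      have h5 : 0 ≤ (m ^ p)⁻¹ * D ^ p := by (clear * - hm1 hD0; positivity)
      rw [e3]
      calc 1 / (500000 ^ 2 * m ^ p) * D ^ p = (1 / 500000) ^ 2 * ((m ^ p)⁻¹ * D ^ p) := by
            (clear * - hm1; field_simp)
        _ ≤ (1 / 500000 : ℝ) ^ q * ((m ^ p)⁻¹ * D ^ p) := mul_le_mul_of_nonneg_right h4 h5
    have hup : V F δ ξ 1 ^ q ≤ (A + 7) ^ 2 := by
      have h2 := hF.V_upper hA (c := ξ) h0 h1 one_pos le_rfl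
      have h3 : 0 ≤ V F δ ξ 1 := by
        have h4 := hF.V_lower (c := ξ) h0 h1 one_pos le_rfl
        refine le_trans ?_ h4
        (clear * -; positivity)
      calc V F δ ξ 1 ^ q ≤ (A + 7) ^ q := Real.rpow_le_rpow h3 h2 (by linarith only [hq])
        _ ≤ (A + 7) ^ (2 : ℝ) := Real.rpow_le_rpow_of_exponent_le (by linarith only [hA]) hq1
        _ = (A + 7) ^ 2 := Real.rpow_two _
    have h6 := (Finset.sum_le_sum hlow).trans ((h ξ).trans (mul_le_mul_of_nonneg_left hup hG))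
    have e4 : ∑ d ∈ Finset.range (N ^ J), chK κ c' N J d *
        (1 / (500000 ^ 2 * m ^ p) * ‖deriv F ⟨m⁻¹, ξ + (((d : ℝ) + 1 / 2) / m - 1 / 2)⟩‖ ^ p) =
        1 / (500000 ^ 2 * m ^ p) * ∑ d ∈ Finset.range (N ^ J), chK κ c' N J d *
          ‖deriv F ⟨m⁻¹, ξ + (((d : ℝ) + 1 / 2) / m - 1 / 2)⟩‖ ^ p := by
      rw [Finset.mul_sum]
      exact Finset.sum_congr rfl fun d _ => by ring
    rw [e4] at h6
    have hmp : 0 < m ^ p := Real.rpow_pos_of_pos hm0 p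
    rw [one_div, inv_mul_le_iff₀ (by (clear * - hm1; positivity))] at h6
    linarith only [h6]
  -- the integral
  have hcont : ∀ d : ℕ, Continuous fun ξ : ℝ =>
      ‖deriv F ⟨m⁻¹, ξ + (((d : ℝ) + 1 / 2) / m - 1 / 2)⟩‖ ^ p := fun d =>
    (Avg_cont hF hmi hp0).comp (continuous_id.add continuous_const)
  have hint : ∫ ξ in (0:ℝ)..(2 * π), ∑ d ∈ Finset.range (N ^ J), chK κ c' N J d *
      ‖deriv F ⟨m⁻¹, ξ + (((d : ℝ) + 1 / 2) / m - 1 / 2)⟩‖ ^ p =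
        (∑ d ∈ Finset.range (N ^ J), chK κ c' N J d) * I := by
    rw [intervalIntegral.integral_finsetSum fun d _ =>
      ((hcont d).const_mul _).intervalIntegrable _ _, Finset.sum_mul]
    refine Finset.sum_congr rfl fun d _ => ?_
    rw [intervalIntegral.integral_const_mul, Avg_shift hF hmi, hI]
  have hle : (∑ d ∈ Finset.range (N ^ J), chK κ c' N J d) * I ≤
      2 * π * (500000 ^ 2 * (A + 7) ^ 2 * G' * m ^ p) := by
    rw [← hint]
    have h7 : ∫ ξ in (0:ℝ)..(2 * π), ∑ d ∈ Finset.range (N ^ J), chK κ c' N J d *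
        ‖deriv F ⟨m⁻¹, ξ + (((d : ℝ) + 1 / 2) / m - 1 / 2)⟩‖ ^ p ≤
        ∫ _ in (0:ℝ)..(2 * π), (500000 ^ 2 * (A + 7) ^ 2 * G' * m ^ p) := by
      apply intervalIntegral.integral_mono_on (by positivity)
      · exact (continuous_finsetSum _ fun d _ => (hcont d).const_mul _).intervalIntegrable _ _
      · exact continuous_const.intervalIntegrable _ _
      · exact fun ξ _ => hpt ξ
    refine h7.trans (le_of_eq ?_)
    rw [intervalIntegral.integral_const, smul_eq_mul, sub_zero]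
  have hI0 : 0 ≤ I := by
    rw [hI]
    apply intervalIntegral.integral_nonneg (by positivity)
    intro ξ _
    (clear * -; positivity)
  have hsum : m * Real.exp (-(6 * κ * c' * J)) ≤ ∑ d ∈ Finset.range (N ^ J), chK κ c' N J d := by
    rw [sum_chK κ c' hN0 J]
    have hx0 : 0 ≤ 3 * κ * c' := by (clear * - hκ hc; positivity)
    have h8 := Avg_exp hx0 hc1
    have h9 : (N : ℝ) * Real.exp (-(2 * (3 * κ * c'))) ≤
        ∑ e ∈ Finset.range N, chi κ c' N e :=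
      (mul_le_mul_of_nonneg_left h8 (Nat.cast_nonneg N)).trans (sum_chi_ge hκ hκ1 hc hN)
    have h10 := pow_le_pow_left₀ (by positivity) h9 J
    refine le_trans (le_of_eq ?_) h10
    rw [mul_pow, ← Real.exp_nat_mul, hm]
    push_cast
    congr 2
    ring
  have h11 := (mul_le_mul_of_nonneg_right hsum hI0).trans hle
  have hE : Real.exp (-(6 * κ * c' * J)) * Real.exp (6 * κ * c' * J) = 1 := by
    rw [← Real.exp_add]
    simp
  have h12 : m ^ p = m ^ (p - 1) * m := by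
    rw [Real.rpow_sub hm0, Real.rpow_one]
    (clear * - hm1; field_simp)
  have h13 := mul_le_mul_of_nonneg_right h11 (Real.exp_pos (6 * κ * c' * J)).le
  rw [h12] at h13
  have h14 : m * I ≤ m * (2 * π * 500000 ^ 2 * (A + 7) ^ 2 *
      (G' * m ^ (p - 1) * Real.exp (6 * κ * c' * J))) := by
    calc m * I = m * Real.exp (-(6 * κ * c' * J)) * I * Real.exp (6 * κ * c' * J) := by
          rw [show m * Real.exp (-(6 * κ * c' * J)) * I * Real.exp (6 * κ * c' * J) =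
            m * I * (Real.exp (-(6 * κ * c' * J)) * Real.exp (6 * κ * c' * J)) by ring, hE,
            mul_one]
      _ ≤ _ := h13
      _ = _ := by ring
  exact le_of_mul_le_mul_left h14 hm0

theorem Fn.avg (hF : Fn F A) (hA : 0 ≤ A) {δ θ κ c' G : ℝ} {N : ℕ} (h0 : 0 < δ) (h1 : δ ≤ 1 / 4)
    (hθ : 0 ≤ θ) (hθ1 : θ ≤ 1) (hκ : 0 < κ) (hκ1 : κ ≤ 1 / 4) (hc : 0 ≤ c')
    (hc1 : 3 * κ * c' ≤ 1 / 2) (hN : 2 ≤ κ * N) (hG : 0 ≤ G)
    (h : ∀ c ℓ : ℝ, 0 < ℓ → ℓ ≤ 1 →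
      ∑ d ∈ Finset.range N, chi κ c' N d * V F δ (ch N c ℓ d) (ℓ / N) ^ (1 + θ) ≤
        G * V F δ c ℓ ^ (1 + θ)) (K : ℕ) :
    ∫ ξ in (0:ℝ)..(2 * π), ‖deriv F ⟨((N ^ K : ℕ) : ℝ)⁻¹, ξ⟩‖ ^ ((2 - δ) * (1 + θ)) ≤
      2 * π * 500000 ^ 2 * (A + 7) ^ 2 *
        (G ^ K * ((N ^ K : ℕ) : ℝ) ^ ((2 - δ) * (1 + θ) - 1) * Real.exp (6 * κ * c' * K)) := by
  have hN0 : 1 ≤ N := by
    rcases Nat.eq_zero_or_pos N with h | h
    · rw [h] at hN
      norm_num at hN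
    · exact h
  exact hF.avg_core hA h0 h1 (by linarith only [hθ]) (by (clear * - hθ1; linarith only [hθ1])) hκ hκ1 hc hc1 hN (pow_nonneg hG K)
    fun ξ => words (f := fun c ℓ => V F δ c ℓ ^ (1 + θ)) hN0 hG h K ξ 1 one_pos le_rfl

end Pool.Agent.Helper90.G2
end

/- Helper24.KR.H90.G2.Local -/
section
/-!
# G2-LOCAL: the derivative in a window is controlled by the area of the image of the window

`x = re u`. Choose `u'` with `re u' = 17 x / 16` if `x ≤ 3 ℓ / 4`, `re u' = 15 x / 16` otherwise, and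
`im u' = im u ∓ x / 16` (towards `c`). The disk of radius `x / 16` around `u'` lies in `Wn c ℓ q`, so
`π (x / 16)^2 |F' u'|^2 ≤ ar F (Wn c ℓ q)`, and `|F' u| ≤ 55 |F' u'|`:
`|F' u| x ≤ 55 * 16 / √π √ar ≤ 500 √ar`.
-/

set_option autoImplicit false

namespace Pool.Agent.Helper90.G2

open MeasureTheory Set
open scoped Real

variable {F : ℂ → ℂ} {A : ℝ}

theorem local_wn_sub_bx {c ℓ q : ℝ} (hℓ : 0 < ℓ) (hq : 0 < q) : Wn c ℓ q ⊆ Bx c ℓ := by
  intro w hw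
  obtain ⟨h1, h2, h3⟩ := hw
  exact ⟨lt_trans (mul_pos hq hℓ) h1, h2, h3⟩

/-- a disk of radius `x / 16` inside the window, close to a given point of the window -/
theorem local_exists_disk {c ℓ q : ℝ} (hℓ : 0 < ℓ) (hq : 0 < q) (hq1 : q ≤ 1 / 2)
    {u : ℂ} (h1 : q * ℓ ≤ u.re) (h2 : u.re ≤ ℓ) (h3 : |u.im - c| ≤ ℓ / 2) :
    ∃ v : ℂ, ‖v - u‖ ≤ u.re / 2 ∧ u.re / 16 ≤ v.re ∧ v.re ≤ 2 * ℓ ∧
      Metric.ball v (u.re / 16) ⊆ Wn c ℓ q := by
  obtain ⟨x, y⟩ := u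
  simp only at h1 h2 h3 ⊢
  have hx : 0 < x := lt_of_lt_of_le (mul_pos hq hℓ) h1
  have hqℓ : q * ℓ ≤ ℓ / 2 := by nlinarith only [hℓ, hq1]
  obtain ⟨h3a, h3b⟩ := abs_le.1 h3
  -- the real part
  obtain ⟨a, ha1, ha2, ha3, ha4⟩ : ∃ a : ℝ, |a - x| ≤ x / 16 ∧ q * ℓ ≤ a - x / 16 ∧
      a + x / 16 ≤ ℓ ∧ x / 16 ≤ a := by
    rcases le_or_gt x (3 * ℓ / 4) with h | h
    · refine ⟨17 * x / 16, ?_, by linarith only [h1], by linarith only [h3a, h3b, h], by linarith only [hx]⟩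
      rw [abs_le]
      constructor <;> linarith only [hx]
    · refine ⟨15 * x / 16, ?_, by linarith only [hx, hqℓ, h], by (clear * - h2; linarith only [h2]), by linarith only [hx]⟩
      rw [abs_le]
      constructor <;> (clear * - hx; linarith only [hx])
  -- the imaginary part
  obtain ⟨b, hb1, hb2, hb3⟩ : ∃ b : ℝ, |b - y| ≤ x / 16 ∧ -(ℓ / 2) ≤ b - x / 16 - c ∧
      b + x / 16 - c ≤ ℓ / 2 := by
    rcases le_or_gt c y with h | h
    · refine ⟨y - x / 16, ?_, by (clear * - h2 ha3 ha4 h; linarith only [h2, ha3, ha4, h]), by linarith only [h3b]⟩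
      rw [abs_le]
      constructor <;> linarith only [hx]
    · refine ⟨y + x / 16, ?_, by linarith only [h3a], by linarith only [h2, ha3, ha4, h]⟩
      rw [abs_le]
      constructor <;> (clear * - hx; linarith only [hx])
  refine ⟨⟨a, b⟩, ?_, ha4, by simp only; linarith only [hx, ha3, ha4], ?_⟩
  · refine (Complex.norm_le_abs_re_add_abs_im _).trans ?_
    simp only [Complex.sub_re, Complex.sub_im]
    linarith only [hx, ha1, hb1]
  · intro w hw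
    rw [Metric.mem_ball, dist_eq_norm] at hw
    have hr := (Complex.abs_re_le_norm (w - ⟨a, b⟩)).trans_lt hw
    have hi := (Complex.abs_im_le_norm (w - ⟨a, b⟩)).trans_lt hw
    simp only [Complex.sub_re, Complex.sub_im] at hr hi
    obtain ⟨hr1, hr2⟩ := abs_lt.1 hr
    obtain ⟨hi1, hi2⟩ := abs_lt.1 hi
    refine ⟨by (clear * - ha2 hr1; linarith only [ha2, hr1]), by linarith only [ha3, hr2], ?_⟩
    rw [abs_lt]
    constructor <;> linarith only [hb2, hi1, hb3, hi2]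

theorem Fn.loc (hF : Fn F A) {c ℓ q : ℝ} (hℓ : 0 < ℓ) (hℓ1 : ℓ ≤ 1) (hq : 0 < q) (hq1 : q ≤ 1 / 2)
    {u : ℂ} (h1 : q * ℓ ≤ u.re) (h2 : u.re ≤ ℓ) (h3 : |u.im - c| ≤ ℓ / 2) :
    ‖deriv F u‖ * u.re ≤ 500 * √(ar F (Wn c ℓ q)) := by
  have hx : 0 < u.re := lt_of_lt_of_le (mul_pos hq hℓ) h1
  obtain ⟨v, hv1, hv2, hv3, hv4⟩ := local_exists_disk hℓ hq hq1 h1 h2 h3
  have hd := (hF.dist hx (by linarith only [hℓ1, h2]) hv1).2
  have hsub := local_wn_sub_bx (c := c) hℓ hq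
  have hb := hF.area_ball (u := v) (r := u.re / 16) (by (clear * - hx; positivity)) hv2 (by (clear * - hℓ1 hv3; linarith only [hℓ1, hv3]))
    (hF.fin hℓ1 (hv4.trans hsub))
  have hm := hF.ar_mono hℓ1 hsub hv4
  have har : π * (u.re / 16) ^ 2 * ‖deriv F v‖ ^ 2 ≤ ar F (Wn c ℓ q) := hb.trans hm
  have hpi : (3.14 : ℝ) < π := Real.pi_gt_d2
  have hn := norm_nonneg (deriv F v)
  have hkey : (‖deriv F u‖ * u.re) ^ 2 ≤ 500 ^ 2 * ar F (Wn c ℓ q) := by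
    have h4 : ‖deriv F u‖ * u.re ≤ 55 * ‖deriv F v‖ * u.re :=
      mul_le_mul_of_nonneg_right hd hx.le
    have h5 : (‖deriv F u‖ * u.re) ^ 2 ≤ (55 * ‖deriv F v‖ * u.re) ^ 2 :=
      pow_le_pow_left₀ (by (clear * - hx; positivity)) h4 2
    refine h5.trans ?_
    have h6 : (55 * ‖deriv F v‖ * u.re) ^ 2 ≤
        500 ^ 2 * (π * (u.re / 16) ^ 2 * ‖deriv F v‖ ^ 2) := by
      have h7 : 0 ≤ (u.re * ‖deriv F v‖) ^ 2 := sq_nonneg _
      have e1 : (55 * ‖deriv F v‖ * u.re) ^ 2 = 3025 * (u.re * ‖deriv F v‖) ^ 2 := by ring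
      have e2 : 500 ^ 2 * (π * (u.re / 16) ^ 2 * ‖deriv F v‖ ^ 2) =
          (250000 / 256 * π) * (u.re * ‖deriv F v‖) ^ 2 := by ring
      rw [e1, e2]
      refine mul_le_mul_of_nonneg_right ?_ h7
      (clear * - hpi; linarith only [hpi])
    exact h6.trans (by linarith only [har])
  have hsq : 0 ≤ ‖deriv F u‖ * u.re := by (clear * - hx; positivity)
  have h8 : ‖deriv F u‖ * u.re ≤ √(500 ^ 2 * ar F (Wn c ℓ q)) :=
    Real.le_sqrt_of_sq_le hkey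
  rwa [Real.sqrt_mul (by norm_num), Real.sqrt_sq (by norm_num)] at h8

theorem Fn.ar_pos (hF : Fn F A) {c ℓ q : ℝ} (hℓ : 0 < ℓ) (hℓ1 : ℓ ≤ 1) (hq : 0 < q)
    (hq1 : q ≤ 1 / 2) : 0 < ar F (Wn c ℓ q) := by
  have h := hF.loc (c := c) (u := ⟨ℓ, c⟩) hℓ hℓ1 hq hq1 (by simp only; nlinarith only [hℓ, hq1]) le_rfl
    (by simp only [sub_self, abs_zero]; positivity)
  simp only at h
  have h1 : 0 < ‖deriv F ⟨ℓ, c⟩‖ * ℓ :=
    mul_pos (norm_pos_iff.2 (hF.dne (u := ⟨ℓ, c⟩) hℓ)) hℓ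
  have h2 : 0 < √(ar F (Wn c ℓ q)) := by
    by_contra hcon
    push Not at hcon
    linarith only [h, h1, hcon]
  exact Real.sqrt_pos.1 h2

end Pool.Agent.Helper90.G2
end

/- Helper24.KR.H90.G2.Osc -/
section
/-!
# G2-OSC: oscillation in a window

Integrate `Fn.loc` along vertical and horizontal segments:
`|F (x₁ + i y) - F (x₂ + i y)| ≤ 500 √ar log (x₂ / x₁)` and
`|F (h + i y₁) - F (h + i y₂)| ≤ 500 √ar |y₁ - y₂| / h`. `osc_two`: from `u` up to the height `h`,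
horizontally, down to `v`. `osc_top`: `v` the top point.
-/

set_option autoImplicit false

namespace Pool.Agent.Helper90.G2

open MeasureTheory Set
open scoped Real

variable {F : ℂ → ℂ} {A : ℝ}

private theorem Fn.diffAt (hF : Fn F A) {u : ℂ} (hu : 0 < u.re) : DifferentiableAt ℂ F u :=
  hF.diff.differentiableAt ((isOpen_lt continuous_const Complex.continuous_re).mem_nhds hu)

private theorem Fn.seg_re (hF : Fn F A) {c ℓ q : ℝ} (hℓ : 0 < ℓ) (hℓ1 : ℓ ≤ 1) (hq : 0 < q)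
    (hq1 : q ≤ 1 / 2) {x₁ x₂ y : ℝ} (h1 : q * ℓ ≤ x₁) (h12 : x₁ ≤ x₂) (h2 : x₂ ≤ ℓ)
    (h3 : |y - c| ≤ ℓ / 2) :
    ‖F ⟨x₂, y⟩ - F ⟨x₁, y⟩‖ ≤ 500 * √(ar F (Wn c ℓ q)) * Real.log (x₂ / x₁) := by
  set K : ℝ := 500 * √(ar F (Wn c ℓ q)) with hK
  have hqℓ : 0 < q * ℓ := mul_pos hq hℓ
  have hx1 : 0 < x₁ := lt_of_lt_of_le hqℓ h1
  have hline : ∀ x : ℝ, HasDerivAt (fun t : ℝ => (⟨t, y⟩ : ℂ)) 1 x := by
    intro x
    have h0 : HasDerivAt (fun t : ℝ => (t : ℂ) + (y : ℂ) * Complex.I) 1 x :=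
      (Complex.ofRealCLM.hasDerivAt (x := x)).add_const _
    have he : (fun t : ℝ => (⟨t, y⟩ : ℂ)) = fun t : ℝ => (t : ℂ) + (y : ℂ) * Complex.I := by
      funext t
      apply Complex.ext <;> simp
    rw [he]
    exact h0
  have hder : ∀ x ∈ Icc x₁ x₂, HasDerivAt (fun t : ℝ => F ⟨t, y⟩ - F ⟨x₁, y⟩)
      (deriv F ⟨x, y⟩) x := by
    intro x hx
    have hre : 0 < (⟨x, y⟩ : ℂ).re := lt_of_lt_of_le hx1 hx.1
    have h0 : HasDerivAt F (deriv F ⟨x, y⟩) (⟨x, y⟩ : ℂ) := (hF.diffAt hre).hasDerivAt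
    have h00 := (h0.comp_of_eq x (hline x) rfl).sub_const (F ⟨x₁, y⟩)
    simpa using h00
  have hB : ∀ x ∈ Icc x₁ x₂, HasDerivAt (fun t : ℝ => K * Real.log (t / x₁)) (K / x) x := by
    intro x hx
    have hx0 : 0 < x := lt_of_lt_of_le hx1 hx.1
    have h0 : HasDerivAt (fun t : ℝ => t / x₁) (1 / x₁) x := (hasDerivAt_id x).div_const x₁
    have h00 := (h0.log (by (clear * - hx0 hx1; positivity) : x / x₁ ≠ 0)).const_mul K
    have he : K * (1 / x₁ / (x / x₁)) = K / x := by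
      (clear * - hx1 hx0; field_simp)
    rw [he] at h00
    exact h00
  have key := image_norm_le_of_norm_deriv_right_le_deriv_boundary'
    (f := fun t : ℝ => F ⟨t, y⟩ - F ⟨x₁, y⟩) (f' := fun x : ℝ => deriv F ⟨x, y⟩)
    (a := x₁) (b := x₂) (fun x hx => (hder x hx).continuousAt.continuousWithinAt)
    (fun x hx => (hder x (Ico_subset_Icc_self hx)).hasDerivWithinAt)
    (B := fun t : ℝ => K * Real.log (t / x₁)) (B' := fun x : ℝ => K / x)
    (by simp [div_self hx1.ne'])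
    (fun x hx => (hB x hx).continuousAt.continuousWithinAt)
    (fun x hx => (hB x (Ico_subset_Icc_self hx)).hasDerivWithinAt)
    (by
      intro x hx
      have hx0 : 0 < x := lt_of_lt_of_le hx1 hx.1
      have := hF.loc hℓ hℓ1 hq hq1 (u := ⟨x, y⟩) (c := c) (h1.trans hx.1)
        (hx.2.le.trans h2) h3
      rw [le_div_iff₀ hx0]
      exact this)
  exact key (right_mem_Icc.2 h12)

private theorem Fn.seg_im (hF : Fn F A) {c ℓ q : ℝ} (hℓ : 0 < ℓ) (hℓ1 : ℓ ≤ 1) (hq : 0 < q)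
    (hq1 : q ≤ 1 / 2) {h y₁ y₂ : ℝ} (h1 : q * ℓ ≤ h) (h2 : h ≤ ℓ)
    (h3 : |y₁ - c| ≤ ℓ / 2) (h4 : |y₂ - c| ≤ ℓ / 2) (h5 : |y₁ - y₂| ≤ h) :
    ‖F ⟨h, y₁⟩ - F ⟨h, y₂⟩‖ ≤ 500 * √(ar F (Wn c ℓ q)) := by
  set K : ℝ := 500 * √(ar F (Wn c ℓ q)) with hK
  have hK0 : 0 ≤ K := by (clear * -; positivity)
  have hh : 0 < h := lt_of_lt_of_le (mul_pos hq hℓ) h1
  have hconv : Convex ℝ {z : ℂ | z.re = h ∧ |z.im - c| ≤ ℓ / 2} := by
    intro z hz w hw a b ha hb hab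
    obtain ⟨hz1, hz2⟩ := hz
    obtain ⟨hw1, hw2⟩ := hw
    refine ⟨?_, ?_⟩
    · have : (a • z + b • w).re = a * z.re + b * w.re := by simp
      rw [this, hz1, hw1, ← add_mul, hab, one_mul]
    · have : (a • z + b • w).im - c = a * (z.im - c) + b * (w.im - c) := by
        have h0 : (a • z + b • w).im = a * z.im + b * w.im := by simp
        rw [h0]
        have : c = (a + b) * c := by rw [hab, one_mul]
        nth_rewrite 1 [this]
        ring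
      rw [this]
      rw [abs_le] at hz2 hw2 ⊢
      constructor <;> nlinarith only [ha, hb, hab, hz2, hw2]
  have key := Convex.norm_image_sub_le_of_norm_deriv_le (𝕜 := ℂ) (f := F) (C := K / h)
    (s := {z : ℂ | z.re = h ∧ |z.im - c| ≤ ℓ / 2}) (x := ⟨h, y₂⟩) (y := ⟨h, y₁⟩)
    (fun z hz => hF.diffAt (by rw [hz.1]; exact hh))
    (by
      intro z hz
      have := hF.loc hℓ hℓ1 hq hq1 (u := z) (c := c) (by rw [hz.1]; exact h1)
        (by rw [hz.1]; exact h2) hz.2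
      rw [hz.1] at this
      rw [le_div_iff₀ hh]
      exact this)
    hconv ⟨rfl, h4⟩ ⟨rfl, h3⟩
  refine key.trans ?_
  have hn : ‖(⟨h, y₁⟩ : ℂ) - ⟨h, y₂⟩‖ = |y₁ - y₂| := by
    have : (⟨h, y₁⟩ : ℂ) - ⟨h, y₂⟩ = ((y₁ - y₂ : ℝ) : ℂ) * Complex.I := by
      apply Complex.ext <;> simp
    rw [this, norm_mul, Complex.norm_I, mul_one, Complex.norm_real, Real.norm_eq_abs]
  rw [hn]
  calc K / h * |y₁ - y₂| ≤ K / h * h := by (clear * - h5 hh; gcongr)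
    _ = K := by field_simp

theorem Fn.osc_two (hF : Fn F A) {c ℓ q : ℝ} (hℓ : 0 < ℓ) (hℓ1 : ℓ ≤ 1) (hq : 0 < q)
    (hq1 : q ≤ 1 / 2) {u v : ℂ} {h : ℝ} (hh : h ≤ ℓ) (h1 : q * ℓ ≤ u.re) (h2 : u.re ≤ h)
    (h3 : |u.im - c| ≤ ℓ / 2) (k1 : q * ℓ ≤ v.re) (k2 : v.re ≤ h) (k3 : |v.im - c| ≤ ℓ / 2)
    (huv : |u.im - v.im| ≤ h) :
    ‖F u - F v‖ ≤ 500 * √(ar F (Wn c ℓ q)) * (1 + Real.log (h / u.re) + Real.log (h / v.re)) := by
  have e1 := hF.seg_re hℓ hℓ1 hq hq1 h1 h2 hh h3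
  have e2 := hF.seg_re hℓ hℓ1 hq hq1 k1 k2 hh k3
  have e3 := hF.seg_im hℓ hℓ1 hq hq1 (h1.trans h2) hh h3 k3 huv
  have hu : F u = F ⟨u.re, u.im⟩ := rfl
  have hv : F v = F ⟨v.re, v.im⟩ := rfl
  have hs : F u - F v = -(F ⟨h, u.im⟩ - F ⟨u.re, u.im⟩) + (F ⟨h, u.im⟩ - F ⟨h, v.im⟩)
      + (F ⟨h, v.im⟩ - F ⟨v.re, v.im⟩) := by
    rw [hu, hv]
    ring
  rw [hs]
  refine (norm_add₃_le).trans ?_
  rw [norm_neg]
  linarith only [e1, e2, e3]

theorem Fn.osc_top (hF : Fn F A) {c ℓ q : ℝ} (hℓ : 0 < ℓ) (hℓ1 : ℓ ≤ 1) (hq : 0 < q)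
    (hq1 : q ≤ 1 / 2) {u : ℂ} (h1 : q * ℓ ≤ u.re) (h2 : u.re ≤ ℓ) (h3 : |u.im - c| ≤ ℓ / 2) :
    ‖F u - F (zt c ℓ)‖ ≤ 500 * √(ar F (Wn c ℓ q)) * (1 + Real.log (ℓ / u.re)) := by
  have h4 : q * ℓ ≤ (zt c ℓ).re := by
    show q * ℓ ≤ ℓ
    linarith only [h1, h2]
  have h5 : |(zt c ℓ).im - c| ≤ ℓ / 2 := by
    show |c - c| ≤ ℓ / 2
    rw [sub_self, abs_zero]
    linarith only [hℓ]
  have h6 : |u.im - (zt c ℓ).im| ≤ ℓ := by
    show |u.im - c| ≤ ℓ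
    linarith only [hℓ, h3]
  have key := hF.osc_two hℓ hℓ1 hq hq1 (u := u) (v := zt c ℓ) le_rfl h1 h2 h3 h4 le_rfl h5 h6
  have h7 : Real.log (ℓ / (zt c ℓ).re) = 0 := by
    show Real.log (ℓ / ℓ) = 0
    rw [div_self hℓ.ne', Real.log_one]
  rw [h7, add_zero] at key
  exact key

/-- the radius of the image of a window -/
theorem Fn.osc_rad (hF : Fn F A) {c ℓ q : ℝ} (hℓ : 0 < ℓ) (hℓ1 : ℓ ≤ 1) (hq : 0 < q)
    (hq1 : q ≤ 1 / 2) {u : ℂ} (h1 : q * ℓ ≤ u.re) (h2 : u.re ≤ ℓ) (h3 : |u.im - c| ≤ ℓ / 2) :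
    ‖F u - F (zt c ℓ)‖ ≤ 500 * (1 + Real.log (1 / q)) * √(ar F (Wn c ℓ q)) := by
  have hu : 0 < u.re := lt_of_lt_of_le (mul_pos hq hℓ) h1
  have key := hF.osc_top hℓ hℓ1 hq hq1 h1 h2 h3
  have hlog : Real.log (ℓ / u.re) ≤ Real.log (1 / q) := by
    apply Real.log_le_log (by positivity)
    rw [div_le_div_iff₀ hu hq]
    linarith only [h1]
  have h0 : 0 ≤ √(ar F (Wn c ℓ q)) := Real.sqrt_nonneg _
  nlinarith only [key, hlog, h0]

end Pool.Agent.Helper90.G2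
end

/- Helper24.KR.H90.G2.Kids -/
section
/-!
# G2-KIDS: a box, its window and its children

The boxes `Bx (ch N c ℓ d) (ℓ / N)`, `d < N`, are disjoint, contained in `Bx c ℓ` and disjoint from
`Wn c ℓ (1 / N)`; `F` is injective on `Bx c ℓ`, so the images are disjoint (`vp_add`). The image of the
window is contained in the disk of radius `500 (1 + log N) √ar` around `F (zt c ℓ)` (`Fn.osc_rad`), as
are the images of the top points of the children (they are on the lower side of the window).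
-/

set_option autoImplicit false

namespace Pool.Agent.Helper90.G2

open MeasureTheory Set
open scoped Real

variable {F : ℂ → ℂ} {A : ℝ}

/-- the part of `V` carried by child `d` before the point is moved -/
noncomputable def Vc (F : ℂ → ℂ) (δ c ℓ : ℝ) (N d : ℕ) : ℝ :=
  Vp δ (F '' Bx (ch N c ℓ d) (ℓ / N)) (F (zt c ℓ))

/-- the part of `V` carried by the window -/
noncomputable def Vw (F : ℂ → ℂ) (δ c ℓ : ℝ) (N : ℕ) : ℝ :=
  Vp δ (F '' Wn c ℓ (1 / N)) (F (zt c ℓ))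

/-! ### elementary facts on the boxes -/

lemma ch_bound {c ℓ : ℝ} (hℓ : 0 < ℓ) {N d : ℕ} (hN : 2 ≤ N) (hd : d < N) :
    -(ℓ / 2) ≤ ch N c ℓ d - c - ℓ / N / 2 ∧ ch N c ℓ d - c + ℓ / N / 2 ≤ ℓ / 2 := by
  have hN0 : (0:ℝ) < N := by
    have : 0 < N := by omega
    exact_mod_cast this
  have hd0 : (0:ℝ) ≤ d := Nat.cast_nonneg d
  have hd1 : (d:ℝ) + 1 ≤ N := by exact_mod_cast hd
  have e1 : ch N c ℓ d - c - ℓ / N / 2 = (d / N - 1 / 2) * ℓ := by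
    unfold ch
    field_simp
    ring
  have e2 : ch N c ℓ d - c + ℓ / N / 2 = ((d + 1) / N - 1 / 2) * ℓ := by
    unfold ch
    field_simp
    ring
  have h1 : 0 ≤ (d:ℝ) / N := by (clear * - hN; positivity)
  have h2 : ((d:ℝ) + 1) / N ≤ 1 := by rwa [div_le_one hN0]
  rw [e1, e2]
  constructor <;> nlinarith only [hℓ, h1, h2]

lemma div_N_le {ℓ : ℝ} (hℓ : 0 < ℓ) {N : ℕ} (hN : 2 ≤ N) : ℓ / N ≤ ℓ := by
  have h2 : (2:ℝ) ≤ N := by exact_mod_cast hN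
  exact div_le_self hℓ.le (by (clear * - h2; linarith only [h2]))

lemma bx_child_sub {c ℓ : ℝ} (hℓ : 0 < ℓ) {N d : ℕ} (hN : 2 ≤ N) (hd : d < N) :
    Bx (ch N c ℓ d) (ℓ / N) ⊆ Bx c ℓ := by
  rintro u ⟨h1, h2, h3⟩
  obtain ⟨h4, h5⟩ := ch_bound (c := c) hℓ hN hd
  rw [abs_lt] at h3
  refine ⟨h1, h2.trans_le (div_N_le hℓ hN), ?_⟩
  rw [abs_lt]
  constructor <;> (clear * - h3 h4 h5; linarith only [h3, h4, h5])

lemma wn_sub {c ℓ : ℝ} (hℓ : 0 < ℓ) {N : ℕ} (hN : 2 ≤ N) : Wn c ℓ (1 / N) ⊆ Bx c ℓ := by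
  rintro u ⟨h1, h2, h3⟩
  have h2' : (2:ℝ) ≤ N := by exact_mod_cast hN
  have h4 : 0 < 1 / (N:ℝ) * ℓ := by (clear * - hN hℓ; positivity)
  exact ⟨h4.trans h1, h2, h3⟩

lemma bx_sub_strip {c ℓ : ℝ} (hℓ1 : ℓ ≤ 1) : Bx c ℓ ⊆ {u | 0 < u.re ∧ |u.im - c| < π} := by
  rintro u ⟨h1, h2, h3⟩
  exact ⟨h1, by (clear * - hℓ1 h1 h2 h3; linarith [Real.pi_gt_three])⟩

lemma bx_disj {c ℓ : ℝ} (hℓ : 0 < ℓ) {N d e : ℕ} (hN : 2 ≤ N) (hde : d ≠ e) :
    Disjoint (Bx (ch N c ℓ d) (ℓ / N)) (Bx (ch N c ℓ e) (ℓ / N)) := by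
  rw [Set.disjoint_left]
  rintro u ⟨-, -, h3⟩ ⟨-, -, k3⟩
  have hN0 : (0:ℝ) < N := by
    have : 0 < N := by omega
    exact_mod_cast this
  have e1 : ch N c ℓ d - ch N c ℓ e = ((d:ℝ) - e) * (ℓ / N) := by
    unfold ch
    field_simp
    ring
  have h4 : (1:ℝ) ≤ |(d:ℝ) - e| := by
    have h5 : (1:ℤ) ≤ |(d:ℤ) - e| := Int.one_le_abs (by omega)
    exact_mod_cast h5
  have h6 : 0 < ℓ / N := by (clear * - hℓ hN; positivity)
  have h7 : |ch N c ℓ d - ch N c ℓ e| = |(d:ℝ) - e| * (ℓ / N) := by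
    rw [e1, abs_mul, abs_of_pos h6]
  have h8 : |ch N c ℓ d - ch N c ℓ e| ≤ |u.im - ch N c ℓ d| + |u.im - ch N c ℓ e| := by
    have h9 : ch N c ℓ d - ch N c ℓ e = (u.im - ch N c ℓ e) - (u.im - ch N c ℓ d) := by ring
    rw [h9]
    exact (abs_sub _ _).trans_eq (add_comm _ _)
  nlinarith only [h3, k3, h4, h6, h7, h8]

lemma wn_disj {c ℓ : ℝ} {N d : ℕ} :
    Disjoint (Wn c ℓ (1 / N)) (Bx (ch N c ℓ d) (ℓ / N)) := by
  rw [Set.disjoint_left]
  rintro u ⟨h1, -, -⟩ ⟨-, k2, -⟩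
  have : 1 / (N:ℝ) * ℓ = ℓ / N := by ring
  (clear * - h1 k2 this; linarith only [h1, k2, this])

lemma image_disj {S T U : Set ℂ} (hF : InjOn F U) (hS : S ⊆ U) (hT : T ⊆ U) (h : Disjoint S T) :
    Disjoint (F '' S) (F '' T) := by
  rw [Set.disjoint_left] at h ⊢
  rintro _ ⟨x, hx, rfl⟩ ⟨y, hy, hxy⟩
  have := hF (hT hy) (hS hx) hxy
  exact h hx (this ▸ hy)

lemma one_div_N {N : ℕ} (hN : 2 ≤ N) : 0 < 1 / (N:ℝ) ∧ 1 / (N:ℝ) ≤ 1 / 2 := by
  have h2 : (2:ℝ) ≤ N := by exact_mod_cast hN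
  exact ⟨by (clear * - hN; positivity), one_div_le_one_div_of_le (by norm_num) h2⟩

theorem Fn.kids_add (hF : Fn F A) {δ c ℓ : ℝ} (h0 : 0 < δ) (h1 : δ ≤ 1) (hℓ : 0 < ℓ)
    (hℓ1 : ℓ ≤ 1) {N : ℕ} (hN : 2 ≤ N) :
    Vw F δ c ℓ N + ∑ d ∈ Finset.range N, Vc F δ c ℓ N d ≤ V F δ c ℓ := by
  have hst := bx_sub_strip (c := c) hℓ1
  refine vp_add h0 h1 (fun d => F '' Bx (ch N c ℓ d) (ℓ / N)) (F '' Wn c ℓ (1 / N)) (F '' Bx c ℓ)
    (fun d hd => hF.meas (meas_bx _ _) ((bx_child_sub hℓ hN hd).trans hst))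
    (hF.meas (meas_wn _ _ _) ((wn_sub hℓ hN).trans hst)) (hF.meas (meas_bx _ _) hst)
    (hF.fin hℓ1 (Subset.refl _)) (fun d hd => image_mono (bx_child_sub hℓ hN hd))
    (image_mono (wn_sub hℓ hN))
    (fun d hd e he hde => image_disj (hF.inj c) ((bx_child_sub hℓ hN hd).trans hst)
      ((bx_child_sub hℓ hN he).trans hst) (bx_disj hℓ hN hde))
    (fun d hd => image_disj (hF.inj c) ((wn_sub hℓ hN).trans hst)
      ((bx_child_sub hℓ hN hd).trans hst) wn_disj) _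

/-- the radius -/
theorem Fn.kids_rad (hF : Fn F A) {c ℓ : ℝ} (hℓ : 0 < ℓ) (hℓ1 : ℓ ≤ 1) {N d : ℕ} (hN : 2 ≤ N)
    (hd : d < N) :
    ‖F (zt (ch N c ℓ d) (ℓ / N)) - F (zt c ℓ)‖ ≤
      500 * (1 + Real.log N) * √(ar F (Wn c ℓ (1 / N))) := by
  obtain ⟨hq, hq1⟩ := one_div_N hN
  obtain ⟨h4, h5⟩ := ch_bound (c := c) hℓ hN hd
  have h6 : 0 < ℓ / N := by
    have : (0:ℝ) < N := by
      have : 0 < N := by omega
      exact_mod_cast this
    (clear * - hℓ hN; positivity)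
  have h7 := hF.osc_rad (c := c) hℓ hℓ1 hq hq1 (u := zt (ch N c ℓ d) (ℓ / N))
    (by show 1 / (N:ℝ) * ℓ ≤ ℓ / N; exact le_of_eq (by ring)) (div_N_le hℓ hN)
    (by
      show |ch N c ℓ d - c| ≤ ℓ / 2
      rw [abs_le]
      constructor <;> linarith only [h4, h6, h5])
  rwa [one_div_one_div] at h7

/-- the loss -/
theorem Fn.loss (hF : Fn F A) {δ c ℓ : ℝ} (h0 : 0 < δ) (h1 : δ ≤ 1) (hℓ : 0 < ℓ)
    (hℓ1 : ℓ ≤ 1) {N : ℕ} (hN : 2 ≤ N) :
    ar F (Wn c ℓ (1 / N)) * (500 * (1 + Real.log N) * √(ar F (Wn c ℓ (1 / N)))) ^ (-δ) ≤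
      Vw F δ c ℓ N := by
  obtain ⟨hq, hq1⟩ := one_div_N hN
  have hst := bx_sub_strip (c := c) hℓ1
  have hpos := hF.ar_pos (c := c) hℓ hℓ1 hq hq1
  have hlog : 0 ≤ Real.log N := Real.log_natCast_nonneg N
  refine vp_lower h0 h1 (hF.meas (meas_wn _ _ _) ((wn_sub hℓ hN).trans hst))
    (hF.fin hℓ1 (wn_sub hℓ hN)) _ (by (clear * - hpos; positivity)) ?_
  rintro _ ⟨u, ⟨k1, k2, k3⟩, rfl⟩
  have h7 := hF.osc_rad (c := c) hℓ hℓ1 hq hq1 (u := u) k1.le k2.le k3.le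
  rwa [one_div_one_div] at h7

/-- moving the point of one child, with any bound `s` of the displacement -/
theorem Fn.kids_move (hF : Fn F A) {δ m s c ℓ : ℝ} (hm : 0 < m) (hm1 : m ≤ 1) (h0 : 0 < δ)
    (h1 : δ ≤ 1 / 4) (hs : 0 < s) (hℓ : 0 < ℓ) (hℓ1 : ℓ ≤ 1) {N d : ℕ} (hN : 2 ≤ N) (hd : d < N)
    (h : ‖F (zt (ch N c ℓ d) (ℓ / N)) - F (zt c ℓ)‖ ≤ s) :
    V F δ (ch N c ℓ d) (ℓ / N) ≤ Real.exp (δ * m) * Vc F δ c ℓ N d + er δ m s :=
  vp_move hm hm1 h0 h1 hs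
    (hF.meas (meas_bx _ _) ((bx_child_sub hℓ hN hd).trans (bx_sub_strip (c := c) hℓ1)))
    (hF.fin hℓ1 (bx_child_sub hℓ hN hd)) h

end Pool.Agent.Helper90.G2
end

/- Helper24.KR.H90.G2.Crude -/
section
/-!
# G2-CRUDE: one generation

`N = 2`: `ch 2 c ℓ 0 = c - ℓ / 4`, `ch 2 c ℓ 1 = c + ℓ / 4`. `m = C2 δ ≤ 1`,
`s = r = 500 (1 + log 2) √ar ≤ 850 √ar`: the two error terms (`er`) add up to at most
`2 (1 + 32 δ) π 850² / (4 C2) ar r^(-δ) m^δ ≤ ar r^(-δ) ≤ Vw` (`2 π 722500 / (4 * 1200000) < 0.95`).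
Use `s := r` itself in `er`, not `850 √ar`. So `V + V ≤ e^(C2 δ²) (V - Vw) + Vw`.
-/

set_option autoImplicit false

namespace Pool.Agent.Helper90.G2

open MeasureTheory Set
open scoped Real

variable {F : ℂ → ℂ} {A : ℝ}

/-- the crude constant -/
noncomputable def C2 : ℝ := 1200000

theorem Crude_ch0 (c ℓ : ℝ) : ch 2 c ℓ 0 = c - ℓ / 4 := by
  unfold ch
  push_cast
  ring

theorem Crude_ch1 (c ℓ : ℝ) : ch 2 c ℓ 1 = c + ℓ / 4 := by
  unfold ch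
  push_cast
  ring

theorem Crude_ch_even (M : ℕ) (c ℓ : ℝ) (d : ℕ) :
    ch (2 ^ (M + 1)) c ℓ (2 * d) = ch (2 ^ M) c ℓ d - ℓ / ((2 ^ M : ℕ) : ℝ) / 4 := by
  unfold ch
  push_cast
  have h : (2 : ℝ) ^ M ≠ 0 := by (clear * -; positivity)
  rw [pow_succ]
  field_simp
  ring

theorem Crude_ch_odd (M : ℕ) (c ℓ : ℝ) (d : ℕ) :
    ch (2 ^ (M + 1)) c ℓ (2 * d + 1) = ch (2 ^ M) c ℓ d + ℓ / ((2 ^ M : ℕ) : ℝ) / 4 := by
  unfold ch
  push_cast
  have h : (2 : ℝ) ^ M ≠ 0 := by (clear * -; positivity)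
  rw [pow_succ]
  field_simp
  ring

theorem Crude_sum (f : ℕ → ℝ) (k : ℕ) :
    ∑ d ∈ Finset.range (2 * k), f d = ∑ d ∈ Finset.range k, (f (2 * d) + f (2 * d + 1)) := by
  induction k with
  | zero => simp
  | succ k ih =>
    rw [show 2 * (k + 1) = 2 * k + 1 + 1 by ring, Finset.sum_range_succ, Finset.sum_range_succ, ih,
      Finset.sum_range_succ]
    ring

/-- the two error terms -/
theorem Crude_er {δ r S : ℝ} (h0 : 0 < δ) (h1 : δ ≤ 1 / C2) (hr : 0 < r) (hS : 0 ≤ S)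
    (hrS : r ^ 2 ≤ 722500 * S) : 2 * er δ (C2 * δ) r ≤ S * r ^ (-δ) := by
  unfold er
  have hC : (C2 : ℝ) = 1200000 := rfl
  have hm : 0 < C2 * δ := by rw [hC]; (clear * - h0; positivity)
  have hm1 : C2 * δ ≤ 1 := by
    rw [hC] at h1 ⊢
    (clear * - h1; linarith only [h1])
  have e1 : (r / (C2 * δ)) ^ (-δ) ≤ r ^ (-δ) := by
    rw [Real.rpow_neg (div_pos hr hm).le, Real.rpow_neg hr.le]
    apply inv_anti₀ (Real.rpow_pos_of_pos hr δ)
    apply Real.rpow_le_rpow hr.le _ h0.le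
    rw [le_div_iff₀ hm]
    exact mul_le_of_le_one_right hr.le hm1
  have e2 : 2 * (δ * (1 + 32 * δ) * (π * r ^ 2 / (4 * (C2 * δ)))) ≤ S := by
    have e3 : 2 * (δ * (1 + 32 * δ) * (π * r ^ 2 / (4 * (C2 * δ)))) =
        (1 + 32 * δ) * π * r ^ 2 / 2400000 := by
      rw [hC]
      field_simp
      ring
    rw [e3]
    have hd : δ ≤ 1 / 1200000 := h1
    have hpi := Real.pi_lt_d2
    have hpi0 := Real.pi_pos
    have e4 : (1 + 32 * δ) * π ≤ 1.01 * 3.15 := by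
      apply mul_le_mul _ hpi.le hpi0.le (by norm_num)
      linarith only [hd]
    have e5 : (1 + 32 * δ) * π * r ^ 2 ≤ 1.01 * 3.15 * (722500 * S) :=
      mul_le_mul e4 hrS (by positivity) (by norm_num)
    rw [div_le_iff₀ (by norm_num)]
    (clear * - hrS e5; nlinarith only [hrS, e5])
  have e6 : 0 ≤ r ^ (-δ) := (Real.rpow_pos_of_pos hr _).le
  have e7 : 0 ≤ 2 * (δ * (1 + 32 * δ) * (π * r ^ 2 / (4 * (C2 * δ)))) := by
    have := Real.pi_pos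
    positivity
  calc 2 * (δ * (1 + 32 * δ) * (π * r ^ 2 / (4 * (C2 * δ))) * (r / (C2 * δ)) ^ (-δ))
      = 2 * (δ * (1 + 32 * δ) * (π * r ^ 2 / (4 * (C2 * δ)))) * (r / (C2 * δ)) ^ (-δ) := by ring
    _ ≤ 2 * (δ * (1 + 32 * δ) * (π * r ^ 2 / (4 * (C2 * δ)))) * r ^ (-δ) :=
        mul_le_mul_of_nonneg_left e1 e7
    _ ≤ S * r ^ (-δ) := mul_le_mul_of_nonneg_right e2 e6

theorem Fn.crude (hF : Fn F A) {δ c ℓ : ℝ} (h0 : 0 < δ) (h1 : δ ≤ 1 / C2) (hℓ : 0 < ℓ)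
    (hℓ1 : ℓ ≤ 1) :
    V F δ (c - ℓ / 4) (ℓ / 2) + V F δ (c + ℓ / 4) (ℓ / 2) ≤ Real.exp (C2 * δ ^ 2) * V F δ c ℓ := by
  have hC : (C2 : ℝ) = 1200000 := rfl
  have hδ : δ ≤ 1 / 1200000 := h1
  have hm : 0 < C2 * δ := by rw [hC]; (clear * - h0; positivity)
  have hm1 : C2 * δ ≤ 1 := by
    rw [hC]
    linarith
  have hδ1 : δ ≤ 1 := by (clear * - hδ; linarith only [hδ])
  have hδ4 : δ ≤ 1 / 4 := by linarith only [hδ]
  set S : ℝ := ar F (Wn c ℓ (1 / (2 : ℕ))) with hS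
  have hS0 : 0 < S := hF.ar_pos hℓ hℓ1 (by norm_num) (by norm_num)
  obtain ⟨L, hL⟩ : ∃ L : ℝ, L = Real.log ((2 : ℕ) : ℝ) := ⟨_, rfl⟩
  set r : ℝ := 500 * (1 + Real.log (2 : ℕ)) * √S with hr
  have hr' : r = 500 * (1 + L) * √S := by rw [hr, hL]
  have hL2 : L = Real.log 2 := by rw [hL]; norm_num
  have hlog1 : 0.69 < L := by
    have := Real.log_two_gt_d9
    linarith only [hL2, this]
  have hlog2 : L < 0.7 := by
    have := Real.log_two_lt_d9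
    linarith only [hL2, this]
  have hr0 : 0 < r := by
    rw [hr']
    have : 0 < √S := Real.sqrt_pos.2 hS0
    have h2 : 0 < 1 + L := by linarith only [hlog1]
    (clear * - hlog1 hS0; positivity)
  have hrS : r ^ 2 ≤ 722500 * S := by
    rw [hr', mul_pow, Real.sq_sqrt hS0.le]
    apply mul_le_mul_of_nonneg_right _ hS0.le
    (clear * - hlog2 hlog1; nlinarith only [hlog1, hlog2])
  have hadd := hF.kids_add (c := c) h0 hδ1 hℓ hℓ1 (N := 2) le_rfl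
  rw [Finset.sum_range_succ, Finset.sum_range_one] at hadd
  have hloss := hF.loss (c := c) h0 hδ1 hℓ hℓ1 (N := 2) le_rfl
  have hm0 := hF.kids_move (c := c) hm hm1 h0 hδ4 hr0 hℓ hℓ1 (N := 2) (d := 0) le_rfl
    (by norm_num) (hF.kids_rad hℓ hℓ1 le_rfl (by norm_num))
  have hm2 := hF.kids_move (c := c) hm hm1 h0 hδ4 hr0 hℓ hℓ1 (N := 2) (d := 1) le_rfl
    (by norm_num) (hF.kids_rad hℓ hℓ1 le_rfl (by norm_num))
  rw [Crude_ch0] at hm0
  rw [Crude_ch1] at hm2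
  have hcast : ℓ / ((2 : ℕ) : ℝ) = ℓ / 2 := by push_cast; ring
  rw [hcast] at hm0 hm2
  have her := Crude_er h0 h1 hr0 hS0.le hrS
  have hexp : 1 ≤ Real.exp (C2 * δ ^ 2) := by
    apply Real.one_le_exp
    rw [hC]
    positivity
  have hexp2 : Real.exp (δ * (C2 * δ)) = Real.exp (C2 * δ ^ 2) := by
    congr 1
    ring
  rw [hexp2] at hm0 hm2
  have hVw : 0 ≤ Vw F δ c ℓ 2 := vp_nonneg _ _ _
  have h5 : 2 * er δ (C2 * δ) r ≤ Vw F δ c ℓ 2 := her.trans hloss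
  have h6 : Vw F δ c ℓ 2 ≤ Real.exp (C2 * δ ^ 2) * Vw F δ c ℓ 2 := le_mul_of_one_le_left hVw hexp
  have h7 : Real.exp (C2 * δ ^ 2) * (Vw F δ c ℓ 2 + (Vc F δ c ℓ 2 0 + Vc F δ c ℓ 2 1)) ≤
      Real.exp (C2 * δ ^ 2) * V F δ c ℓ := mul_le_mul_of_nonneg_left hadd (Real.exp_pos _).le
  (clear * - hm0 hm2 h5 h6 h7; linarith only [hm0, hm2, h5, h6, h7])

/-- `M` generations, by induction: `ch (2^(M+1)) c ℓ (2d) = ch (2^M) c ℓ d - (ℓ / 2^M) / 4` etc. -/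
theorem Fn.crudeM (hF : Fn F A) {δ : ℝ} (h0 : 0 < δ) (h1 : δ ≤ 1 / C2) (M : ℕ) {c ℓ : ℝ}
    (hℓ : 0 < ℓ) (hℓ1 : ℓ ≤ 1) :
    ∑ d ∈ Finset.range (2 ^ M), V F δ (ch (2 ^ M) c ℓ d) (ℓ / ((2 ^ M : ℕ) : ℝ)) ≤
      Real.exp (C2 * δ ^ 2 * M) * V F δ c ℓ := by
  induction M with
  | zero =>
    have e1 : ch (2 ^ 0) c ℓ 0 = c := by
      unfold ch
      push_cast
      ring
    have e2 : ℓ / ((2 ^ 0 : ℕ) : ℝ) = ℓ := by
      push_cast
      ring
    rw [e2, show (2 : ℕ) ^ 0 = 1 by norm_num, Finset.sum_range_one]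
    rw [show (2 : ℕ) ^ 0 = 1 by norm_num] at e1
    rw [e1]
    simp
  | succ M ih =>
    have hM : (1 : ℝ) ≤ ((2 ^ M : ℕ) : ℝ) := by
      exact_mod_cast Nat.one_le_two_pow
    have hM0 : (0 : ℝ) < ((2 ^ M : ℕ) : ℝ) := lt_of_lt_of_le one_pos hM
    have hl0 : 0 < ℓ / ((2 ^ M : ℕ) : ℝ) := div_pos hℓ hM0
    have hl1 : ℓ / ((2 ^ M : ℕ) : ℝ) ≤ 1 := by
      rw [div_le_one hM0]
      linarith only [hℓ1, hM]
    have hhalf : ℓ / ((2 ^ (M + 1) : ℕ) : ℝ) = ℓ / ((2 ^ M : ℕ) : ℝ) / 2 := by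
      push_cast
      rw [pow_succ]
      field_simp
    have hsum : ∑ d ∈ Finset.range (2 ^ (M + 1)),
        V F δ (ch (2 ^ (M + 1)) c ℓ d) (ℓ / ((2 ^ (M + 1) : ℕ) : ℝ)) =
        ∑ d ∈ Finset.range (2 ^ M),
          (V F δ (ch (2 ^ M) c ℓ d - ℓ / ((2 ^ M : ℕ) : ℝ) / 4) (ℓ / ((2 ^ M : ℕ) : ℝ) / 2) +
            V F δ (ch (2 ^ M) c ℓ d + ℓ / ((2 ^ M : ℕ) : ℝ) / 4) (ℓ / ((2 ^ M : ℕ) : ℝ) / 2)) := by
      rw [hhalf]
      conv_lhs => rw [show Finset.range (2 ^ (M + 1)) = Finset.range (2 * 2 ^ M) by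
        rw [pow_succ, mul_comm]]
      rw [Crude_sum]
      refine Finset.sum_congr rfl fun d _ => ?_
      rw [Crude_ch_even, Crude_ch_odd]
    rw [hsum]
    have hstep : ∑ d ∈ Finset.range (2 ^ M),
          (V F δ (ch (2 ^ M) c ℓ d - ℓ / ((2 ^ M : ℕ) : ℝ) / 4) (ℓ / ((2 ^ M : ℕ) : ℝ) / 2) +
            V F δ (ch (2 ^ M) c ℓ d + ℓ / ((2 ^ M : ℕ) : ℝ) / 4) (ℓ / ((2 ^ M : ℕ) : ℝ) / 2)) ≤
        ∑ d ∈ Finset.range (2 ^ M), Real.exp (C2 * δ ^ 2) *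
          V F δ (ch (2 ^ M) c ℓ d) (ℓ / ((2 ^ M : ℕ) : ℝ)) :=
      Finset.sum_le_sum fun d _ => hF.crude h0 h1 hl0 hl1
    rw [← Finset.mul_sum] at hstep
    refine hstep.trans ?_
    refine (mul_le_mul_of_nonneg_left ih (Real.exp_pos _).le).trans (le_of_eq ?_)
    rw [← mul_assoc, ← Real.exp_add]
    congr 2
    push_cast
    ring

end Pool.Agent.Helper90.G2
end

/- Helper24.KR.H90.G2.Sharp -/
section
/-!
# G2-SHARP: the displacement of the top point in a long window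

`ρ₀ = κ ℓ`, `ρ₁ = 2 q ℓ / κ` (`sin κ ≥ κ / 2`), cone at `i c'`: it lies in `Wn c ℓ q`, so `Fn.cone`
(`log (ρ₀ / ρ₁) = log (κ² / (2 q)) ≤ log (1 / q)`) bounds `|Pa ρ₀ - Pa ρ₁|` by
`√(log (1/q) / (π - 2κ)) √ar`. Ends by `Pa_near`: for `u` on the arc `ρ₀`, `re u ≥ κ² ℓ / 2` and
`Fn.osc_top` gives `500 √ar (1 + log (2 / κ²))`; for `u` on the arc `ρ₁`, `Fn.osc_two` with `h = ρ₁`
and `v = zt c' (q ℓ)` gives `500 √ar (1 + 2 log (2 / κ))` (`re u ≥ ρ₁ κ / 2`, `v.re = q ℓ`).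
-/

set_option autoImplicit false

namespace Pool.Agent.Helper90.G2

open MeasureTheory Set
open scoped Real

variable {F : ℂ → ℂ} {A : ℝ}

/-- the square root of the constant `S` -/
noncomputable def sS (κ L : ℝ) : ℝ := √(L / (π - 2 * κ)) + 1000 * (1 + 2 * Real.log (2 / κ))

theorem Sharp_sin {κ : ℝ} (hκ : 0 < κ) (hκ1 : κ ≤ 1 / 4) : κ / 2 ≤ Real.sin κ := by
  have h1 := Real.mul_le_sin hκ.le (by (clear * - hκ1; linarith only [Real.pi_gt_three, hκ1]))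
  have h2 : κ / 2 ≤ 2 / π * κ := by
    rw [div_mul_eq_mul_div, le_div_iff₀ Real.pi_pos]
    (clear * - hκ; nlinarith only [Real.pi_le_four, hκ])
  (clear * - h1 h2; linarith)

theorem Sharp_cos {κ φ : ℝ} (hκ : 0 < κ) (hκ1 : κ ≤ 1 / 4) (hφ : |φ| ≤ π / 2 - κ) :
    κ / 2 ≤ Real.cos φ := by
  rw [← Real.cos_abs φ]
  have h1 : Real.cos (π / 2 - κ) ≤ Real.cos |φ| :=
    Real.cos_le_cos_of_nonneg_of_le_pi (abs_nonneg φ) (by linarith only [Real.pi_pos, hκ]) hφ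
  rw [Real.cos_pi_div_two_sub] at h1
  exact (Sharp_sin hκ hκ1).trans h1

/-- the truncated cone lies in the window -/
theorem Sharp_sub {c c' ℓ q κ : ℝ} (hℓ : 0 < ℓ) (hκ : 0 < κ)
    (hκ1 : κ ≤ 1 / 4) (hq : 0 < q) (hc : |c' - c| ≤ ℓ / 2 - κ * ℓ) :
    Cn κ c' (2 * q * ℓ / κ) (κ * ℓ) ⊆ Wn c ℓ q := by
  rintro u ⟨h1, h2, h3, h4⟩
  set n : ℝ := ‖u - ⟨0, c'⟩‖ with hn
  have hn0 : 0 < n := lt_trans (by (clear * - hq hℓ hκ; positivity)) h2
  have hn2 : n ^ 2 = u.re ^ 2 + (u.im - c') ^ 2 := by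
    rw [hn, Complex.sq_norm, Complex.normSq_apply]
    simp only [Complex.sub_re, Complex.sub_im, sub_zero]
    ring
  have hs := Sharp_sin hκ hκ1
  have hre : n * Real.sin κ < u.re := by
    have e1 : (u.im - c') ^ 2 < (Real.cos κ * n) ^ 2 := by
      rw [← sq_abs (u.im - c')]
      exact pow_lt_pow_left₀ h4 (abs_nonneg _) two_ne_zero
    have e2 : (n * Real.sin κ) ^ 2 < u.re ^ 2 := by
      have e3 := Real.sin_sq_add_cos_sq κ
      (clear * - hn2 e1 e3; nlinarith only [hn2, e1, e3])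
    exact lt_of_pow_lt_pow_left₀ 2 h1.le e2
  have hre2 : u.re ≤ n := by
    have e2 : u.re ^ 2 ≤ n ^ 2 := by nlinarith only [hn2]
    exact le_of_sq_le_sq e2 hn0.le
  refine ⟨?_, ?_, ?_⟩
  · have e1 : q * ℓ = 2 * q * ℓ / κ * (κ / 2) := by
      field_simp
    have e2 : 2 * q * ℓ / κ * (κ / 2) ≤ n * Real.sin κ :=
      mul_le_mul h2.le hs (by positivity) hn0.le
    (clear * - hre e1 e2; linarith)
  · have e1 : κ * ℓ ≤ ℓ := by nlinarith only [hℓ, hκ1]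
    linarith only [h3, hre2, e1]
  · have e1 : Real.cos κ * n ≤ n := by
      nlinarith only [Real.cos_le_one κ, hn0]
    have e2 : u.im - c = (u.im - c') + (c' - c) := by ring
    have e3 := abs_add_le (u.im - c') (c' - c)
    rw [← e2] at e3
    linarith only [hc, h3, h4, e1, e3]

/-- the average over the upper arc is near the value at the top point -/
theorem Sharp_top (hF : Fn F A) {c c' ℓ q κ : ℝ} (hℓ : 0 < ℓ) (hℓ1 : ℓ ≤ 1) (hκ : 0 < κ)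
    (hκ1 : κ ≤ 1 / 4) (hq : 0 < q) (hq1 : 2 * q < κ ^ 2) (hc : |c' - c| ≤ ℓ / 2 - κ * ℓ) :
    ‖Pa F κ c' (κ * ℓ) - F (zt c ℓ)‖ ≤
      500 * √(ar F (Wn c ℓ q)) * (1 + 2 * Real.log (2 / κ)) := by
  have hκ2 : κ ^ 2 ≤ 1 / 16 := by nlinarith only [hκ, hκ1]
  refine Pa_near hF hκ hκ1 (by (clear * - hκ hℓ; positivity)) fun φ hφ => ?_
  have hcos := Sharp_cos hκ hκ1 hφ
  have hre : κ ^ 2 * ℓ / 2 ≤ κ * ℓ * Real.cos φ := by
    have e1 : κ * ℓ * (κ / 2) ≤ κ * ℓ * Real.cos φ :=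
      mul_le_mul_of_nonneg_left hcos (by positivity)
    (clear * - e1; linarith only [e1])
  have hsin : |κ * ℓ * Real.sin φ| ≤ κ * ℓ := by
    rw [abs_mul, abs_of_pos (by positivity : 0 < κ * ℓ)]
    exact mul_le_of_le_one_right (by positivity) (Real.abs_sin_le_one φ)
  have h1 : q * ℓ ≤ κ * ℓ * Real.cos φ := by
    have e1 : q * ℓ ≤ κ ^ 2 / 2 * ℓ := mul_le_mul_of_nonneg_right (by (clear * - hq1; linarith only [hq1])) hℓ.le
    (clear * - hre e1; linarith)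
  have h2 : κ * ℓ * Real.cos φ ≤ ℓ := by
    have e1 : κ * ℓ * Real.cos φ ≤ κ * ℓ :=
      mul_le_of_le_one_right (by positivity) (Real.cos_le_one φ)
    nlinarith only [hℓ, hκ, hκ2, e1]
  have h3 : |c' + κ * ℓ * Real.sin φ - c| ≤ ℓ / 2 := by
    have e2 : c' + κ * ℓ * Real.sin φ - c = κ * ℓ * Real.sin φ + (c' - c) := by ring
    have e3 := abs_add_le (κ * ℓ * Real.sin φ) (c' - c)
    rw [← e2] at e3
    (clear * - hc hsin e3; linarith only [hc, hsin, e3])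
  have key := hF.osc_top hℓ hℓ1 hq (by linarith only [hq1, hκ2])
    (u := ⟨κ * ℓ * Real.cos φ, c' + κ * ℓ * Real.sin φ⟩) h1 h2 h3
  refine key.trans (mul_le_mul_of_nonneg_left ?_ (by (clear * -; positivity)))
  have hpos : 0 < κ * ℓ * Real.cos φ := lt_of_lt_of_le (by (clear * - hq hℓ; positivity)) h1
  have e1 : ℓ / (κ * ℓ * Real.cos φ) ≤ (2 / κ) ^ 2 := by
    rw [div_le_iff₀ hpos, div_pow]
    have e2 : (2 : ℝ) ^ 2 / κ ^ 2 * (κ ^ 2 * ℓ / 2) = 2 * ℓ := by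
      (clear * - hκ hℓ; field_simp)
    have e3 : (2 : ℝ) ^ 2 / κ ^ 2 * (κ ^ 2 * ℓ / 2) ≤
        (2 : ℝ) ^ 2 / κ ^ 2 * (κ * ℓ * Real.cos φ) :=
      mul_le_mul_of_nonneg_left hre (by (clear * - hκ; positivity))
    (clear * - h2 hpos e2 e3; linarith only [h2, hpos, e2, e3])
  have e4 : Real.log (ℓ / (κ * ℓ * Real.cos φ)) ≤ 2 * Real.log (2 / κ) := by
    have e5 := Real.log_le_log (by (clear * - hℓ hpos; positivity)) e1
    rwa [Real.log_pow, Nat.cast_ofNat] at e5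
  exact add_le_add_right e4 1

/-- the average over the lower arc is near the value at the lower point -/
theorem Sharp_low (hF : Fn F A) {c c' ℓ q κ : ℝ} (hℓ : 0 < ℓ) (hℓ1 : ℓ ≤ 1) (hκ : 0 < κ)
    (hκ1 : κ ≤ 1 / 4) (hq : 0 < q) (hq1 : 2 * q < κ ^ 2) (hc : |c' - c| ≤ ℓ / 2 - κ * ℓ) :
    ‖Pa F κ c' (2 * q * ℓ / κ) - F (zt c' (q * ℓ))‖ ≤
      500 * √(ar F (Wn c ℓ q)) * (1 + 2 * Real.log (2 / κ)) := by
  have hκ2 : κ ^ 2 ≤ 1 / 16 := by nlinarith only [hκ, hκ1]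
  set ρ : ℝ := 2 * q * ℓ / κ with hρ
  have hρ0 : 0 < ρ := by (clear * - hq hℓ hκ; positivity)
  have hρκ : ρ * κ = 2 * q * ℓ := by
    rw [hρ]
    field_simp
  have hρ1 : ρ ≤ κ * ℓ := by
    have e1 : ρ * κ ≤ κ * ℓ * κ := by
      rw [hρκ]
      have e2 : 2 * q * ℓ ≤ κ ^ 2 * ℓ := mul_le_mul_of_nonneg_right hq1.le hℓ.le
      (clear * - e2; linarith only [e2])
    exact le_of_mul_le_mul_right e1 hκ
  have hρ2 : ρ ≤ ℓ := by nlinarith only [hκ, hκ2, hρ0, hρ1]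
  refine Pa_near hF hκ hκ1 hρ0 fun φ hφ => ?_
  have hcos := Sharp_cos hκ hκ1 hφ
  have hre : q * ℓ ≤ ρ * Real.cos φ := by
    have e1 : ρ * (κ / 2) ≤ ρ * Real.cos φ := mul_le_mul_of_nonneg_left hcos hρ0.le
    (clear * - hρκ e1; linarith only [hρκ, e1])
  have hre2 : ρ * Real.cos φ ≤ ρ := mul_le_of_le_one_right hρ0.le (Real.cos_le_one φ)
  have hsin : |ρ * Real.sin φ| ≤ ρ := by
    rw [abs_mul, abs_of_pos hρ0]
    exact mul_le_of_le_one_right hρ0.le (Real.abs_sin_le_one φ)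
  have h3 : |c' + ρ * Real.sin φ - c| ≤ ℓ / 2 := by
    have e2 : c' + ρ * Real.sin φ - c = ρ * Real.sin φ + (c' - c) := by ring
    have e3 := abs_add_le (ρ * Real.sin φ) (c' - c)
    rw [← e2] at e3
    (clear * - hc hρ1 hsin e3; linarith only [hc, hρ1, hsin, e3])
  have k3 : |c' - c| ≤ ℓ / 2 := hc.trans (by linarith only [hρ0, hρ1])
  have hqρ : q * ℓ ≤ ρ := hre.trans hre2
  have huv : |c' + ρ * Real.sin φ - c'| ≤ ρ := by
    rwa [add_sub_cancel_left]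
  have key := hF.osc_two hℓ hℓ1 hq (by linarith only [hq1, hκ2]) (c := c)
    (u := ⟨ρ * Real.cos φ, c' + ρ * Real.sin φ⟩) (v := zt c' (q * ℓ)) (h := ρ) hρ2 hre hre2 h3
    le_rfl hqρ k3 huv
  refine key.trans (mul_le_mul_of_nonneg_left ?_ (by (clear * -; positivity)))
  have hql : 0 < q * ℓ := by positivity
  have hpos : 0 < ρ * Real.cos φ := lt_of_lt_of_le hql hre
  have e1 : ρ / (ρ * Real.cos φ) ≤ 2 / κ := by
    rw [div_le_div_iff₀ hpos hκ]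
    have e2 : ρ * (κ / 2) ≤ ρ * Real.cos φ := mul_le_mul_of_nonneg_left hcos hρ0.le
    (clear * - e2; linarith only [e2])
  have e2 : ρ / (q * ℓ) ≤ 2 / κ := by
    rw [div_le_div_iff₀ hql hκ, hρκ]
    linarith only []
  have e3 := Real.log_le_log (by (clear * - hq hℓ hκ hpos; positivity)) e1
  have e4 := Real.log_le_log (by positivity) e2
  show 1 + Real.log (ρ / (ρ * Real.cos φ)) + Real.log (ρ / (q * ℓ)) ≤ 1 + 2 * Real.log (2 / κ)
  linarith only [e3, e4]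

/-- the average moves little between the two arcs -/
theorem Sharp_mid (hF : Fn F A) {c c' ℓ q κ : ℝ} (hℓ : 0 < ℓ) (hℓ1 : ℓ ≤ 1) (hκ : 0 < κ)
    (hκ1 : κ ≤ 1 / 4) (hq : 0 < q) (hq1 : 2 * q < κ ^ 2) (hc : |c' - c| ≤ ℓ / 2 - κ * ℓ) :
    ‖Pa F κ c' (κ * ℓ) - Pa F κ c' (2 * q * ℓ / κ)‖ ≤
      √(ar F (Wn c ℓ q)) * √(Real.log (1 / q) / (π - 2 * κ)) := by
  have hκ2 : κ ^ 2 ≤ 1 / 16 := by nlinarith only [hκ, hκ1]
  have hρ1 : 2 * q * ℓ / κ ≤ κ * ℓ := by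
    rw [div_le_iff₀ hκ]
    have e2 : 2 * q * ℓ ≤ κ ^ 2 * ℓ := mul_le_mul_of_nonneg_right hq1.le hℓ.le
    (clear * - e2; linarith only [e2])
  have hpi : 0 < π - 2 * κ := by (clear * - hκ1; linarith only [Real.pi_gt_three, hκ1])
  have key := hF.cone (c := c') hκ hκ1 (by (clear * - hq hℓ hκ; positivity)) hρ1 (by (clear * - hκ hκ1 hℓ1; nlinarith only [hℓ1, hκ, hκ1]))
  have hW : Wn c ℓ q ⊆ Bx c ℓ := fun u hu =>
    ⟨lt_trans (by positivity) hu.1, hu.2.1, hu.2.2⟩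
  have har : ar F (Cn κ c' (2 * q * ℓ / κ) (κ * ℓ)) ≤ ar F (Wn c ℓ q) :=
    hF.ar_mono hℓ1 hW (Sharp_sub hℓ hκ hκ1 hq hc)
  have hlog : Real.log (κ * ℓ / (2 * q * ℓ / κ)) ≤ Real.log (1 / q) := by
    refine Real.log_le_log (by (clear * - hκ hℓ hq; positivity)) ?_
    have e1 : κ * ℓ / (2 * q * ℓ / κ) = κ ^ 2 / 2 * (1 / q) := by
      field_simp
    rw [e1]
    exact mul_le_of_le_one_left (by (clear * - hq; positivity)) (by (clear * - hκ2; linarith only [hκ2]))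
  have hlog0 : 0 ≤ Real.log (1 / q) := by
    refine Real.log_nonneg ?_
    rw [le_div_iff₀ hq]
    (clear * - hq1 hκ2; linarith only [hq1, hκ2])
  have har0 : 0 ≤ ar F (Wn c ℓ q) := ENNReal.toReal_nonneg
  have har1 : 0 ≤ ar F (Cn κ c' (2 * q * ℓ / κ) (κ * ℓ)) := ENNReal.toReal_nonneg
  rw [← Real.sqrt_mul har0]
  refine Real.le_sqrt_of_sq_le (key.trans ?_)
  rw [mul_comm (ar F (Wn c ℓ q))]
  exact mul_le_mul (div_le_div_of_nonneg_right hlog hpi.le) har har1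
    (div_nonneg hlog0 hpi.le)

theorem Fn.sharp (hF : Fn F A) {c c' ℓ q κ : ℝ} (hℓ : 0 < ℓ) (hℓ1 : ℓ ≤ 1) (hκ : 0 < κ)
    (hκ1 : κ ≤ 1 / 4) (hq : 0 < q) (hq1 : 2 * q < κ ^ 2) (hc : |c' - c| ≤ ℓ / 2 - κ * ℓ) :
    ‖F (zt c' (q * ℓ)) - F (zt c ℓ)‖ ≤
      √(ar F (Wn c ℓ q)) * sS κ (Real.log (1 / q)) := by
  have h1 := Sharp_top hF hℓ hℓ1 hκ hκ1 hq hq1 hc
  have h2 := Sharp_low hF hℓ hℓ1 hκ hκ1 hq hq1 hc
  have h3 := Sharp_mid hF hℓ hℓ1 hκ hκ1 hq hq1 hc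
  have e1 : F (zt c' (q * ℓ)) - F (zt c ℓ) =
      -(Pa F κ c' (2 * q * ℓ / κ) - F (zt c' (q * ℓ))) -
        (Pa F κ c' (κ * ℓ) - Pa F κ c' (2 * q * ℓ / κ)) +
          (Pa F κ c' (κ * ℓ) - F (zt c ℓ)) := by ring
  have e2 : ‖F (zt c' (q * ℓ)) - F (zt c ℓ)‖ ≤
      ‖Pa F κ c' (2 * q * ℓ / κ) - F (zt c' (q * ℓ))‖ +
        ‖Pa F κ c' (κ * ℓ) - Pa F κ c' (2 * q * ℓ / κ)‖ +
          ‖Pa F κ c' (κ * ℓ) - F (zt c ℓ)‖ := by
    rw [e1]
    refine (norm_add_le _ _).trans (add_le_add_left ((norm_sub_le _ _).trans ?_) _)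
    rw [norm_neg]
  unfold sS
  linarith only [h1, h2, h3, e2]

end Pool.Agent.Helper90.G2
end

/- Helper24.KR.H90.G2.Window -/
section
/-!
# G2-WINDOW: the recursion over a window of `M` generations

`N = 2^M`, `R = 500 (1 + log N)`, `ar = ar F (Wn c ℓ (1/N))`, `r = R √ar`, `S = (sS κ (log N))²`,
`K = cK M ε = 9 π R² N / (4 ε) ≥ 1`, `η = ε / K`, `a = e^(δ² K) - 1 ≤ 2 δ² K`, `g = e^(δ m)` with
`m = δ (1 + 32 δ) π S / (4 (1 - ε))`, `c = C2 δ² M`. `rec_real` with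
`Vp d = Vc`, `w = Vw`. (h2): `Fn.kids_move` with `m := δ K`, `s := r`:
`er δ (δ K) r = (1 + 32 δ) π R² ar / (4 K) (r / (δ K))^(-δ) ≤ (ε / N) ar r^(-δ) ≤ (ε/N) w` (`1 + 32 δ ≤ 9`,
`δ K ≤ 1`). (h3): `Cen` gives `|ch - c| ≤ ℓ/2 - κ ℓ`, `Fn.sharp` with `q = 1/N`, `Fn.kids_move` with
`s := √S √ar`: `er δ m s = (1 - ε) ar (s / m)^(-δ) ≤ (1 - ε) ar r^(-δ)` because `m ≤ √S / R`.
(h4): `Fn.crudeM`. `hδ3`: `δ² ≤ ε / (4 K²)` gives `a ≤ η / 2`; also `a η ≤ 2 δ² ε`. Final factor: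
`g + a η + c (2 η + ε) ≤ exp (δ m + 2 δ² ε + 3 ε c)`.
-/

set_option autoImplicit false

namespace Pool.Agent.Helper90.G2

open MeasureTheory Set
open scoped Real

variable {F : ℂ → ℂ} {A : ℝ}

/-- the constant `K` -/
noncomputable def cK (M : ℕ) (ε : ℝ) : ℝ :=
  9 * π * (500 * (1 + Real.log ((2 ^ M : ℕ) : ℝ))) ^ 2 * ((2 ^ M : ℕ) : ℝ) / (4 * ε)

/-- the constant `m / δ` -/
noncomputable def cm (M : ℕ) (κ ε δ : ℝ) : ℝ :=
  (1 + 32 * δ) * π * sS κ (Real.log ((2 ^ M : ℕ) : ℝ)) ^ 2 / (4 * (1 - ε))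

theorem Window_sS {κ L : ℝ} (hκ : 0 < κ) (hκ1 : κ ≤ 1 / 4) : 0 < sS κ L := by
  have h1 : 0 ≤ Real.log (2 / κ) := by
    refine Real.log_nonneg ?_
    rw [le_div_iff₀ hκ]
    (clear * - hκ hκ1; linarith)
  have h2 := Real.sqrt_nonneg (L / (π - 2 * κ))
  unfold sS
  linarith only [h1, h2]

/-- the error of a move in the whole window -/
theorem Window_er1 {δ K R a0 ε N : ℝ} (h0 : 0 < δ) (h1 : δ ≤ 1 / 4) (hε : 0 < ε) (hN : 0 < N)
    (hR : 0 < R) (ha : 0 < a0) (hK : K = 9 * π * R ^ 2 * N / (4 * ε)) (hδK : δ * K ≤ 1) :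
    er δ (δ * K) (R * √a0) ≤ ε / N * (a0 * (R * √a0) ^ (-δ)) := by
  have hπ := Real.pi_pos
  have hK0 : 0 < K := by rw [hK]; (clear * - hR hN hε; positivity)
  have hs : √a0 ^ 2 = a0 := Real.sq_sqrt ha.le
  have hs0 : 0 < √a0 := Real.sqrt_pos.2 ha
  have hr : 0 < R * √a0 := mul_pos hR hs0
  have hm : 0 < δ * K := mul_pos h0 hK0
  have e1 : (R * √a0 / (δ * K)) ^ (-δ) ≤ (R * √a0) ^ (-δ) := by
    refine Real.rpow_le_rpow_of_nonpos hr ?_ (by linarith only [h0])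
    rw [le_div_iff₀ hm]
    (clear * - hδK hr; nlinarith only [hδK, hr])
  have e2 : δ * (1 + 32 * δ) * (π * (R * √a0) ^ 2 / (4 * (δ * K))) =
      (1 + 32 * δ) / 9 * (ε / N * a0) := by
    rw [mul_pow, hs, hK]
    field_simp
  have h9 : (1 + 32 * δ) / 9 ≤ 1 := by linarith only [h1]
  have hp : 0 ≤ (R * √a0) ^ (-δ) := Real.rpow_nonneg hr.le _
  have hq : 0 ≤ ε / N * a0 := by (clear * - hε hN ha; positivity)
  have h90 : 0 ≤ (1 + 32 * δ) / 9 := by positivity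
  unfold er
  rw [e2]
  calc (1 + 32 * δ) / 9 * (ε / N * a0) * (R * √a0 / (δ * K)) ^ (-δ)
      ≤ (1 + 32 * δ) / 9 * (ε / N * a0) * (R * √a0) ^ (-δ) :=
        mul_le_mul_of_nonneg_left e1 (mul_nonneg h90 hq)
    _ ≤ 1 * (ε / N * a0) * (R * √a0) ^ (-δ) :=
        mul_le_mul_of_nonneg_right (mul_le_mul_of_nonneg_right h9 hq) hp
    _ = ε / N * (a0 * (R * √a0) ^ (-δ)) := by ring

/-- the error of a sharp move -/
theorem Window_er2 {δ m R a0 ε S : ℝ} (h0 : 0 < δ) (hε1 : ε < 1) (hR : 0 < R) (ha : 0 < a0)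
    (hS : 0 < S) (hm : m = (1 + 32 * δ) * π * S ^ 2 / (4 * (1 - ε))) (h5 : δ * m * R ≤ S) :
    er δ (δ * m) (√a0 * S) ≤ (1 - ε) * (a0 * (R * √a0) ^ (-δ)) := by
  have hπ := Real.pi_pos
  have hε' : 0 < 1 - ε := by (clear * - hε1; linarith only [hε1])
  have hm0 : 0 < m := by rw [hm]; (clear * - h0 hS hε1; positivity)
  have hs : √a0 ^ 2 = a0 := Real.sq_sqrt ha.le
  have hs0 : 0 < √a0 := Real.sqrt_pos.2 ha
  have hr : 0 < R * √a0 := mul_pos hR hs0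
  have hdm : 0 < δ * m := mul_pos h0 hm0
  have e1 : (√a0 * S / (δ * m)) ^ (-δ) ≤ (R * √a0) ^ (-δ) := by
    refine Real.rpow_le_rpow_of_nonpos hr ?_ (by linarith only [h0])
    rw [le_div_iff₀ hdm]
    (clear * - h5 hs0; nlinarith only [h5, hs0])
  have e2 : δ * (1 + 32 * δ) * (π * (√a0 * S) ^ 2 / (4 * (δ * m))) = (1 - ε) * a0 := by
    rw [mul_pow, hs, hm]
    field_simp
  unfold er
  rw [e2, mul_assoc (1 - ε) a0]
  exact mul_le_mul_of_nonneg_left (mul_le_mul_of_nonneg_left e1 ha.le) hε'.le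

theorem Window_cen {κ c ℓ : ℝ} (hℓ : 0 < ℓ) {N d : ℕ} (h : Cen κ N d) :
    |ch N c ℓ d - c| ≤ ℓ / 2 - κ * ℓ := by
  unfold Cen at h
  have e : ch N c ℓ d - c = (((d : ℝ) + 1 / 2) / N - 1 / 2) * ℓ := by
    unfold ch; ring
  rw [e, abs_mul, abs_of_pos hℓ]
  calc |((d : ℝ) + 1 / 2) / N - 1 / 2| * ℓ ≤ (1 / 2 - κ) * ℓ :=
        mul_le_mul_of_nonneg_right h hℓ.le
    _ = ℓ / 2 - κ * ℓ := by ring

/-- moving the point in the whole window (for every child) -/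
theorem Window_move (hF : Fn F A) {ε : ℝ} {N : ℕ} (hN2 : 2 ≤ N) (hε : 0 < ε) {δ K : ℝ}
    (h0 : 0 < δ) (h14 : δ ≤ 1 / 4)
    (hK : K = 9 * π * (500 * (1 + Real.log N)) ^ 2 * N / (4 * ε)) (h2 : δ * K ≤ 1)
    {c ℓ : ℝ} (hℓ : 0 < ℓ) (hℓ1 : ℓ ≤ 1) {d : ℕ} (hd : d < N) :
    V F δ (ch N c ℓ d) (ℓ / N) ≤ (1 + (Real.exp (δ ^ 2 * K) - 1)) * Vc F δ c ℓ N d +
      ε / N * Vw F δ c ℓ N := by
  have hNr0 : (0 : ℝ) < N := by
    have : 0 < N := by omega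
    exact_mod_cast this
  have hlog : 0 ≤ Real.log N := Real.log_natCast_nonneg N
  have hR : 0 < 500 * (1 + Real.log N) := by linarith only [hlog]
  obtain ⟨hq, hq1⟩ := one_div_N hN2
  have hpos := hF.ar_pos (c := c) hℓ hℓ1 hq hq1
  have hK0 : 0 < K := by rw [hK]; (clear * - hN2 hε; positivity)
  have hloss := hF.loss (c := c) h0 (by linarith only [h14] : δ ≤ 1) hℓ hℓ1 hN2
  have k1 := hF.kids_move (m := δ * K) (s := 500 * (1 + Real.log N) *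
    √(ar F (Wn c ℓ (1 / N)))) (by (clear * - h0 hK0; positivity)) h2 h0 h14
    (mul_pos hR (Real.sqrt_pos.2 hpos)) hℓ hℓ1 hN2 hd (hF.kids_rad hℓ hℓ1 hN2 hd)
  have k2 := Window_er1 (N := N) h0 h14 hε hNr0 hR hpos hK h2
  have k3 : ε / N * (ar F (Wn c ℓ (1 / N)) *
      (500 * (1 + Real.log N) * √(ar F (Wn c ℓ (1 / N)))) ^ (-δ)) ≤
      ε / N * Vw F δ c ℓ N := mul_le_mul_of_nonneg_left hloss (by positivity)
  have e : Real.exp (δ * (δ * K)) = 1 + (Real.exp (δ ^ 2 * K) - 1) := by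
    rw [show δ * (δ * K) = δ ^ 2 * K by ring]; ring
  rw [e] at k1
  linarith only [k1, k2, k3]

/-- `Window_move` for `N = 2^M`, `K = cK M ε` -/
theorem Fn.window_move (hF : Fn F A) {ε : ℝ} {M : ℕ} (hM : 1 ≤ M) (hε : 0 < ε) {δ : ℝ}
    (h0 : 0 < δ) (h14 : δ ≤ 1 / 4) (h2 : δ * cK M ε ≤ 1)
    {c ℓ : ℝ} (hℓ : 0 < ℓ) (hℓ1 : ℓ ≤ 1) {d : ℕ} (hd : d < 2 ^ M) :
    V F δ (ch (2 ^ M) c ℓ d) (ℓ / ((2 ^ M : ℕ) : ℝ)) ≤
      (1 + (Real.exp (δ ^ 2 * cK M ε) - 1)) * Vc F δ c ℓ (2 ^ M) d +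
        ε / ((2 ^ M : ℕ) : ℝ) * Vw F δ c ℓ (2 ^ M) := by
  have hN2 : 2 ≤ 2 ^ M := by
    calc 2 = 2 ^ 1 := by norm_num
      _ ≤ 2 ^ M := Nat.pow_le_pow_right (by norm_num) hM
  exact Window_move (K := cK M ε) hF hN2 hε h0 h14 rfl h2 hℓ hℓ1 hd

/-- moving the point of a central child -/
theorem Window_sharp (hF : Fn F A) {κ ε : ℝ} {N : ℕ} (hN2 : 2 ≤ N) (hκ : 0 < κ) (hκ1 : κ ≤ 1 / 4)
    (hε1 : ε < 1) (hM : 2 / (N : ℝ) < κ ^ 2) {δ m : ℝ} (h0 : 0 < δ) (h14 : δ ≤ 1 / 4)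
    (hm : m = (1 + 32 * δ) * π * sS κ (Real.log N) ^ 2 / (4 * (1 - ε))) (h4 : δ * m ≤ 1)
    (h5 : δ * m * (500 * (1 + Real.log N)) ≤ sS κ (Real.log N))
    {c ℓ : ℝ} (hℓ : 0 < ℓ) (hℓ1 : ℓ ≤ 1) {d : ℕ} (hd : d < N) (hcen : Cen κ N d) :
    V F δ (ch N c ℓ d) (ℓ / N) ≤ Real.exp (δ * (δ * m)) * Vc F δ c ℓ N d +
      (1 - ε) * Vw F δ c ℓ N := by
  have hπ3 := Real.pi_gt_three
  have hlog : 0 ≤ Real.log N := Real.log_natCast_nonneg N
  have hR : 0 < 500 * (1 + Real.log N) := by linarith only [hlog]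
  obtain ⟨hq, hq1⟩ := one_div_N hN2
  have hpos := hF.ar_pos (c := c) hℓ hℓ1 hq hq1
  have hS : 0 < sS κ (Real.log N) := Window_sS hκ hκ1
  have hε' : 0 < 1 - ε := by (clear * - hε1; linarith only [hε1])
  have hm0 : 0 < m := by rw [hm]; (clear * - h0 hS hε1; positivity)
  have hloss := hF.loss (c := c) h0 (by linarith only [h14] : δ ≤ 1) hℓ hℓ1 hN2
  have hsh := hF.sharp (c := c) (c' := ch N c ℓ d) hℓ hℓ1 hκ hκ1 hq
    (by rw [mul_one_div]; exact hM) (Window_cen hℓ hcen)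
  rw [one_div_one_div, one_div_mul_eq_div] at hsh
  have k1 := hF.kids_move (m := δ * m) (by (clear * - h0 hm0; positivity)) h4 h0 h14
    (mul_pos (Real.sqrt_pos.2 hpos) hS) hℓ hℓ1 hN2 hd hsh
  have k2 := Window_er2 h0 hε1 hR hpos hS hm h5
  have k3 : (1 - ε) * (ar F (Wn c ℓ (1 / N)) *
      (500 * (1 + Real.log N) * √(ar F (Wn c ℓ (1 / N)))) ^ (-δ)) ≤
      (1 - ε) * Vw F δ c ℓ N := mul_le_mul_of_nonneg_left hloss hε'.le
  (clear * - k1 k2 k3; linarith only [k1, k2, k3])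

/-- the window inequality with the constants as parameters -/
theorem Window_aux (hF : Fn F A) {κ ε : ℝ} {N : ℕ} (hN2 : 2 ≤ N) (hκ : 0 < κ) (hκ1 : κ ≤ 1 / 4)
    (hε : 0 < ε) (hε1 : ε ≤ 1 / 2) (hM : 2 / (N : ℝ) < κ ^ 2) {δ K m c' θ : ℝ} (h0 : 0 < δ)
    (h14 : δ ≤ 1 / 4) (hK : K = 9 * π * (500 * (1 + Real.log N)) ^ 2 * N / (4 * ε))
    (hm : m = (1 + 32 * δ) * π * sS κ (Real.log N) ^ 2 / (4 * (1 - ε)))
    (h2 : δ * K ≤ 1) (h3 : 4 * δ ^ 2 * K ^ 2 ≤ ε) (h4 : δ * m ≤ 1)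
    (h5 : δ * m * (500 * (1 + Real.log N)) ≤ sS κ (Real.log N)) (hc' : 0 ≤ c')
    (hθ : 2 * c' * K / ε ≤ θ) {c ℓ : ℝ} (hℓ : 0 < ℓ) (hℓ1 : ℓ ≤ 1)
    (hcr : ∑ d ∈ Finset.range N, V F δ (ch N c ℓ d) (ℓ / N) ≤ Real.exp c' * V F δ c ℓ) :
    ∑ d ∈ Finset.range N, chi κ c' N d * V F δ (ch N c ℓ d) (ℓ / N) ^ (1 + θ) ≤
      Real.exp (c' * θ + δ ^ 2 * m + 2 * δ ^ 2 * ε + 3 * ε * c') * V F δ c ℓ ^ (1 + θ) := by
  have hπ3 := Real.pi_gt_three
  have hNr : (2 : ℝ) ≤ N := by exact_mod_cast hN2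
  have hNr0 : (0 : ℝ) < N := by (clear * - hNr; linarith only [hNr])
  have hlog : 0 ≤ Real.log N := Real.log_natCast_nonneg N
  have hR1 : (1 : ℝ) ≤ 500 * (1 + Real.log N) := by (clear * - hlog; linarith only [hlog])
  have hR : 0 < 500 * (1 + Real.log N) := by (clear * - hR1; linarith only [hR1])
  have hS : 0 < sS κ (Real.log N) := Window_sS hκ hκ1
  have hε' : 0 < 1 - ε := by linarith only [hε1]
  have hK1 : 1 ≤ K := by
    rw [hK, le_div_iff₀ (by (clear * - hε; positivity))]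
    have a1 : (1:ℝ) ≤ (500 * (1 + Real.log N)) ^ 2 := one_le_pow₀ hR1
    have a2 : (1:ℝ) ≤ (500 * (1 + Real.log N)) ^ 2 * N :=
      one_le_mul_of_one_le_of_one_le a1 (by (clear * - hNr; linarith only [hNr]))
    (clear * - hπ3 hε' a2; nlinarith only [hπ3, hε', a2])
  have hK0 : 0 < K := by linarith only [hK1]
  have hm0 : 0 < m := by rw [hm]; (clear * - h0 hS hε'; positivity)
  -- smallness of `δ² K`
  have hx0 : 0 ≤ δ ^ 2 * K := by (clear * - h0 hK1; positivity)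
  have hx1 : δ ^ 2 * K ≤ ε / (4 * K) := by
    rw [le_div_iff₀ (by positivity)]
    calc δ ^ 2 * K * (4 * K) = 4 * δ ^ 2 * K ^ 2 := by ring
      _ ≤ ε := h3
  have hη1 : ε / K ≤ ε := div_le_self hε.le hK1
  have hη0 : 0 ≤ ε / K := by (clear * - hε hK1; positivity)
  have hx2 : δ ^ 2 * K ≤ 1 / 8 := by
    have e : ε / (4 * K) = ε / K / 4 := by field_simp
    rw [e] at hx1
    (clear * - hε1 hx1 hη1; linarith only [hε1, hx1, hη1])
  have ha0 : 0 ≤ Real.exp (δ ^ 2 * K) - 1 := by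
    have := Real.add_one_le_exp (δ ^ 2 * K)
    linarith only [hx0, this]
  have ha2 : Real.exp (δ ^ 2 * K) - 1 ≤ 2 * (δ ^ 2 * K) := by
    have hb := Real.exp_bound_div_one_sub_of_interval hx0 (by linarith only [hx2] : δ ^ 2 * K < 1)
    have hc : 1 / (1 - δ ^ 2 * K) ≤ 1 + 2 * (δ ^ 2 * K) := by
      rw [div_le_iff₀ (by linarith only [hx2])]
      (clear * - hx0 hx2; nlinarith only [hx0, hx2])
    linarith only [hb, hc]
  have haη : Real.exp (δ ^ 2 * K) - 1 ≤ ε / K / 2 := by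
    have e : ε / K / 2 = 2 * (ε / (4 * K)) := by field_simp; norm_num
    rw [e]
    (clear * - hx1 ha2; linarith only [hx1, ha2])
  have hθ0 : 0 ≤ θ := le_trans (by (clear * - hc' hK1 hε; positivity)) hθ
  have hcθ : c' ≤ θ * (ε / K / 2) := by
    have e : c' = 2 * c' * K / ε * (ε / K / 2) := by (clear * - hK1 hε; field_simp)
    calc c' = 2 * c' * K / ε * (ε / K / 2) := e
      _ ≤ θ * (ε / K / 2) := mul_le_mul_of_nonneg_right hθ (by (clear * - hε hK1; positivity))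
  have hw : 0 ≤ Vw F δ c ℓ N := vp_nonneg _ _ _
  have hrec := rec_real (κ := κ) (g := Real.exp (δ * (δ * m))) (c := c') (ε := ε) (η := ε / K)
    (θ := θ) (a := Real.exp (δ ^ 2 * K) - 1) (w := Vw F δ c ℓ N) (v := V F δ c ℓ)
    (by omega : 0 < N) (fun d => Vc F δ c ℓ N d)
    (fun d => V F δ (ch N c ℓ d) (ℓ / N)) hw ha0 (by linarith only [hx2, ha2]) haη
    (Real.one_le_exp (by (clear * - h0 hm0; positivity))) hc' hε.le (by linarith only [hε']) hη0 (by linarith only [hε', hη1]) hθ0 hcθ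
    (fun d _ => vp_nonneg _ _ _) (fun d _ => vp_nonneg _ _ _)
    (hF.kids_add h0 (by linarith only [h14]) hℓ hℓ1 hN2) ?_ ?_ hcr
  · refine hrec.trans ?_
    have hv : 0 ≤ V F δ c ℓ ^ (1 + θ) := Real.rpow_nonneg (vp_nonneg _ _ _) _
    refine mul_le_mul_of_nonneg_right ?_ hv
    have hg1 : 1 ≤ Real.exp (δ * (δ * m)) := Real.one_le_exp (by (clear * - h0 hm0; positivity))
    have b1 : (Real.exp (δ ^ 2 * K) - 1) * (ε / K) ≤ 2 * δ ^ 2 * ε := by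
      calc (Real.exp (δ ^ 2 * K) - 1) * (ε / K) ≤ 2 * (δ ^ 2 * K) * (ε / K) :=
            mul_le_mul_of_nonneg_right ha2 hη0
        _ = 2 * δ ^ 2 * ε := by (clear * - hK1 hε h0; field_simp)
    have b2 : c' * (2 * (ε / K) + ε) ≤ 3 * ε * c' := by (clear * - hc' hη1; nlinarith only [hc', hη1])
    have b3 : 0 ≤ 2 * δ ^ 2 * ε + 3 * ε * c' := by (clear * - h0 hε hc'; positivity)
    have b4 : Real.exp (δ * (δ * m)) + (Real.exp (δ ^ 2 * K) - 1) * (ε / K) +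
        c' * (2 * (ε / K) + ε) ≤
        Real.exp (δ * (δ * m)) * Real.exp (2 * δ ^ 2 * ε + 3 * ε * c') := by
      have b5 := Real.add_one_le_exp (2 * δ ^ 2 * ε + 3 * ε * c')
      nlinarith only [hg1, b1, b2, b3, b5]
    calc Real.exp (c' * θ) * (Real.exp (δ * (δ * m)) +
          (Real.exp (δ ^ 2 * K) - 1) * (ε / K) + c' * (2 * (ε / K) + ε))
        ≤ Real.exp (c' * θ) *
          (Real.exp (δ * (δ * m)) * Real.exp (2 * δ ^ 2 * ε + 3 * ε * c')) :=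
          mul_le_mul_of_nonneg_left b4 (Real.exp_pos _).le
      _ = Real.exp (c' * θ + δ ^ 2 * m + 2 * δ ^ 2 * ε + 3 * ε * c') := by
          rw [← Real.exp_add, ← Real.exp_add]
          congr 1
          ring
  · intro d hd
    exact Window_move hF hN2 hε h0 h14 hK h2 hℓ hℓ1 hd
  · intro d hd hcen
    exact Window_sharp hF hN2 hκ hκ1 (by linarith only [hε']) hM h0 h14 hm h4 h5 hℓ hℓ1 hd hcen

theorem Fn.window (hF : Fn F A) {κ ε : ℝ} {M : ℕ} (hκ : 0 < κ) (hκ1 : κ ≤ 1 / 4) (hε : 0 < ε)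
    (hε1 : ε ≤ 1 / 2) (hM : 2 / ((2 ^ M : ℕ) : ℝ) < κ ^ 2) {δ : ℝ} (h0 : 0 < δ)
    (h1 : δ ≤ 1 / C2) (h2 : δ * cK M ε ≤ 1) (h3 : 4 * δ ^ 2 * cK M ε ^ 2 ≤ ε)
    (h4 : δ * cm M κ ε δ ≤ 1)
    (h5 : δ * cm M κ ε δ * (500 * (1 + Real.log ((2 ^ M : ℕ) : ℝ))) ≤
      sS κ (Real.log ((2 ^ M : ℕ) : ℝ)))
    {θ : ℝ} (hθ : 2 * C2 * M * cK M ε / ε * δ ^ 2 ≤ θ) {c ℓ : ℝ} (hℓ : 0 < ℓ) (hℓ1 : ℓ ≤ 1) :
    ∑ d ∈ Finset.range (2 ^ M), chi κ (C2 * δ ^ 2 * M) (2 ^ M) d *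
        V F δ (ch (2 ^ M) c ℓ d) (ℓ / ((2 ^ M : ℕ) : ℝ)) ^ (1 + θ) ≤
      Real.exp (C2 * δ ^ 2 * M * θ + δ ^ 2 * cm M κ ε δ + 2 * δ ^ 2 * ε +
        3 * ε * (C2 * δ ^ 2 * M)) * V F δ c ℓ ^ (1 + θ) := by
  have hC2 : (0:ℝ) < C2 := by unfold C2; norm_num
  have h14 : δ ≤ 1 / 4 := by
    refine h1.trans ?_
    unfold C2
    norm_num
  have hN2 : 2 ≤ 2 ^ M := by
    rcases Nat.eq_zero_or_pos M with h | h
    · subst h
      exfalso
      norm_num at hM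
      nlinarith only [hκ, hκ1, hM]
    · calc 2 = 2 ^ 1 := by norm_num
        _ ≤ 2 ^ M := Nat.pow_le_pow_right (by norm_num) h
  refine Window_aux (K := cK M ε) (m := cm M κ ε δ) hF hN2 hκ hκ1 hε hε1 hM h0 h14 rfl rfl h2 h3
    h4 h5 (by (clear * - hC2 h0; positivity)) ?_ hℓ hℓ1 (hF.crudeM h0 h1 M hℓ hℓ1)
  refine le_trans (le_of_eq ?_) hθ
  ring

end Pool.Agent.Helper90.G2
end

/- Helper24.KR.H90.G2.Param -/
section
/-!
# G2-PARAM: choice of the parameters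

`L = log (2^M) = M log 2`. As `M → ∞`, `sS κ L² / L → 1 / (π - 2 κ)`, so
`cm M κ ε' δ / L → (1 + 32 δ) π / (4 (π - 2 κ) (1 - ε'))`. Choose `κ` (small, also
`6 κ C2 / log 2 ≤ ε`), `ε'` small (`3 ε' C2 / log 2 ≤ ε / 8` etc.), then `M` large (also `κ 2^M ≥ 2`,
`2 / 2^M < κ²`), then `δ₀` small (depending on everything), `Cθ = 2 C2 M cK / ε'`. With `θ ≤ δ` the
exponent of `Fn.window` is at most `(1/4 + ε) δ² log (2^M)`.
-/

set_option autoImplicit false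

namespace Pool.Agent.Helper90.G2

open MeasureTheory Set
open scoped Real

theorem Param_log2 : 0 < Real.log 2 ∧ Real.log 2 < 1 := by
  refine ⟨Real.log_pos (by norm_num), ?_⟩
  have h := Real.log_two_lt_d9
  (clear * - h; linarith only [h])

theorem Param_C2 : (C2 : ℝ) = 1200000 := rfl

/-- `κ` and the size of the logarithm -/
theorem Param_kap {e : ℝ} (he : 0 < e) (he1 : e ≤ 1) :
    ∃ κ : ℝ, 0 < κ ∧ κ ≤ 1 / 4 ∧ 6 * κ * (C2 / Real.log 2) ≤ e ∧ ∃ L₀ : ℝ, ∀ L : ℝ, 0 < L →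
      L₀ ≤ L → π * sS κ L ^ 2 ≤ (1 + e / 2) * L := by
  obtain ⟨hl0, hl1⟩ := Param_log2
  have hC := Param_C2
  have hπ := Real.pi_gt_three
  have hκe : e * Real.log 2 / (6 * C2) ≤ e / 10 := by
    rw [hC, div_le_div_iff₀ (by norm_num) (by norm_num)]
    nlinarith only [he, hl1]
  refine ⟨e * Real.log 2 / (6 * C2), by rw [hC]; (clear * - he; positivity), by (clear * - he1 hl0 hl1 hκe; linarith), le_of_eq ?_, ?_⟩
  · rw [hC]
    (clear * - he; field_simp)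
  set κ : ℝ := e * Real.log 2 / (6 * C2)
  have hκ0 : 0 ≤ κ := by
    have : 0 < κ := by
      show 0 < e * Real.log 2 / (6 * C2)
      rw [hC]
      positivity
    exact this.le
  have hp : 0 < π - 2 * κ := by linarith only [he1, hπ, hκe]
  have hc : π * (π - 2 * κ)⁻¹ ≤ 1 + e / 4 := by
    rw [← div_eq_mul_inv, div_le_iff₀ hp]
    (clear * - hκe hκ0 he1 hπ; nlinarith only [he1, hπ, hκe, hκ0])
  have hB0 : (0 : ℝ) ≤ (1000 * (1 + 2 * Real.log (2 / κ))) ^ 2 := sq_nonneg _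
  refine ⟨32 * π * (1 + 8 / e) * (1000 * (1 + 2 * Real.log (2 / κ))) ^ 2 / (3 * e),
    fun L hL hL0 => ?_⟩
  rw [div_le_iff₀ (by positivity)] at hL0
  unfold sS
  set B : ℝ := 1000 * (1 + 2 * Real.log (2 / κ))
  set x : ℝ := √(L / (π - 2 * κ)) with hx
  have hx2 : x ^ 2 = L * (π - 2 * κ)⁻¹ := by
    rw [hx, Real.sq_sqrt (by (clear * - hL hp; positivity)), div_eq_mul_inv]
  have h1 : (x + B) ^ 2 ≤ (1 + e / 8) * x ^ 2 + (1 + 8 / e) * B ^ 2 := by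
    have h2 : 2 * x * B ≤ e / 8 * x ^ 2 + 8 / e * B ^ 2 := by
      have h3 : e / 8 * x ^ 2 + 8 / e * B ^ 2 - 2 * x * B = (e * x - 8 * B) ^ 2 / (8 * e) := by
        field_simp
        ring
      have h4 : 0 ≤ (e * x - 8 * B) ^ 2 / (8 * e) := by (clear * - he; positivity)
      linarith only [h3, h4]
    linarith only [h2]
  have h5 : π * x ^ 2 ≤ (1 + e / 4) * L := by
    rw [hx2]
    calc π * (L * (π - 2 * κ)⁻¹) = π * (π - 2 * κ)⁻¹ * L := by ring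
      _ ≤ (1 + e / 4) * L := mul_le_mul_of_nonneg_right hc hL.le
  have h6 : (1 + e / 8) * (π * x ^ 2) ≤ (1 + e / 8) * ((1 + e / 4) * L) :=
    mul_le_mul_of_nonneg_left h5 (by (clear * - he; positivity))
  calc π * (x + B) ^ 2 ≤ π * ((1 + e / 8) * x ^ 2 + (1 + 8 / e) * B ^ 2) :=
        mul_le_mul_of_nonneg_left h1 Real.pi_pos.le
    _ = (1 + e / 8) * (π * x ^ 2) + π * (1 + 8 / e) * B ^ 2 := by ring
    _ ≤ (1 + e / 8) * ((1 + e / 4) * L) + 3 * e / 32 * L := by linarith only [hL0, h6]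
    _ ≤ (1 + e / 2) * L := by
        have h7 : e * (e * L) ≤ 1 * (e * L) := mul_le_mul_of_nonneg_right he1 (mul_pos he hL).le
        linarith only [h7]

/-- the number of generations -/
theorem Param_M {κ : ℝ} (hκ : 0 < κ) (hκ1 : κ ≤ 1 / 4) (L₀ : ℝ) : ∃ M : ℕ, 1 ≤ M ∧
    2 ≤ κ * ((2 ^ M : ℕ) : ℝ) ∧ 2 / ((2 ^ M : ℕ) : ℝ) < κ ^ 2 ∧
      L₀ ≤ Real.log ((2 ^ M : ℕ) : ℝ) := by
  obtain ⟨hl0, -⟩ := Param_log2
  obtain ⟨M, hM⟩ := exists_nat_gt (1 + 2 / κ ^ 2 + |L₀| / Real.log 2)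
  have h1 : 0 < 2 / κ ^ 2 := by positivity
  have h2 : 0 ≤ |L₀| / Real.log 2 := div_nonneg (abs_nonneg _) hl0.le
  have hM2 : (M : ℝ) < ((2 ^ M : ℕ) : ℝ) := by exact_mod_cast Nat.lt_two_pow_self
  have h3 : 2 / κ ^ 2 < ((2 ^ M : ℕ) : ℝ) := by linarith only [hM, h2, hM2]
  have h4 : 2 < κ ^ 2 * ((2 ^ M : ℕ) : ℝ) := by
    rw [div_lt_iff₀ (by positivity)] at h3
    (clear * - h3; linarith only [h3])
  have h5 : (0 : ℝ) < ((2 ^ M : ℕ) : ℝ) := by positivity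
  refine ⟨M, ?_, ?_, ?_, ?_⟩
  · have : (1 : ℝ) ≤ M := by (clear * - hM h1 h2; linarith only [hM, h1, h2])
    exact_mod_cast this
  · have h6 : κ ^ 2 * ((2 ^ M : ℕ) : ℝ) ≤ κ * ((2 ^ M : ℕ) : ℝ) :=
      mul_le_mul_of_nonneg_right (by (clear * - hκ hκ1; nlinarith only [hκ, hκ1])) h5.le
    linarith only [h4, h6]
  · rw [div_lt_iff₀ h5]
    (clear * - h4; linarith only [h4])
  · rw [Nat.cast_pow, Real.log_pow]
    have h6 : |L₀| / Real.log 2 ≤ M := by linarith only [hM, h1]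
    rw [div_le_iff₀ hl0] at h6
    exact (le_abs_self L₀).trans (by simpa using h6)

theorem Param_log (M : ℕ) : Real.log ((2 ^ M : ℕ) : ℝ) = M * Real.log 2 := by
  rw [Nat.cast_pow, Real.log_pow]
  norm_num

theorem Param_small {X Y : ℝ} (hY : 0 < Y) : ∀ᶠ δ : ℝ in nhdsWithin 0 (Ioi 0), δ * X ≤ Y := by
  have h : Filter.Tendsto (fun δ : ℝ => δ * X) (nhdsWithin 0 (Ioi 0)) (nhds 0) := by
    have h1 : Filter.Tendsto (fun δ : ℝ => δ * X) (nhds 0) (nhds (0 * X)) :=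
      (continuous_id.mul continuous_const).tendsto 0
    rw [zero_mul] at h1
    exact h1.mono_left nhdsWithin_le_nhds
  exact (h.eventually (Iio_mem_nhds hY)).mono fun δ h => le_of_lt h

theorem Param_ex {P : ℝ → Prop} (h : ∀ᶠ δ : ℝ in nhdsWithin 0 (Ioi 0), P δ) :
    ∃ δ₀ : ℝ, 0 < δ₀ ∧ ∀ δ : ℝ, 0 < δ → δ < δ₀ → P δ := by
  obtain ⟨u, hu, hs⟩ := mem_nhdsGT_iff_exists_Ioo_subset.1 h
  exact ⟨u, hu, fun δ h0 h1 => hs ⟨h0, h1⟩⟩

theorem Param_cK (M : ℕ) {ε : ℝ} (hε : 0 < ε) : 0 ≤ cK M ε := by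
  unfold cK
  (clear * - hε; positivity)

/-- the exponent -/
theorem Param_exp {e ε' δ θ L c m b : ℝ} {M : ℕ} (he : 0 < e) (hM : 1 ≤ M)
    (hε' : ε' = e * Real.log 2 / (24 * C2)) (hL : L = M * Real.log 2)
    (hθδ : θ ≤ δ) (hδ1 : δ * (8 * C2) ≤ e * Real.log 2) (hb : b * (1 + 2 * e) * L = c)
    (hm : m ≤ c) (hb1 : b ≤ 1 / 4) :
    C2 * δ ^ 2 * M * θ + δ ^ 2 * m + 2 * δ ^ 2 * ε' + 3 * ε' * (C2 * δ ^ 2 * M) ≤
      (b + e) * δ ^ 2 * L := by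
  obtain ⟨hl0, hl1⟩ := Param_log2
  have hC := Param_C2
  have hMr : (1 : ℝ) ≤ M := by exact_mod_cast hM
  have hL0 : 0 < L := by rw [hL]; positivity
  have heL : 0 < e * L := mul_pos he hL0
  have hel : e * Real.log 2 ≤ e * L := by
    rw [hL]
    exact mul_le_mul_of_nonneg_left (by nlinarith only [hl0, hMr]) he.le
  have k1 : C2 * M * θ ≤ e * L / 8 := by
    have h1 : C2 * M * θ ≤ C2 * M * δ := by
      refine mul_le_mul_of_nonneg_left hθδ ?_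
      rw [hC]
      positivity
    have h2 : C2 * M * δ = δ * (8 * C2) * M / 8 := by ring
    have h3 : δ * (8 * C2) * M ≤ e * Real.log 2 * M :=
      mul_le_mul_of_nonneg_right hδ1 (by linarith only [])
    rw [hL]
    (clear * - h1 h3; linarith only [h1, h3])
  have k2 : 3 * ε' * (C2 * M) = e * L / 8 := by
    rw [hε', hL, hC]
    ring
  have k3 : 2 * ε' ≤ e * L / 8 := by
    have h1 : 2 * ε' = e * Real.log 2 / (12 * 1200000) := by
      rw [hε', hC]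
      ring
    rw [h1]
    have h2 : e * Real.log 2 / (12 * 1200000) ≤ e * Real.log 2 / 8 :=
      div_le_div_of_nonneg_left (by positivity) (by norm_num) (by norm_num)
    (clear * - hel h2; linarith only [hel, h2])
  have k4 : m ≤ b * L + e * L / 2 := by
    have h1 : b * (e * L) ≤ 1 / 4 * (e * L) := mul_le_mul_of_nonneg_right hb1 heL.le
    linarith only [hb, hm, h1]
  have k5 : C2 * M * θ + m + 2 * ε' + 3 * ε' * (C2 * M) ≤ (b + e) * L := by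
    rw [k2]
    (clear * - heL k1 k3 k4; linarith only [heL, k1, k3, k4])
  calc C2 * δ ^ 2 * M * θ + δ ^ 2 * m + 2 * δ ^ 2 * ε' + 3 * ε' * (C2 * δ ^ 2 * M)
      = δ ^ 2 * (C2 * M * θ + m + 2 * ε' + 3 * ε' * (C2 * M)) := by ring
    _ ≤ δ ^ 2 * ((b + e) * L) := mul_le_mul_of_nonneg_left k5 (sq_nonneg _)
    _ = (b + e) * δ ^ 2 * L := by ring

/-- the constant `cm` -/
theorem Param_cm {e ε' δ κ : ℝ} {M : ℕ} (he : 0 < e) (he1 : e ≤ 1) (hε' : 0 < ε')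
    (hε1 : ε' ≤ e / 8) (h0 : 0 < δ) (hδ : δ * 32 ≤ e / 8)
    (hL : 0 < Real.log ((2 ^ M : ℕ) : ℝ))
    (hS : π * sS κ (Real.log ((2 ^ M : ℕ) : ℝ)) ^ 2 ≤ (1 + e / 2) * Real.log ((2 ^ M : ℕ) : ℝ)) :
    0 ≤ cm M κ ε' δ ∧ cm M κ ε' δ ≤ 1 / 4 * (1 + 2 * e) * Real.log ((2 ^ M : ℕ) : ℝ) := by
  unfold cm
  generalize Real.log ((2 ^ M : ℕ) : ℝ) = L at *
  have hX0 : 0 ≤ π * sS κ L ^ 2 := mul_nonneg Real.pi_pos.le (sq_nonneg _)
  have h1 : (1 + 32 * δ) * π * sS κ L ^ 2 = (1 + 32 * δ) * (π * sS κ L ^ 2) := by ring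
  rw [h1]
  generalize π * sS κ L ^ 2 = X at *
  have h2 : 0 < 1 - ε' := by (clear * - he1 hε1; linarith only [he1, hε1])
  refine ⟨by (clear * - h0 hX0 h2; positivity), ?_⟩
  rw [div_le_iff₀ (by (clear * - h2; positivity))]
  have h3 : (1 + 32 * δ) * X ≤ (1 + e / 8) * ((1 + e / 2) * L) :=
    mul_le_mul (by linarith only [hδ]) hS hX0 (by linarith only [h0, hδ])
  have h4 : (1 + e / 8) * (1 + e / 2) ≤ (1 + 2 * e) * (1 - ε') := by
    have h5 : (1 + 2 * e) * (1 - e / 8) ≤ (1 + 2 * e) * (1 - ε') :=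
      mul_le_mul_of_nonneg_left (by linarith only [hε1]) (by linarith only [h0, hδ])
    nlinarith only [he1, hε', hε1]
  calc (1 + 32 * δ) * X ≤ (1 + e / 8) * ((1 + e / 2) * L) := h3
    _ = (1 + e / 8) * (1 + e / 2) * L := by ring
    _ ≤ (1 + 2 * e) * (1 - ε') * L := mul_le_mul_of_nonneg_right h4 hL.le
    _ = 1 / 4 * (1 + 2 * e) * L * (4 * (1 - ε')) := by ring

theorem window_ex {ε : ℝ} (hε : 0 < ε) :
    ∃ κ : ℝ, 0 < κ ∧ κ ≤ 1 / 4 ∧ 6 * κ * (C2 / Real.log 2) ≤ ε ∧ ∃ M : ℕ, 1 ≤ M ∧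
      2 ≤ κ * ((2 ^ M : ℕ) : ℝ) ∧ ∃ Cθ δ₀ : ℝ, 0 ≤ Cθ ∧ 0 < δ₀ ∧ δ₀ ≤ 1 / 4 ∧
      ∀ δ : ℝ, 0 < δ → δ < δ₀ → ∀ θ : ℝ, Cθ * δ ^ 2 ≤ θ → θ ≤ δ →
        ∀ (F : ℂ → ℂ) (A : ℝ), Fn F A → ∀ c ℓ : ℝ, 0 < ℓ → ℓ ≤ 1 →
        ∑ d ∈ Finset.range (2 ^ M), chi κ (C2 * δ ^ 2 * M) (2 ^ M) d *
            V F δ (ch (2 ^ M) c ℓ d) (ℓ / ((2 ^ M : ℕ) : ℝ)) ^ (1 + θ) ≤
          ((2 ^ M : ℕ) : ℝ) ^ ((1 / 4 + ε) * δ ^ 2) * V F δ c ℓ ^ (1 + θ) := by
  obtain ⟨hl0, hl1⟩ := Param_log2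
  have hC := Param_C2
  have he : 0 < min ε 1 := lt_min hε one_pos
  have he1 : min ε 1 ≤ 1 := min_le_right _ _
  have hee : min ε 1 ≤ ε := min_le_left _ _
  generalize min ε 1 = e at *
  obtain ⟨κ, hκ, hκ1, hκ2, L₀, hL₀⟩ := Param_kap he he1
  obtain ⟨M, hM1, hM2, hM3, hM4⟩ := Param_M hκ hκ1 L₀
  have hLM := Param_log M
  have hMr : (1 : ℝ) ≤ M := by exact_mod_cast hM1
  have hLpos : 0 < Real.log ((2 ^ M : ℕ) : ℝ) := by rw [hLM]; (clear * - hM1; positivity)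
  have hN0 : (0 : ℝ) < ((2 ^ M : ℕ) : ℝ) := by positivity
  have hsS := hL₀ _ hLpos hM4
  obtain ⟨ε', hε'⟩ : ∃ ε' : ℝ, ε' = e * Real.log 2 / (24 * C2) := ⟨_, rfl⟩
  have hε0 : 0 < ε' := by rw [hε', hC]; (clear * - he; positivity)
  have hε8 : ε' ≤ e / 8 := by
    rw [hε', hC, div_le_div_iff₀ (by norm_num) (by norm_num)]
    nlinarith only [hl1, he]
  have hK := Param_cK M hε0
  have hsp : 0 < sS κ (Real.log ((2 ^ M : ℕ) : ℝ)) := Window_sS hκ hκ1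
  obtain ⟨K, hKd⟩ : ∃ K : ℝ, K = cK M ε' := ⟨_, rfl⟩
  obtain ⟨L, hLd⟩ : ∃ L : ℝ, L = Real.log ((2 ^ M : ℕ) : ℝ) := ⟨_, rfl⟩
  obtain ⟨δ₁, hδ₁, hδ₁'⟩ := Param_ex ((((Param_small (X := C2) one_pos).and
    (Param_small (X := K) one_pos)).and ((Param_small (X := 4 * K) hε0).and
    (Param_small (X := L) one_pos))).and (((Param_small (X := L * (500 * (1 + L))) hsp).and
    (Param_small (X := 8 * C2) (mul_pos he hl0))).and (Param_small (X := 32)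
      (show (0 : ℝ) < e / 8 by (clear * - hε0 hε8; linarith only [hε0, hε8])))))
  rw [← hKd] at hK
  refine ⟨κ, hκ, hκ1, hκ2.trans hee, M, hM1, hM2, 2 * C2 * M * K / ε', min δ₁ (1 / 4), ?_,
    lt_min hδ₁ (by norm_num), min_le_right _ _, ?_⟩
  · rw [hC]
    (clear * - hM1 hK hε0; positivity)
  intro δ h0 hδ θ hθ hθδ F A hF c ℓ hℓ hℓ1
  obtain ⟨⟨⟨c1, c2⟩, c3, c4⟩, ⟨c5, c6⟩, c7⟩ := hδ₁' δ h0 (hδ.trans_le (min_le_left _ _))
  obtain ⟨hm0, hmE⟩ := Param_cm (κ := κ) he he1 hε0 hε8 h0 c7 hLpos hsS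
  rw [← hLd] at hmE
  have hL0 : 0 < L := by rw [hLd]; exact hLpos
  have hm1 : cm M κ ε' δ ≤ L := by
    refine hmE.trans ?_
    calc 1 / 4 * (1 + 2 * e) * L ≤ 1 * L := mul_le_mul_of_nonneg_right (by (clear * - he1; linarith only [he1])) hL0.le
      _ = L := one_mul L
  have k1 : δ ≤ 1 / C2 := by
    rw [le_div_iff₀ (by rw [hC]; norm_num)]
    exact c1
  have k3 : 4 * δ ^ 2 * cK M ε' ^ 2 ≤ ε' := by
    rw [← hKd]
    calc 4 * δ ^ 2 * K ^ 2 = δ * (4 * K) * (δ * K) := by ring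
      _ ≤ ε' * 1 := mul_le_mul c3 c2 (mul_nonneg h0.le hK) hε0.le
      _ = ε' := mul_one _
  have k5 : δ * cm M κ ε' δ * (500 * (1 + Real.log ((2 ^ M : ℕ) : ℝ))) ≤
      sS κ (Real.log ((2 ^ M : ℕ) : ℝ)) := by
    refine le_trans ?_ c5
    rw [← hLd, mul_assoc]
    exact mul_le_mul_of_nonneg_left (mul_le_mul_of_nonneg_right hm1 (by (clear * - hL0; positivity))) h0.le
  have hw := hF.window (θ := θ) (c := c) hκ hκ1 hε0 (by (clear * - he1 hε8; linarith only [he1, hε8])) hM3 h0 k1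
    (by rw [← hKd]; exact c2) k3 ((mul_le_mul_of_nonneg_left hm1 h0.le).trans c4) k5
    (by rw [← hKd]; exact hθ) hℓ hℓ1
  refine hw.trans ?_
  have hV : 0 ≤ V F δ c ℓ ^ (1 + θ) := by
    refine Real.rpow_nonneg ?_ _
    unfold V Vp
    exact integral_nonneg fun w => Real.rpow_nonneg (norm_nonneg _) _
  refine mul_le_mul_of_nonneg_right ?_ hV
  rw [Real.rpow_def_of_pos hN0, ← hLd]
  refine Real.exp_le_exp.2 ?_
  have hE := Param_exp (e := e) (ε' := ε') (δ := δ) (θ := θ) (L := L) (b := 1 / 4) he hM1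
    hε' (by rw [hLd, hLM]) hθδ c6 rfl hmE le_rfl
  refine hE.trans ?_
  have h5 : 0 ≤ δ ^ 2 * L := by (clear * - h0 hL0; positivity)
  have h6 : e * (δ ^ 2 * L) ≤ ε * (δ ^ 2 * L) := mul_le_mul_of_nonneg_right hee h5
  calc (1 / 4 + e) * δ ^ 2 * L = 1 / 4 * (δ ^ 2 * L) + e * (δ ^ 2 * L) := by ring
    _ ≤ 1 / 4 * (δ ^ 2 * L) + ε * (δ ^ 2 * L) := by linarith only [h6]
    _ = L * ((1 / 4 + ε) * δ ^ 2) := by ring

end Pool.Agent.Helper90.G2
end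

/- Helper24.KR.H90.G2.Heights -/
section
/-!
# G2-HEIGHTS: all heights, and the exponent

Given `ε`, take `window_ex (ε / 4)`; given `δ₁` small put `δ = δ₁ + C' δ₁²`,
`θ = (δ - δ₁) / (2 - δ) = C' δ₁² / (2 - δ)`, so that `(2 - δ) (1 + θ) = 2 - δ₁`, with `C' ≥ 8 Cθ + 1`
(then `θ ≥ Cθ δ²` as `δ ≤ 2 δ₁`, and `θ ≤ δ` for small `δ₁`). `Fn.avg` with `G = N^((1/4 + ε/4) δ²)`,
`c' = C2 δ² M`, `exp (6 κ c' K) = (N^K)^(6 κ C2 δ² / log 2) ≤ (N^K)^(ε δ²/4)`, and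
`(1/4 + ε/2) δ² ≤ (1/4 + ε) δ₁²` for small `δ₁`. This is the bound at the heights `N^(-K)`. For `y` between
`N^(-K-1)` and `N^(-K)`: `‖F' (y + i ξ)‖ ≤ 55^(M+1) ‖F' (N^(-K) + i ξ)‖` (`Fn.down`, from `Fn.dist`,
halving the height).
-/

set_option autoImplicit false

namespace Pool.Agent.Helper90.G2

open MeasureTheory Set
open scoped Real

theorem Fn.down {F : ℂ → ℂ} {A : ℝ} (hF : Fn F A) {y y' ξ : ℝ} (hy : 0 < y) (hyy : y ≤ y')
    (hy1 : y' ≤ 1) (M : ℕ) (hM : y' ≤ 2 ^ M * y) :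
    ‖deriv F ⟨y, ξ⟩‖ ≤ 55 ^ M * ‖deriv F ⟨y', ξ⟩‖ := by
  induction M generalizing y' with
  | zero =>
    rw [pow_zero, one_mul] at hM
    rw [pow_zero, one_mul, le_antisymm hyy hM]
  | succ M ih =>
    have h2M : (1 : ℝ) ≤ 2 ^ M := one_le_pow₀ one_le_two
    have h1 : y ≤ max y (y' / 2) := le_max_left _ _
    have h2 : max y (y' / 2) ≤ 1 := max_le (hyy.trans hy1) (by (clear * - hy1; linarith))
    have h3 : max y (y' / 2) ≤ 2 ^ M * y := by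
      apply max_le
      · exact le_mul_of_one_le_left hy.le h2M
      · rw [pow_succ] at hM
        (clear * - hM; linarith only [hM])
    have h4 : max y (y' / 2) ≤ y' := max_le hyy (by (clear * - hy hyy; linarith only [hy, hyy]))
    have h5 : y' / 2 ≤ max y (y' / 2) := le_max_right _ _
    have h6 := ih h1 h2 h3
    have h7 : ‖deriv F ⟨max y (y' / 2), ξ⟩‖ ≤ 55 * ‖deriv F ⟨y', ξ⟩‖ := by
      refine (hF.dist (u := ⟨y', ξ⟩) (u' := ⟨max y (y' / 2), ξ⟩) ?_ ?_ ?_).1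
      · exact hy.trans_le hyy
      · show y' ≤ 3
        (clear * - h2 h5; linarith only [h2, h5])
      · have h8 : (⟨max y (y' / 2), ξ⟩ : ℂ) - ⟨y', ξ⟩ = ((max y (y' / 2) - y' : ℝ) : ℂ) := by
          apply Complex.ext <;> simp
        rw [h8, Complex.norm_real, Real.norm_eq_abs, abs_le]
        show -(y' / 2) ≤ max y (y' / 2) - y' ∧ max y (y' / 2) - y' ≤ y' / 2
        constructor <;> (clear * - h5 h4; linarith only [h5, h4])
    calc ‖deriv F ⟨y, ξ⟩‖ ≤ 55 ^ M * ‖deriv F ⟨max y (y' / 2), ξ⟩‖ := h6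
      _ ≤ 55 ^ M * (55 * ‖deriv F ⟨y', ξ⟩‖) := mul_le_mul_of_nonneg_left h7 (by positivity)
      _ = 55 ^ (M + 1) * ‖deriv F ⟨y', ξ⟩‖ := by ring

theorem Heights_cont {F : ℂ → ℂ} {A : ℝ} (hF : Fn F A) {y p : ℝ} (hy : 0 < y) (hp : 0 ≤ p) :
    Continuous fun ξ : ℝ => ‖deriv F ⟨y, ξ⟩‖ ^ p := by
  have h1 : ContinuousOn (deriv F) {u : ℂ | 0 < u.re} :=
    (hF.diff.deriv (isOpen_lt continuous_const Complex.continuous_re)).continuousOn
  have h2 : Continuous fun ξ : ℝ => (⟨y, ξ⟩ : ℂ) := by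
    have h : (fun ξ : ℝ => (⟨y, ξ⟩ : ℂ)) = fun ξ : ℝ => (y : ℂ) + (ξ : ℂ) * Complex.I := by
      funext ξ
      apply Complex.ext <;> simp
    rw [h]
    fun_prop
  have h3 : Continuous fun ξ : ℝ => deriv F ⟨y, ξ⟩ := h1.comp_continuous h2 fun ξ => hy
  exact h3.norm.rpow_const fun _ => Or.inr hp

theorem Heights_mono {F : ℂ → ℂ} {A : ℝ} (hF : Fn F A) {y y' p : ℝ} (hy : 0 < y) (hyy : y ≤ y')
    (hy1 : y' ≤ 1) (M : ℕ) (hM : y' ≤ 2 ^ M * y) (hp : 0 ≤ p) (hp2 : p ≤ 2) :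
    ∫ ξ in (0:ℝ)..(2 * π), ‖deriv F ⟨y, ξ⟩‖ ^ p ≤
      (55 ^ M) ^ 2 * ∫ ξ in (0:ℝ)..(2 * π), ‖deriv F ⟨y', ξ⟩‖ ^ p := by
  rw [← intervalIntegral.integral_const_mul]
  apply intervalIntegral.integral_mono_on (by positivity)
    ((Heights_cont hF hy hp).intervalIntegrable _ _)
    (((Heights_cont hF (hy.trans_le hyy) hp).const_mul _).intervalIntegrable _ _)
  intro ξ _
  have h1 := hF.down (ξ := ξ) hy hyy hy1 M hM
  have h55 : (1 : ℝ) ≤ 55 ^ M := one_le_pow₀ (by norm_num)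
  calc ‖deriv F ⟨y, ξ⟩‖ ^ p ≤ (55 ^ M * ‖deriv F ⟨y', ξ⟩‖) ^ p :=
        Real.rpow_le_rpow (norm_nonneg _) h1 hp
    _ = ((55 : ℝ) ^ M) ^ p * ‖deriv F ⟨y', ξ⟩‖ ^ p :=
        Real.mul_rpow (by positivity) (norm_nonneg _)
    _ ≤ (55 ^ M) ^ 2 * ‖deriv F ⟨y', ξ⟩‖ ^ p := by
        apply mul_le_mul_of_nonneg_right _ (by (clear * -; positivity))
        calc ((55 : ℝ) ^ M) ^ p ≤ ((55 : ℝ) ^ M) ^ (2 : ℝ) :=
              Real.rpow_le_rpow_of_exponent_le h55 hp2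
          _ = (55 ^ M) ^ 2 := by rw [Real.rpow_two]

theorem Heights_exp {ε κ δ : ℝ} (hκ : 6 * κ * (C2 / Real.log 2) ≤ ε / 4) (M K : ℕ) :
    Real.exp (6 * κ * (C2 * δ ^ 2 * M) * K) ≤
      (((2 ^ M) ^ K : ℕ) : ℝ) ^ (ε / 4 * δ ^ 2) := by
  have h2 : 0 < Real.log 2 := Real.log_pos one_lt_two
  have hx : (0:ℝ) < (((2 ^ M) ^ K : ℕ) : ℝ) := by (clear * -; positivity)
  rw [Real.rpow_def_of_pos hx]
  apply Real.exp_le_exp.mpr
  have hlog : Real.log (((2 ^ M) ^ K : ℕ) : ℝ) = K * (M * Real.log 2) := by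
    push_cast
    rw [Real.log_pow, Real.log_pow]
  rw [hlog]
  have h3 : 6 * κ * C2 ≤ ε / 4 * Real.log 2 := by
    have h := mul_le_mul_of_nonneg_right hκ h2.le
    have e : 6 * κ * (C2 / Real.log 2) * Real.log 2 = 6 * κ * C2 := by
      field_simp
    (clear * - h e; linarith)
  have h4 : 0 ≤ δ ^ 2 * M * K := by (clear * -; positivity)
  have h5 := mul_le_mul_of_nonneg_right h3 h4
  calc 6 * κ * (C2 * δ ^ 2 * M) * K = 6 * κ * C2 * (δ ^ 2 * M * K) := by ring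
    _ ≤ ε / 4 * Real.log 2 * (δ ^ 2 * M * K) := h5
    _ = K * (M * Real.log 2) * (ε / 4 * δ ^ 2) := by ring

/-- the bound at the heights `N^(-K)`, `N = 2^M` -/
theorem Heights_K {ε κ δ t : ℝ} (hκ : 6 * κ * (C2 / Real.log 2) ≤ ε / 4)
    (ht : (1 / 4 + ε / 2) * δ ^ 2 ≤ (1 / 4 + ε) * t ^ 2) (M K : ℕ) :
    (((2 ^ M : ℕ) : ℝ) ^ ((1 / 4 + ε / 4) * δ ^ 2)) ^ K *
        (((2 ^ M) ^ K : ℕ) : ℝ) ^ ((2 - t) - 1) * Real.exp (6 * κ * (C2 * δ ^ 2 * M) * K) ≤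
      (((2 ^ M) ^ K : ℕ) : ℝ) ^ (1 - t + (1 / 4 + ε) * t ^ 2) := by
  have hx : (0:ℝ) < (((2 ^ M) ^ K : ℕ) : ℝ) := by (clear * -; positivity)
  have hx1 : (1:ℝ) ≤ (((2 ^ M) ^ K : ℕ) : ℝ) := by
    push_cast
    exact one_le_pow₀ (one_le_pow₀ one_le_two)
  have hG : (((2 ^ M : ℕ) : ℝ) ^ ((1 / 4 + ε / 4) * δ ^ 2)) ^ K =
      (((2 ^ M) ^ K : ℕ) : ℝ) ^ ((1 / 4 + ε / 4) * δ ^ 2) := by
    rw [← Real.rpow_natCast, ← Real.rpow_mul (by (clear * -; positivity)), mul_comm,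
      Real.rpow_mul (by positivity), Real.rpow_natCast]
    push_cast
    rfl
  rw [hG]
  calc (((2 ^ M) ^ K : ℕ) : ℝ) ^ ((1 / 4 + ε / 4) * δ ^ 2) *
        (((2 ^ M) ^ K : ℕ) : ℝ) ^ ((2 - t) - 1) * Real.exp (6 * κ * (C2 * δ ^ 2 * M) * K)
      ≤ (((2 ^ M) ^ K : ℕ) : ℝ) ^ ((1 / 4 + ε / 4) * δ ^ 2) *
        (((2 ^ M) ^ K : ℕ) : ℝ) ^ ((2 - t) - 1) *
          (((2 ^ M) ^ K : ℕ) : ℝ) ^ (ε / 4 * δ ^ 2) :=
        mul_le_mul_of_nonneg_left (Heights_exp hκ M K) (by (clear * -; positivity))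
    _ = (((2 ^ M) ^ K : ℕ) : ℝ) ^ ((1 / 4 + ε / 4) * δ ^ 2 + ((2 - t) - 1) +
          ε / 4 * δ ^ 2) := by
        rw [Real.rpow_add hx, Real.rpow_add hx]
    _ ≤ (((2 ^ M) ^ K : ℕ) : ℝ) ^ (1 - t + (1 / 4 + ε) * t ^ 2) := by
        apply Real.rpow_le_rpow_of_exponent_le hx1
        linarith

/-- the height `N^(-K)` next to `y` -/
theorem Heights_near {y : ℝ} (hy : 0 < y) (hy1 : y ≤ 1) {M : ℕ} (hM : 1 ≤ M) :
    ∃ K : ℕ, y ≤ ((((2 ^ M) ^ K : ℕ) : ℝ))⁻¹ ∧ ((((2 ^ M) ^ K : ℕ) : ℝ))⁻¹ ≤ 2 ^ M * y := by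
  have h1 : (1 : ℝ) ≤ y⁻¹ := (one_le_inv₀ hy).mpr hy1
  have h2 : (1 : ℝ) < 2 ^ M := one_lt_pow₀ one_lt_two (by omega)
  obtain ⟨K, h3, h4⟩ := exists_nat_pow_near h1 h2
  have hx : (0:ℝ) < (2 ^ M) ^ K := by positivity
  refine ⟨K, ?_, ?_⟩
  · push_cast
    rw [le_inv_comm₀ hy hx]
    exact h3
  · push_cast
    rw [inv_le_iff_one_le_mul₀ hx]
    rw [pow_succ, inv_lt_iff_one_lt_mul₀ hy] at h4
    (clear * - h4; linarith only [h4])

/-- from the heights `N^(-L)`, `N = 2^m`, to all heights -/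
theorem heights_core {F : ℂ → ℂ} {A : ℝ} (hF : Fn F A) {m : ℕ} (hm : 1 ≤ m) {p b C : ℝ}
    (hp : 0 ≤ p) (hp2 : p ≤ 2) (hb : 0 ≤ b) (hC : 0 ≤ C)
    (h : ∀ L : ℕ, ∫ ξ in (0:ℝ)..(2 * π), ‖deriv F ⟨(((2 ^ m) ^ L : ℕ) : ℝ)⁻¹, ξ⟩‖ ^ p ≤
      C * (((2 ^ m) ^ L : ℕ) : ℝ) ^ b) {y : ℝ} (hy : 0 < y) (hy1 : y ≤ 1) :
    ∫ ξ in (0:ℝ)..(2 * π), ‖deriv F ⟨y, ξ⟩‖ ^ p ≤ (55 ^ m) ^ 2 * C * y ^ (-b) := by
  obtain ⟨L, hL1, hL2⟩ := Heights_near hy hy1 hm
  have hx : (0:ℝ) < (((2 ^ m) ^ L : ℕ) : ℝ) := by positivity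
  have hx1 : (1:ℝ) ≤ (((2 ^ m) ^ L : ℕ) : ℝ) := by
    push_cast
    exact one_le_pow₀ (one_le_pow₀ one_le_two)
  have hmono := Heights_mono hF hy hL1 (inv_le_one_of_one_le₀ hx1) m hL2 hp hp2
  have hpow : (((2 ^ m) ^ L : ℕ) : ℝ) ^ b ≤ y ^ (-b) := by
    rw [Real.rpow_neg hy.le, ← Real.inv_rpow hy.le]
    apply Real.rpow_le_rpow hx.le _ hb
    rw [le_inv_comm₀ hx hy]
    exact hL1
  calc ∫ ξ in (0:ℝ)..(2 * π), ‖deriv F ⟨y, ξ⟩‖ ^ p
      ≤ (55 ^ m) ^ 2 * ∫ ξ in (0:ℝ)..(2 * π),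
          ‖deriv F ⟨(((2 ^ m) ^ L : ℕ) : ℝ)⁻¹, ξ⟩‖ ^ p := hmono
    _ ≤ (55 ^ m) ^ 2 * (C * y ^ (-b)) := by
        apply mul_le_mul_of_nonneg_left _ (by positivity)
        exact (h L).trans (mul_le_mul_of_nonneg_left hpow hC)
    _ = (55 ^ m) ^ 2 * C * y ^ (-b) := by ring

theorem heights {ε : ℝ} (hε : 0 < ε) :
    ∃ δ₀ : ℝ, 0 < δ₀ ∧ δ₀ ≤ 1 / 4 ∧ ∀ δ : ℝ, 0 < δ → δ < δ₀ → ∀ A : ℝ, 0 ≤ A → ∃ C : ℝ, 0 ≤ C ∧
      ∀ F : ℂ → ℂ, Fn F A → ∀ y : ℝ, 0 < y → y ≤ 1 →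
        ∫ ξ in (0:ℝ)..(2 * π), ‖deriv F ⟨y, ξ⟩‖ ^ (2 - δ) ≤
          C * y ^ (-(1 - δ + (1 / 4 + ε) * δ ^ 2)) := by
  obtain ⟨κ, hκ, hκ1, hκ2, M, hM, hκM, Cθ, δw, hCθ, hδw, hδw1, hw⟩ :=
    window_ex (ε := ε / 4) (by (clear * - hε; positivity))
  have hC2 : (0:ℝ) < C2 := by
    unfold C2
    norm_num
  obtain ⟨C', hC'⟩ : ∃ C' : ℝ, C' = 8 * Cθ + 1 := ⟨_, rfl⟩
  have hC'0 : 0 < C' := by
    rw [hC']
    (clear * - hCθ; positivity)
  obtain ⟨s₀, hs₀⟩ : ∃ s₀ : ℝ, s₀ = ε / (3 / 2 + 3 * ε) := ⟨_, rfl⟩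
  have hs0 : 0 < s₀ := by
    rw [hs₀]
    (clear * - hε; positivity)
  have hs1 : s₀ ≤ 1 / 3 := by
    rw [hs₀, div_le_iff₀ (by positivity)]
    linarith only []
  have hs2 : s₀ * (3 / 2 + 3 * ε) = ε := by
    rw [hs₀]
    (clear * - hε; field_simp)
  have hMC : 0 < 3 * (C2 * M + 1) := by (clear * - hC2 hM; positivity)
  refine ⟨min (1 / 4) (min (δw / 2) (min (s₀ / C') (2 / (3 * (C2 * M + 1))))), ?_,
    min_le_left _ _, ?_⟩
  · exact lt_min (by norm_num) (lt_min (by positivity) (lt_min (by positivity) (by positivity)))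
  intro t ht ht' A hA
  rw [lt_min_iff, lt_min_iff, lt_min_iff] at ht'
  obtain ⟨ht1, ht2, ht3, ht4⟩ := ht'
  rw [lt_div_iff₀ hC'0] at ht3
  rw [lt_div_iff₀ hMC] at ht4
  obtain ⟨δ, hδ⟩ : ∃ δ : ℝ, δ = t + C' * t ^ 2 := ⟨_, rfl⟩
  have hδt : δ = t * (1 + t * C') := by
    rw [hδ]
    ring
  have hδ0 : 0 < δ := by
    rw [hδ]
    (clear * - ht hC'0; positivity)
  have hδ2 : δ ≤ 2 * t := by
    rw [hδt]
    (clear * - ht hs1 ht3; nlinarith only [hs1, ht, ht3])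
  have hδw2 : δ < δw := by linarith only [ht2, hδ2]
  have hδ14 : δ ≤ 1 / 4 := by linarith only [hδw1, hδw2]
  have h2δ : 0 < 2 - δ := by linarith only [hδ14]
  obtain ⟨θ, hθ⟩ : ∃ θ : ℝ, θ = C' * t ^ 2 / (2 - δ) := ⟨_, rfl⟩
  have hθ0 : 0 ≤ θ := by
    rw [hθ]
    (clear * - hC'0 ht h2δ; positivity)
  have hθm : θ * (2 - δ) = C' * t ^ 2 := by
    rw [hθ]
    (clear * - h2δ ht hC'0; field_simp)
  have hθ1 : Cθ * δ ^ 2 ≤ θ := by
    have h1 : δ ^ 2 ≤ (2 * t) ^ 2 := pow_le_pow_left₀ hδ0.le hδ2 2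
    have h2 : Cθ * δ ^ 2 ≤ Cθ * (2 * t) ^ 2 := mul_le_mul_of_nonneg_left h1 hCθ
    have h3 : C' * t ^ 2 ≤ 2 * θ := by
      rw [← hθm]
      (clear * - hδ0 hθ0; nlinarith only [hδ0, hθ0])
    have h4 : 0 ≤ t ^ 2 := sq_nonneg t
    rw [hC'] at h3
    (clear * - h2 h3; nlinarith only [h2, h3])
  have hθ2 : θ ≤ δ := by
    have h1 : θ ≤ C' * t ^ 2 := by
      rw [← hθm]
      (clear * - hθ0 hδ14; nlinarith only [hδ14, hθ0])
    rw [hδ]
    (clear * - hδ0 hδ2 h1; linarith only [hδ0, hδ2, h1])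
  have hprod : (2 - δ) * (1 + θ) = 2 - t := by
    have h : (2 - δ) * (1 + θ) = 2 - δ + θ * (2 - δ) := by ring
    rw [h, hθm, hδ]
    ring
  have hexp : (1 / 4 + ε / 2) * δ ^ 2 ≤ (1 / 4 + ε) * t ^ 2 := by
    have h1 : (1 + t * C') ^ 2 ≤ 1 + 3 * s₀ := by (clear * - hδt hδ0 hδ2 hs0 ht3; nlinarith only [hs0, ht3, hδt, hδ0, hδ2])
    have h2 : (1 / 4 + ε / 2) * (1 + 3 * s₀) = 1 / 4 + ε := by
      have h : (1 / 4 + ε / 2) * (1 + 3 * s₀) =
        1 / 4 + ε / 2 + s₀ * (3 / 2 + 3 * ε) / 2 := by ring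
      rw [h, hs2]
      ring
    rw [hδt, mul_pow]
    calc (1 / 4 + ε / 2) * (t ^ 2 * (1 + t * C') ^ 2)
        = t ^ 2 * ((1 / 4 + ε / 2) * (1 + t * C') ^ 2) := by ring
      _ ≤ t ^ 2 * ((1 / 4 + ε / 2) * (1 + 3 * s₀)) := by (clear * - h1 hε ht; gcongr)
      _ = (1 / 4 + ε) * t ^ 2 := by
        rw [h2]
        ring
  have hc1 : 3 * κ * (C2 * δ ^ 2 * M) ≤ 1 / 2 := by
    have h1 : δ ^ 2 ≤ (2 * t) ^ 2 := pow_le_pow_left₀ hδ0.le hδ2 2
    have h2 : C2 * δ ^ 2 * M ≤ C2 * (2 * t) ^ 2 * M := by (clear * - h1 hC2 hM; gcongr)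
    have h3 : 3 * κ * (C2 * δ ^ 2 * M) ≤ 3 * (1 / 4) * (C2 * (2 * t) ^ 2 * M) := by (clear * - hκ1 h2 hC2 hδ0 hM; gcongr)
    have h4 : t * (C2 * M) ≤ 2 / 3 := by
      have h5 : t * (3 * (C2 * M + 1)) = 3 * (t * (C2 * M)) + 3 * t := by ring
      rw [h5] at ht4
      linarith only [ht4, hδ0, hδ2]
    have h6 : 0 ≤ t * (C2 * M) := by (clear * - ht hC2 hM; positivity)
    calc 3 * κ * (C2 * δ ^ 2 * M) ≤ 3 * (1 / 4) * (C2 * (2 * t) ^ 2 * M) := h3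
      _ = 3 * t * (t * (C2 * M)) := by ring
      _ ≤ 3 * (1 / 4) * (2 / 3) := by (clear * - ht1 h4 ht hC2 hM; gcongr)
      _ = 1 / 2 := by norm_num
  refine ⟨(55 ^ M) ^ 2 * (2 * π * 500000 ^ 2 * (A + 7) ^ 2), by (clear * - hA; positivity), ?_⟩
  intro F hF y hy hy1
  have hb : 0 ≤ 1 - t + (1 / 4 + ε) * t ^ 2 := by
    have : 0 ≤ (1 / 4 + ε) * t ^ 2 := by (clear * - hε ht; positivity)
    linarith only [ht1, this]
  refine heights_core hF hM (by linarith only [ht1]) (by linarith only [hδ0, hδ2]) hb (by (clear * - hA; positivity)) (fun K => ?_) hy hy1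
  have havg := hF.avg hA (κ := κ) (c' := C2 * δ ^ 2 * M)
    (G := ((2 ^ M : ℕ) : ℝ) ^ ((1 / 4 + ε / 4) * δ ^ 2)) (N := 2 ^ M) hδ0 hδ14 hθ0
    (by linarith only [hδ14, hθ2]) hκ hκ1 (by (clear * - hC2 hδ0 hM; positivity)) hc1 hκM (by positivity)
    (fun c ℓ hℓ hℓ1 => hw δ hδ0 hδw2 θ hθ1 hθ2 F A hF c ℓ hℓ hℓ1) K
  rw [hprod] at havg
  exact havg.trans (mul_le_mul_of_nonneg_left (Heights_K hκ2 hexp M K) (by (clear * - hA; positivity)))

end Pool.Agent.Helper90.G2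
end

/- Helper24.KR.H90.G2.SigF -/
section
/-!
# G2-SIGF: functions of the class Sigma

`F u = ψ (e^u)`. `inj`: `e^u` is injective on strips of width `2π`. `area`: `F '' Bx c 1` is contained in
the disk of radius `2 e` around `b`, by `|ψ z - b| ≤ 2 |z|` (Bieberbach's `|a_2| ≤ 2` for
`ζ ↦ r / (ψ (r / ζ) - ψ z)`, `r = |z|`). Second part: Cauchy's estimate in the disk of radius `|z| / 2`.
-/

set_option autoImplicit false

namespace Pool.Agent.Helper90.G2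

open MeasureTheory Set
open scoped Real

open Pool.Agent.Helper22.Marshall (coeff coeff_zero coeff_one coeff_mul coeff_congr) in
open Pool.Agent.Helper39.Area (toDisc toDisc_diff) in
/-- growth in the class Sigma -/
theorem sig_grow {ψ : ℂ → ℂ} {b : ℂ} (hψ : DifferentiableOn ℂ ψ {z : ℂ | 1 < ‖z‖})
    (hinj : Set.InjOn ψ {z : ℂ | 1 < ‖z‖})
    (hb : Filter.Tendsto (fun z => ψ z - z) (Bornology.cobounded ℂ) (nhds b))
    {z₀ : ℂ} (hz : 1 < ‖z₀‖) : ‖ψ z₀ - b‖ ≤ 2 * ‖z₀‖ := by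
  obtain ⟨r, hr⟩ : ∃ r : ℝ, r = ‖z₀‖ := ⟨_, rfl⟩
  obtain ⟨w, hw⟩ : ∃ w : ℂ, w = ψ z₀ := ⟨_, rfl⟩
  rw [← hr] at hz ⊢
  rw [← hw]
  have hr0 : 0 < r := by (clear * - hz; linarith only [hz])
  have hrc : (r : ℂ) ≠ 0 := by exact_mod_cast hr0.ne'
  have hz₀ : z₀ ∈ {z : ℂ | 1 < ‖z‖} := by
    show 1 < ‖z₀‖
    rw [← hr]; exact hz
  set β : ℂ → ℂ := toDisc b (fun z => ψ z - z) with hβ
  have hβd : DifferentiableOn ℂ β (Metric.ball 0 1) := toDisc_diff (hψ.sub differentiableOn_id) hb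
  have hβ0 : β 0 = b := by simp [hβ, toDisc]
  have hβ' : ∀ ζ : ℂ, ζ ≠ 0 → β ζ = ψ ζ⁻¹ - ζ⁻¹ := by
    intro ζ hζ
    simp only [hβ, toDisc]
    rw [if_neg hζ]
  clear_value β
  have hm : MapsTo (fun ζ : ℂ => ζ / r) (Metric.ball 0 1) (Metric.ball 0 1) := by
    intro ζ hζ
    rw [mem_ball_zero_iff] at hζ ⊢
    rw [norm_div, Complex.norm_real, Real.norm_of_nonneg hr0.le, div_lt_one hr0]
    (clear * - hz hζ; linarith)
  obtain ⟨D, hD⟩ : ∃ D : ℂ → ℂ, ∀ ζ, D ζ = 1 + ζ / r * (β (ζ / r) - w) := ⟨_, fun _ => rfl⟩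
  have hDf : D = fun ζ => 1 + ζ / r * (β (ζ / r) - w) := funext hD
  have hDd : DifferentiableOn ℂ D (Metric.ball 0 1) := by
    rw [hDf]
    apply DifferentiableOn.const_add
    apply DifferentiableOn.mul
    · fun_prop
    · exact (hβd.comp (by fun_prop) hm).sub_const w
  have hD0 : D 0 = 1 := by rw [hD]; simp
  have hinv : ∀ ζ ∈ Metric.ball (0:ℂ) 1, ζ ≠ 0 → r < ‖(ζ / r)⁻¹‖ := by
    intro ζ hζ h0
    rw [mem_ball_zero_iff] at hζ
    rw [norm_inv, norm_div, Complex.norm_real, Real.norm_of_nonneg hr0.le, inv_div,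
      lt_div_iff₀ (norm_pos_iff.mpr h0)]
    (clear * - hr0 hζ; nlinarith only [hr0, hζ])
  have hDe : ∀ ζ : ℂ, ζ ≠ 0 → D ζ = ζ / r * (ψ (ζ / r)⁻¹ - w) := by
    intro ζ h0
    have h1 : ζ / r ≠ 0 := div_ne_zero h0 hrc
    rw [hD, hβ' _ h1]
    have h2 : ζ / r * (ζ / r)⁻¹ = 1 := mul_inv_cancel₀ h1
    linear_combination -h2
  have hDne : ∀ ζ ∈ Metric.ball (0:ℂ) 1, D ζ ≠ 0 := by
    intro ζ hζ
    by_cases h0 : ζ = 0
    · rw [h0, hD0]; exact one_ne_zero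
    · rw [hDe ζ h0]
      refine mul_ne_zero (div_ne_zero h0 hrc) ?_
      intro h
      have h1 := hinv ζ hζ h0
      have h2 : (ζ / r)⁻¹ = z₀ := by
        apply hinj (show 1 < ‖(ζ / r)⁻¹‖ by (clear * - hz h1; linarith only [hz, h1])) hz₀
        rw [← hw]
        exact sub_eq_zero.mp h
      rw [h2, ← hr] at h1
      exact lt_irrefl _ h1
  obtain ⟨f, hf⟩ : ∃ f : ℂ → ℂ, f = fun ζ => ζ / D ζ := ⟨_, rfl⟩
  have hb0 : Metric.ball (0:ℂ) 1 ∈ nhds (0:ℂ) := Metric.ball_mem_nhds 0 one_pos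
  have hfd : DifferentiableOn ℂ f (Metric.ball 0 1) := by
    rw [hf]
    exact differentiableOn_id.div hDd hDne
  have hf0 : f 0 = 0 := by rw [hf]; simp
  have hDa := (hDd.differentiableAt hb0).hasDerivAt
  have hf1 : deriv f 0 = 1 := by
    have h1 : HasDerivAt f ((1 * D 0 - 0 * deriv D 0) / D 0 ^ 2) 0 := by
      rw [hf]
      exact (hasDerivAt_id (0:ℂ)).div hDa (by rw [hD0]; exact one_ne_zero)
    rw [h1.deriv, hD0]
    simp
  have hfi : InjOn f (Metric.ball 0 1) := by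
    intro ζ hζ ω hω h
    rw [hf] at h
    simp only at h
    rw [div_eq_div_iff (hDne ζ hζ) (hDne ω hω)] at h
    by_cases h0 : ζ = 0
    · rw [h0, zero_mul, hD0, mul_one] at h
      rw [h0, h]
    by_cases h1 : ω = 0
    · rw [h1, zero_mul, hD0, mul_one] at h
      exact absurd h h0
    rw [hDe ζ h0, hDe ω h1] at h
    have h2 : ζ * ω / r * (ψ (ω / r)⁻¹ - ψ (ζ / r)⁻¹) = 0 := by linear_combination h
    have h3 : ζ * ω / r ≠ 0 := div_ne_zero (mul_ne_zero h0 h1) hrc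
    have h4 := (mul_eq_zero.mp h2).resolve_left h3
    have h5 : (ω / r)⁻¹ = (ζ / r)⁻¹ :=
      hinj (show 1 < ‖(ω / r)⁻¹‖ from hz.trans (hinv ω hω h1))
        (show 1 < ‖(ζ / r)⁻¹‖ from hz.trans (hinv ζ hζ h0)) (sub_eq_zero.mp h4)
    have h6 := inv_injective h5
    field_simp at h6
    exact h6.symm
  have hD1 : deriv D 0 = (b - w) / r := by
    have h0r : (fun ζ : ℂ => ζ / r) 0 = 0 := by simp
    have h1 : HasDerivAt (fun ζ : ℂ => ζ / (r:ℂ)) (1 / r) 0 := (hasDerivAt_id (0:ℂ)).div_const _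
    have h2 : HasDerivAt β (deriv β 0) ((fun ζ : ℂ => ζ / (r:ℂ)) 0) := by
      rw [h0r]
      exact (hβd.differentiableAt hb0).hasDerivAt
    have h3 : HasDerivAt (fun ζ : ℂ => β (ζ / r)) (deriv β 0 * (1 / r)) 0 := h2.comp 0 h1
    have h4 := ((h1.mul (h3.sub_const w)).const_add 1).deriv
    rw [hDf]
    rw [show (fun ζ : ℂ => 1 + ζ / (r:ℂ) * (β (ζ / r) - w)) =
      (fun ζ : ℂ => 1 + ((fun ζ : ℂ => ζ / (r:ℂ)) * fun ζ : ℂ => (β (ζ / r) - w)) ζ) from rfl, h4]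
    simp only [zero_div, hβ0]
    ring
  have h2 := Pool.Agent.Helper84.EK.second_le_two hfd hfi hf0 hf1
  have hprod : (fun ζ => f ζ * D ζ) =ᶠ[nhds 0] fun ζ => ζ := by
    filter_upwards [hb0] with ζ hζ
    rw [hf]
    exact div_mul_cancel₀ _ (hDne ζ hζ)
  have hc : coeff f 2 = -((b - w) / r) := by
    have h3 := coeff_congr hprod 2
    rw [coeff_mul (hfd.analyticAt hb0) (hDd.analyticAt hb0)] at h3
    simp only [Finset.sum_range_succ, Finset.sum_range_zero, zero_add, Nat.sub_zero, Nat.sub_self,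
      show (2 - 1 : ℕ) = 1 from rfl] at h3
    rw [coeff_zero, hf0, coeff_one, hf1, coeff_one, hD1, coeff_zero, hD0] at h3
    have h4 : coeff (fun ζ : ℂ => ζ) 2 = 0 := by
      simp [coeff, iteratedDeriv_succ]
    rw [h4] at h3
    linear_combination h3
  rw [hc, norm_neg, norm_div, Complex.norm_real, Real.norm_of_nonneg hr0.le, div_le_iff₀ hr0] at h2
  rw [norm_sub_rev]
  exact h2

theorem sig_fn : ∃ A : ℝ, 0 ≤ A ∧ ∀ ψ : ℂ → ℂ,
    DifferentiableOn ℂ ψ {z : ℂ | 1 < ‖z‖} → Set.InjOn ψ {z : ℂ | 1 < ‖z‖} →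
    (∃ b : ℂ, Filter.Tendsto (fun z => ψ z - z) (Bornology.cobounded ℂ) (nhds b)) →
    Fn (fun u => ψ (Complex.exp u)) A ∧ ∀ z : ℂ, Real.exp 1 ≤ ‖z‖ → ‖deriv ψ z‖ ≤ A := by
  refine ⟨144, by norm_num, ?_⟩
  rintro ψ hψ hinj ⟨b, hb⟩
  have he : Real.exp 1 < 3 := lt_trans Real.exp_one_lt_d9 (by norm_num)
  have he2 : 2 < Real.exp 1 := lt_trans (by norm_num) Real.exp_one_gt_d9
  have hm : ∀ u : ℂ, 0 < u.re → 1 < ‖Complex.exp u‖ := by
    intro u hu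
    rw [Complex.norm_exp]
    exact Real.one_lt_exp_iff.mpr hu
  refine ⟨⟨?_, ?_, ?_, ?_⟩, ?_⟩
  · exact hψ.comp (by fun_prop) (fun u hu => hm u hu)
  · intro c u hu v hv h
    have h1 : Complex.exp u = Complex.exp v := hinj (hm u hu.1) (hm v hv.1) h
    rw [Complex.exp_eq_exp_iff_exists_int] at h1
    obtain ⟨n, hn⟩ := h1
    have h2 : u.im = v.im + n * (2 * π) := by
      rw [hn]
      simp
    have h3 := abs_lt.mp hu.2
    have h4 := abs_lt.mp hv.2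
    have h5 : |(n:ℝ)| < 1 := by
      rw [abs_lt]
      constructor <;> (clear * - h2 h3 h4; nlinarith only [h2, h3, h4])
    have h6 : n = 0 := by
      have : |n| < 1 := by exact_mod_cast h5
      exact Int.abs_lt_one_iff.mp this
    rw [hn, h6]
    simp
  · intro u _
    show ψ _ = ψ _
    congr 1
    rw [Complex.exp_add, Complex.exp_two_pi_mul_I, mul_one]
  · intro c
    have h1 : (fun u => ψ (Complex.exp u)) '' Bx c 1 ⊆ Metric.closedBall b (2 * Real.exp 1) := by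
      rintro _ ⟨u, hu, rfl⟩
      rw [mem_closedBall_iff_norm]
      refine (sig_grow hψ hinj hb (hm u hu.1)).trans ?_
      rw [Complex.norm_exp]
      have := Real.exp_le_exp.mpr hu.2.1.le
      linarith only [this]
    refine (measure_mono h1).trans ?_
    rw [Complex.volume_closedBall]
    rw [← ENNReal.ofReal_pow (by positivity), ← ENNReal.ofReal_coe_nnreal, NNReal.coe_real_pi,
      ← ENNReal.ofReal_mul (by positivity)]
    apply ENNReal.ofReal_le_ofReal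
    have h2 : (2 * Real.exp 1) ^ 2 ≤ 36 := by (clear * - he he2; nlinarith only [he, he2])
    have h3 := mul_le_mul h2 Real.pi_le_four Real.pi_pos.le (by norm_num)
    linarith
  · intro z hz
    have hz0 : 0 < ‖z‖ := by linarith only [he2, hz]
    have hS : ∀ v ∈ Metric.closedBall z (‖z‖ / 2), ‖z‖ / 2 ≤ ‖v‖ ∧ ‖v‖ ≤ 3 / 2 * ‖z‖ := by
      intro v hv
      rw [mem_closedBall_iff_norm] at hv
      constructor
      · have := norm_sub_norm_le z v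
        rw [norm_sub_rev] at this
        (clear * - hv this; linarith)
      · have := norm_sub_norm_le v z
        linarith
    have hsub : Metric.closedBall z (‖z‖ / 2) ⊆ {v : ℂ | 1 < ‖v‖} := by
      intro v hv
      have := (hS v hv).1
      show 1 < ‖v‖
      linarith only [he2, hz, this]
    have hd : DiffContOnCl ℂ (fun v => ψ v - b) (Metric.ball z (‖z‖ / 2)) := by
      apply DifferentiableOn.diffContOnCl
      rw [closure_ball z (by positivity)]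
      exact (hψ.mono hsub).sub_const b
    have h1 := Complex.norm_deriv_le_of_forall_mem_sphere_norm_le (c := z) (R := ‖z‖ / 2)
      (C := 3 * ‖z‖) (by positivity) hd (by
        intro v hv
        have h2 := hS v (Metric.sphere_subset_closedBall hv)
        refine (sig_grow hψ hinj hb (hsub (Metric.sphere_subset_closedBall hv))).trans ?_
        linarith only [h2])
    have h2 : deriv (fun v => ψ v - b) z = deriv ψ z := by
      rw [deriv_sub_const]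
    rw [h2] at h1
    refine h1.trans ?_
    rw [div_le_iff₀ (by positivity)]
    (clear * - hz0; linarith only [hz0])

end Pool.Agent.Helper90.G2
end

/- Helper24.KR.H90.G2.Main -/
section
/-!
# G2-MAIN: the theorem

`R ≤ e`: `y = log R`, `|ψ' (R e^(iθ))| R = |F' (y + i θ)|`, so `|ψ'| ≤ |F'|`, and
`1 / log R ≤ 2 R² / (R² - 1)`. `R > e`: `|ψ'| ≤ A` and `R² / (R² - 1) ≥ 1`.
-/

set_option autoImplicit false

namespace Pool.Agent.Helper90.G2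

open MeasureTheory Set
open scoped Real

theorem Main_point {R : ℝ} (hR : 1 < R) (θ : ℝ) :
    Complex.exp (⟨Real.log R, θ⟩ : ℂ) = (R : ℂ) * Complex.exp ((θ : ℂ) * Complex.I) := by
  have h : (⟨Real.log R, θ⟩ : ℂ) = ((Real.log R : ℝ) : ℂ) + (θ : ℂ) * Complex.I := by
    apply Complex.ext <;> simp
  rw [h, Complex.exp_add, ← Complex.ofReal_exp, Real.exp_log (by (clear * - hR; linarith only [hR]))]

theorem Main_norm {R : ℝ} (hR : 1 < R) (θ : ℝ) :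
    ‖(R : ℂ) * Complex.exp ((θ : ℂ) * Complex.I)‖ = R := by
  rw [norm_mul, Complex.norm_exp_ofReal_mul_I, mul_one, Complex.norm_real, Real.norm_eq_abs,
    abs_of_pos (by (clear * - hR; linarith only [hR]))]

theorem Main_chain {ψ : ℂ → ℂ} (hψ : DifferentiableOn ℂ ψ {z : ℂ | 1 < ‖z‖}) {R : ℝ} (hR : 1 < R)
    (θ : ℝ) :
    ‖deriv (fun u => ψ (Complex.exp u)) ⟨Real.log R, θ⟩‖ =
      ‖deriv ψ ((R : ℂ) * Complex.exp ((θ : ℂ) * Complex.I))‖ * R := by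
  have hopen : IsOpen {z : ℂ | 1 < ‖z‖} := isOpen_lt continuous_const continuous_norm
  have hmem : (R : ℂ) * Complex.exp ((θ : ℂ) * Complex.I) ∈ {z : ℂ | 1 < ‖z‖} := by
    show 1 < ‖(R : ℂ) * Complex.exp ((θ : ℂ) * Complex.I)‖
    rw [Main_norm hR]
    exact hR
  have h1 : HasDerivAt ψ (deriv ψ (Complex.exp (⟨Real.log R, θ⟩ : ℂ)))
      (Complex.exp (⟨Real.log R, θ⟩ : ℂ)) := by
    rw [Main_point hR]
    exact ((hψ _ hmem).differentiableAt (hopen.mem_nhds hmem)).hasDerivAt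
  have h2 := h1.comp (⟨Real.log R, θ⟩ : ℂ) (Complex.hasDerivAt_exp _)
  have h3 : deriv (fun u => ψ (Complex.exp u)) ⟨Real.log R, θ⟩ =
      deriv ψ (Complex.exp (⟨Real.log R, θ⟩ : ℂ)) * Complex.exp (⟨Real.log R, θ⟩ : ℂ) := h2.deriv
  rw [h3, norm_mul, Main_point hR, Main_norm hR]

theorem Main_log {R : ℝ} (hR : 1 < R) : (R ^ 2 - 1) / (2 * R ^ 2) ≤ Real.log R := by
  have hR0 : 0 < R := by linarith only [hR]
  have h1 : Real.log ((R ^ 2)⁻¹) ≤ (R ^ 2)⁻¹ - 1 := Real.log_le_sub_one_of_pos (by (clear * - hR; positivity))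
  rw [Real.log_inv, Real.log_pow] at h1
  have h2 : (R ^ 2 - 1) / (2 * R ^ 2) = (1 - (R ^ 2)⁻¹) / 2 := by
    field_simp
  rw [h2]
  push_cast at h1
  linarith only [h1]

theorem Main_small {R β : ℝ} (hR : 1 < R) (hβ : 0 ≤ β) :
    Real.log R ^ (-β) ≤ 2 ^ β * (R ^ 2 / (R ^ 2 - 1)) ^ β := by
  have hR1 : 0 < R ^ 2 - 1 := by nlinarith only [hR]
  have hlog : 0 < Real.log R := Real.log_pos hR
  have h1 := Main_log hR
  have h2 : 0 < (R ^ 2 - 1) / (2 * R ^ 2) := by (clear * - hR1 hR; positivity)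
  have h3 : (Real.log R)⁻¹ ≤ 2 * (R ^ 2 / (R ^ 2 - 1)) := by
    have h4 : (Real.log R)⁻¹ ≤ ((R ^ 2 - 1) / (2 * R ^ 2))⁻¹ := inv_anti₀ h2 h1
    have h5 : ((R ^ 2 - 1) / (2 * R ^ 2))⁻¹ = 2 * (R ^ 2 / (R ^ 2 - 1)) := by
      rw [inv_div]
      ring
    rw [h5] at h4
    exact h4
  rw [Real.rpow_neg hlog.le, ← Real.inv_rpow hlog.le, ← Real.mul_rpow (by norm_num) (by (clear * - hR hR1; positivity))]
  exact Real.rpow_le_rpow (by (clear * - hlog; positivity)) h3 hβ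

/-- from the right half plane to the class Sigma, any exponent -/
theorem main_core {δ β : ℝ} (hδ1 : δ ≤ 2) (hβ0 : 0 ≤ β)
    (hh : ∀ A : ℝ, 0 ≤ A → ∃ C : ℝ, 0 ≤ C ∧ ∀ F : ℂ → ℂ, Fn F A → ∀ y : ℝ, 0 < y → y ≤ 1 →
      ∫ ξ in (0:ℝ)..(2 * π), ‖deriv F ⟨y, ξ⟩‖ ^ (2 - δ) ≤ C * y ^ (-β)) :
    ∃ C : ℝ, ∀ ψ : ℂ → ℂ, DifferentiableOn ℂ ψ {z : ℂ | 1 < ‖z‖} →
    Set.InjOn ψ {z : ℂ | 1 < ‖z‖} →
    (∃ b : ℂ, Filter.Tendsto (fun z => ψ z - z) (Bornology.cobounded ℂ) (nhds b)) →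
    ∀ R : ℝ, 1 < R →
      (1 / (2 * π)) * ∫ θ in (0:ℝ)..(2 * π),
        ‖deriv ψ ((R : ℂ) * Complex.exp ((θ : ℂ) * Complex.I))‖ ^ (2 - δ) ≤
      C * (R ^ 2 / (R ^ 2 - 1)) ^ β := by
  obtain ⟨A, hA, hsig⟩ := sig_fn
  obtain ⟨C, hC, hh⟩ := hh A hA
  obtain ⟨p, hp⟩ : ∃ p : ℝ, p = 2 - δ := ⟨_, rfl⟩
  have hp0 : 0 ≤ p := by linarith
  have hπ : 0 < π := Real.pi_pos
  refine ⟨(1 / (2 * π)) * (C * 2 ^ β) + A ^ p, ?_⟩
  intro ψ hψ hinj hlim R hR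
  rw [← hp]
  obtain ⟨hF, hbd⟩ := hsig ψ hψ hinj hlim
  have hR0 : 0 < R := by (clear * - hR; linarith only [hR])
  have hR1 : 0 < R ^ 2 - 1 := by (clear * - hR; nlinarith only [hR])
  have hlog : 0 < Real.log R := Real.log_pos hR
  have hX0 : 0 ≤ (R ^ 2 / (R ^ 2 - 1)) ^ β := by (clear * - hR hR1; positivity)
  have hX1 : 1 ≤ (R ^ 2 / (R ^ 2 - 1)) ^ β := by
    apply Real.one_le_rpow _ hβ0
    rw [one_le_div hR1]
    (clear * -; linarith only [])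
  have hAp : 0 ≤ A ^ p := Real.rpow_nonneg hA p
  have hcont := Heights_cont hF hlog hp0
  have heq : ∀ θ : ℝ, ‖deriv ψ ((R : ℂ) * Complex.exp ((θ : ℂ) * Complex.I))‖ ^ p =
      (R⁻¹) ^ p * ‖deriv (fun u => ψ (Complex.exp u)) ⟨Real.log R, θ⟩‖ ^ p := by
    intro θ
    rw [Main_chain hψ hR, ← Real.mul_rpow (by (clear * - hR; positivity)) (by (clear * - hR; positivity))]
    congr 1
    (clear * - hR; field_simp)
  rcases le_or_gt R (Real.exp 1) with hRe | hRe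
  · have hlog1 : Real.log R ≤ 1 := by
      rw [← Real.log_exp 1]
      exact Real.log_le_log hR0 hRe
    have h1 := hh _ hF (Real.log R) hlog hlog1
    rw [← hp] at h1
    have h2 : ∫ θ in (0:ℝ)..(2 * π),
        ‖deriv ψ ((R : ℂ) * Complex.exp ((θ : ℂ) * Complex.I))‖ ^ p =
        (R⁻¹) ^ p * ∫ θ in (0:ℝ)..(2 * π),
          ‖deriv (fun u => ψ (Complex.exp u)) ⟨Real.log R, θ⟩‖ ^ p := by
      rw [← intervalIntegral.integral_const_mul]
      exact intervalIntegral.integral_congr fun θ _ => heq θ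
    have h3 : (R⁻¹) ^ p ≤ 1 :=
      Real.rpow_le_one (by (clear * - hR; positivity)) (inv_le_one_of_one_le₀ hR.le) hp0
    have h4 : 0 ≤ ∫ θ in (0:ℝ)..(2 * π),
        ‖deriv (fun u => ψ (Complex.exp u)) ⟨Real.log R, θ⟩‖ ^ p := by
      apply intervalIntegral.integral_nonneg (by positivity)
      intro θ _
      (clear * -; positivity)
    have h5 := Main_small hR hβ0
    rw [h2]
    calc (1 / (2 * π)) * ((R⁻¹) ^ p * ∫ θ in (0:ℝ)..(2 * π),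
          ‖deriv (fun u => ψ (Complex.exp u)) ⟨Real.log R, θ⟩‖ ^ p)
        ≤ (1 / (2 * π)) * (1 * (C * Real.log R ^ (-β))) := by (clear * - h3 h1 h4; gcongr)
      _ ≤ (1 / (2 * π)) * (1 * (C * (2 ^ β * (R ^ 2 / (R ^ 2 - 1)) ^ β))) := by (clear * - h5 hC; gcongr)
      _ = (1 / (2 * π)) * (C * 2 ^ β) * (R ^ 2 / (R ^ 2 - 1)) ^ β := by ring
      _ ≤ ((1 / (2 * π)) * (C * 2 ^ β) + A ^ p) * (R ^ 2 / (R ^ 2 - 1)) ^ β := by
        apply mul_le_mul_of_nonneg_right _ hX0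
        (clear * - hAp; linarith only [hAp])
  · have hcont2 : Continuous fun θ : ℝ =>
        ‖deriv ψ ((R : ℂ) * Complex.exp ((θ : ℂ) * Complex.I))‖ ^ p := by
      have : (fun θ : ℝ => ‖deriv ψ ((R : ℂ) * Complex.exp ((θ : ℂ) * Complex.I))‖ ^ p) =
          fun θ : ℝ => (R⁻¹) ^ p *
            ‖deriv (fun u => ψ (Complex.exp u)) ⟨Real.log R, θ⟩‖ ^ p := funext heq
      rw [this]
      exact continuous_const.mul hcont
    have h2 : ∫ θ in (0:ℝ)..(2 * π),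
        ‖deriv ψ ((R : ℂ) * Complex.exp ((θ : ℂ) * Complex.I))‖ ^ p ≤
        ∫ _ in (0:ℝ)..(2 * π), A ^ p := by
      apply intervalIntegral.integral_mono_on (by positivity)
        (hcont2.intervalIntegrable _ _) (continuous_const.intervalIntegrable _ _)
      intro θ _
      apply Real.rpow_le_rpow (norm_nonneg _) _ hp0
      apply hbd
      rw [Main_norm hR]
      exact hRe.le
    rw [intervalIntegral.integral_const, smul_eq_mul, sub_zero] at h2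
    have h0 : 0 ≤ (1 / (2 * π)) * (C * 2 ^ β) := by (clear * - hC; positivity)
    calc (1 / (2 * π)) * ∫ θ in (0:ℝ)..(2 * π),
          ‖deriv ψ ((R : ℂ) * Complex.exp ((θ : ℂ) * Complex.I))‖ ^ p
        ≤ (1 / (2 * π)) * (2 * π * A ^ p) := by (clear * - h2; gcongr)
      _ = A ^ p := by (clear * -; field_simp)
      _ ≤ A ^ p * (R ^ 2 / (R ^ 2 - 1)) ^ β := le_mul_of_one_le_right hAp hX1
      _ ≤ ((1 / (2 * π)) * (C * 2 ^ β) + A ^ p) * (R ^ 2 / (R ^ 2 - 1)) ^ β := by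
        apply mul_le_mul_of_nonneg_right _ hX0
        linarith only [h0]

theorem main : ∀ ε : ℝ, 0 < ε → ∃ δ₀ : ℝ, 0 < δ₀ ∧ ∀ δ : ℝ, 0 < δ → δ < δ₀ → ∃ C : ℝ,
    ∀ ψ : ℂ → ℂ, DifferentiableOn ℂ ψ {z : ℂ | 1 < ‖z‖} → Set.InjOn ψ {z : ℂ | 1 < ‖z‖} →
    (∃ b : ℂ, Filter.Tendsto (fun z => ψ z - z) (Bornology.cobounded ℂ) (nhds b)) →
    ∀ R : ℝ, 1 < R →
      (1 / (2 * π)) * ∫ θ in (0:ℝ)..(2 * π),
        ‖deriv ψ ((R : ℂ) * Complex.exp ((θ : ℂ) * Complex.I))‖ ^ (2 - δ) ≤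
      C * (R ^ 2 / (R ^ 2 - 1)) ^ (1 - δ + (1 / 4 + ε) * δ ^ 2) := by
  intro ε hε
  obtain ⟨δ₀, hδ₀, hδ₁, h⟩ := heights hε
  refine ⟨δ₀, hδ₀, ?_⟩
  intro δ hδ hδ'
  have hβ0 : 0 ≤ 1 - δ + (1 / 4 + ε) * δ ^ 2 := by
    have : 0 ≤ (1 / 4 + ε) * δ ^ 2 := by (clear * - hε hδ; positivity)
    (clear * - hδ₁ hδ' this; linarith only [hδ₁, hδ', this])
  exact main_core (by (clear * - hδ₁ hδ'; linarith only [hδ₁, hδ'])) hβ0 (h δ hδ hδ')

end Pool.Agent.Helper90.G2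
end

/- Helper24.KR.H90.G3.Kids -/
section
/-!
# G3-KIDS: a box, its window and its children, for an abstract functional

Copy of `G2.Kids` with `W` instead of `Vp`.
-/

set_option autoImplicit false

namespace Pool.Agent.Helper90.G3

open MeasureTheory Set
open scoped Real
open Pool.Agent.Helper90.G2

variable {F : ℂ → ℂ} {A : ℝ}

/-- the part of `V3` carried by child `d` before the point is moved -/
noncomputable def Vc3 (W : Set ℂ → ℂ → ℝ) (F : ℂ → ℂ) (c ℓ : ℝ) (N d : ℕ) : ℝ :=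
  W (F '' Bx (ch N c ℓ d) (ℓ / N)) (F (zt c ℓ))

/-- the part of `V3` carried by the window -/
noncomputable def Vw3 (W : Set ℂ → ℂ → ℝ) (F : ℂ → ℂ) (c ℓ : ℝ) (N : ℕ) : ℝ :=
  W (F '' Wn c ℓ (1 / N)) (F (zt c ℓ))

theorem Pt.nonneg {δ a c₀ m₀ : ℝ} {W : Set ℂ → ℂ → ℝ} (hW : Pt δ a c₀ m₀ W) (ha : a * δ ≤ 1)
    {Q : Set ℂ} (hQ : MeasurableSet Q) (hv : volume Q < ⊤) (p : ℂ) : 0 ≤ W Q p :=
  (mul_nonneg (sub_nonneg.2 ha) (vp_nonneg δ Q p)).trans (hW.lo Q hQ hv p)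

theorem er0_nonneg {δ m s : ℝ} (h0 : 0 ≤ δ) (hm : 0 ≤ m) (hs : 0 ≤ s) : 0 ≤ er0 δ m s := by
  unfold er0
  have := Real.pi_pos
  (clear * - h0 hm hs; positivity)

theorem kids_add3 {δ a c₀ m₀ : ℝ} {W : Set ℂ → ℂ → ℝ} (hW : Pt δ a c₀ m₀ W) (hF : Fn F A) {c ℓ : ℝ}
    (hℓ : 0 < ℓ) (hℓ1 : ℓ ≤ 1) {N : ℕ} (hN : 2 ≤ N) :
    Vw3 W F c ℓ N + ∑ d ∈ Finset.range N, Vc3 W F c ℓ N d ≤ V3 W F c ℓ := by
  have hst := bx_sub_strip (c := c) hℓ1
  exact hW.add N (fun d => F '' Bx (ch N c ℓ d) (ℓ / N)) (F '' Wn c ℓ (1 / N)) (F '' Bx c ℓ)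
    (fun d hd => hF.meas (meas_bx _ _) ((bx_child_sub hℓ hN hd).trans hst))
    (hF.meas (meas_wn _ _ _) ((wn_sub hℓ hN).trans hst)) (hF.meas (meas_bx _ _) hst)
    (hF.fin hℓ1 (Subset.refl _)) (fun d hd => image_mono (bx_child_sub hℓ hN hd))
    (image_mono (wn_sub hℓ hN))
    (fun d hd e he hde => image_disj (hF.inj c) ((bx_child_sub hℓ hN hd).trans hst)
      ((bx_child_sub hℓ hN he).trans hst) (bx_disj hℓ hN hde))
    (fun d hd => image_disj (hF.inj c) ((wn_sub hℓ hN).trans hst)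
      ((bx_child_sub hℓ hN hd).trans hst) wn_disj) _

theorem V3_nonneg {δ a c₀ m₀ : ℝ} {W : Set ℂ → ℂ → ℝ} (hW : Pt δ a c₀ m₀ W) (ha : a * δ ≤ 1)
    (hF : Fn F A) {c ℓ : ℝ} (hℓ1 : ℓ ≤ 1) : 0 ≤ V3 W F c ℓ :=
  hW.nonneg ha (hF.meas (meas_bx _ _) (bx_sub_strip (c := c) hℓ1)) (hF.fin hℓ1 (Subset.refl _)) _

theorem Vc3_nonneg {δ a c₀ m₀ : ℝ} {W : Set ℂ → ℂ → ℝ} (hW : Pt δ a c₀ m₀ W) (ha : a * δ ≤ 1)
    (hF : Fn F A) {c ℓ : ℝ} (hℓ : 0 < ℓ) (hℓ1 : ℓ ≤ 1) {N d : ℕ} (hN : 2 ≤ N) (hd : d < N) :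
    0 ≤ Vc3 W F c ℓ N d :=
  hW.nonneg ha (hF.meas (meas_bx _ _) ((bx_child_sub hℓ hN hd).trans (bx_sub_strip (c := c) hℓ1)))
    (hF.fin hℓ1 (bx_child_sub hℓ hN hd)) _

theorem Vw3_nonneg {δ a c₀ m₀ : ℝ} {W : Set ℂ → ℂ → ℝ} (hW : Pt δ a c₀ m₀ W) (ha : a * δ ≤ 1)
    (hF : Fn F A) {c ℓ : ℝ} (hℓ : 0 < ℓ) (hℓ1 : ℓ ≤ 1) {N : ℕ} (hN : 2 ≤ N) :
    0 ≤ Vw3 W F c ℓ N :=
  hW.nonneg ha (hF.meas (meas_wn _ _ _) ((wn_sub hℓ hN).trans (bx_sub_strip (c := c) hℓ1)))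
    (hF.fin hℓ1 (wn_sub hℓ hN)) _

/-- the loss -/
theorem loss3 {δ a c₀ m₀ : ℝ} {W : Set ℂ → ℂ → ℝ} (hW : Pt δ a c₀ m₀ W) (ha : a * δ ≤ 1)
    (hF : Fn F A) {c ℓ : ℝ} (h0 : 0 < δ) (h1 : δ ≤ 1) (hℓ : 0 < ℓ) (hℓ1 : ℓ ≤ 1) {N : ℕ}
    (hN : 2 ≤ N) :
    (1 - a * δ) * (ar F (Wn c ℓ (1 / N)) *
      (500 * (1 + Real.log N) * √(ar F (Wn c ℓ (1 / N)))) ^ (-δ)) ≤ Vw3 W F c ℓ N := by
  refine (mul_le_mul_of_nonneg_left (hF.loss h0 h1 hℓ hℓ1 hN) (sub_nonneg.2 ha)).trans ?_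
  exact hW.lo _ (hF.meas (meas_wn _ _ _) ((wn_sub hℓ hN).trans (bx_sub_strip (c := c) hℓ1)))
    (hF.fin hℓ1 (wn_sub hℓ hN)) _

/-- moving the point of one child, with any bound `s` of the displacement -/
theorem kids_move3 {δ a c₀ m₀ : ℝ} {W : Set ℂ → ℂ → ℝ} (hW : Pt δ a c₀ m₀ W) (hF : Fn F A)
    {m s c ℓ : ℝ} (hm : 0 < m) (hm1 : m ≤ m₀) (hs : 0 < s) (hℓ : 0 < ℓ) (hℓ1 : ℓ ≤ 1) {N d : ℕ}
    (hN : 2 ≤ N) (hd : d < N) (h : ‖F (zt (ch N c ℓ d) (ℓ / N)) - F (zt c ℓ)‖ ≤ s) :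
    V3 W F (ch N c ℓ d) (ℓ / N) ≤
      Real.exp (δ * m) * Vc3 W F c ℓ N d + (1 - c₀) * er0 δ m s :=
  hW.move m s hm hm1 hs _
    (hF.meas (meas_bx _ _) ((bx_child_sub hℓ hN hd).trans (bx_sub_strip (c := c) hℓ1)))
    (hF.fin hℓ1 (bx_child_sub hℓ hN hd)) _ _ h

end Pool.Agent.Helper90.G3
end

/- Helper24.KR.H90.G3.Crude -/
section
/-!
# G3-CRUDE: one generation, for an abstract functional

Copy of `G2.Crude`; the same constant `C2`, under `C2 * δ ≤ m₀` and `a * δ ≤ 1 / 100`.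
-/

set_option autoImplicit false

namespace Pool.Agent.Helper90.G3

open MeasureTheory Set
open scoped Real
open Pool.Agent.Helper90.G2

variable {F : ℂ → ℂ} {A : ℝ}

/-- the two error terms -/
theorem crude_er0 {δ r S : ℝ} (h0 : 0 < δ) (h1 : δ ≤ 1 / C2) (hr : 0 < r) (hS : 0 ≤ S)
    (hrS : r ^ 2 ≤ 722500 * S) : 2 * er0 δ (C2 * δ) r ≤ 96 / 100 * (S * r ^ (-δ)) := by
  unfold er0
  have hC : (C2 : ℝ) = 1200000 := rfl
  have hm : 0 < C2 * δ := by rw [hC]; (clear * - h0; positivity)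
  have hm1 : C2 * δ ≤ 1 := by
    rw [hC] at h1 ⊢
    (clear * - h1; linarith only [h1])
  have e1 : (r / (C2 * δ)) ^ (-δ) ≤ r ^ (-δ) := by
    rw [Real.rpow_neg (div_pos hr hm).le, Real.rpow_neg hr.le]
    apply inv_anti₀ (Real.rpow_pos_of_pos hr δ)
    apply Real.rpow_le_rpow hr.le _ h0.le
    rw [le_div_iff₀ hm]
    exact mul_le_of_le_one_right hr.le hm1
  have e2 : 2 * (δ * (π * r ^ 2 / (4 * (C2 * δ)))) ≤ 96 / 100 * S := by
    have e3 : 2 * (δ * (π * r ^ 2 / (4 * (C2 * δ)))) = π * r ^ 2 / 2400000 := by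
      rw [hC]
      field_simp
      ring
    rw [e3]
    have hpi := Real.pi_lt_d2
    have hpi0 := Real.pi_pos
    have e5 : π * r ^ 2 ≤ 3.15 * (722500 * S) :=
      mul_le_mul hpi.le hrS (by positivity) (by norm_num)
    rw [div_le_iff₀ (by norm_num)]
    (clear * - e5 hpi0; nlinarith only [hpi0, e5])
  have e6 : 0 ≤ r ^ (-δ) := (Real.rpow_pos_of_pos hr _).le
  have e7 : 0 ≤ 2 * (δ * (π * r ^ 2 / (4 * (C2 * δ)))) := by
    have := Real.pi_pos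
    (clear * - h0 hr hm; positivity)
  calc 2 * (δ * (π * r ^ 2 / (4 * (C2 * δ))) * (r / (C2 * δ)) ^ (-δ))
      = 2 * (δ * (π * r ^ 2 / (4 * (C2 * δ)))) * (r / (C2 * δ)) ^ (-δ) := by ring
    _ ≤ 2 * (δ * (π * r ^ 2 / (4 * (C2 * δ)))) * r ^ (-δ) :=
        mul_le_mul_of_nonneg_left e1 e7
    _ ≤ 96 / 100 * S * r ^ (-δ) := mul_le_mul_of_nonneg_right e2 e6
    _ = 96 / 100 * (S * r ^ (-δ)) := by ring

theorem crude3 {δ a c₀ m₀ : ℝ} {W : Set ℂ → ℂ → ℝ} (hW : Pt δ a c₀ m₀ W) (ha : a * δ ≤ 1 / 100)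
    (hc0 : 0 ≤ c₀) (hm₀ : C2 * δ ≤ m₀) (hF : Fn F A) {c ℓ : ℝ} (h0 : 0 < δ) (h1 : δ ≤ 1 / C2)
    (hℓ : 0 < ℓ) (hℓ1 : ℓ ≤ 1) :
    V3 W F (c - ℓ / 4) (ℓ / 2) + V3 W F (c + ℓ / 4) (ℓ / 2) ≤
      Real.exp (C2 * δ ^ 2) * V3 W F c ℓ := by
  have hC : (C2 : ℝ) = 1200000 := rfl
  have hδ : δ ≤ 1 / 1200000 := h1
  have hm : 0 < C2 * δ := by rw [hC]; (clear * - h0; positivity)
  have hδ1 : δ ≤ 1 := by (clear * - hδ; linarith only [hδ])
  have ha1 : a * δ ≤ 1 := by linarith only [ha]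
  set S : ℝ := ar F (Wn c ℓ (1 / (2 : ℕ))) with hS
  have hS0 : 0 < S := hF.ar_pos hℓ hℓ1 (by norm_num) (by norm_num)
  obtain ⟨L, hL⟩ : ∃ L : ℝ, L = Real.log ((2 : ℕ) : ℝ) := ⟨_, rfl⟩
  set r : ℝ := 500 * (1 + Real.log (2 : ℕ)) * √S with hr
  have hr' : r = 500 * (1 + L) * √S := by rw [hr, hL]
  have hL2 : L = Real.log 2 := by rw [hL]; norm_num
  have hlog1 : 0.69 < L := by
    have := Real.log_two_gt_d9
    linarith only [hL2, this]
  have hlog2 : L < 0.7 := by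
    have := Real.log_two_lt_d9
    (clear * - hL2 this; linarith only [hL2, this])
  have hr0 : 0 < r := by
    rw [hr']
    have : 0 < √S := Real.sqrt_pos.2 hS0
    have h2 : 0 < 1 + L := by linarith only [hlog1]
    (clear * - hlog1 hS0; positivity)
  have hrS : r ^ 2 ≤ 722500 * S := by
    rw [hr', mul_pow, Real.sq_sqrt hS0.le]
    apply mul_le_mul_of_nonneg_right _ hS0.le
    (clear * - hlog2 hlog1; nlinarith only [hlog1, hlog2])
  have hadd := kids_add3 hW hF (c := c) hℓ hℓ1 (N := 2) le_rfl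
  rw [Finset.sum_range_succ, Finset.sum_range_one] at hadd
  have hloss := loss3 hW ha1 hF (c := c) h0 hδ1 hℓ hℓ1 (N := 2) le_rfl
  have hk0 := kids_move3 hW hF (c := c) hm hm₀ hr0 hℓ hℓ1 (N := 2) (d := 0) le_rfl
    (by norm_num) (hF.kids_rad hℓ hℓ1 le_rfl (by norm_num))
  have hk2 := kids_move3 hW hF (c := c) hm hm₀ hr0 hℓ hℓ1 (N := 2) (d := 1) le_rfl
    (by norm_num) (hF.kids_rad hℓ hℓ1 le_rfl (by norm_num))
  rw [Crude_ch0] at hk0
  rw [Crude_ch1] at hk2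
  have hcast : ℓ / ((2 : ℕ) : ℝ) = ℓ / 2 := by push_cast; ring
  rw [hcast] at hk0 hk2
  have her := crude_er0 h0 h1 hr0 hS0.le hrS
  have her0 : 0 ≤ er0 δ (C2 * δ) r := er0_nonneg h0.le hm.le hr0.le
  have her2 : (1 - c₀) * er0 δ (C2 * δ) r ≤ er0 δ (C2 * δ) r :=
    mul_le_of_le_one_left her0 (by linarith only [hc0])
  have hexp : 1 ≤ Real.exp (C2 * δ ^ 2) := by
    apply Real.one_le_exp
    rw [hC]
    positivity
  have hexp2 : Real.exp (δ * (C2 * δ)) = Real.exp (C2 * δ ^ 2) := by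
    congr 1
    ring
  rw [hexp2] at hk0 hk2
  have hVw : 0 ≤ Vw3 W F c ℓ 2 := Vw3_nonneg hW ha1 hF hℓ hℓ1 le_rfl
  have hSr : 0 ≤ S * r ^ (-δ) := mul_nonneg hS0.le (Real.rpow_nonneg hr0.le _)
  have h5 : 2 * er0 δ (C2 * δ) r ≤ Vw3 W F c ℓ 2 := by
    refine her.trans (le_trans ?_ hloss)
    apply mul_le_mul_of_nonneg_right _ hSr
    (clear * - ha; linarith only [ha])
  have h6 : Vw3 W F c ℓ 2 ≤ Real.exp (C2 * δ ^ 2) * Vw3 W F c ℓ 2 :=
    le_mul_of_one_le_left hVw hexp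
  have h7 : Real.exp (C2 * δ ^ 2) * (Vw3 W F c ℓ 2 + (Vc3 W F c ℓ 2 0 + Vc3 W F c ℓ 2 1)) ≤
      Real.exp (C2 * δ ^ 2) * V3 W F c ℓ := mul_le_mul_of_nonneg_left hadd (Real.exp_pos _).le
  linarith only [hk0, hk2, her2, h5, h6, h7]

/-- `M` generations -/
theorem crudeM3 {δ a c₀ m₀ : ℝ} {W : Set ℂ → ℂ → ℝ} (hW : Pt δ a c₀ m₀ W) (ha : a * δ ≤ 1 / 100)
    (hc0 : 0 ≤ c₀) (hm₀ : C2 * δ ≤ m₀) (hF : Fn F A) (h0 : 0 < δ) (h1 : δ ≤ 1 / C2) (M : ℕ)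
    {c ℓ : ℝ} (hℓ : 0 < ℓ) (hℓ1 : ℓ ≤ 1) :
    ∑ d ∈ Finset.range (2 ^ M), V3 W F (ch (2 ^ M) c ℓ d) (ℓ / ((2 ^ M : ℕ) : ℝ)) ≤
      Real.exp (C2 * δ ^ 2 * M) * V3 W F c ℓ := by
  induction M with
  | zero =>
    have e1 : ch (2 ^ 0) c ℓ 0 = c := by
      unfold ch
      push_cast
      ring
    have e2 : ℓ / ((2 ^ 0 : ℕ) : ℝ) = ℓ := by
      push_cast
      ring
    rw [e2, show (2 : ℕ) ^ 0 = 1 by norm_num, Finset.sum_range_one]
    rw [show (2 : ℕ) ^ 0 = 1 by norm_num] at e1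
    rw [e1]
    simp
  | succ M ih =>
    have hM : (1 : ℝ) ≤ ((2 ^ M : ℕ) : ℝ) := by
      exact_mod_cast Nat.one_le_two_pow
    have hM0 : (0 : ℝ) < ((2 ^ M : ℕ) : ℝ) := lt_of_lt_of_le one_pos hM
    have hl0 : 0 < ℓ / ((2 ^ M : ℕ) : ℝ) := div_pos hℓ hM0
    have hl1 : ℓ / ((2 ^ M : ℕ) : ℝ) ≤ 1 := by
      rw [div_le_one hM0]
      linarith only [hℓ1, hM]
    have hhalf : ℓ / ((2 ^ (M + 1) : ℕ) : ℝ) = ℓ / ((2 ^ M : ℕ) : ℝ) / 2 := by
      push_cast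
      rw [pow_succ]
      (clear * - hℓ; field_simp)
    have hsum : ∑ d ∈ Finset.range (2 ^ (M + 1)),
        V3 W F (ch (2 ^ (M + 1)) c ℓ d) (ℓ / ((2 ^ (M + 1) : ℕ) : ℝ)) =
        ∑ d ∈ Finset.range (2 ^ M),
          (V3 W F (ch (2 ^ M) c ℓ d - ℓ / ((2 ^ M : ℕ) : ℝ) / 4) (ℓ / ((2 ^ M : ℕ) : ℝ) / 2) +
            V3 W F (ch (2 ^ M) c ℓ d + ℓ / ((2 ^ M : ℕ) : ℝ) / 4)
              (ℓ / ((2 ^ M : ℕ) : ℝ) / 2)) := by
      rw [hhalf]
      conv_lhs => rw [show Finset.range (2 ^ (M + 1)) = Finset.range (2 * 2 ^ M) by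
        rw [pow_succ, mul_comm]]
      rw [Crude_sum]
      refine Finset.sum_congr rfl fun d _ => ?_
      rw [Crude_ch_even, Crude_ch_odd]
    rw [hsum]
    have hstep : ∑ d ∈ Finset.range (2 ^ M),
          (V3 W F (ch (2 ^ M) c ℓ d - ℓ / ((2 ^ M : ℕ) : ℝ) / 4) (ℓ / ((2 ^ M : ℕ) : ℝ) / 2) +
            V3 W F (ch (2 ^ M) c ℓ d + ℓ / ((2 ^ M : ℕ) : ℝ) / 4)
              (ℓ / ((2 ^ M : ℕ) : ℝ) / 2)) ≤
        ∑ d ∈ Finset.range (2 ^ M), Real.exp (C2 * δ ^ 2) *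
          V3 W F (ch (2 ^ M) c ℓ d) (ℓ / ((2 ^ M : ℕ) : ℝ)) :=
      Finset.sum_le_sum fun d _ => crude3 hW ha hc0 hm₀ hF h0 h1 hl0 hl1
    rw [← Finset.mul_sum] at hstep
    refine hstep.trans ?_
    refine (mul_le_mul_of_nonneg_left ih (Real.exp_pos _).le).trans (le_of_eq ?_)
    rw [← mul_assoc, ← Real.exp_add]
    congr 2
    push_cast
    ring

end Pool.Agent.Helper90.G3
end

/- Helper24.KR.H90.G3.Window -/
section
/-!
# G3-WINDOW: the recursion over a window of `M` generations, for an abstract functional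

Copy of `G2.Window`; `m = (1 - c₀) π S² / (4 (1 - ε) (1 - a δ))`.
-/

set_option autoImplicit false

namespace Pool.Agent.Helper90.G3

open MeasureTheory Set
open scoped Real
open Pool.Agent.Helper90.G2

variable {F : ℂ → ℂ} {A : ℝ}

/-- the constant `m / δ` -/
noncomputable def cm3 (M : ℕ) (κ ε c₀ b : ℝ) : ℝ :=
  (1 - c₀) * π * sS κ (Real.log ((2 ^ M : ℕ) : ℝ)) ^ 2 / (4 * (1 - ε) * (1 - b))

/-- the error of a move in the whole window -/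
theorem window3_er1 {δ K R a0 ε N b : ℝ} (h0 : 0 < δ) (hb : b ≤ 1 / 100) (hε : 0 < ε) (hN : 0 < N)
    (hR : 0 < R) (ha : 0 < a0) (hK : K = 9 * π * R ^ 2 * N / (4 * ε)) (hδK : δ * K ≤ 1) :
    er0 δ (δ * K) (R * √a0) ≤ ε / N * ((1 - b) * (a0 * (R * √a0) ^ (-δ))) := by
  have hπ := Real.pi_pos
  have hK0 : 0 < K := by rw [hK]; (clear * - hR hN hε; positivity)
  have hs : √a0 ^ 2 = a0 := Real.sq_sqrt ha.le
  have hs0 : 0 < √a0 := Real.sqrt_pos.2 ha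
  have hr : 0 < R * √a0 := mul_pos hR hs0
  have hm : 0 < δ * K := mul_pos h0 hK0
  have e1 : (R * √a0 / (δ * K)) ^ (-δ) ≤ (R * √a0) ^ (-δ) := by
    refine Real.rpow_le_rpow_of_nonpos hr ?_ (by linarith only [h0])
    rw [le_div_iff₀ hm]
    (clear * - hδK hr; nlinarith only [hδK, hr])
  have e2 : δ * (π * (R * √a0) ^ 2 / (4 * (δ * K))) = 1 / 9 * (ε / N * a0) := by
    rw [mul_pow, hs, hK]
    (clear * - h0 hR hε hN ha; field_simp)
  have hp : 0 ≤ (R * √a0) ^ (-δ) := Real.rpow_nonneg hr.le _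
  have hq : 0 ≤ ε / N * a0 := by positivity
  unfold er0
  rw [e2]
  calc 1 / 9 * (ε / N * a0) * (R * √a0 / (δ * K)) ^ (-δ)
      ≤ 1 / 9 * (ε / N * a0) * (R * √a0) ^ (-δ) :=
        mul_le_mul_of_nonneg_left e1 (by positivity)
    _ ≤ (1 - b) * (ε / N * a0) * (R * √a0) ^ (-δ) :=
        mul_le_mul_of_nonneg_right (mul_le_mul_of_nonneg_right (by linarith only [hb]) hq) hp
    _ = ε / N * ((1 - b) * (a0 * (R * √a0) ^ (-δ))) := by ring

/-- the error of a sharp move -/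
theorem window3_er2 {δ m R a0 ε S b c₀ : ℝ} (h0 : 0 < δ) (hε1 : ε < 1) (hb : b ≤ 1 / 100)
    (hc : c₀ ≤ 1 / 2) (hR : 0 < R) (ha : 0 < a0) (hS : 0 < S)
    (hm : m = (1 - c₀) * π * S ^ 2 / (4 * (1 - ε) * (1 - b))) (h5 : δ * m * R ≤ S) :
    (1 - c₀) * er0 δ (δ * m) (√a0 * S) ≤ (1 - ε) * ((1 - b) * (a0 * (R * √a0) ^ (-δ))) := by
  have hπ := Real.pi_pos
  have hε' : 0 < 1 - ε := by (clear * - hε1; linarith only [hε1])
  have hb' : 0 < 1 - b := by (clear * - hb; linarith only [hb])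
  have hc' : 0 < 1 - c₀ := by (clear * - hc; linarith only [hc])
  have hm0 : 0 < m := by rw [hm]; (clear * - hc' hS hε1 hb'; positivity)
  have hs : √a0 ^ 2 = a0 := Real.sq_sqrt ha.le
  have hs0 : 0 < √a0 := Real.sqrt_pos.2 ha
  have hr : 0 < R * √a0 := mul_pos hR hs0
  have hdm : 0 < δ * m := mul_pos h0 hm0
  have e1 : (√a0 * S / (δ * m)) ^ (-δ) ≤ (R * √a0) ^ (-δ) := by
    refine Real.rpow_le_rpow_of_nonpos hr ?_ (by linarith only [h0])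
    rw [le_div_iff₀ hdm]
    (clear * - h5 hs0; nlinarith only [h5, hs0])
  have e2 : (1 - c₀) * (δ * (π * (√a0 * S) ^ 2 / (4 * (δ * m)))) = (1 - ε) * (1 - b) * a0 := by
    rw [mul_pow, hs, hm]
    (clear * - hc' h0 hS hb' hε' ha; field_simp)
  unfold er0
  calc (1 - c₀) * (δ * (π * (√a0 * S) ^ 2 / (4 * (δ * m))) * (√a0 * S / (δ * m)) ^ (-δ))
      = (1 - c₀) * (δ * (π * (√a0 * S) ^ 2 / (4 * (δ * m)))) * (√a0 * S / (δ * m)) ^ (-δ) := by
        ring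
    _ = (1 - ε) * (1 - b) * a0 * (√a0 * S / (δ * m)) ^ (-δ) := by rw [e2]
    _ ≤ (1 - ε) * (1 - b) * a0 * (R * √a0) ^ (-δ) :=
        mul_le_mul_of_nonneg_left e1 (by (clear * - hε1 hb' ha; positivity))
    _ = (1 - ε) * ((1 - b) * (a0 * (R * √a0) ^ (-δ))) := by ring

variable {δ a c₀ m₀ : ℝ} {W : Set ℂ → ℂ → ℝ}

/-- moving the point in the whole window (for every child) -/
theorem window3_move (hW : Pt δ a c₀ m₀ W) (haδ : a * δ ≤ 1 / 100) (hc0 : 0 ≤ c₀) (hF : Fn F A)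
    {ε : ℝ} {N : ℕ} (hN2 : 2 ≤ N) (hε : 0 < ε) {K : ℝ} (h0 : 0 < δ) (h14 : δ ≤ 1 / 4)
    (hK : K = 9 * π * (500 * (1 + Real.log N)) ^ 2 * N / (4 * ε)) (h2 : δ * K ≤ 1)
    (h2' : δ * K ≤ m₀) {c ℓ : ℝ} (hℓ : 0 < ℓ) (hℓ1 : ℓ ≤ 1) {d : ℕ} (hd : d < N) :
    V3 W F (ch N c ℓ d) (ℓ / N) ≤ (1 + (Real.exp (δ ^ 2 * K) - 1)) * Vc3 W F c ℓ N d +
      ε / N * Vw3 W F c ℓ N := by
  have hNr0 : (0 : ℝ) < N := by
    have : 0 < N := by omega
    exact_mod_cast this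
  have hlog : 0 ≤ Real.log N := Real.log_natCast_nonneg N
  have hR : 0 < 500 * (1 + Real.log N) := by linarith only [hlog]
  obtain ⟨hq, hq1⟩ := one_div_N hN2
  have hpos := hF.ar_pos (c := c) hℓ hℓ1 hq hq1
  have hK0 : 0 < K := by rw [hK]; (clear * - hN2 hε; positivity)
  have hr0 : 0 < 500 * (1 + Real.log N) * √(ar F (Wn c ℓ (1 / N))) :=
    mul_pos hR (Real.sqrt_pos.2 hpos)
  have hloss := loss3 hW (by (clear * - haδ; linarith only [haδ])) hF (c := c) h0 (by linarith only [h14] : δ ≤ 1) hℓ hℓ1 hN2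
  have k1 := kids_move3 hW hF (m := δ * K) (s := 500 * (1 + Real.log N) *
    √(ar F (Wn c ℓ (1 / N)))) (by (clear * - h0 hK0; positivity)) h2' hr0 hℓ hℓ1 hN2 hd (hF.kids_rad hℓ hℓ1 hN2 hd)
  have k2 := window3_er1 (N := N) h0 haδ hε hNr0 hR hpos hK h2
  have her0 : 0 ≤ er0 δ (δ * K) (500 * (1 + Real.log N) * √(ar F (Wn c ℓ (1 / N)))) :=
    er0_nonneg h0.le (by (clear * - h0 hK0; positivity)) hr0.le
  have her : (1 - c₀) * er0 δ (δ * K) (500 * (1 + Real.log N) * √(ar F (Wn c ℓ (1 / N)))) ≤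
      er0 δ (δ * K) (500 * (1 + Real.log N) * √(ar F (Wn c ℓ (1 / N)))) :=
    mul_le_of_le_one_left her0 (by linarith only [hc0])
  have k3 : ε / N * ((1 - a * δ) * (ar F (Wn c ℓ (1 / N)) *
      (500 * (1 + Real.log N) * √(ar F (Wn c ℓ (1 / N)))) ^ (-δ))) ≤
      ε / N * Vw3 W F c ℓ N := mul_le_mul_of_nonneg_left hloss (by positivity)
  have e : Real.exp (δ * (δ * K)) = 1 + (Real.exp (δ ^ 2 * K) - 1) := by
    rw [show δ * (δ * K) = δ ^ 2 * K by ring]; ring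
  rw [e] at k1
  linarith only [k1, k2, her, k3]

/-- moving the point of a central child -/
theorem window3_sharp (hW : Pt δ a c₀ m₀ W) (haδ : a * δ ≤ 1 / 100) (hc1 : c₀ ≤ 1 / 2)
    (hF : Fn F A) {κ ε : ℝ} {N : ℕ} (hN2 : 2 ≤ N) (hκ : 0 < κ) (hκ1 : κ ≤ 1 / 4)
    (hε1 : ε < 1) (hM : 2 / (N : ℝ) < κ ^ 2) {m : ℝ} (h0 : 0 < δ) (h14 : δ ≤ 1 / 4)
    (hm : m = (1 - c₀) * π * sS κ (Real.log N) ^ 2 / (4 * (1 - ε) * (1 - a * δ)))
    (h4 : δ * m ≤ m₀) (h5 : δ * m * (500 * (1 + Real.log N)) ≤ sS κ (Real.log N))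
    {c ℓ : ℝ} (hℓ : 0 < ℓ) (hℓ1 : ℓ ≤ 1) {d : ℕ} (hd : d < N) (hcen : Cen κ N d) :
    V3 W F (ch N c ℓ d) (ℓ / N) ≤ Real.exp (δ * (δ * m)) * Vc3 W F c ℓ N d +
      (1 - ε) * Vw3 W F c ℓ N := by
  have hπ3 := Real.pi_gt_three
  have hlog : 0 ≤ Real.log N := Real.log_natCast_nonneg N
  have hR : 0 < 500 * (1 + Real.log N) := by linarith only [hlog]
  obtain ⟨hq, hq1⟩ := one_div_N hN2
  have hpos := hF.ar_pos (c := c) hℓ hℓ1 hq hq1
  have hS : 0 < sS κ (Real.log N) := Window_sS hκ hκ1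
  have hε' : 0 < 1 - ε := by (clear * - hε1; linarith only [hε1])
  have hc' : 0 < 1 - c₀ := by (clear * - hc1; linarith only [hc1])
  have hb' : 0 < 1 - a * δ := by linarith only [haδ]
  have hm0 : 0 < m := by rw [hm]; (clear * - hc' hS hε1 hb'; positivity)
  have hloss := loss3 hW (by (clear * - hb'; linarith only [hb'])) hF (c := c) h0 (by (clear * - h14; linarith only [h14]) : δ ≤ 1) hℓ hℓ1 hN2
  have hsh := hF.sharp (c := c) (c' := ch N c ℓ d) hℓ hℓ1 hκ hκ1 hq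
    (by rw [mul_one_div]; exact hM) (Window_cen hℓ hcen)
  rw [one_div_one_div, one_div_mul_eq_div] at hsh
  have k1 := kids_move3 hW hF (m := δ * m) (by (clear * - h0 hm0; positivity)) h4
    (mul_pos (Real.sqrt_pos.2 hpos) hS) hℓ hℓ1 hN2 hd hsh
  have k2 := window3_er2 h0 hε1 haδ hc1 hR hpos hS hm h5
  have k3 : (1 - ε) * ((1 - a * δ) * (ar F (Wn c ℓ (1 / N)) *
      (500 * (1 + Real.log N) * √(ar F (Wn c ℓ (1 / N)))) ^ (-δ))) ≤
      (1 - ε) * Vw3 W F c ℓ N := mul_le_mul_of_nonneg_left hloss hε'.le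
  linarith only [k1, k2, k3]

/-- the window inequality with the constants as parameters -/
theorem window3_aux (hW : Pt δ a c₀ m₀ W) (haδ : a * δ ≤ 1 / 100) (hc0 : 0 ≤ c₀)
    (hc1 : c₀ ≤ 1 / 2) (hF : Fn F A) {κ ε : ℝ} {N : ℕ} (hN2 : 2 ≤ N) (hκ : 0 < κ) (hκ1 : κ ≤ 1 / 4)
    (hε : 0 < ε) (hε1 : ε ≤ 1 / 2) (hM : 2 / (N : ℝ) < κ ^ 2) {K m c' θ : ℝ} (h0 : 0 < δ)
    (h14 : δ ≤ 1 / 4) (hK : K = 9 * π * (500 * (1 + Real.log N)) ^ 2 * N / (4 * ε))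
    (hm : m = (1 - c₀) * π * sS κ (Real.log N) ^ 2 / (4 * (1 - ε) * (1 - a * δ)))
    (h2 : δ * K ≤ 1) (h2' : δ * K ≤ m₀) (h3 : 4 * δ ^ 2 * K ^ 2 ≤ ε) (h4 : δ * m ≤ m₀)
    (h5 : δ * m * (500 * (1 + Real.log N)) ≤ sS κ (Real.log N)) (hc' : 0 ≤ c')
    (hθ : 2 * c' * K / ε ≤ θ) {c ℓ : ℝ} (hℓ : 0 < ℓ) (hℓ1 : ℓ ≤ 1)
    (hcr : ∑ d ∈ Finset.range N, V3 W F (ch N c ℓ d) (ℓ / N) ≤ Real.exp c' * V3 W F c ℓ) :
    ∑ d ∈ Finset.range N, chi κ c' N d * V3 W F (ch N c ℓ d) (ℓ / N) ^ (1 + θ) ≤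
      Real.exp (c' * θ + δ ^ 2 * m + 2 * δ ^ 2 * ε + 3 * ε * c') * V3 W F c ℓ ^ (1 + θ) := by
  have hπ3 := Real.pi_gt_three
  have hNr : (2 : ℝ) ≤ N := by exact_mod_cast hN2
  have hNr0 : (0 : ℝ) < N := by linarith only [hNr]
  have hlog : 0 ≤ Real.log N := Real.log_natCast_nonneg N
  have hR1 : (1 : ℝ) ≤ 500 * (1 + Real.log N) := by (clear * - hlog; linarith only [hlog])
  have hR : 0 < 500 * (1 + Real.log N) := by linarith only [hR1]
  have hS : 0 < sS κ (Real.log N) := Window_sS hκ hκ1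
  have hε' : 0 < 1 - ε := by linarith only [hε1]
  have hK1 : 1 ≤ K := by
    rw [hK, le_div_iff₀ (by (clear * - hε; positivity))]
    have a1 : (1:ℝ) ≤ (500 * (1 + Real.log N)) ^ 2 := one_le_pow₀ hR1
    have a2 : (1:ℝ) ≤ (500 * (1 + Real.log N)) ^ 2 * N :=
      one_le_mul_of_one_le_of_one_le a1 (by (clear * - hNr; linarith only [hNr]))
    (clear * - hπ3 hε' a2; nlinarith only [hπ3, hε', a2])
  have hK0 : 0 < K := by linarith only [hK1]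
  have hm0 : 0 < m := by
    have hb' : 0 < 1 - a * δ := by (clear * - haδ; linarith only [haδ])
    have hc1' : 0 < 1 - c₀ := by linarith only [hc1]
    rw [hm]; (clear * - hc1' hS hε' hb'; positivity)
  -- smallness of `δ² K`
  have hx0 : 0 ≤ δ ^ 2 * K := by (clear * - h0 hK1; positivity)
  have hx1 : δ ^ 2 * K ≤ ε / (4 * K) := by
    rw [le_div_iff₀ (by positivity)]
    calc δ ^ 2 * K * (4 * K) = 4 * δ ^ 2 * K ^ 2 := by ring
      _ ≤ ε := h3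
  have hη1 : ε / K ≤ ε := div_le_self hε.le hK1
  have hη0 : 0 ≤ ε / K := by (clear * - hε hK1; positivity)
  have hx2 : δ ^ 2 * K ≤ 1 / 8 := by
    have e : ε / (4 * K) = ε / K / 4 := by (clear * - hK1 hε; field_simp)
    rw [e] at hx1
    linarith only [hε1, hx1, hη1]
  have ha0 : 0 ≤ Real.exp (δ ^ 2 * K) - 1 := by
    have := Real.add_one_le_exp (δ ^ 2 * K)
    linarith only [hx0, this]
  have ha2 : Real.exp (δ ^ 2 * K) - 1 ≤ 2 * (δ ^ 2 * K) := by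
    have hb := Real.exp_bound_div_one_sub_of_interval hx0 (by linarith only [hx2] : δ ^ 2 * K < 1)
    have hc : 1 / (1 - δ ^ 2 * K) ≤ 1 + 2 * (δ ^ 2 * K) := by
      rw [div_le_iff₀ (by linarith only [hx2])]
      (clear * - hx0 hx2; nlinarith only [hx0, hx2])
    linarith only [hb, hc]
  have haη : Real.exp (δ ^ 2 * K) - 1 ≤ ε / K / 2 := by
    have e : ε / K / 2 = 2 * (ε / (4 * K)) := by field_simp; norm_num
    rw [e]
    linarith only [hx1, ha2]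
  have hθ0 : 0 ≤ θ := le_trans (by (clear * - hc' hK1 hε; positivity)) hθ
  have hcθ : c' ≤ θ * (ε / K / 2) := by
    have e : c' = 2 * c' * K / ε * (ε / K / 2) := by (clear * - hK1 hε; field_simp)
    calc c' = 2 * c' * K / ε * (ε / K / 2) := e
      _ ≤ θ * (ε / K / 2) := mul_le_mul_of_nonneg_right hθ (by (clear * - hε hK1; positivity))
  have ha1 : a * δ ≤ 1 := by linarith only [haδ]
  have hb' : 0 < 1 - a * δ := by linarith only [haδ]
  have hc1' : 0 < 1 - c₀ := by linarith only [hc1]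
  have hw : 0 ≤ Vw3 W F c ℓ N := Vw3_nonneg hW ha1 hF hℓ hℓ1 hN2
  have hrec := rec_real (κ := κ) (g := Real.exp (δ * (δ * m))) (c := c') (ε := ε) (η := ε / K)
    (θ := θ) (a := Real.exp (δ ^ 2 * K) - 1) (w := Vw3 W F c ℓ N) (v := V3 W F c ℓ)
    (by omega : 0 < N) (fun d => Vc3 W F c ℓ N d)
    (fun d => V3 W F (ch N c ℓ d) (ℓ / N)) hw ha0 (by (clear * - hx2 ha2; linarith only [hx2, ha2])) haη
    (Real.one_le_exp (by (clear * - h0 hm0; positivity))) hc' hε.le (by linarith only [hε']) hη0 (by linarith only [hε', hη1]) hθ0 hcθ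
    (fun d _ => V3_nonneg hW ha1 hF ((div_N_le hℓ hN2).trans hℓ1))
    (fun d hd => Vc3_nonneg hW ha1 hF hℓ hℓ1 hN2 hd)
    (kids_add3 hW hF hℓ hℓ1 hN2) ?_ ?_ hcr
  · refine hrec.trans ?_
    have hv : 0 ≤ V3 W F c ℓ ^ (1 + θ) := Real.rpow_nonneg (V3_nonneg hW ha1 hF hℓ1) _
    refine mul_le_mul_of_nonneg_right ?_ hv
    have hg1 : 1 ≤ Real.exp (δ * (δ * m)) := Real.one_le_exp (by (clear * - h0 hm0; positivity))
    have b1 : (Real.exp (δ ^ 2 * K) - 1) * (ε / K) ≤ 2 * δ ^ 2 * ε := by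
      calc (Real.exp (δ ^ 2 * K) - 1) * (ε / K) ≤ 2 * (δ ^ 2 * K) * (ε / K) :=
            mul_le_mul_of_nonneg_right ha2 hη0
        _ = 2 * δ ^ 2 * ε := by (clear * - hK1 hε h0; field_simp)
    have b2 : c' * (2 * (ε / K) + ε) ≤ 3 * ε * c' := by (clear * - hc' hη1; nlinarith only [hc', hη1])
    have b3 : 0 ≤ 2 * δ ^ 2 * ε + 3 * ε * c' := by (clear * - h0 hε hc'; positivity)
    have b4 : Real.exp (δ * (δ * m)) + (Real.exp (δ ^ 2 * K) - 1) * (ε / K) +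
        c' * (2 * (ε / K) + ε) ≤
        Real.exp (δ * (δ * m)) * Real.exp (2 * δ ^ 2 * ε + 3 * ε * c') := by
      have b5 := Real.add_one_le_exp (2 * δ ^ 2 * ε + 3 * ε * c')
      nlinarith only [hg1, b1, b2, b3, b5]
    calc Real.exp (c' * θ) * (Real.exp (δ * (δ * m)) +
          (Real.exp (δ ^ 2 * K) - 1) * (ε / K) + c' * (2 * (ε / K) + ε))
        ≤ Real.exp (c' * θ) *
          (Real.exp (δ * (δ * m)) * Real.exp (2 * δ ^ 2 * ε + 3 * ε * c')) :=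
          mul_le_mul_of_nonneg_left b4 (Real.exp_pos _).le
      _ = Real.exp (c' * θ + δ ^ 2 * m + 2 * δ ^ 2 * ε + 3 * ε * c') := by
          rw [← Real.exp_add, ← Real.exp_add]
          congr 1
          ring
  · intro d hd
    exact window3_move hW haδ hc0 hF hN2 hε h0 h14 hK h2 h2' hℓ hℓ1 hd
  · intro d hd hcen
    exact window3_sharp hW haδ hc1 hF hN2 hκ hκ1 (by linarith only [hε']) hM h0 h14 hm h4 h5 hℓ hℓ1 hd hcen

theorem window3 (hW : Pt δ a c₀ m₀ W) (haδ : a * δ ≤ 1 / 100) (hc0 : 0 ≤ c₀) (hc1 : c₀ ≤ 1 / 2)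
    (hm₀ : C2 * δ ≤ m₀) (hF : Fn F A) {κ ε : ℝ} {M : ℕ} (hκ : 0 < κ) (hκ1 : κ ≤ 1 / 4)
    (hε : 0 < ε) (hε1 : ε ≤ 1 / 2) (hM : 2 / ((2 ^ M : ℕ) : ℝ) < κ ^ 2) (h0 : 0 < δ)
    (h1 : δ ≤ 1 / C2) (h2 : δ * cK M ε ≤ 1) (h2' : δ * cK M ε ≤ m₀)
    (h3 : 4 * δ ^ 2 * cK M ε ^ 2 ≤ ε) (h4 : δ * cm3 M κ ε c₀ (a * δ) ≤ m₀)
    (h5 : δ * cm3 M κ ε c₀ (a * δ) * (500 * (1 + Real.log ((2 ^ M : ℕ) : ℝ))) ≤
      sS κ (Real.log ((2 ^ M : ℕ) : ℝ)))
    {θ : ℝ} (hθ : 2 * C2 * M * cK M ε / ε * δ ^ 2 ≤ θ) {c ℓ : ℝ} (hℓ : 0 < ℓ) (hℓ1 : ℓ ≤ 1) :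
    ∑ d ∈ Finset.range (2 ^ M), chi κ (C2 * δ ^ 2 * M) (2 ^ M) d *
        V3 W F (ch (2 ^ M) c ℓ d) (ℓ / ((2 ^ M : ℕ) : ℝ)) ^ (1 + θ) ≤
      Real.exp (C2 * δ ^ 2 * M * θ + δ ^ 2 * cm3 M κ ε c₀ (a * δ) + 2 * δ ^ 2 * ε +
        3 * ε * (C2 * δ ^ 2 * M)) * V3 W F c ℓ ^ (1 + θ) := by
  have hC2 : (0:ℝ) < C2 := by unfold C2; norm_num
  have h14 : δ ≤ 1 / 4 := by
    refine h1.trans ?_
    unfold C2
    norm_num
  have hN2 : 2 ≤ 2 ^ M := by
    rcases Nat.eq_zero_or_pos M with h | h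
    · subst h
      exfalso
      norm_num at hM
      nlinarith only [hκ, hκ1, hM]
    · calc 2 = 2 ^ 1 := by norm_num
        _ ≤ 2 ^ M := Nat.pow_le_pow_right (by norm_num) h
  refine window3_aux (K := cK M ε) (m := cm3 M κ ε c₀ (a * δ)) hW haδ hc0 hc1 hF hN2 hκ hκ1 hε hε1
    hM h0 h14 rfl rfl h2 h2' h3 h4 h5 (by (clear * - hC2 h0; positivity)) ?_ hℓ hℓ1
    (crudeM3 hW haδ hc0 hm₀ hF h0 h1 M hℓ hℓ1)
  refine le_trans (le_of_eq ?_) hθ
  ring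

end Pool.Agent.Helper90.G3
end

/- Helper24.KR.H90.G3.Param -/
section
/-!
# G3-PARAM: choice of the parameters, for an abstract functional

As `G2.Param`. `L = log (2^M) = M log 2`. As `M → ∞`, `sS κ L² / L → 1 / (π - 2 κ)`, so
`cm3 M κ ε' c₀ b / L → (1 - c₀) π / (4 (π - 2 κ) (1 - ε') (1 - b))`, and `b = a δ` is small. The
choice of `κ`, `ε'`, `M` is that of `G2.Param`, `δ₀` depends also on `a`, `m₀`. With `θ ≤ δ` the
exponent of `window3` is at most `((1 - c₀) / 4 + ε) δ² log (2^M)`.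
-/

set_option autoImplicit false

namespace Pool.Agent.Helper90.G3

open MeasureTheory Set
open scoped Real
open Pool.Agent.Helper90.G2

/-- the constant `cm3` -/
theorem Param3_cm {e ε' b c₀ κ : ℝ} {M : ℕ} (he : 0 < e) (he1 : e ≤ 1) (hε' : 0 < ε')
    (hε1 : ε' ≤ e / 8) (hb : b ≤ e / 16) (hc1 : c₀ ≤ 1 / 2)
    (hL : 0 < Real.log ((2 ^ M : ℕ) : ℝ))
    (hS : π * sS κ (Real.log ((2 ^ M : ℕ) : ℝ)) ^ 2 ≤ (1 + e / 2) * Real.log ((2 ^ M : ℕ) : ℝ)) :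
    0 ≤ cm3 M κ ε' c₀ b ∧
      cm3 M κ ε' c₀ b ≤ (1 - c₀) / 4 * (1 + 2 * e) * Real.log ((2 ^ M : ℕ) : ℝ) := by
  unfold cm3
  generalize Real.log ((2 ^ M : ℕ) : ℝ) = L at *
  have hX0 : 0 ≤ π * sS κ L ^ 2 := mul_nonneg Real.pi_pos.le (sq_nonneg _)
  have h1 : (1 - c₀) * π * sS κ L ^ 2 = (1 - c₀) * (π * sS κ L ^ 2) := by ring
  rw [h1]
  generalize π * sS κ L ^ 2 = X at *
  have h2 : 0 < 1 - ε' := by (clear * - he1 hε1; linarith only [he1, hε1])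
  have h3 : 0 < 1 - b := by (clear * - he1 hb; linarith only [he1, hb])
  have h4 : 0 < 1 - c₀ := by linarith only [hc1]
  refine ⟨by (clear * - h4 hX0 h2 h3; positivity), ?_⟩
  rw [div_le_iff₀ (by (clear * - h2 h3; positivity))]
  have h5 : 1 - 3 * e / 16 ≤ (1 - ε') * (1 - b) := by
    have h6 : (1 - e / 8) * (1 - e / 16) ≤ (1 - ε') * (1 - b) :=
      mul_le_mul (by (clear * - hε1; linarith only [hε1])) (by linarith only [hb]) (by linarith only [he1]) h2.le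
    (clear * - hε1 hb he1 hε'; nlinarith only [he1, hε', hε1, hb])
  have h6 : 1 + e / 2 ≤ (1 + 2 * e) * ((1 - ε') * (1 - b)) := by
    have h7 : (1 + 2 * e) * (1 - 3 * e / 16) ≤ (1 + 2 * e) * ((1 - ε') * (1 - b)) :=
      mul_le_mul_of_nonneg_left h5 (by linarith only [hε', hε1])
    nlinarith only [he, he1, h7]
  calc (1 - c₀) * X ≤ (1 - c₀) * ((1 + 2 * e) * ((1 - ε') * (1 - b)) * L) :=
        mul_le_mul_of_nonneg_left (hS.trans (mul_le_mul_of_nonneg_right h6 hL.le)) h4.le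
    _ = (1 - c₀) / 4 * (1 + 2 * e) * L * (4 * (1 - ε') * (1 - b)) := by ring

theorem window3_ex {a c₀ m₀ : ℝ} (ha : 0 ≤ a) (hc0 : 0 ≤ c₀) (hc1 : c₀ ≤ 1 / 2) (hm₀ : 0 < m₀)
    {ε : ℝ} (hε : 0 < ε) :
    ∃ κ : ℝ, 0 < κ ∧ κ ≤ 1 / 4 ∧ 6 * κ * (C2 / Real.log 2) ≤ ε ∧ ∃ M : ℕ, 1 ≤ M ∧
      2 ≤ κ * ((2 ^ M : ℕ) : ℝ) ∧ ∃ Cθ δ₀ : ℝ, 0 ≤ Cθ ∧ 0 < δ₀ ∧ δ₀ ≤ 1 / 4 ∧ a * δ₀ ≤ 1 / 100 ∧
      ∀ δ : ℝ, 0 < δ → δ < δ₀ → ∀ θ : ℝ, Cθ * δ ^ 2 ≤ θ → θ ≤ δ →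
        ∀ W : Set ℂ → ℂ → ℝ, Pt δ a c₀ m₀ W →
        ∀ (F : ℂ → ℂ) (A : ℝ), Fn F A → ∀ c ℓ : ℝ, 0 < ℓ → ℓ ≤ 1 →
        ∑ d ∈ Finset.range (2 ^ M), chi κ (C2 * δ ^ 2 * M) (2 ^ M) d *
            V3 W F (ch (2 ^ M) c ℓ d) (ℓ / ((2 ^ M : ℕ) : ℝ)) ^ (1 + θ) ≤
          ((2 ^ M : ℕ) : ℝ) ^ (((1 - c₀) / 4 + ε) * δ ^ 2) * V3 W F c ℓ ^ (1 + θ) := by
  obtain ⟨hl0, hl1⟩ := Param_log2
  have hC := Param_C2
  have he : 0 < min ε 1 := lt_min hε one_pos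
  have he1 : min ε 1 ≤ 1 := min_le_right _ _
  have hee : min ε 1 ≤ ε := min_le_left _ _
  generalize min ε 1 = e at *
  obtain ⟨κ, hκ, hκ1, hκ2, L₀, hL₀⟩ := Param_kap he he1
  obtain ⟨M, hM1, hM2, hM3, hM4⟩ := Param_M hκ hκ1 L₀
  have hLM := Param_log M
  have hMr : (1 : ℝ) ≤ M := by exact_mod_cast hM1
  have hLpos : 0 < Real.log ((2 ^ M : ℕ) : ℝ) := by rw [hLM]; (clear * - hM1; positivity)
  have hN0 : (0 : ℝ) < ((2 ^ M : ℕ) : ℝ) := by positivity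
  have hsS := hL₀ _ hLpos hM4
  obtain ⟨ε', hε'⟩ : ∃ ε' : ℝ, ε' = e * Real.log 2 / (24 * C2) := ⟨_, rfl⟩
  have hε0 : 0 < ε' := by rw [hε', hC]; positivity
  have hε8 : ε' ≤ e / 8 := by
    rw [hε', hC, div_le_div_iff₀ (by norm_num) (by norm_num)]
    nlinarith only [hl1, he]
  have hK := Param_cK M hε0
  have hsp : 0 < sS κ (Real.log ((2 ^ M : ℕ) : ℝ)) := Window_sS hκ hκ1
  obtain ⟨K, hKd⟩ : ∃ K : ℝ, K = cK M ε' := ⟨_, rfl⟩
  obtain ⟨L, hLd⟩ : ∃ L : ℝ, L = Real.log ((2 ^ M : ℕ) : ℝ) := ⟨_, rfl⟩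
  obtain ⟨δ₁, hδ₁, hδ₁'⟩ := Param_ex (((((Param_small (X := C2) one_pos).and
    (Param_small (X := C2) hm₀)).and ((Param_small (X := K) one_pos).and
    (Param_small (X := K) hm₀))).and (((Param_small (X := 4 * K) hε0).and
    (Param_small (X := L) hm₀)).and ((Param_small (X := L * (500 * (1 + L))) hsp).and
    (Param_small (X := 8 * C2) (mul_pos he hl0))))).and (Param_small (X := a)
      (show (0 : ℝ) < e / 16 by (clear * - hε0 hε8; linarith only [hε0, hε8]))))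
  rw [← hKd] at hK
  have ha1 : 0 < 100 * (a + 1) := by (clear * - ha; linarith only [ha])
  refine ⟨κ, hκ, hκ1, hκ2.trans hee, M, hM1, hM2, 2 * C2 * M * K / ε',
    min δ₁ (min (1 / 4) (1 / (100 * (a + 1)))), ?_,
    lt_min hδ₁ (lt_min (by norm_num) (one_div_pos.2 ha1)),
    (min_le_right _ _).trans (min_le_left _ _), ?_, ?_⟩
  · rw [hC]
    (clear * - hM1 hK hε0; positivity)
  · have h1 : min δ₁ (min (1 / 4) (1 / (100 * (a + 1)))) ≤ 1 / (100 * (a + 1)) :=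
      (min_le_right _ _).trans (min_le_right _ _)
    rw [le_div_iff₀ ha1] at h1
    have h2 : 0 < min δ₁ (min (1 / 4) (1 / (100 * (a + 1)))) :=
      lt_min hδ₁ (lt_min (by norm_num) (one_div_pos.2 ha1))
    linarith only [h1, h2]
  intro δ h0 hδ θ hθ hθδ W hW F A hF c ℓ hℓ hℓ1
  obtain ⟨⟨⟨⟨c1, c2⟩, c3, c4⟩, ⟨c5, c6⟩, c7, c8⟩, c9⟩ :=
    hδ₁' δ h0 (hδ.trans_le (min_le_left _ _))
  have haδ : a * δ ≤ 1 / 100 := by
    have h1 := hδ.trans_le ((min_le_right _ _).trans (min_le_right _ _))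
    rw [lt_div_iff₀ ha1] at h1
    linarith only [h0, h1]
  obtain ⟨hm0, hmE⟩ := Param3_cm (b := a * δ) (κ := κ) he he1 hε0 hε8
    (by rw [mul_comm]; exact c9) hc1 hLpos hsS
  rw [← hLd] at hmE
  have hL0 : 0 < L := by rw [hLd]; exact hLpos
  have hm1 : cm3 M κ ε' c₀ (a * δ) ≤ L := by
    refine hmE.trans ?_
    have h1 : (1 - c₀) / 4 * (1 + 2 * e) ≤ 1 := by (clear * - hc0 he1 he; nlinarith only [hc0, he, he1])
    calc (1 - c₀) / 4 * (1 + 2 * e) * L ≤ 1 * L := mul_le_mul_of_nonneg_right h1 hL0.le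
      _ = L := one_mul L
  have k1 : δ ≤ 1 / C2 := by
    rw [le_div_iff₀ (by rw [hC]; norm_num)]
    exact c1
  have k3 : 4 * δ ^ 2 * cK M ε' ^ 2 ≤ ε' := by
    rw [← hKd]
    calc 4 * δ ^ 2 * K ^ 2 = δ * (4 * K) * (δ * K) := by ring
      _ ≤ ε' * 1 := mul_le_mul c5 c3 (mul_nonneg h0.le hK) hε0.le
      _ = ε' := mul_one _
  have k5 : δ * cm3 M κ ε' c₀ (a * δ) * (500 * (1 + Real.log ((2 ^ M : ℕ) : ℝ))) ≤
      sS κ (Real.log ((2 ^ M : ℕ) : ℝ)) := by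
    refine le_trans ?_ c7
    rw [← hLd, mul_assoc]
    exact mul_le_mul_of_nonneg_left (mul_le_mul_of_nonneg_right hm1 (by (clear * - hL0; positivity))) h0.le
  have hw := window3 (θ := θ) (c := c) hW haδ hc0 hc1 (by rw [mul_comm]; exact c2) hF hκ hκ1 hε0
    (by linarith only [he1, hε8]) hM3 h0 k1 (by rw [← hKd]; exact c3) (by rw [← hKd]; exact c4) k3
    ((mul_le_mul_of_nonneg_left hm1 h0.le).trans c6) k5 (by rw [← hKd]; exact hθ) hℓ hℓ1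
  refine hw.trans ?_
  have hV : 0 ≤ V3 W F c ℓ ^ (1 + θ) :=
    Real.rpow_nonneg (V3_nonneg hW (by (clear * - haδ; linarith only [haδ])) hF hℓ1) _
  refine mul_le_mul_of_nonneg_right ?_ hV
  rw [Real.rpow_def_of_pos hN0, ← hLd]
  refine Real.exp_le_exp.2 ?_
  have hE := Param_exp (e := e) (ε' := ε') (δ := δ) (θ := θ) (L := L) (b := (1 - c₀) / 4) he hM1
    hε' (by rw [hLd, hLM]) hθδ c8 rfl hmE (by (clear * - hc0; linarith only [hc0]))
  refine hE.trans ?_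
  have h5 : 0 ≤ δ ^ 2 * L := by (clear * - h0 hL0; positivity)
  have h6 : e * (δ ^ 2 * L) ≤ ε * (δ ^ 2 * L) := mul_le_mul_of_nonneg_right hee h5
  calc ((1 - c₀) / 4 + e) * δ ^ 2 * L = (1 - c₀) / 4 * (δ ^ 2 * L) + e * (δ ^ 2 * L) := by ring
    _ ≤ (1 - c₀) / 4 * (δ ^ 2 * L) + ε * (δ ^ 2 * L) := by linarith only [h6]
    _ = L * (((1 - c₀) / 4 + ε) * δ ^ 2) := by ring

end Pool.Agent.Helper90.G3
end

/- Helper24.KR.H90.G3.Avg -/
section
/-!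
# G3-AVG: averaging over translations, for an abstract functional

`words` for `f c ℓ = V3 W F c ℓ ^ (1 + θ)`; `V ≤ 2 V3`, `V3 ≤ 2 V` and `Fn.avg_core`.
-/

set_option autoImplicit false

namespace Pool.Agent.Helper90.G3

open MeasureTheory Set
open scoped Real
open Pool.Agent.Helper90.G2

variable {F : ℂ → ℂ} {A : ℝ}

theorem V_le_V3 {δ a c₀ m₀ : ℝ} {W : Set ℂ → ℂ → ℝ} (hW : Pt δ a c₀ m₀ W) (ha : a * δ ≤ 1 / 100)
    (hF : Fn F A) {c ℓ : ℝ} (hℓ1 : ℓ ≤ 1) : V F δ c ℓ ≤ 2 * V3 W F c ℓ := by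
  have h := hW.lo _ (hF.meas (meas_bx _ _) (bx_sub_strip (c := c) hℓ1))
    (hF.fin (c := c) hℓ1 (Subset.refl _)) (F (zt c ℓ))
  have hv : 0 ≤ V F δ c ℓ := vp_nonneg _ _ _
  unfold V3
  unfold V at hv ⊢
  nlinarith only [ha, h, hv]

theorem V3_le_V {δ a c₀ m₀ : ℝ} {W : Set ℂ → ℂ → ℝ} (hW : Pt δ a c₀ m₀ W) (ha : a * δ ≤ 1 / 100)
    (hF : Fn F A) {c ℓ : ℝ} (hℓ1 : ℓ ≤ 1) : V3 W F c ℓ ≤ 2 * V F δ c ℓ := by
  have h := hW.up _ (hF.meas (meas_bx _ _) (bx_sub_strip (c := c) hℓ1))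
    (hF.fin (c := c) hℓ1 (Subset.refl _)) (F (zt c ℓ))
  have hv : 0 ≤ V F δ c ℓ := vp_nonneg _ _ _
  unfold V3
  unfold V at hv ⊢
  nlinarith only [ha, h, hv]

theorem avg3 {δ a c₀ m₀ : ℝ} {W : Set ℂ → ℂ → ℝ} (hW : Pt δ a c₀ m₀ W) (ha : a * δ ≤ 1 / 100)
    (hF : Fn F A) (hA : 0 ≤ A) {θ κ c' G : ℝ} {N : ℕ} (h0 : 0 < δ) (h1 : δ ≤ 1 / 4)
    (hθ : 0 ≤ θ) (hθ1 : θ ≤ 1) (hκ : 0 < κ) (hκ1 : κ ≤ 1 / 4) (hc : 0 ≤ c')
    (hc1 : 3 * κ * c' ≤ 1 / 2) (hN : 2 ≤ κ * N) (hG : 0 ≤ G)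
    (h : ∀ c ℓ : ℝ, 0 < ℓ → ℓ ≤ 1 →
      ∑ d ∈ Finset.range N, chi κ c' N d * V3 W F (ch N c ℓ d) (ℓ / N) ^ (1 + θ) ≤
        G * V3 W F c ℓ ^ (1 + θ)) (K : ℕ) :
    ∫ ξ in (0:ℝ)..(2 * π), ‖deriv F ⟨((N ^ K : ℕ) : ℝ)⁻¹, ξ⟩‖ ^ ((2 - δ) * (1 + θ)) ≤
      2 * π * 500000 ^ 2 * (A + 7) ^ 2 *
        (16 * G ^ K * ((N ^ K : ℕ) : ℝ) ^ ((2 - δ) * (1 + θ) - 1) * Real.exp (6 * κ * c' * K)) := by
  have ha1 : a * δ ≤ 1 := by linarith only [ha]
  have hN0 : 1 ≤ N := by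
    rcases Nat.eq_zero_or_pos N with h | h
    · rw [h] at hN
      norm_num at hN
    · exact h
  have hNK : (1 : ℝ) ≤ ((N ^ K : ℕ) : ℝ) := by exact_mod_cast Nat.one_le_pow _ _ hN0
  have hl1 : (1 : ℝ) / ((N ^ K : ℕ) : ℝ) ≤ 1 := by
    rw [div_le_one (by linarith only [hNK])]
    exact hNK
  have h2q : (2 : ℝ) ^ (1 + θ) ≤ 4 := by
    calc (2 : ℝ) ^ (1 + θ) ≤ (2 : ℝ) ^ (2 : ℝ) :=
          Real.rpow_le_rpow_of_exponent_le (by norm_num) (by linarith only [hθ1])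
      _ = 4 := by
        rw [Real.rpow_two]
        norm_num
  have key : ∀ ξ : ℝ, ∑ d ∈ Finset.range (N ^ K), chK κ c' N K d *
        V F δ (ch (N ^ K) ξ 1 d) (1 / ((N ^ K : ℕ) : ℝ)) ^ (1 + θ) ≤
      16 * G ^ K * V F δ ξ 1 ^ (1 + θ) := by
    intro ξ
    have hw := words (f := fun c ℓ => V3 W F c ℓ ^ (1 + θ)) hN0 hG h K ξ 1 one_pos le_rfl
    have hV3 : 0 ≤ V3 W F ξ 1 := V3_nonneg hW ha1 hF le_rfl
    have hVv : 0 ≤ V F δ ξ 1 := vp_nonneg _ _ _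
    have e1 : V3 W F ξ 1 ^ (1 + θ) ≤ 4 * V F δ ξ 1 ^ (1 + θ) := by
      calc V3 W F ξ 1 ^ (1 + θ) ≤ (2 * V F δ ξ 1) ^ (1 + θ) :=
            Real.rpow_le_rpow hV3 (V3_le_V hW ha hF le_rfl) (by linarith only [hθ])
        _ = 2 ^ (1 + θ) * V F δ ξ 1 ^ (1 + θ) := Real.mul_rpow (by norm_num) hVv
        _ ≤ 4 * V F δ ξ 1 ^ (1 + θ) :=
            mul_le_mul_of_nonneg_right h2q (Real.rpow_nonneg hVv _)
    have e2 : ∑ d ∈ Finset.range (N ^ K), chK κ c' N K d *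
        V F δ (ch (N ^ K) ξ 1 d) (1 / ((N ^ K : ℕ) : ℝ)) ^ (1 + θ) ≤
        4 * ∑ d ∈ Finset.range (N ^ K), chK κ c' N K d *
        V3 W F (ch (N ^ K) ξ 1 d) (1 / ((N ^ K : ℕ) : ℝ)) ^ (1 + θ) := by
      rw [Finset.mul_sum]
      refine Finset.sum_le_sum fun d _ => ?_
      have hv : 0 ≤ V F δ (ch (N ^ K) ξ 1 d) (1 / ((N ^ K : ℕ) : ℝ)) := vp_nonneg _ _ _
      have hv3 : 0 ≤ V3 W F (ch (N ^ K) ξ 1 d) (1 / ((N ^ K : ℕ) : ℝ)) :=
        V3_nonneg hW ha1 hF hl1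
      have e3 : V F δ (ch (N ^ K) ξ 1 d) (1 / ((N ^ K : ℕ) : ℝ)) ^ (1 + θ) ≤
          4 * V3 W F (ch (N ^ K) ξ 1 d) (1 / ((N ^ K : ℕ) : ℝ)) ^ (1 + θ) := by
        calc V F δ (ch (N ^ K) ξ 1 d) (1 / ((N ^ K : ℕ) : ℝ)) ^ (1 + θ)
            ≤ (2 * V3 W F (ch (N ^ K) ξ 1 d) (1 / ((N ^ K : ℕ) : ℝ))) ^ (1 + θ) :=
              Real.rpow_le_rpow hv (V_le_V3 hW ha hF hl1) (by linarith only [hθ])
          _ = 2 ^ (1 + θ) * V3 W F (ch (N ^ K) ξ 1 d) (1 / ((N ^ K : ℕ) : ℝ)) ^ (1 + θ) :=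
              Real.mul_rpow (by norm_num) hv3
          _ ≤ 4 * V3 W F (ch (N ^ K) ξ 1 d) (1 / ((N ^ K : ℕ) : ℝ)) ^ (1 + θ) :=
              mul_le_mul_of_nonneg_right h2q (Real.rpow_nonneg hv3 _)
      calc chK κ c' N K d * V F δ (ch (N ^ K) ξ 1 d) (1 / ((N ^ K : ℕ) : ℝ)) ^ (1 + θ)
          ≤ chK κ c' N K d *
            (4 * V3 W F (ch (N ^ K) ξ 1 d) (1 / ((N ^ K : ℕ) : ℝ)) ^ (1 + θ)) :=
            mul_le_mul_of_nonneg_left e3 (chK_nonneg κ c' N K d)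
        _ = 4 * (chK κ c' N K d *
            V3 W F (ch (N ^ K) ξ 1 d) (1 / ((N ^ K : ℕ) : ℝ)) ^ (1 + θ)) := by ring
    have e4 : 4 * ∑ d ∈ Finset.range (N ^ K), chK κ c' N K d *
        V3 W F (ch (N ^ K) ξ 1 d) (1 / ((N ^ K : ℕ) : ℝ)) ^ (1 + θ) ≤
        4 * (G ^ K * (4 * V F δ ξ 1 ^ (1 + θ))) := by
      apply mul_le_mul_of_nonneg_left _ (by norm_num)
      exact hw.trans (mul_le_mul_of_nonneg_left e1 (pow_nonneg hG K))
    calc _ ≤ _ := e2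
      _ ≤ _ := e4
      _ = 16 * G ^ K * V F δ ξ 1 ^ (1 + θ) := by ring
  exact hF.avg_core hA h0 h1 (by linarith only [hθ]) (by linarith only [hθ1]) hκ hκ1 hc hc1 hN
    (mul_nonneg (by norm_num) (pow_nonneg hG K)) key

end Pool.Agent.Helper90.G3
end
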