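import Pool.Agent.Helper24.KG.G07
import Pool.Agent.Helper24.KG.G08

/- Helper24.KR.H90.G3.Heights -/
section
/-!
# G3-HEIGHTS: all heights, and the exponent

As `G2.Heights`, with `q = (1 - c₀) / 4` instead of `1 / 4`: `q + c₀ / 8 = 1 / 4 - c₀ / 8`.
-/

set_option autoImplicit false

namespace Pool.Agent.Helper90.G3

open MeasureTheory Set
open scoped Real
open Pool.Agent.Helper90.G2

/-- the bound at the heights `N^(-K)`, `N = 2^M` -/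
theorem heights3_K {q ε κ δ t : ℝ} (hκ : 6 * κ * (C2 / Real.log 2) ≤ ε / 4)
    (ht : (q + ε / 2) * δ ^ 2 ≤ (q + ε) * t ^ 2) (M K : ℕ) :
    (16 : ℝ) * (((2 ^ M : ℕ) : ℝ) ^ ((q + ε / 4) * δ ^ 2)) ^ K *
        (((2 ^ M) ^ K : ℕ) : ℝ) ^ ((2 - t) - 1) * Real.exp (6 * κ * (C2 * δ ^ 2 * M) * K) ≤
      16 * (((2 ^ M) ^ K : ℕ) : ℝ) ^ (1 - t + (q + ε) * t ^ 2) := by
  have hx : (0:ℝ) < (((2 ^ M) ^ K : ℕ) : ℝ) := by (clear * -; positivity)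
  have hx1 : (1:ℝ) ≤ (((2 ^ M) ^ K : ℕ) : ℝ) := by
    push_cast
    exact one_le_pow₀ (one_le_pow₀ one_le_two)
  have hG : (((2 ^ M : ℕ) : ℝ) ^ ((q + ε / 4) * δ ^ 2)) ^ K =
      (((2 ^ M) ^ K : ℕ) : ℝ) ^ ((q + ε / 4) * δ ^ 2) := by
    rw [← Real.rpow_natCast, ← Real.rpow_mul (by (clear * -; positivity)), mul_comm,
      Real.rpow_mul (by positivity), Real.rpow_natCast]
    push_cast
    rfl
  rw [hG]
  have h : (((2 ^ M) ^ K : ℕ) : ℝ) ^ ((q + ε / 4) * δ ^ 2) *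
        (((2 ^ M) ^ K : ℕ) : ℝ) ^ ((2 - t) - 1) * Real.exp (6 * κ * (C2 * δ ^ 2 * M) * K)
      ≤ (((2 ^ M) ^ K : ℕ) : ℝ) ^ (1 - t + (q + ε) * t ^ 2) := by
    calc (((2 ^ M) ^ K : ℕ) : ℝ) ^ ((q + ε / 4) * δ ^ 2) *
          (((2 ^ M) ^ K : ℕ) : ℝ) ^ ((2 - t) - 1) * Real.exp (6 * κ * (C2 * δ ^ 2 * M) * K)
        ≤ (((2 ^ M) ^ K : ℕ) : ℝ) ^ ((q + ε / 4) * δ ^ 2) *
          (((2 ^ M) ^ K : ℕ) : ℝ) ^ ((2 - t) - 1) *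
            (((2 ^ M) ^ K : ℕ) : ℝ) ^ (ε / 4 * δ ^ 2) :=
          mul_le_mul_of_nonneg_left (Heights_exp hκ M K) (by (clear * -; positivity))
      _ = (((2 ^ M) ^ K : ℕ) : ℝ) ^ ((q + ε / 4) * δ ^ 2 + ((2 - t) - 1) +
            ε / 4 * δ ^ 2) := by
          rw [Real.rpow_add hx, Real.rpow_add hx]
      _ ≤ (((2 ^ M) ^ K : ℕ) : ℝ) ^ (1 - t + (q + ε) * t ^ 2) := by
          apply Real.rpow_le_rpow_of_exponent_le hx1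
          (clear * - ht; linarith)
  (clear * - h; linarith)

theorem heights3_gen {a c₀ m₀ δ₁ : ℝ} (ha : 0 ≤ a) (hc0 : 0 ≤ c₀) (hc1 : c₀ ≤ 1 / 2)
    (hm₀ : 0 < m₀) (hδ₁ : 0 < δ₁)
    (hW : ∀ δ : ℝ, 0 < δ → δ ≤ δ₁ → ∃ W : Set ℂ → ℂ → ℝ, Pt δ a c₀ m₀ W) {ε : ℝ} (hε : 0 < ε) :
    ∃ δ₀ : ℝ, 0 < δ₀ ∧ δ₀ ≤ 1 / 4 ∧ ∀ δ : ℝ, 0 < δ → δ < δ₀ → ∀ A : ℝ, 0 ≤ A → ∃ C : ℝ, 0 ≤ C ∧
      ∀ F : ℂ → ℂ, Fn F A → ∀ y : ℝ, 0 < y → y ≤ 1 →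
        ∫ ξ in (0:ℝ)..(2 * π), ‖deriv F ⟨y, ξ⟩‖ ^ (2 - δ) ≤
          C * y ^ (-(1 - δ + ((1 - c₀) / 4 + ε) * δ ^ 2)) := by
  obtain ⟨κ, hκ, hκ1, hκ2, M, hM, hκM, Cθ, δw, hCθ, hδw, hδw1, haw, hw⟩ :=
    window3_ex ha hc0 hc1 hm₀ (ε := ε / 4) (by (clear * - hε; positivity))
  obtain ⟨q, hq⟩ : ∃ q : ℝ, q = (1 - c₀) / 4 := ⟨_, rfl⟩
  have hq0 : 0 ≤ q := by
    rw [hq]
    linarith only [hc1]
  have hq1 : q ≤ 1 / 4 := by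
    rw [hq]
    (clear * - hc0; linarith only [hc0])
  rw [← hq] at hw ⊢
  have hC2 : (0:ℝ) < C2 := by
    unfold C2
    norm_num
  obtain ⟨C', hC'⟩ : ∃ C' : ℝ, C' = 8 * Cθ + 1 := ⟨_, rfl⟩
  have hC'0 : 0 < C' := by
    rw [hC']
    (clear * - hCθ; positivity)
  obtain ⟨s₀, hs₀⟩ : ∃ s₀ : ℝ, s₀ = ε / (3 / 2 + 3 * ε) := ⟨_, rfl⟩
  have hs0 : 0 < s₀ := by
    rw [hs₀]
    (clear * - hε; positivity)
  have hs1 : s₀ ≤ 1 / 3 := by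
    rw [hs₀, div_le_iff₀ (by positivity)]
    (clear * -; linarith only [])
  have hs2 : s₀ * (3 / 2 + 3 * ε) = ε := by
    rw [hs₀]
    (clear * - hε; field_simp)
  have hMC : 0 < 3 * (C2 * M + 1) := by (clear * - hC2 hM; positivity)
  refine ⟨min (1 / 4) (min (min δ₁ δw / 2) (min (s₀ / C') (2 / (3 * (C2 * M + 1))))), ?_,
    min_le_left _ _, ?_⟩
  · exact lt_min (by norm_num) (lt_min (half_pos (lt_min hδ₁ hδw))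
      (lt_min (by (clear * - hs0 hC'0; positivity)) (by positivity)))
  intro t ht ht' A hA
  rw [lt_min_iff, lt_min_iff, lt_min_iff] at ht'
  obtain ⟨ht1, ht2, ht3, ht4⟩ := ht'
  rw [lt_div_iff₀ hC'0] at ht3
  rw [lt_div_iff₀ hMC] at ht4
  have ht5 : 2 * t < min δ₁ δw := by (clear * - ht2; linarith only [ht2])
  rw [lt_min_iff] at ht5
  obtain ⟨δ, hδ⟩ : ∃ δ : ℝ, δ = t + C' * t ^ 2 := ⟨_, rfl⟩
  have hδt : δ = t * (1 + t * C') := by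
    rw [hδ]
    ring
  have hδ0 : 0 < δ := by
    rw [hδ]
    (clear * - ht hC'0; positivity)
  have hδ2 : δ ≤ 2 * t := by
    rw [hδt]
    (clear * - ht hs1 ht3; nlinarith only [hs1, ht, ht3])
  have hδw2 : δ < δw := by linarith only [ht5, hδ2]
  have hδ11 : δ ≤ δ₁ := by linarith only [ht5, hδ2]
  obtain ⟨W, hWδ⟩ := hW δ hδ0 hδ11
  have haδ : a * δ ≤ 1 / 100 := (mul_le_mul_of_nonneg_left hδw2.le ha).trans haw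
  have hδ14 : δ ≤ 1 / 4 := by linarith only [hδw1, hδw2]
  have h2δ : 0 < 2 - δ := by linarith only [hδ14]
  obtain ⟨θ, hθ⟩ : ∃ θ : ℝ, θ = C' * t ^ 2 / (2 - δ) := ⟨_, rfl⟩
  have hθ0 : 0 ≤ θ := by
    rw [hθ]
    (clear * - hC'0 ht h2δ; positivity)
  have hθm : θ * (2 - δ) = C' * t ^ 2 := by
    rw [hθ]
    (clear * - h2δ ht hC'0; field_simp)
  have hθ1 : Cθ * δ ^ 2 ≤ θ := by
    have h1 : δ ^ 2 ≤ (2 * t) ^ 2 := pow_le_pow_left₀ hδ0.le hδ2 2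
    have h2 : Cθ * δ ^ 2 ≤ Cθ * (2 * t) ^ 2 := mul_le_mul_of_nonneg_left h1 hCθ
    have h3 : C' * t ^ 2 ≤ 2 * θ := by
      rw [← hθm]
      (clear * - hδ0 hθ0; nlinarith only [hδ0, hθ0])
    have h4 : 0 ≤ t ^ 2 := sq_nonneg t
    rw [hC'] at h3
    (clear * - h2 h3; nlinarith only [h2, h3])
  have hθ2 : θ ≤ δ := by
    have h1 : θ ≤ C' * t ^ 2 := by
      rw [← hθm]
      (clear * - hθ0 hδ14; nlinarith only [hδ14, hθ0])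
    rw [hδ]
    (clear * - hδ0 hδ2 h1; linarith only [hδ0, hδ2, h1])
  have hprod : (2 - δ) * (1 + θ) = 2 - t := by
    have h : (2 - δ) * (1 + θ) = 2 - δ + θ * (2 - δ) := by ring
    rw [h, hθm, hδ]
    ring
  have hexp : (q + ε / 2) * δ ^ 2 ≤ (q + ε) * t ^ 2 := by
    have h1 : (1 + t * C') ^ 2 ≤ 1 + 3 * s₀ := by (clear * - hδt hδ0 hδ2 hs0 ht3; nlinarith only [hs0, ht3, hδt, hδ0, hδ2])
    have h2 : (q + ε / 2) * (1 + 3 * s₀) ≤ q + ε := by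
      have h : (q + ε / 2) * (1 + 3 * s₀) =
        q + ε / 2 + s₀ * (3 / 2 + 3 * ε) / 2 - 3 * s₀ * (1 / 4 - q) := by ring
      rw [h, hs2]
      have h' : 0 ≤ 3 * s₀ * (1 / 4 - q) := mul_nonneg (by linarith only [hs0]) (by linarith only [hq1])
      linarith only [h']
    rw [hδt, mul_pow]
    calc (q + ε / 2) * (t ^ 2 * (1 + t * C') ^ 2)
        = t ^ 2 * ((q + ε / 2) * (1 + t * C') ^ 2) := by ring
      _ ≤ t ^ 2 * ((q + ε / 2) * (1 + 3 * s₀)) := by (clear * - h1 hq0 hε ht; gcongr)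
      _ ≤ t ^ 2 * (q + ε) := mul_le_mul_of_nonneg_left h2 (sq_nonneg t)
      _ = (q + ε) * t ^ 2 := by ring
  have hc1 : 3 * κ * (C2 * δ ^ 2 * M) ≤ 1 / 2 := by
    have h1 : δ ^ 2 ≤ (2 * t) ^ 2 := pow_le_pow_left₀ hδ0.le hδ2 2
    have h2 : C2 * δ ^ 2 * M ≤ C2 * (2 * t) ^ 2 * M := by (clear * - h1 hC2 hM; gcongr)
    have h3 : 3 * κ * (C2 * δ ^ 2 * M) ≤ 3 * (1 / 4) * (C2 * (2 * t) ^ 2 * M) := by (clear * - hκ1 h2 hC2 hδ0 hM; gcongr)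
    have h4 : t * (C2 * M) ≤ 2 / 3 := by
      have h5 : t * (3 * (C2 * M + 1)) = 3 * (t * (C2 * M)) + 3 * t := by ring
      rw [h5] at ht4
      linarith only [ht4, hδ0, hδ2]
    have h6 : 0 ≤ t * (C2 * M) := by (clear * - ht hC2 hM; positivity)
    calc 3 * κ * (C2 * δ ^ 2 * M) ≤ 3 * (1 / 4) * (C2 * (2 * t) ^ 2 * M) := h3
      _ = 3 * t * (t * (C2 * M)) := by ring
      _ ≤ 3 * (1 / 4) * (2 / 3) := by (clear * - ht1 h4 ht hC2 hM; gcongr)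
      _ = 1 / 2 := by norm_num
  refine ⟨(55 ^ M) ^ 2 * (2 * π * 500000 ^ 2 * (A + 7) ^ 2 * 16), by (clear * - hA; positivity), ?_⟩
  intro F hF y hy hy1
  have hb : 0 ≤ 1 - t + (q + ε) * t ^ 2 := by
    have : 0 ≤ (q + ε) * t ^ 2 := by (clear * - hq0 hε ht; positivity)
    linarith only [ht1, this]
  refine heights_core hF hM (by linarith only [ht1]) (by linarith only [hδ0, hδ2]) hb (by (clear * - hA; positivity)) (fun K => ?_) hy hy1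
  have havg := avg3 hWδ haδ hF hA (κ := κ) (c' := C2 * δ ^ 2 * M)
    (G := ((2 ^ M : ℕ) : ℝ) ^ ((q + ε / 4) * δ ^ 2)) (N := 2 ^ M) hδ0 hδ14 hθ0
    (by linarith only [hδ14, hθ2]) hκ hκ1 (by (clear * - hC2 hδ0 hM; positivity)) hc1 hκM (by positivity)
    (fun c ℓ hℓ hℓ1 => hw δ hδ0 hδw2 θ hθ1 hθ2 W hWδ F A hF c ℓ hℓ hℓ1) K
  rw [hprod] at havg
  refine havg.trans ?_
  rw [mul_assoc (2 * π * 500000 ^ 2 * (A + 7) ^ 2) 16]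
  exact mul_le_mul_of_nonneg_left (heights3_K hκ2 hexp M K) (by (clear * - hA; positivity))

theorem heights3 :
    ∃ c : ℝ, 0 < c ∧ c ≤ 1 / 4 ∧ ∃ δ₀ : ℝ, 0 < δ₀ ∧ δ₀ ≤ 1 / 4 ∧ ∀ δ : ℝ, 0 < δ → δ < δ₀ →
      ∀ A : ℝ, 0 ≤ A → ∃ C : ℝ, 0 ≤ C ∧
      ∀ F : ℂ → ℂ, Fn F A → ∀ y : ℝ, 0 < y → y ≤ 1 →
        ∫ ξ in (0:ℝ)..(2 * π), ‖deriv F ⟨y, ξ⟩‖ ^ (2 - δ) ≤
          C * y ^ (-(1 - δ + (1 / 4 - c) * δ ^ 2)) := by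
  obtain ⟨a, c₀, m₀, δ₁, ha, hc0, hc1, hm₀, -, hδ₁, -, hW⟩ := exists_pt
  obtain ⟨δ₀, hδ₀, hδ₀', h⟩ := heights3_gen ha hc0.le hc1 hm₀ hδ₁ hW (ε := c₀ / 8) (by (clear * - hc0; linarith only [hc0]))
  refine ⟨c₀ / 8, by linarith only [hc0], by linarith, δ₀, hδ₀, hδ₀', fun δ hδ hδ' A hA => ?_⟩
  obtain ⟨C, hC, h2⟩ := h δ hδ hδ' A hA
  refine ⟨C, hC, fun F hF y hy hy1 => ?_⟩
  have h3 := h2 F hF y hy hy1
  have e : (1 - c₀) / 4 + c₀ / 8 = 1 / 4 - c₀ / 8 := by ring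
  rwa [e] at h3

end Pool.Agent.Helper90.G3
end

/- Helper24.KR.H90.G3.Main -/
section
/-!
# G3-MAIN: the theorem

`main_core` of `G2.Main` with `heights3`.
-/

set_option autoImplicit false

namespace Pool.Agent.Helper90.G3

open MeasureTheory Set
open scoped Real
open Pool.Agent.Helper90.G2

theorem main3 : ∃ c : ℝ, 0 < c ∧ ∃ δ₀ : ℝ, 0 < δ₀ ∧ ∀ δ : ℝ, 0 < δ → δ < δ₀ → ∃ C : ℝ,
    ∀ ψ : ℂ → ℂ, DifferentiableOn ℂ ψ {z : ℂ | 1 < ‖z‖} → Set.InjOn ψ {z : ℂ | 1 < ‖z‖} →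
    (∃ b : ℂ, Filter.Tendsto (fun z => ψ z - z) (Bornology.cobounded ℂ) (nhds b)) →
    ∀ R : ℝ, 1 < R →
      (1 / (2 * π)) * ∫ θ in (0:ℝ)..(2 * π),
        ‖deriv ψ ((R : ℂ) * Complex.exp ((θ : ℂ) * Complex.I))‖ ^ (2 - δ) ≤
      C * (R ^ 2 / (R ^ 2 - 1)) ^ (1 - δ + (1 / 4 - c) * δ ^ 2) := by
  obtain ⟨c, hc, hc1, δ₀, hδ₀, hδ₁, h⟩ := heights3
  refine ⟨c, hc, δ₀, hδ₀, ?_⟩
  intro δ hδ hδ'
  have hβ0 : 0 ≤ 1 - δ + (1 / 4 - c) * δ ^ 2 := by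
    have : 0 ≤ (1 / 4 - c) * δ ^ 2 := mul_nonneg (by linarith) (sq_nonneg δ)
    (clear * - hδ₁ hδ hδ' this; linarith)
  exact main_core (by linarith only [hδ₁, hδ']) hβ0 (h δ hδ hδ')

end Pool.Agent.Helper90.G3
end
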